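import Pool.Agent.MP_e23604_nt.R.CDefs
import Pool.Agent.MP_9b2bac_nt.Tw.Ind

set_option autoImplicit false

open NumberField IsDedekindDomain Module Filter Topology
open scoped Classical

namespace Pool.Agent.MP_e23604_nt.R

open B Pool.Agent.MP_f3cd89_nt

/-- induction along subgroups of index two between `N` and `U` -/
theorem ind_ABHN {Γ : Type} [Group Γ] {N U : Subgroup Γ} [N.Normal] [Finite (Γ ⧸ N)]
    (hN : ∀ g : Γ, ∃ k : ℕ, g ^ 2 ^ k ∈ N) (hU : N ≤ U) (P : Subgroup Γ → Prop)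
    (h0 : P N) (hs : ∀ (H H' : Subgroup Γ) (s : Γ), N ≤ H → H' ≤ U → P H → s ∉ H → s * s ∈ H →
      (∀ h ∈ H, s * h * s⁻¹ ∈ H) → (∀ g, g ∈ H' ↔ g ∈ H ∨ g * s⁻¹ ∈ H) → P H') : P U := by
  have hp : IsPGroup 2 (Γ ⧸ N) := fun x => by
    obtain ⟨g, rfl⟩ := QuotientGroup.mk_surjective x
    obtain ⟨k, hk⟩ := hN g
    exact ⟨k, by rw [← QuotientGroup.mk_pow, QuotientGroup.eq_one_iff]; exact hk⟩
  let φ : U →* U.map (QuotientGroup.mk' N) := (QuotientGroup.mk' N).subgroupMap U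
  have hφ : Function.Surjective φ := (QuotientGroup.mk' N).subgroupMap_surjective U
  have hk : ∀ x : U, φ x = 1 ↔ (x : Γ) ∈ N := fun x => by
    rw [← QuotientGroup.eq_one_iff, Subtype.ext_iff]
    rfl
  let pre : Subgroup (U.map (QuotientGroup.mk' N)) → Subgroup Γ :=
    fun K => (K.comap φ).map U.subtype
  have mem : ∀ K (x : U), (x : Γ) ∈ pre K ↔ φ x ∈ K := fun K x =>
    ⟨fun ⟨y, hy, e⟩ => Subtype.ext e ▸ hy, fun h => ⟨x, h, rfl⟩⟩
  have le : ∀ K, pre K ≤ U := fun K _ ⟨y, _, e⟩ => e ▸ y.2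
  have e0 : pre ⊥ = N := by
    ext g
    refine ⟨fun h => ?_, fun h => (mem ⊥ ⟨g, hU h⟩).2 ((hk _).2 h)⟩
    exact (hk ⟨g, le _ h⟩).1 ((mem ⊥ ⟨g, le _ h⟩).1 h)
  have e1 : pre ⊤ = U := le_antisymm (le _) fun g h => (mem ⊤ ⟨g, h⟩).2 trivial
  rw [← e1]
  have h0' : P (pre ⊥) := by rw [e0]; exact h0
  refine Pool.Agent.MP_9b2bac_nt.Tw.ind _ (hp.to_subgroup _) (fun K => P (pre K)) ⊥ h0' ?_
  intro K K' t _ hK h1 h2 h3 h4
  obtain ⟨s, rfl⟩ := hφ t
  refine hs (pre K) (pre K') s (fun g hg => (mem K ⟨g, hU hg⟩).2 ?_) (le _) hK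
    (fun h => h1 ((mem K s).1 h)) ((mem K (s * s)).2 (by rwa [map_mul])) (fun h hh => ?_)
    fun g => ?_
  · rw [(hk ⟨g, hU hg⟩).2 hg]
    exact K.one_mem
  · refine (mem K (s * ⟨h, le _ hh⟩ * s⁻¹)).2 ?_
    rw [map_mul, map_mul, map_inv]
    exact h3 _ ((mem K ⟨h, le _ hh⟩).1 hh)
  · by_cases hg : g ∈ U
    · have a1 := mem K' ⟨g, hg⟩
      have a2 := mem K ⟨g, hg⟩
      have a3 := mem K (⟨g, hg⟩ * s⁻¹)
      rw [map_mul, map_inv] at a3
      exact a1.trans ((h4 _).trans (or_congr a2.symm a3.symm))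
    · refine ⟨fun h => absurd (le _ h) hg, fun h => absurd ?_ hg⟩
      rcases h with h | h
      · exact le _ h
      · simpa using U.mul_mem (le _ h) s.2

/-- the indicator of the complement of `H` -/
noncomputable def chi_ABHN (H : Subgroup GQ) (g : GQ) : ZMod 2 := if g ∈ H then 0 else 1

theorem chi0_ABHN {H : Subgroup GQ} {g : GQ} : chi_ABHN H g = 0 ↔ g ∈ H := by
  unfold chi_ABHN
  split_ifs with h <;> simp [h]

theorem chi1_ABHN {H : Subgroup GQ} {g : GQ} (h : g ∉ H) : chi_ABHN H g = 1 := if_neg h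

theorem adt_ABHN {H H' : Subgroup GQ} {s : GQ} (h2 : s * s ∈ H)
    (h3 : ∀ h ∈ H, s * h * s⁻¹ ∈ H) (h4 : ∀ g, g ∈ H' ↔ g ∈ H ∨ g * s⁻¹ ∈ H) :
    Adt H' (chi_ABHN H) := by
  intro g hg h hh
  by_cases a : g ∈ H <;> by_cases b : h ∈ H
  · rw [chi0_ABHN.2 a, chi0_ABHN.2 b, chi0_ABHN.2 (H.mul_mem a b), add_zero]
  · rw [chi0_ABHN.2 a, chi1_ABHN b, chi1_ABHN (by rwa [H.mul_mem_cancel_left a]), zero_add]
  · rw [chi1_ABHN a, chi0_ABHN.2 b, chi1_ABHN (by rwa [H.mul_mem_cancel_right b]), add_zero]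
  · have e : g * h = g * s⁻¹ * (s * (h * s⁻¹) * s⁻¹) * (s * s) := by group
    rw [chi1_ABHN a, chi1_ABHN b, chi0_ABHN.2]
    · rfl
    · rw [e]
      exact H.mul_mem (H.mul_mem (((h4 g).1 hg).resolve_left a)
        (h3 _ (((h4 h).1 hh).resolve_left b))) h2

/-- a multiplicative positive function of finite level is trivial -/
theorem one_ABHN {N D : Subgroup GQ} (hN : Lev N) {f : GQ → ℝ} (h0 : ∀ g ∈ D, 0 < f g)
    (hc : Cst N D f) (hm : ∀ g ∈ D, ∀ h ∈ D, f g * f h = f (g * h)) : ∀ g ∈ D, f g = 1 := by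
  intro g hg
  have h1 : f 1 = 1 := by
    have := hm 1 D.one_mem 1 D.one_mem
    rw [mul_one] at this
    exact mul_left_cancel₀ (h0 1 D.one_mem).ne' (this.trans (mul_one _).symm)
  have h2 : ∀ n : ℕ, f (g ^ n) = f g ^ n := fun n => by
    induction n with
    | zero => simpa using h1
    | succ n ih => rw [pow_succ, ← hm _ (D.pow_mem hg n) _ hg, ih, pow_succ]
  obtain ⟨k, hk⟩ := hN.2 g
  have h3 := hc 1 D.one_mem _ (D.pow_mem hg (2 ^ k)) (by simpa using hk)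
  rw [h1, h2] at h3
  exact (pow_eq_one_iff_of_nonneg (h0 g hg).le (by positivity)).1 h3.symm

theorem two_ABHN (s : GQ) (y : Qb) : ∏ i ∈ Finset.range 2, (s ^ i) y = y * s y := by
  simp [Finset.prod_range_succ]

theorem ABHN_pf (hCYC : CYC_st) (hNRM : NRM_st) (hHNS : HNS_st) : ABHN_st := by
  intro N U c hN hU hR hc hi hl
  have := hN.1.1
  have := hN.1.finite
  refine ind_ABHN hN.2 hU (fun H => ∃ β, Inf1 N H β ∧ Bd H c β) ?_ ?_
  · have h1 := hi.2.2 1 U.one_mem 1 U.one_mem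
    refine ⟨fun _ => c 1 1, ⟨fun _ _ _ _ _ => rfl, fun _ _ => h1⟩, fun g hg h hh => ?_⟩
    have e1 : c 1 1 = c g 1 := hi.2.1 1 U.one_mem 1 U.one_mem g (hU hg) (by simpa using hg)
    have e2 : c g 1 = c g h := hi.1 g (hU hg) 1 U.one_mem h (hU hh) (by simpa using hh)
    simp only [h1.2 g hg, ← e2, ← e1]
  rintro H H' s hNH hH' ⟨β, hβ, hb⟩ h1 h2 h3 h4
  have hHH : H ≤ H' := fun g hg => (h4 g).2 (Or.inl hg)
  have hs : s ∈ H' := (h4 s).2 (Or.inr (by simp))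
  have hχ := adt_ABHN h2 h3 h4
  have hker : ∀ g, g ∈ H ↔ g ∈ H' ∧ chi_ABHN H g = 0 := fun g =>
    ⟨fun h => ⟨hHH h, chi0_ABHN.2 h⟩, fun h => chi0_ABHN.1 h.2⟩
  obtain ⟨a, β', a0, ha, hβ', hb'⟩ := hCYC 2 N H H' (chi_ABHN H) s c β le_rfl hN.1 hNH hχ hker hs
    (chi1_ABHN h1) (hc.mono hH') (hi.mono le_rfl hH') hβ hb
  obtain ⟨x, hx1, hx2⟩ := hR
  obtain ⟨μ, hμ, hμa⟩ := hHNS N H H' s a hN.1 hNH hHH hs h1 (fun g hg => (h4 g).1 hg)
    ⟨x, fun g hg => hx1 g (hH' hg), hx2⟩ a0 ha (by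
      intro l _ γ t ht htH
      rcases hl l γ with hcob | hun
      · left
        have c1 : Cob (Dec (nv l γ) ⊓ H') fun g h =>
            c g h * a ^ car (chi_ABHN H g) (chi_ABHN H h) :=
          Cob.mono ⟨N, β', hN.1, hβ', hb'⟩ inf_le_right
        have c2 := (c1.mul (hcob.mono (inf_le_inf_left _ hH')).inv).congr
          (c' := fun g h => a ^ car (chi_ABHN H g) (chi_ABHN H h)) fun g hg h hh => by
            have := (hi.2.2 g (hH' hg.2) h (hH' hh.2)).1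
            field_simp
        obtain ⟨y, -, hy1, hy2⟩ := (hNRM 2 (Dec (nv l γ) ⊓ H) (Dec (nv l γ) ⊓ H') (chi_ABHN H) t
          le_rfl (hχ.mono inf_le_right) (fun g => by
            simp only [Subgroup.mem_inf, hker g, and_assoc]) ht (chi1_ABHN htH)).2 a c2
        exact ⟨y, hy1, (two_ABHN t y).symm.trans hy2⟩
      · right
        refine ⟨fun τ h h' => hun.1 τ (hH' h) h', β' t, (hβ'.2 t ht.2).2, ?_⟩
        have key : ∀ g ∈ Dec (nv l γ) ⊓ H', ∀ h ∈ H', nv l γ (β' g) * nv l γ (β' h) =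
            nv l γ a ^ car (chi_ABHN H g) (chi_ABHN H h) * nv l γ (β' (g * h)) := by
          intro g hg h hh
          have := congrArg (nv l γ) (hb' g hg.2 h hh)
          rwa [map_mul, map_mul, map_mul, map_pow, hg.1, hun.2 g (hH' hg.2) h (hH' hh),
            one_mul] at this
        have k1 := one_ABHN (D := Dec (nv l γ) ⊓ H) (f := fun g => nv l γ (β' g)) hN
          (fun g hg => (nv l γ).pos (hβ'.2 g (hHH hg.2)).1)
          (fun g hg h hh e => congrArg (nv l γ) (hβ'.1 g (hHH hg.2) h (hHH hh.2) e))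
          (fun g hg h hh => by
            have := key g ⟨hg.1, hHH hg.2⟩ h (hHH hh.2)
            rwa [chi0_ABHN.2 hg.2, chi0_ABHN.2 hh.2, show car (0 : ZMod 2) 0 = 0 from rfl,
              pow_zero, one_mul] at this)
        have htt : t * t ∈ H := by
          rw [← chi0_ABHN, hχ t ht.2 t ht.2, chi1_ABHN htH]
          rfl
        have k2 := key t ht t ht.2
        have k3 : nv l γ (β' (t * t)) = 1 := k1 _ ⟨(Dec _).mul_mem ht.1 ht.1, htt⟩
        rw [chi1_ABHN htH, show car (1 : ZMod 2) 1 = 1 from rfl, pow_one, k3, mul_one] at k2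
        rw [← k2, sq])
  have μ0 : μ ≠ 0 := by
    rintro rfl
    exact a0 (by rw [← hμa, zero_mul])
  obtain ⟨-, hd, hf⟩ := (hNRM 2 H H' (chi_ABHN H) s le_rfl hχ hker hs (chi1_ABHN h1)).1 μ hμ
  rw [two_ABHN, hμa] at hd
  have d0 : ∀ g, ∏ i ∈ Finset.range (chi_ABHN H g).val, (s ^ i) μ ≠ 0 := fun g =>
    Finset.prod_ne_zero_iff.2 fun i _ => (map_ne_zero _).2 μ0
  refine ⟨fun g => β' g / ∏ i ∈ Finset.range (chi_ABHN H g).val, (s ^ i) μ,
    ⟨fun g hg h hh e => ?_, fun g hg => ⟨div_ne_zero (hβ'.2 g hg).1 (d0 g), fun n hn => ?_⟩⟩,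
    fun g hg h hh => ?_⟩
  · have e1 := hχ g hg (g⁻¹ * h) (hHH (hNH e))
    rw [mul_inv_cancel_left, chi0_ABHN.2 (hNH e), add_zero] at e1
    simp only [hβ'.1 g hg h hh e, e1]
  · rw [map_div₀, (hβ'.2 g hg).2 n hn, hf g n (hNH hn)]
  · have e1 := hb' g hg h hh
    have e2 := hd g hg h hh
    simp only at e1 e2 ⊢
    rw [map_div₀, div_mul_div_comm, e1, e2, mul_assoc, mul_div_assoc,
      mul_div_mul_left _ _ (pow_ne_zero _ a0)]

end Pool.Agent.MP_e23604_nt.R
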