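import Pool.Agent.MP_e23604_nt.R.Brg
import Pool.Agent.MP_f3cd89_nt.Dens
import Pool.Agent.MP_f3cd89_nt.Fb
import Pool.Agent.MP_f3cd89_nt.Ntc

set_option autoImplicit false

open NumberField IsDedekindDomain Module Filter Topology
open scoped Classical

namespace Pool.Agent.MP_e23604_nt.R

open B Pool.Agent.MP_f3cd89_nt

theorem log_CHEB : ¬ (fun s : ℝ => Real.log (s - 1)) =O[𝓝[>] 1] fun _ => (1 : ℝ) := by
  intro h3
  obtain ⟨c, hc⟩ := h3.bound
  have h4 : Tendsto (fun s : ℝ => Real.log (s - 1)) (𝓝[>] 1) atBot := by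
    refine Real.tendsto_log_nhdsGT_zero.comp (tendsto_nhdsWithin_iff.2 ⟨?_, ?_⟩)
    · exact ((continuous_sub_right (1 : ℝ)).tendsto' 1 0 (sub_self _)).mono_left nhdsWithin_le_nhds
    · filter_upwards [self_mem_nhdsWithin] with s hs using sub_pos.2 (Set.mem_Ioi.1 hs)
  obtain ⟨s, a1, a2⟩ := (hc.and (h4.eventually (eventually_lt_atBot (-c)))).exists
  rw [norm_one, mul_one, Real.norm_eq_abs, abs_le] at a1
  linarith [a1.1]

/-- a central element of order at most two is a Frobenius element outside any finite set -/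
theorem fin_CHEB (F L G : Type) [Field F] [NumberField F] [Field L] [NumberField L]
    [Algebra F L] [Group G] [Finite G] [MulSemiringAction G L] [IsGaloisGroup G F L]
    (S : Finset (Pr F)) (φ : Pr F → G) (a : G) (h2 : a * a = 1) (hc : ∀ h, h * a * h⁻¹ = a)
    (hU : Unr L G S) (hφ : IsFrob L S φ) : ∃ v, v ∉ S ∧ φ v = a := by
  by_contra hn
  push Not at hn
  have hb := (dens fb (tow fb) ntc F L G S φ ⊥ inferInstance hU hφ).1
  by_cases h1 : a = 1
  · refine log_CHEB (hb.congr_left fun s => ?_)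
    rw [tsum_congr (g := fun _ => (0 : ℝ)) fun v => if_neg fun h =>
      hn v h.1 ((Subgroup.mem_bot.1 h.2).trans h1.symm), tsum_zero, mul_zero, zero_add]
  have ho : orderOf a = 2 := orderOf_eq_prime (by rw [sq, h2]) h1
  have hm : ∀ x, x ∈ Subgroup.zpowers a → x = 1 ∨ x = a := by
    intro x hx
    rw [mem_zpowers_iff_mem_range_orderOf, ho, Finset.mem_image] at hx
    obtain ⟨i, hi, rfl⟩ := hx
    have := Finset.mem_range.1 hi
    interval_cases i <;> simp
  have hN : (Subgroup.zpowers a).Normal := ⟨fun x hx g => by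
    rcases hm x hx with rfl | rfl
    · simp
    · rw [hc]; exact hx⟩
  have hz := ((dens fb (tow fb) ntc F L G S φ _ hN hU hφ).1).const_mul_left 2
  have e : ∀ v, (v ∉ S ∧ φ v ∈ Subgroup.zpowers a) = (v ∉ S ∧ φ v ∈ (⊥ : Subgroup G)) :=
    fun v => propext (and_congr_right fun hv => ⟨fun h => Subgroup.mem_bot.2
      ((hm _ h).resolve_right (hn v hv)), fun h => by rw [Subgroup.mem_bot.1 h]; exact one_mem _⟩)
  simp only [e] at hz
  have hi : ((⊥ : Subgroup G).index : ℝ) = 2 * (Subgroup.zpowers a).index := by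
    rw [Subgroup.index_bot, ← (Subgroup.zpowers a).card_mul_index, Nat.card_zpowers, ho]
    push_cast
    ring
  exact log_CHEB ((hz.sub hb).congr_left fun s => by rw [hi]; ring)

/-- only finitely many primes ramify -/
theorem unr_CHEB (L : Type) [Field L] [NumberField L] [IsGalois ℚ L] :
    {w : Pr L | w.asIdeal.inertia (L ≃ₐ[ℚ] L) ≠ ⊥}.Finite := by
  have hf := IsGaloisGroup.faithful (G := L ≃ₐ[ℚ] L) (A := ℤ) (B := 𝓞 L)
  refine (Set.finite_iUnion (f := fun g : {g : L ≃ₐ[ℚ] L // g ≠ 1} =>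
    {w : Pr L | g.1 ∈ w.asIdeal.inertia (L ≃ₐ[ℚ] L)}) fun g => ?_).subset fun w hw => ?_
  · obtain ⟨x, hx⟩ : ∃ x : 𝓞 L, g.1 • x - x ≠ 0 := by
      by_contra hn
      push Not at hn
      exact g.2 (eq_of_smul_eq_smul (α := 𝓞 L) fun x => by rw [one_smul, ← sub_eq_zero, hn])
    refine (Ideal.finite_factors (I := Ideal.span {g.1 • x - x}) ?_).subset fun w hw => ?_
    · rwa [Ne, Ideal.zero_eq_bot, Ideal.span_singleton_eq_bot]
    · exact Ideal.dvd_span_singleton.2 (hw x)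
  · obtain ⟨g, hg⟩ := Subgroup.ne_bot_iff_exists_ne_one.1 hw
    exact Set.mem_iUnion.2 ⟨⟨g.1, fun e => hg (Subtype.ext e)⟩, g.2⟩

theorem nrm_CHEB (v : Pr ℚ) : (nrm v).Prime ∧ (nrm v : 𝓞 ℚ) ∈ v.asIdeal := by
  obtain ⟨l, h1, h2, -⟩ := (ntc ℚ).2.2.2.2.2 v
  have h3 : nrm v ∣ l := by
    have := Ideal.absNorm_dvd_absNorm_of_le ((Ideal.span_singleton_le_iff_mem _).2 h2)
    rwa [Ideal.absNorm_span_natCast, RingOfIntegers.rank, Module.finrank_self, pow_one] at this
  have h4 := two_le_nrm v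
  have h5 : nrm v = l := ((Nat.dvd_prime h1).1 h3).resolve_left (by omega)
  rw [h5]
  exact ⟨h1, h2⟩

theorem CHEB_pf : CHEB_st := by
  intro N g B hN h2 hc
  have hn := hN.1
  have hfix := InfiniteGalois.fixingSubgroup_fixedField ⟨N, N.isClosed_of_isOpen hN.2⟩
  set L := IntermediateField.fixedField N with hL
  change L.fixingSubgroup = N at hfix
  obtain ⟨h1, h3⟩ := (InfiniteGalois.isOpen_and_normal_iff_finite_and_isGalois L).mp
    (by rw [hfix]; exact ⟨hN.2, hn⟩)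
  have : FiniteDimensional ℚ L := h1
  have : IsGalois ℚ L := h3
  have : NumberField L := {}
  have hres : ∀ x : GQ, MP_f68ac8_nt.res L x = 1 ↔ x ∈ N := fun x => by
    rw [MP_f68ac8_nt.res_eq_one, ← hfix, IntermediateField.mem_fixingSubgroup_iff]
  have hp : ∀ v : Pr ℚ, Fact (nrm v).Prime := fun v => ⟨(nrm_CHEB v).1⟩
  choose φ hφ using fun v : Pr ℚ =>
    MP_f68ac8_nt.exists_frob (cen (nrm v) 1) (hp v).out (cen_mem (nrm v) 1)
  have hw : ∀ v : Pr ℚ, ∃ w : Pr L, w.asIdeal = (cen (nrm v) 1).under (𝓞 L) ∧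
      w.under (𝓞 ℚ) = v := fun v => by
    have hm : ((nrm v : ℕ) : 𝓞 L) ∈ (cen (nrm v) 1).under (𝓞 L) := by
      rw [Ideal.mem_comap, map_natCast]
      exact cen_mem _ _
    refine ⟨⟨(cen (nrm v) 1).under (𝓞 L), inferInstance, fun e => ?_⟩, rfl,
      HeightOneSpectrum.ext (Ideal.ext fun x => ?_)⟩
    · rw [e, Ideal.mem_bot, Nat.cast_eq_zero] at hm
      exact (hp v).out.ne_zero hm
    · obtain ⟨n, rfl⟩ := Rat.ringOfIntegersEquiv.symm.surjective x
      have := v.isPrime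
      rw [eq_intCast Rat.ringOfIntegersEquiv.symm, BValB_int _ (hp v).out (nrm_CHEB v).2]
      change _ ∈ Ideal.comap _ _ ↔ _
      rw [Ideal.mem_comap, map_intCast]
      exact BValB_int _ (hp v).out hm n
  choose w hw1 hw2 using hw
  have f1 : {v : Pr ℚ | nrm v ≤ B}.Finite :=
    (Ideal.finite_setOfPred_absNorm_le B).preimage HeightOneSpectrum.asIdeal_injective.injOn
  have f2 := f1.union ((unr_CHEB L).image fun w => w.under (𝓞 ℚ))
  have hU : Unr L (L ≃ₐ[ℚ] L) f2.toFinset := fun u hu => by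
    by_contra h
    exact hu (f2.mem_toFinset.2 (Or.inr ⟨u, h, rfl⟩))
  obtain ⟨v, hv, e⟩ := fin_CHEB ℚ L (L ≃ₐ[ℚ] L) f2.toFinset
    (fun v => MP_f68ac8_nt.res L (φ v)) (MP_f68ac8_nt.res L g)
    (by rw [← map_mul, hres]; exact h2)
    (fun h => by
      obtain ⟨h, rfl⟩ := AlgEquiv.restrictNormalHom_surjective Qb h
      rw [← mul_inv_eq_one, ← map_inv, ← map_inv, ← map_mul, ← map_mul, ← map_mul]
      exact (hres _).2 (hc h))
    hU (fun v _ => ⟨w v, hw2 v, FbX.frob_iff.2 fun x => by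
      rw [hw2, hw1, Ideal.mem_comap, map_sub, map_pow, MP_f68ac8_nt.res_smul]
      exact hφ v _⟩)
  refine ⟨nrm v, hp v, φ v, ?_, frob_iff.2 (hφ v), ?_, fun τ hτ => ?_⟩
  · by_contra h
    exact hv (f2.mem_toFinset.2 (Or.inl (not_lt.1 h)))
  · rw [← hres, map_mul, map_inv, e, inv_mul_cancel]
  · have := MP_f68ac8_nt.res_inertia L (ine_iff.1 hτ)
    rw [← hw1, hU (w v) (by rwa [hw2]), Subgroup.mem_bot] at this
    exact (hres τ).1 this

end Pool.Agent.MP_e23604_nt.R
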