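import Pool.Agent.MP_e23604_nt.R.Brg

/-!
A cyclic character of two-power order cut out of the cyclotomic character.
-/

set_option autoImplicit false

open NumberField IsDedekindDomain Module Filter Topology
open scoped Classical

namespace Pool.Agent.MP_e23604_nt.R

open B Pool.Agent.MP_f3cd89_nt

theorem log_CCHI (m : ℕ) : ∃ lg : (ZMod (2 ^ (m + 3)))ˣ →* Multiplicative (ZMod (2 ^ (m + 1))),
    Function.Surjective lg ∧ ∀ u, lg u = 1 → u ^ 2 = 1 ∧
      (u = 1 ∨ (u : ZMod (2 ^ (m + 3))) = ((2 ^ (m + 2) - 1 : ℕ) : ZMod (2 ^ (m + 3)))) := by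
  have e1 : ((2 ^ (m + 2) - 1 : ℕ) : ZMod (2 ^ (m + 3))) = 2 ^ (m + 2) - 1 := by
    rw [Nat.cast_sub Nat.one_le_two_pow]
    push_cast
    rfl
  have e0 : (2 : ZMod (2 ^ (m + 3))) ^ (m + 3) = 0 := by
    have := ZMod.natCast_self (2 ^ (m + 3))
    exact_mod_cast this
  have e2 : ((2 : ZMod (2 ^ (m + 3))) ^ (m + 2) - 1) * (2 ^ (m + 2) - 1) = 1 := by
    linear_combination (2 ^ (m + 1) - 1) * e0
  let t : (ZMod (2 ^ (m + 3)))ˣ := ⟨_, _, e2, e2⟩
  have hd : 4 ∣ 2 ^ (m + 3) := ⟨2 ^ (m + 1), by ring⟩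
  let π : ZMod (2 ^ (m + 3)) →+* ZMod 4 := ZMod.castHom hd (ZMod 4)
  have ht : π t = 3 := by
    change π (2 ^ (m + 2) - 1) = 3
    rw [map_sub, map_pow, map_ofNat, map_one, pow_add, show (2 : ZMod 4) ^ 2 = 0 by decide]
    rw [mul_zero]
    decide
  have ht2 : t ^ 2 = 1 := Units.ext (by rw [pow_two]; exact e2)
  have ht1 : t ≠ 1 := fun h => by
    rw [h, Units.val_one, map_one] at ht
    exact absurd ht (by decide)
  have ho : orderOf t = 2 := orderOf_eq_prime ht2 ht1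
  have hz : ∀ u ∈ Subgroup.zpowers t, u = 1 ∨ u = t := by
    intro u hu
    rw [mem_zpowers_iff_mem_range_orderOf, ho] at hu
    simp only [Finset.mem_image, Finset.mem_range] at hu
    obtain ⟨i, hi, rfl⟩ := hu
    interval_cases i <;> simp
  have hc : Nat.card ((ZMod (2 ^ (m + 3)))ˣ ⧸ Subgroup.zpowers t) = 2 ^ (m + 1) := by
    have h := Subgroup.card_eq_card_quotient_mul_card_subgroup (Subgroup.zpowers t)
    rw [Nat.card_zpowers, ho, Nat.card_eq_fintype_card, ZMod.card_units_eq_totient,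
      Nat.totient_prime_pow Nat.prime_two (by omega)] at h
    have : 2 ^ (m + 3 - 1) * (2 - 1) = 2 ^ (m + 1) * 2 := by
      rw [show m + 3 - 1 = m + 2 by omega]
      ring
    omega
  have h5 : Nat.Coprime 5 (2 ^ (m + 3)) := Nat.Coprime.pow_right _ (by decide)
  let v := ZMod.unitOfCoprime 5 h5
  have hv : (v : ZMod (2 ^ (m + 3))) = 5 := by simp [v]
  have hv5 : orderOf v = 2 ^ (m + 1) := by
    rw [← orderOf_units, hv]
    exact ZMod.orderOf_five (m + 1)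
  have : IsCyclic ((ZMod (2 ^ (m + 3)))ˣ ⧸ Subgroup.zpowers t) := by
    refine isCyclic_of_orderOf_eq_card (QuotientGroup.mk v) ?_
    refine Nat.dvd_antisymm (orderOf_dvd_natCard _) ?_
    rw [hc, ← hv5, orderOf_dvd_iff_pow_eq_one]
    have h := pow_orderOf_eq_one (QuotientGroup.mk v : _ ⧸ Subgroup.zpowers t)
    rw [← QuotientGroup.mk_pow, QuotientGroup.eq_one_iff] at h
    refine (hz _ h).resolve_right fun h' => ?_
    rw [← h', Units.val_pow_eq_pow_val, hv, map_pow, map_ofNat,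
      show (5 : ZMod 4) = 1 by decide, one_pow] at ht
    exact absurd ht (by decide)
  let e : ((ZMod (2 ^ (m + 3)))ˣ ⧸ Subgroup.zpowers t) ≃* Multiplicative (ZMod (2 ^ (m + 1))) :=
    mulEquivOfCyclicCardEq (by rw [hc]; simp)
  refine ⟨e.toMonoidHom.comp (QuotientGroup.mk' _),
    e.surjective.comp (QuotientGroup.mk'_surjective _), fun u hu => ?_⟩
  have h : u ∈ Subgroup.zpowers t := by
    rw [← QuotientGroup.eq_one_iff]
    exact e.map_eq_one_iff.1 hu
  rcases hz u h with rfl | rfl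
  · simp
  · exact ⟨ht2, Or.inr e1.symm⟩

theorem sum_CCHI {n : ℕ} {M : Type} [CommRing M] (F : ZMod n → M)
    (hF : ∀ a b : ℕ, Odd a → Odd b → F (a * b : ℕ) = F a + F b) (T : Finset ℕ)
    (hT : ∀ l ∈ T, l.Prime) (N : ℕ) (hN : Odd N) (h : N.primeFactors ⊆ T) :
    F N = ∑ l ∈ T, (padicValNat l N : M) * F l := by
  induction N using induction_on_primes with
  | zero => simp at hN
  | one =>
    have := hF 1 1 odd_one odd_one
    simp only [mul_one, left_eq_add] at this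
    rw [this]
    simp
  | prime_mul p a hp ih =>
    obtain ⟨h1, h2⟩ := Nat.odd_mul.1 hN
    have ha : a ≠ 0 := h2.pos.ne'
    rw [Nat.primeFactors_mul hp.ne_zero ha, Finset.union_subset_iff, hp.primeFactors,
      Finset.singleton_subset_iff] at h
    rw [hF p a h1 h2, ih h2 h.2]
    have : ∀ l ∈ T, (padicValNat l (p * a) : M) * F l =
        (if l = p then F l else 0) + (padicValNat l a : M) * F l := fun l hl => by
      have := Fact.mk (hT l hl)
      have := Fact.mk hp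
      rw [padicValNat.mul hp.ne_zero ha, Nat.cast_add, add_mul]
      split_ifs with e
      · rw [e, padicValNat_self, Nat.cast_one, one_mul]
      · rw [padicValNat_primes e, Nat.cast_zero, zero_mul]
    rw [Finset.sum_congr rfl this, Finset.sum_add_distrib, Finset.sum_ite_eq', if_pos h.1]

theorem rat_CCHI {M : Type} [CommRing M] (k : ℕ) (F : ZMod (2 ^ (k + 1)) → M)
    (hF : ∀ a b : ℕ, Odd a → Odd b → F (a * b : ℕ) = F a + F b) (a : ℚ) (T : Finset ℕ)
    (ha : 0 < a) (h1 : a - 1 ≠ 0 → ((k + 1 : ℕ) : ℤ) ≤ padicValRat 2 (a - 1))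
    (hT : ∀ l ∈ T, l.Prime ∧ l ≠ 2)
    (h2 : ∀ l : ℕ, l.Prime → l ≠ 2 → padicValRat l a ≠ 0 → l ∈ T) :
    ∑ l ∈ T, (padicValRat l a : M) * F l = 0 := by
  have hn : 0 < a.num := Rat.num_pos.2 ha
  have hd : (2 : ℤ) ^ (k + 1) ∣ a.num - a.den := by
    rcases eq_or_ne (a - 1) 0 with h | h
    · rw [sub_eq_zero.1 h]
      simp
    have e : (a - 1) * (a.den : ℚ) = ((a.num - a.den : ℤ) : ℚ) := by
      push_cast
      rw [sub_mul, Rat.mul_den_eq_num, one_mul]
    have e2 := congrArg (padicValRat 2) e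
    rw [padicValRat.mul h (by exact_mod_cast a.den_nz), padicValRat.of_int, padicValRat.of_nat] at e2
    have := h1 h
    have h3 := (padicValInt_dvd_iff (p := 2) (k + 1) (a.num - a.den)).2 (Or.inr (by omega))
    exact_mod_cast h3
  obtain ⟨N, hN⟩ := Int.eq_ofNat_of_zero_le hn.le
  have hc : N.Coprime a.den := by
    have := a.reduced
    rwa [hN, Int.natAbs_natCast] at this
  have h3 : (2 : ℤ) ∣ N - a.den := by
    rw [← hN]
    exact (dvd_pow_self 2 (by omega)).trans hd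
  have h4 : Odd N ∧ Odd a.den := by
    have : ¬ (2 ∣ N ∧ 2 ∣ a.den) := fun h =>
      absurd (Nat.eq_one_of_dvd_coprimes hc h.1 h.2) (by decide)
    rw [Nat.odd_iff, Nat.odd_iff]
    omega
  have h5 : (N : ZMod (2 ^ (k + 1))) = (a.den : ℕ) := by
    rw [← sub_eq_zero]
    have := (ZMod.intCast_zmod_eq_zero_iff_dvd (a.num - a.den) (2 ^ (k + 1))).2
      (by exact_mod_cast hd)
    rw [hN] at this
    exact_mod_cast this
  have h6 : ∀ l ∈ T ∪ (N.primeFactors ∪ a.den.primeFactors), l.Prime ∧ l ≠ 2 := by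
    intro l hl
    simp only [Finset.mem_union, Nat.mem_primeFactors] at hl
    rcases hl with h | h | h
    · exact hT l h
    · exact ⟨h.1, h4.1.ne_two_of_dvd_nat h.2.1⟩
    · exact ⟨h.1, h4.2.ne_two_of_dvd_nat h.2.1⟩
  rw [Finset.sum_subset (Finset.subset_union_left (s₂ := N.primeFactors ∪ a.den.primeFactors))
    fun l hl hl' => by
      rw [not_not.1 fun h => hl' (h2 l (h6 l hl).1 (h6 l hl).2 h), Int.cast_zero, zero_mul]]
  have h7 := sum_CCHI F hF _ (fun l hl => (h6 l hl).1) N h4.1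
    (Finset.subset_union_left.trans Finset.subset_union_right)
  have h8 := sum_CCHI F hF _ (fun l hl => (h6 l hl).1) a.den h4.2
    (Finset.subset_union_right.trans Finset.subset_union_right)
  rw [h5, h8, ← sub_eq_zero, ← Finset.sum_sub_distrib] at h7
  rw [← neg_eq_zero, ← h7, ← Finset.sum_neg_distrib]
  refine Finset.sum_congr rfl fun l _ => ?_
  rw [padicValRat, padicValInt, hN, Int.natAbs_natCast, Int.cast_sub, Int.cast_natCast,
    Int.cast_natCast]
  ring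

theorem val_CCHI {l i k B : ℕ} (hl : l.Prime) (h2 : l ≠ 2) (hB : l ≤ B)
    (h : 2 ^ (k + 2 * B + 3) ∣ l ^ (i * 2) - 1) : 2 ^ k ∣ i := by
  rcases eq_or_ne i 0 with rfl | hi
  · simp
  have h3 := (hl.odd_of_ne_two h2)
  have h4 := padicValNat.pow_two_sub_pow (x := l) (y := 1) hl.one_lt
    (by rw [Nat.odd_iff] at h3; omega) (by rw [Nat.odd_iff] at h3; omega) (n := i * 2) (by omega)
    ⟨i, by ring⟩
  have h5 : ∀ x, padicValNat 2 x ≤ x := fun x =>
    (padicValNat_le_nat_log x).trans (Nat.log_le_self _ _)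
  have h6 : l ^ (i * 2) - 1 ≠ 0 := Nat.sub_ne_zero_of_lt (Nat.one_lt_pow (by omega) hl.one_lt)
  rw [padicValNat_dvd_iff_le h6] at h
  rw [one_pow, padicValNat.mul hi two_ne_zero, padicValNat_self] at h4
  rw [padicValNat_dvd_iff_le hi]
  have := h5 (l + 1)
  have := h5 (l - 1)
  omega

theorem not_mem_CCHI {l : ℕ} (hl : l.Prime) (h2 : l ≠ 2) {P : Ideal (𝓞 Qb)} [P.IsMaximal]
    (h : (l : 𝓞 Qb) ∈ P) (k : ℕ) : ((2 ^ k : ℕ) : 𝓞 Qb) ∉ P :=
  MP_f68ac8_nt.not_mem_of_coprime h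
    (((Nat.coprime_primes hl Nat.prime_two).2 h2).pow_right k)

theorem surj_CCHI (k : ℕ) (u : (ZMod (2 ^ k))ˣ) :
    ∃ τ ∈ Ine 2 1, MP_f68ac8_nt.cyc (2 ^ k) τ = u := by
  have h1 : (((cen 2 1).inertia GQ).map (MP_f68ac8_nt.cyc (2 ^ k))).comap
      (MP_f68ac8_nt.cyc (Ω := Qb) (2 ^ k)) = ⊤ := by
    refine MP_f68ac8_nt.eq_top_of_open _
      (Filter.mem_of_superset (MP_f68ac8_nt.cyc_nhds (2 ^ k)) fun g hg => ?_) fun P' _ g hg => ?_
    · rw [SetLike.mem_coe, Subgroup.mem_comap, hg]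
      exact one_mem _
    · rw [Subgroup.mem_comap]
      obtain ⟨l, hl, h'⟩ := MP_f68ac8_nt.exists_prime_mem P'
      rcases eq_or_ne l 2 with rfl | h2
      · obtain ⟨a, ha⟩ := MP_f68ac8_nt.exists_conj hl (cen_mem 2 1) h'
        refine ⟨_, ha g hg, ?_⟩
        rw [map_mul, map_mul, map_inv, mul_right_comm, inv_mul_cancel, one_mul]
      · rw [MP_f68ac8_nt.cyc_inertia (not_mem_CCHI hl h2 h' k) hg]
        exact one_mem _
  obtain ⟨g, rfl⟩ := MP_f68ac8_nt.cyc_surj (Ω := Qb) (2 ^ k) u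
  have : g ∈ (((cen 2 1).inertia GQ).map (MP_f68ac8_nt.cyc (2 ^ k))).comap
      (MP_f68ac8_nt.cyc (Ω := Qb) (2 ^ k)) := h1 ▸ Subgroup.mem_top g
  obtain ⟨τ, h2, h3⟩ := this
  exact ⟨τ, ine_iff.2 h2, h3⟩

theorem im_CCHI {n : ℕ} (hn : 2 < n) {ζ : Qb} (h : IsPrimitiveRoot ζ n) (ι : Qb →+* ℂ) :
    (ι (ζ - ζ⁻¹)).im ≠ 0 := by
  have h1 := h.map_of_injective ι.injective
  have h2 : ‖ι ζ‖ = 1 := h1.norm'_eq_one (by omega)
  rw [map_sub, map_inv₀, Complex.inv_eq_conj h2, Complex.sub_im, Complex.conj_im]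
  intro h3
  have h4 : starRingEnd ℂ (ι ζ) = ι ζ := Complex.conj_eq_iff_im.2 (by linarith)
  rw [← Complex.inv_eq_conj h2] at h4
  refine h1.pow_ne_one_of_pos_of_lt two_ne_zero hn ?_
  rw [pow_two]
  nth_rewrite 1 [← h4]
  exact inv_mul_cancel₀ (h1.ne_zero (by omega))

theorem CHI_pf (hDIC : DIC_st) : CHI_st := by
  intro k B
  obtain ⟨m, hm⟩ : ∃ m, m = k + 2 * B := ⟨_, rfl⟩
  obtain ⟨lg, hs, hk⟩ := log_CCHI m
  let X : GQ →* Multiplicative (ZMod (2 ^ (m + 1))) :=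
    lg.comp (MP_f68ac8_nt.cyc (Ω := Qb) (2 ^ (m + 3)))
  let F : ZMod (2 ^ (m + 3)) → ZMod (2 ^ (m + 1)) := fun x =>
    if h : IsUnit x then (lg h.unit).toAdd else 0
  have hF : ∀ u : (ZMod (2 ^ (m + 3)))ˣ, F u = (lg u).toAdd := fun u => by
    simp only [F, dif_pos u.isUnit, IsUnit.unit_of_val_units]
  have hu : ∀ a : ℕ, Odd a → ∃ u : (ZMod (2 ^ (m + 3)))ˣ, (u : ZMod (2 ^ (m + 3))) = a :=
    fun a ha => (ZMod.isUnit_iff_coprime a _).2 (ha.coprime_two_right.pow_right _)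
  have hz := MP_f68ac8_nt.zeta_spec (Ω := Qb) (2 ^ (m + 3))
  set ζ := MP_f68ac8_nt.zeta Qb (2 ^ (m + 3)) with hζ
  have hz0 : ζ ≠ 0 := hz.ne_zero (by positivity)
  have hlt : 2 < 2 ^ (m + 3) := by
    have := Nat.one_le_two_pow (n := m)
    rw [pow_add]
    omega
  have hx : Fix X.ker (ζ - ζ⁻¹) := by
    intro g hg
    have h1 := MP_f68ac8_nt.cyc_spec (2 ^ (m + 3)) g hz.pow_eq_one
    rw [map_sub, map_inv₀, h1]
    rcases (hk _ hg).2 with h | h
    · have : Fact (1 < 2 ^ (m + 3)) := ⟨by omega⟩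
      rw [h, Units.val_one, ZMod.val_one, pow_one]
    · have h2 : ζ ^ 2 ^ (m + 2) = -1 :=
        (hz.pow (by positivity) (b := 2) (a := 2 ^ (m + 2)) (by ring)).eq_neg_one_of_two_right
      have h3 : 2 ^ (m + 2) - 1 < 2 ^ (m + 3) :=
        (Nat.sub_le _ _).trans_lt (Nat.pow_lt_pow_right one_lt_two (by omega))
      rw [h, ZMod.val_cast_of_lt h3, pow_sub₀ _ hz0 Nat.one_le_two_pow, h2]
      field_simp
      ring
  refine ⟨m + 1, X.ker, fun g => (X g).toAdd, fun l => F l, ⟨by omega, ⟨⟨inferInstance, ?_⟩,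
    fun g => ⟨m + 1, ?_⟩⟩, fun g _ h _ => by rw [map_mul, toAdd_mul], fun g => Iff.rfl,
    ⟨_, hx, im_CCHI hlt hz⟩, fun c hc => ?_, ?_, fun l hl γ h2 g hg => ?_,
    fun l hl γ φ h2 h => ?_, fun a T h0 h1 h2 h3 => ?_⟩, fun l hl h2 hB i hi => ?_⟩
  · refine Subgroup.isOpen_of_mem_nhds _ (Filter.mem_of_superset
      (MP_f68ac8_nt.cyc_nhds (2 ^ (m + 3))) fun g hg => ?_)
    change lg _ = 1
    rw [hg, map_one]
  · rw [MonoidHom.mem_ker, map_pow]
    apply Multiplicative.toAdd.injective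
    rw [toAdd_pow, nsmul_eq_mul, ZMod.natCast_self, zero_mul, toAdd_one]
  · have h1 : (X c).toAdd ≠ 0 := fun h => by
      obtain ⟨ι, hι⟩ := hc
      have := hι (ζ - ζ⁻¹)
      rw [hx c h] at this
      exact im_CCHI hlt hz ι (Complex.conj_eq_iff_im.1 this.symm)
    have h2 : -(X c).toAdd = (X c).toAdd := by
      rw [neg_eq_iff_add_eq_zero, ← toAdd_mul, ← map_mul, (hDIC.2.2.2.2 c hc).1, map_one, toAdd_one]
    have : NeZero (X c).toAdd := ⟨h1⟩
    have h3 := ZMod.val_neg_of_ne_zero (X c).toAdd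
    have h4 := ZMod.val_lt (X c).toAdd
    rw [h2] at h3
    omega
  · obtain ⟨u, h1⟩ := hs (Multiplicative.ofAdd 1)
    obtain ⟨τ, h2, rfl⟩ := surj_CCHI (m + 3) u
    exact ⟨τ, Ine_le 2 1 h2, congrArg Multiplicative.toAdd h1⟩
  · change lg _ = 1
    rw [MP_f68ac8_nt.cyc_inertia (not_mem_CCHI hl.out h2 (cen_mem l γ) _) (ine_iff.1 hg), map_one]
  · rw [← MP_f68ac8_nt.cyc_frob (not_mem_CCHI hl.out h2 (cen_mem l γ) (m + 3)) (frob_iff.1 h), hF]
    rfl
  · refine rat_CCHI (m + 2) F (fun a b ha hb => ?_) a T h0 (fun h => ?_) h2 h3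
    · obtain ⟨u, e1⟩ := hu a ha
      obtain ⟨v, e2⟩ := hu b hb
      rw [Nat.cast_mul, ← e1, ← e2, ← Units.val_mul, hF, hF, hF, map_mul, toAdd_mul]
    · have e1 := hDIC.2.2.1 2 1 (a - 1) h
      have e2 := hDIC.2.2.1 2 1 2 two_ne_zero
      have e3 : padicValRat 2 2 = 1 := padicValRat.self (p := 2) one_lt_two
      rw [e3] at e2
      push_cast at e1 e2
      rw [e1, e2, ← zpow_natCast, ← zpow_mul, zpow_le_zpow_iff_right₀ one_lt_two] at h1
      omega
  · obtain ⟨u, e1⟩ := hu l (hl.odd_of_ne_two h2)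
    have h3 : lg (u ^ i) = 1 := by
      apply Multiplicative.toAdd.injective
      rw [map_pow, toAdd_pow, nsmul_eq_mul, ← hF, e1]
      exact hi
    have h4 := congrArg Units.val (hk _ h3).1
    rw [← pow_mul, Units.val_pow_eq_pow_val, e1, Units.val_one] at h4
    refine val_CCHI hl h2 hB ?_
    rw [← hm, ← ZMod.natCast_eq_zero_iff, Nat.cast_sub (Nat.one_le_pow _ _ hl.pos), Nat.cast_pow,
      h4, Nat.cast_one, sub_self]

end Pool.Agent.MP_e23604_nt.R
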