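import Pool.Agent.MP_e23604_nt.R.CDefs

set_option autoImplicit false

open NumberField IsDedekindDomain Module Filter Topology
open scoped Classical

namespace Pool.Agent.MP_e23604_nt.R

open B Pool.Agent.MP_f3cd89_nt

theorem lc_CONJ {α : Type} {H H' : Subgroup GQ} {g : GQ} {f : GQ → α} (hf : Lc H f)
    (h : ∀ x ∈ H', g * x * g⁻¹ ∈ H) : Lc H' fun x => f (g * x * g⁻¹) := by
  obtain ⟨N, h1, h2⟩ := hf
  refine ⟨N, h1, fun x hx y hy e => h2 _ (h x hx) _ (h y hy) ?_⟩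
  rw [show (g * x * g⁻¹)⁻¹ * (g * y * g⁻¹) = g * (x⁻¹ * y) * g⁻¹ by group]
  exact h1.1.conj_mem _ e g

theorem one_CONJ (N H H' : Subgroup GQ) (g : GQ) (c : GQ → GQ → Qb) (hN : ON N) (hc : Coc ⊤ c)
    (hi : Inf2 N ⊤ c) (h : ∀ x ∈ H', g * x * g⁻¹ ∈ H) (hb : Cob H c) : Cob H' c := by
  obtain ⟨M, β, h1, h2, h3⟩ := hb
  have c0 : ∀ x y, c x y ≠ 0 := fun x y => (hi.2.2 x trivial y trivial).1
  refine cob_of_lc (β := fun x => g⁻¹ (β (g * x * g⁻¹) * c g x / c (g * x * g⁻¹) g))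
    ((((lc_CONJ ⟨M, h1, h2.1⟩ h).map₂ (Lc.mono ⟨N, hN, hi.1 g trivial⟩ le_top) (· * ·)).map₂
      (lc_CONJ (H := ⊤) (g := g) ⟨N, hN, hi.2.1 g trivial⟩ fun _ _ => trivial) (· / ·)).map
        fun z => g⁻¹ z)
    (fun x hx => (map_ne_zero _).2 (div_ne_zero (mul_ne_zero (h2.2 _ (h x hx)).1 (c0 _ _))
      (c0 _ _))) fun x hx y hy => g.injective ?_
  have e : ∀ z, g (g⁻¹ z) = z := fun z => by
    rw [← AlgEquiv.mul_apply, mul_inv_cancel, AlgEquiv.one_apply]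
  have k0 := h3 _ (h x hx) _ (h y hy)
  have k1 := hc g trivial x trivial y trivial
  have k2 := hc (g * x * g⁻¹) trivial g trivial y trivial
  have k3 := hc (g * x * g⁻¹) trivial (g * y * g⁻¹) trivial g trivial
  rw [inv_mul_cancel_right] at k2 k3
  rw [show g * x * g⁻¹ * (g * y * g⁻¹) = g * (x * y) * g⁻¹ by group] at k0 k3
  simp only [map_mul, e]
  rw [← AlgEquiv.mul_apply, ← AlgEquiv.mul_apply (g * x), map_div₀, map_mul]
  have n1 := c0 (g * x * g⁻¹) g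
  have n2 := c0 (g * (x * y) * g⁻¹) g
  have n3 := (map_ne_zero (g * x * g⁻¹)).2 (c0 (g * y * g⁻¹) g)
  have n4 := c0 (g * x) y
  have n5 := c0 (g * x * g⁻¹) (g * y)
  generalize g * x * g⁻¹ = x' at *
  field_simp
  apply mul_left_cancel₀ (mul_ne_zero n4 n5)
  linear_combination
    (c g x * x' (c g y) * c (g * (x * y) * g⁻¹) g * c (g * x) y * c x' (g * y)) * k0 +
    (β (g * (x * y) * g⁻¹) * c g x * x' (c g y) * c (g * x) y * c x' (g * y)) * k3 -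
    (β (g * (x * y) * g⁻¹) * c g x * x' (c (g * y * g⁻¹) g) * c (g * x) y * c x' (g * y)) * k2 +
    (β (g * (x * y) * g⁻¹) * c x' g * x' (c (g * y * g⁻¹) g) * c (g * x) y * c x' (g * y)) * k1

theorem CONJ_pf : CONJ_st := by
  refine ⟨fun N H H' g c hN hc hi h => one_CONJ N H H' g c hN hc hi fun x => (h x).1,
    fun N U c l _ γ γ' hN hU hc hi => one_CONJ N _ _ (γ⁻¹ * γ') c hN hc hi fun x hx => ?_⟩
  exact ⟨(mem_Dec_conj l γ _ x).1 (by rw [mul_inv_cancel_left]; exact hx.1), hU.conj_mem _ hx.2 _⟩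

end Pool.Agent.MP_e23604_nt.R
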