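import Pool.Agent.MP_e23604_nt.R.CDefs

set_option autoImplicit false

open NumberField IsDedekindDomain Module Filter Topology
open scoped Classical

namespace Pool.Agent.MP_e23604_nt.R

open B Pool.Agent.MP_f3cd89_nt

/-- a cocycle with nonzero values on a subgroup -/
structure DtCYC where
  H : Subgroup GQ
  c : GQ → GQ → Qb
  coc : Coc H c
  ne : ∀ g ∈ H, ∀ h ∈ H, c g h ≠ 0

/-- the extension defined by the cocycle -/
@[ext] structure ExCYC (D : DtCYC) where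
  x : Qb
  g : D.H

namespace ExCYC
variable {D : DtCYC}

noncomputable instance : Mul (ExCYC D) :=
  ⟨fun p q => ⟨p.x * (p.g : GQ) q.x / D.c p.g q.g, p.g * q.g⟩⟩

noncomputable instance : One (ExCYC D) := ⟨⟨D.c 1 1, 1⟩⟩

theorem mul_x (p q : ExCYC D) : (p * q).x = p.x * (p.g : GQ) q.x / D.c p.g q.g := rfl
theorem mul_g (p q : ExCYC D) : (p * q).g = p.g * q.g := rfl
theorem one_x : (1 : ExCYC D).x = D.c 1 1 := rfl
theorem one_g : (1 : ExCYC D).g = 1 := rfl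

noncomputable instance : Monoid (ExCYC D) where
  mul_assoc p q r := by
    refine ExCYC.ext ?_ (mul_assoc _ _ _)
    have h := D.coc p.g p.g.2 q.g q.g.2 r.g r.g.2
    simp only [mul_x, mul_g, Subgroup.coe_mul, map_div₀, map_mul, AlgEquiv.mul_apply]
    rw [div_mul_eq_mul_div, div_div, h, ← mul_div_assoc, div_div, mul_assoc]
  one_mul p := by
    refine ExCYC.ext ?_ (one_mul _)
    have h := D.coc 1 (one_mem _) 1 (one_mem _) p.g p.g.2
    have h0 := D.ne 1 (one_mem _) p.g p.g.2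
    simp only [mul_one, one_mul, AlgEquiv.one_apply] at h
    simp only [mul_x, one_x, one_g, OneMemClass.coe_one, AlgEquiv.one_apply]
    rw [mul_right_cancel₀ h0 h, mul_div_cancel_left₀ _ h0]
  mul_one p := by
    refine ExCYC.ext ?_ (mul_one _)
    have h := D.coc p.g p.g.2 1 (one_mem _) 1 (one_mem _)
    have h0 := D.ne p.g p.g.2 1 (one_mem _)
    simp only [mul_one] at h
    simp only [mul_x, one_x, one_g, OneMemClass.coe_one]
    rw [← mul_right_cancel₀ h0 h, mul_div_cancel_right₀ _ h0]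

/-- scalar multiples -/
noncomputable def sm (a : Qb) (p : ExCYC D) : ExCYC D := ⟨a * p.x, p.g⟩

theorem sm_mul (a : Qb) (p q : ExCYC D) : sm a p * q = sm a (p * q) :=
  ExCYC.ext (by simp only [mul_x, sm]; ring) rfl

theorem mul_sm (a : Qb) (p q : ExCYC D) : p * sm a q = sm ((p.g : GQ) a) (p * q) :=
  ExCYC.ext (by simp only [mul_x, sm, map_mul]; ring) rfl

theorem sm_sm (a b : Qb) (p : ExCYC D) : sm a (sm b p) = sm (a * b) p :=
  ExCYC.ext (mul_assoc _ _ _).symm rfl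

theorem one_sm (p : ExCYC D) : sm 1 p = p := ExCYC.ext (one_mul _) rfl

theorem sm_cancel {a b : Qb} {p : ExCYC D} (hp : p.x ≠ 0) (h : sm a p = sm b p) : a = b :=
  mul_right_cancel₀ hp (congrArg ExCYC.x h)

theorem eq_sm {p q : ExCYC D} (hq : q.x ≠ 0) (h : p.g = q.g) : p = sm (p.x / q.x) q :=
  ExCYC.ext (div_mul_cancel₀ _ hq).symm h

theorem pow_g (p : ExCYC D) (i : ℕ) : (p ^ i).g = p.g ^ i := by
  induction i with
  | zero => rw [pow_zero, pow_zero, one_g]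
  | succ i ih => rw [pow_succ, pow_succ, mul_g, ih]

theorem mul_ne {p q : ExCYC D} (hp : p.x ≠ 0) (hq : q.x ≠ 0) : (p * q).x ≠ 0 :=
  div_ne_zero (mul_ne_zero hp ((map_ne_zero _).2 hq)) (D.ne _ p.g.2 _ q.g.2)

end ExCYC

theorem Fix.apply_CYC {N : Subgroup GQ} (hN : ON N) {x : Qb} (hx : Fix N x) (g : GQ) :
    Fix N (g x) := fun ν hν => by
  have := hx _ (hN.1.conj_mem' ν hν g)
  rw [AlgEquiv.mul_apply, AlgEquiv.mul_apply] at this
  have h2 := congrArg g this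
  rwa [← AlgEquiv.mul_apply g g⁻¹, mul_inv_cancel, AlgEquiv.one_apply] at h2

theorem Fix.mul_CYC {N : Subgroup GQ} {x y : Qb} (hx : Fix N x) (hy : Fix N y) : Fix N (x * y) :=
  fun ν hν => by rw [map_mul, hx ν hν, hy ν hν]

theorem Fix.div_CYC {N : Subgroup GQ} {x y : Qb} (hx : Fix N x) (hy : Fix N y) : Fix N (x / y) :=
  fun ν hν => by rw [map_div₀, hx ν hν, hy ν hν]

theorem Fix.eq_CYC {N : Subgroup GQ} {x : Qb} (hx : Fix N x) {g h : GQ} (e : g⁻¹ * h ∈ N) :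
    g x = h x := by
  have := congrArg g (hx _ e)
  rw [← AlgEquiv.mul_apply, mul_inv_cancel_left] at this
  exact this.symm

theorem CYC_pf (hH90 : H90_st) : CYC_st := by
  intro n N H H' χ s c β hn hN hNH hχ hH hs hs1 hc hI hβ hB
  have : NeZero n := ⟨by omega⟩
  let D : DtCYC := ⟨H', c, hc, fun g hg h hh => (hI.2.2 g hg h hh).1⟩
  have hle : ∀ {g}, g ∈ H → g ∈ H' := fun hg => ((hH _).1 hg).1
  have χ1 : χ 1 = 0 := ((hH 1).1 (one_mem _)).2
  have χinv : ∀ g ∈ H', χ g⁻¹ = -χ g := fun g hg => by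
    have := hχ g hg g⁻¹ (inv_mem hg)
    rw [mul_inv_cancel, χ1] at this
    linear_combination -this
  have χpow : ∀ i : ℕ, χ (s ^ i) = i := fun i => by
    induction i with
    | zero => rw [pow_zero, χ1, Nat.cast_zero]
    | succ i ih => rw [pow_succ, hχ _ (pow_mem hs i) s hs, ih, hs1, Nat.cast_succ]
  have hcj : ∀ t ∈ H', ∀ h ∈ H, t⁻¹ * h * t ∈ H := fun t ht h hh => by
    refine (hH _).2 ⟨mul_mem (mul_mem (inv_mem ht) (hle hh)) ht, ?_⟩
    rw [hχ _ (mul_mem (inv_mem ht) (hle hh)) t ht, hχ _ (inv_mem ht) h (hle hh), χinv t ht,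
      ((hH h).1 hh).2]
    ring
  -- the section on `H`
  let σ : H → ExCYC D := fun h => ⟨β h, ⟨h, hle h.2⟩⟩
  have σ0 : ∀ h, (σ h).x ≠ 0 := fun h => (hβ.2 h h.2).1
  have σmul : ∀ h k, σ h * σ k = σ (h * k) := fun h k => by
    refine ExCYC.ext ?_ rfl
    show β h * (h : GQ) (β k) / c h k = β (h * k)
    rw [hB h h.2 k k.2, mul_div_cancel_left₀ _ (hI.2.2 _ (hle h.2) _ (hle k.2)).1]
  have good : ∀ p q : ExCYC D, Fix N p.x → Fix N q.x → Fix N (p * q).x := fun p q hp hq =>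
    (hp.mul_CYC (hq.apply_CYC hN _)).div_CYC (hI.2.2 _ p.g.2 _ q.g.2).2
  let cj : H → H := fun h => ⟨s⁻¹ * h * s, hcj s hs h h.2⟩
  have cjmul : ∀ h k, cj (h * k) = cj h * cj k := fun h k => Subtype.ext (by
    simp only [cj, Subgroup.coe_mul]; group)
  let S : ExCYC D := ⟨1, ⟨s, hs⟩⟩
  have S0 : S.x ≠ 0 := one_ne_zero
  have hg : ∀ h, (S * σ (cj h)).g = (σ h * S).g := fun h => Subtype.ext (by
    show s * (s⁻¹ * h * s) = h * s
    group)
  obtain ⟨φ, φd⟩ : ∃ φ : GQ → Qb,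
      ∀ h, φ h = s (β (s⁻¹ * h * s)) / c s (s⁻¹ * h * s) / (β h / c h s) := ⟨_, fun _ => rfl⟩
  have hφ : ∀ h : H, S * σ (cj h) = ExCYC.sm (φ h) (σ h * S) := fun h => by
    refine (ExCYC.eq_sm (ExCYC.mul_ne (σ0 h) S0) (hg h)).trans ?_
    congr 1
    simp only [ExCYC.mul_x, S, σ, cj, φd, D, one_mul, map_one, mul_one]
  have hco : ∀ g h : H, φ (g * h : H) = φ g * (g : GQ) (φ h) := fun g h => by
    refine ExCYC.sm_cancel (ExCYC.mul_ne (σ0 (g * h)) S0) ?_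
    rw [← hφ, cjmul, ← σmul, ← mul_assoc, hφ, ExCYC.sm_mul, mul_assoc, hφ, ExCYC.mul_sm,
      ExCYC.sm_sm, ← mul_assoc, σmul]
  obtain ⟨y, y0, yN, hy⟩ := hH90.1 N H φ hN ⟨fun g hg h hh e => by
      have e' : (s⁻¹ * g * s)⁻¹ * (s⁻¹ * h * s) ∈ N := by
        have := hN.1.conj_mem' _ e s
        convert this using 1
        group
      rw [φd, φd, hβ.1 g hg h hh e, hβ.1 _ (hcj s hs g hg) _ (hcj s hs h hh) e',
        hI.1 s hs _ (hle (hcj s hs g hg)) _ (hle (hcj s hs h hh)) e']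
      exact congrArg (fun t => _ / (β h / t)) (hI.2.1 s hs g (hle hg) h (hle hh) e),
    fun g hg => by
      have h1 := hβ.2 _ (hcj s hs g hg)
      have h2 := hI.2.2 s hs _ (hle (hcj s hs g hg))
      have h3 := hβ.2 g hg
      have h4 := hI.2.2 g (hle hg) s hs
      rw [φd]
      exact ⟨div_ne_zero (div_ne_zero ((map_ne_zero _).2 h1.1) h2.1) (div_ne_zero h3.1 h4.1),
        ((h1.2.apply_CYC hN s).div_CYC h2.2).div_CYC (h3.2.div_CYC h4.2)⟩⟩
    (fun g hg h hh => hco ⟨g, hg⟩ ⟨h, hh⟩)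
  -- the corrected lift normalises the section
  obtain ⟨T, T0, TN, Tg, hT⟩ : ∃ T : ExCYC D, T.x ≠ 0 ∧ Fix N T.x ∧ (T.g : GQ) = s ∧
      ∀ h, T * σ (cj h) = σ h * T := by
    refine ⟨ExCYC.sm y S, mul_ne_zero y0 S0, yN.mul_CYC fun ν _ => map_one ν, rfl, fun h => ?_⟩
    rw [ExCYC.sm_mul, hφ, ExCYC.sm_sm, ExCYC.mul_sm, mul_comm y, ← hy h h.2]
  have Tp : ∀ i : ℕ, (T ^ i).x ≠ 0 ∧ Fix N (T ^ i).x := fun i => by
    induction i with
    | zero => rw [pow_zero]; exact hI.2.2 1 (one_mem _) 1 (one_mem _)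
    | succ i ih => rw [pow_succ]; exact ⟨ExCYC.mul_ne ih.1 T0, good _ _ ih.2 TN⟩
  have Tpg : ∀ i : ℕ, ((T ^ i).g : GQ) = s ^ i := fun i => by
    rw [ExCYC.pow_g, SubgroupClass.coe_pow, Tg]
  have hTp : ∀ (i : ℕ) (h k : H), (h : GQ) * s ^ i = s ^ i * k → T ^ i * σ k = σ h * T ^ i := by
    intro i
    induction i with
    | zero =>
      intro h k e
      rw [pow_zero, mul_one, one_mul] at e
      rw [pow_zero, mul_one, one_mul, Subtype.ext e]
    | succ i ih =>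
      intro h k e
      rw [pow_succ', mul_assoc, ih (cj h) k (by
        show s⁻¹ * h * s * s ^ i = s ^ i * k
        rw [mul_assoc, mul_assoc, ← pow_succ', e, pow_succ', mul_assoc, inv_mul_cancel_left]),
        ← mul_assoc, hT, mul_assoc]
  have hsn : ∀ r : ℕ, s ^ (n * r) ∈ H := fun r =>
    (hH _).2 ⟨pow_mem hs _, by rw [χpow, Nat.cast_mul, ZMod.natCast_self, zero_mul]⟩
  obtain ⟨u, hu⟩ : ∃ u : H, (u : GQ) = s ^ n := ⟨⟨s ^ n, by simpa using hsn 1⟩, rfl⟩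
  obtain ⟨a, a0, ha⟩ : ∃ a : Qb, a ≠ 0 ∧ T ^ n = ExCYC.sm a (σ u) :=
    ⟨_, div_ne_zero (Tp n).1 (σ0 u), ExCYC.eq_sm (σ0 u) (Subtype.ext ((Tpg n).trans hu.symm))⟩
  have aH : ∀ h : H, (h : GQ) a = a := fun h => by
    have e := hTp n h (u⁻¹ * h * u) (by
      rw [← hu, Subgroup.coe_mul, Subgroup.coe_mul, Subgroup.coe_inv]; group)
    rw [ha, ExCYC.sm_mul, ExCYC.mul_sm, σmul, σmul, ← mul_assoc, mul_inv_cancel_left] at e
    exact (ExCYC.sm_cancel (σ0 _) e).symm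
  have aσ : ∀ h : H, ((σ h).g : GQ) a = a := aH
  have as : s a = a := by
    have e : T * T ^ n = T ^ n * T := by rw [← pow_succ, ← pow_succ']
    have e2 := hTp 1 u u (by rw [hu, pow_one, ← pow_succ, ← pow_succ'])
    rw [pow_one] at e2
    rw [ha, ExCYC.sm_mul, ExCYC.mul_sm, e2, Tg] at e
    exact ExCYC.sm_cancel (ExCYC.mul_ne (σ0 u) T0) e
  have asp : ∀ i : ℕ, (s ^ i) a = a := fun i => by
    induction i with
    | zero => rfl
    | succ i ih => rw [pow_succ, AlgEquiv.mul_apply, as, ih]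
  have hTn : ∀ r : ℕ, T ^ (n * r) = ExCYC.sm (a ^ r) (σ (u ^ r)) := fun r => by
    induction r with
    | zero =>
      rw [mul_zero, pow_zero, pow_zero, pow_zero, ExCYC.one_sm]
      refine ExCYC.ext ?_ rfl
      have := hB 1 (one_mem _) 1 (one_mem _)
      rw [mul_one, AlgEquiv.one_apply] at this
      exact (mul_right_cancel₀ (hβ.2 1 (one_mem _)).1 this).symm
    | succ r ih =>
      rw [Nat.mul_succ, pow_add, ih, ha, ExCYC.sm_mul, ExCYC.mul_sm, ExCYC.sm_sm, σmul, pow_succ,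
        pow_succ]
      exact congrArg (fun t => ExCYC.sm (a ^ r * t) _) (aH (u ^ r))
  have hdec : ∀ g ∈ H', g * (s ^ (χ g).val)⁻¹ ∈ H := fun g hg =>
    (hH _).2 ⟨mul_mem hg (inv_mem (pow_mem hs _)), by
      rw [hχ g hg _ (inv_mem (pow_mem hs _)), χinv _ (pow_mem hs _), χpow, ZMod.natCast_zmod_val,
        add_neg_cancel]⟩
  let V : H' → ExCYC D := fun g => σ ⟨_, hdec g g.2⟩ * T ^ (χ g).val
  have Vg : ∀ g, (V g).g = g := fun g => Subtype.ext (by
    show (g : GQ) * (s ^ (χ g).val)⁻¹ * ((T ^ (χ g).val).g : GQ) = g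
    rw [Tpg, inv_mul_cancel_right])
  have Vmul : ∀ g k : H', V g * V k = ExCYC.sm (a ^ car (χ g) (χ k)) (V (g * k)) := fun g k => by
    have e : (χ g).val + (χ k).val = n * car (χ g) (χ k) + (χ (g * k : H')).val := by
      rw [Subgroup.coe_mul, hχ g g.2 k k.2, ZMod.val_add, car, Nat.div_add_mod]
    have m1 : s ^ (χ g).val * (k * (s ^ (χ k).val)⁻¹) * (s ^ (χ g).val)⁻¹ ∈ H := by
      simpa only [inv_inv] using hcj _ (inv_mem (pow_mem hs (χ g).val)) _ (hdec k k.2)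
    simp only [V]
    rw [mul_assoc, ← mul_assoc (T ^ _), hTp _ ⟨_, m1⟩ ⟨_, hdec k k.2⟩ (inv_mul_cancel_right _ _),
      mul_assoc, ← pow_add, e, pow_add, hTn, ← mul_assoc, σmul, ← mul_assoc, ExCYC.mul_sm, σmul,
      ExCYC.sm_mul, map_pow]
    congr 2
    · exact aσ _
    · congr 1
      refine Subtype.ext ?_
      simp only [Subgroup.coe_mul, SubgroupClass.coe_pow, hu]
      rw [Subgroup.coe_mul] at e
      rw [← pow_mul, eq_mul_inv_iff_mul_eq, mul_assoc, ← pow_add, ← e, add_comm, pow_add]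
      group
  refine ⟨a, fun g => if hg : g ∈ H' then (V ⟨g, hg⟩).x else 1, a0, fun g hg => ?_,
    ⟨fun g hg h hh e => ?_, fun g hg => ?_⟩, fun g hg h hh => ?_⟩
  · have := aH ⟨_, hdec g hg⟩
    rw [← asp (χ g).val, ← AlgEquiv.mul_apply, inv_mul_cancel_right, asp] at this
    exact this
  · have e1 : χ g = χ h := by
      have := hχ g hg _ (hle (hNH e))
      rw [mul_inv_cancel_left, ((hH _).1 (hNH e)).2, add_zero] at this
      exact this.symm
    have e2 : (g * (s ^ (χ g).val)⁻¹)⁻¹ * (h * (s ^ (χ h).val)⁻¹) ∈ N := by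
      have := hN.1.conj_mem _ e (s ^ (χ g).val)
      rw [← e1]
      convert this using 1
      group
    simp only [dif_pos hg, dif_pos hh, V, ExCYC.mul_x, σ, D]
    rw [hβ.1 _ (hdec g hg) _ (hdec h hh) e2, (Tp _).2.eq_CYC e2,
      show c (g * (s ^ (χ g).val)⁻¹) (T ^ (χ g).val).g = c (h * (s ^ (χ h).val)⁻¹) (T ^ (χ g).val).g
        from hI.2.1 _ (T ^ (χ g).val).g.2 _ (hle (hdec g hg)) _ (hle (hdec h hh)) e2, e1]
  · simp only [dif_pos hg]
    exact ⟨ExCYC.mul_ne (σ0 _) (Tp _).1, good _ _ (hβ.2 _ (hdec g hg)).2 (Tp _).2⟩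
  · simp only [dif_pos hg, dif_pos hh, dif_pos (mul_mem hg hh)]
    have := congrArg ExCYC.x (Vmul ⟨g, hg⟩ ⟨h, hh⟩)
    rw [ExCYC.mul_x, Vg, Vg, div_eq_iff (hI.2.2 g hg h hh).1] at this
    rw [this, mul_assoc, mul_comm (c g h)]
    rfl

end Pool.Agent.MP_e23604_nt.R
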