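import Pool.Agent.MP_e23604_nt.R.Brg

set_option autoImplicit false

open NumberField IsDedekindDomain Module Filter Topology
open scoped Classical

namespace Pool.Agent.MP_e23604_nt.R

open B Pool.Agent.MP_f3cd89_nt

theorem sep_DEN {M ι : Type} [Field M] [Finite ι] (w : ι → AbsoluteValue M ℝ) (p : M) (t : ℝ)
    (h0 : 0 < t) (h1 : t < 1) (hw : ∀ i, w i p = t) (i0 : ι) :
    ∃ a, 1 < w i0 a ∧ ∀ j, w j ≠ w i0 → w j a < 1 := by
  have : Finite (Set.range w) := (Set.finite_range w).to_subtype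
  have hv : ∀ s : Set.range w, s.1 p = t := by
    rintro ⟨_, i, rfl⟩
    exact hw i
  obtain ⟨a, h2, h3⟩ := AbsoluteValue.exists_one_lt_lt_one_pi_of_not_isEquiv
    (v := fun s : Set.range w => s.1)
    (fun s => ⟨p, fun e => by have := hv s; rw [e, map_zero] at this; exact h0.ne this,
      by rw [hv s]; exact h1.ne⟩)
    (fun s s' hne he => hne (by
      obtain ⟨c, -, e⟩ := AbsoluteValue.isEquiv_iff_exists_rpow_eq.1 he
      have h4 := congrFun e p
      simp only [hv] at h4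
      have h5 : c = 1 := by rw [← Real.rpow_right_inj h0 h1.ne, h4, Real.rpow_one]
      refine Subtype.ext (AbsoluteValue.ext fun x => ?_)
      simpa only [h5, Real.rpow_one] using congrFun e x)) ⟨w i0, i0, rfl⟩
  exact ⟨a, h2, fun j hj => h3 ⟨w j, j, rfl⟩ fun e => hj (congrArg Subtype.val e)⟩

theorem app_DEN {M ι : Type} [Field M] (w : ι → AbsoluteValue M ℝ) (i0 : ι) (a : M)
    (h1 : 1 < w i0 a) (h2 : ∀ j, j ≠ i0 → w j a < 1) :
    ∃ e : ℕ → M, Tendsto (fun n => w i0 (1 - e n)) atTop (𝓝 0) ∧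
      ∀ j, j ≠ i0 → Tendsto (fun n => w j (e n)) atTop (𝓝 0) := by
  have a0 : a ≠ 0 := fun e => by
    rw [e, map_zero] at h1
    linarith
  refine ⟨fun n => 1 / (1 + a⁻¹ ^ n), ?_, fun j hj => ?_⟩
  · refine ((w i0).tendsto_div_one_add_pow_nhds_zero h1).congr' ?_
    filter_upwards [eventually_ge_atTop 1] with n hn
    have h3 : 1 + a ^ n ≠ 0 := fun e => by
      have h4 := congrArg (w i0) (eq_neg_of_add_eq_zero_right e)
      rw [map_pow, AbsoluteValue.map_neg, map_one] at h4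
      exact (one_lt_pow₀ h1 (by omega)).ne' h4
    have h5 : a ^ n + 1 ≠ 0 := by rwa [add_comm]
    congr 1
    rw [inv_pow]
    field_simp
    ring
  · refine (w j).tendsto_div_one_add_pow_nhds_zero ?_
    rw [map_inv₀]
    exact (one_lt_inv₀ ((w j).pos a0)).2 (h2 j hj)

theorem DEN_pf (hDIC : DIC_st) : DEN_st := by
  intro l hl γ U x ε hU hx hε
  set K : Subgroup GQ := U ⊓ MulAction.stabilizer GQ x with hK
  have hKo : IsOpen (K : Set GQ) := hU.inter (stabilizer_isOpen_of_isIntegral (K := ℚ) x)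
  set M : IntermediateField ℚ Qb := IntermediateField.fixedField K with hM
  have hfix : M.fixingSubgroup = K :=
    InfiniteGalois.fixingSubgroup_fixedField ⟨K, Subgroup.isClosed_of_isOpen K hKo⟩
  have : FiniteDimensional ℚ M := (InfiniteGalois.isOpen_iff_finite M).1 (by rw [hfix]; exact hKo)
  have : Finite (GQ ⧸ K) := Subgroup.quotient_finite_of_isOpen K hKo
  have : K.FiniteIndex := Subgroup.finiteIndex_of_finite_quotient
  have : Fintype (U ⧸ K.subgroupOf U) := Fintype.ofFinite _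
  let φ : (U ⧸ K.subgroupOf U) → (M →+* Qb) := fun c =>
    ((c.out : GQ) : Qb →+* Qb).comp (algebraMap M Qb)
  have hφ : ∀ (u : U) (z : M), φ (u : U ⧸ K.subgroupOf U) z = (u : GQ) z := by
    intro u z
    obtain ⟨k, hk⟩ := QuotientGroup.mk_out_eq_mul (K.subgroupOf U) u
    have h1 : ((k : U) : GQ) z = z := (IntermediateField.mem_fixedField_iff K _).1 z.2 _ k.2
    change (((u : U ⧸ K.subgroupOf U).out : U) : GQ) z = _
    rw [hk, Subgroup.coe_mul, AlgEquiv.mul_apply, h1]
  have hsum : ∀ z : M, Fix U (∑ c, φ c z) := by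
    intro z g hg
    rw [map_sum, ← Equiv.sum_comp (MulAction.toPerm (⟨g, hg⟩ : U)) fun c => φ c z]
    refine Finset.sum_congr rfl fun c _ => ?_
    rw [MulAction.toPerm_apply, ← MulAction.Quotient.mk_smul_out, hφ]
    rfl
  let w : (U ⧸ K.subgroupOf U) → AbsoluteValue M ℝ := fun c => (nv l γ).comp (φ c).injective
  have hw : ∀ c z, w c z = nv l γ (φ c z) := fun _ _ => rfl
  have h1 : ∀ z : M, φ ((1 : U) : U ⧸ K.subgroupOf U) z = z := fun z => by rw [hφ]; rfl
  obtain ⟨a, ha1, ha2⟩ := sep_DEN w (l : M) (nv l γ l)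
    ((nv l γ).pos (Nat.cast_ne_zero.2 hl.out.ne_zero)) (nv_lt l γ)
    (fun c => by rw [hw, map_natCast]) ((1 : U) : U ⧸ K.subgroupOf U)
  obtain ⟨e, he1, he2⟩ := app_DEN w ((1 : U) : U ⧸ K.subgroupOf U) a ha1 fun c hc =>
    ha2 c fun e => hc (by
      induction c using QuotientGroup.induction_on with
      | H u =>
        obtain ⟨σ, hσ, h2⟩ := hDIC.2.1 l γ M u fun y hy => by
          have := DFunLike.congr_fun e (⟨y, hy⟩ : M)
          rwa [hw, hw, hφ, h1] at this
        have h3 : (u : GQ)⁻¹ * σ ∈ K := by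
          rw [← hfix, IntermediateField.mem_fixingSubgroup_iff]
          intro y hy
          rw [AlgEquiv.mul_apply, h2 y hy, ← AlgEquiv.mul_apply, inv_mul_cancel,
            AlgEquiv.one_apply]
        have h4 : σ ∈ U := by simpa using U.mul_mem u.2 h3.1
        have h5 : σ ∈ K := ⟨h4, hx σ ⟨hσ, h4⟩⟩
        rw [QuotientGroup.eq, mul_one, Subgroup.mem_subgroupOf]
        simpa using K.mul_mem h3 (K.inv_mem h5))
  let x' : M := ⟨x, (IntermediateField.mem_fixedField_iff K _).2 fun g hg => hg.2⟩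
  have ht : Tendsto (fun n => w ((1 : U) : U ⧸ K.subgroupOf U) (1 - e n) * nv l γ x +
      ∑ c ∈ Finset.univ.erase ((1 : U) : U ⧸ K.subgroupOf U), w c (e n) * w c x') atTop (𝓝 0) := by
    have h2 := tendsto_finsetSum (Finset.univ.erase ((1 : U) : U ⧸ K.subgroupOf U))
      fun c hc => (he2 c (Finset.ne_of_mem_erase hc)).mul_const (w c x')
    simpa using (he1.mul_const (nv l γ x)).add h2
  obtain ⟨n, hn⟩ := (ht.eventually (gt_mem_nhds hε)).exists
  refine ⟨_, hsum (e n * x'), lt_of_le_of_lt ?_ hn⟩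
  rw [← Finset.add_sum_erase _ _ (Finset.mem_univ ((1 : U) : U ⧸ K.subgroupOf U)), ← sub_sub]
  refine ((nv l γ).sub_le_add _ _).trans (add_le_add (le_of_eq ?_) ?_)
  · rw [hw, h1, h1, ← map_mul]
    congr 1
    push_cast
    change x - e n * x = _
    ring
  · refine ((nv l γ).sum_le _ _).trans_eq (Finset.sum_congr rfl fun c _ => ?_)
    rw [← hw, map_mul]

end Pool.Agent.MP_e23604_nt.R
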