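import Pool.Agent.MP_e23604_nt.R.Brg

set_option autoImplicit false

open NumberField IsDedekindDomain Module Filter Topology
open scoped Classical

namespace Pool.Agent.MP_e23604_nt.R

open B Pool.Agent.MP_f3cd89_nt

theorem one_CDIC (L : IntermediateField ℚ Qb) [NumberField L] (w : Pr L) :
    ∃ (l : ℕ) (_ : Fact l.Prime) (γ : GQ) (t : ℝ), 1 < t ∧
      ∀ x : L, x ≠ 0 → nv l γ (x : Qb) = t ^ (-ord w x) := by
  have : Finite (𝓞 L ⧸ w.asIdeal) := Ideal.finiteQuotientOfFreeOfNeBot _ w.ne_bot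
  have := w.isMaximal
  obtain ⟨l, hl⟩ := CharP.exists (𝓞 L ⧸ w.asIdeal)
  have hp : Fact l.Prime := ⟨CharP.char_is_prime (𝓞 L ⧸ w.asIdeal) l⟩
  obtain ⟨g, hg⟩ := center L w.asIdeal l (by
    rw [← Ideal.Quotient.eq_zero_iff_mem, map_natCast]
    exact CharP.cast_eq_zero _ l)
  let a : AbsoluteValue L ℝ := (nv l g).comp (f := algebraMap L Qb) (RingHom.injective _)
  have ha : IsNonarchimedean a := fun x z => nv_na l g (x : Qb) (z : Qb)
  have h1 : ∀ u : L, u ≠ 0 → ord w u = 0 → a u ≤ 1 := fun u hu e =>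
    bvalc_le ha w hg (by rw [val_eq_exp w hu, e, neg_zero, WithZero.exp_zero])
  obtain ⟨π, h2, h3⟩ := exists_ord_eq_one w
  have h4 : (π : L) ≠ 0 := by simpa using h2
  have h5 : a π < 1 := (hg π).1 (by
    by_contra h
    rw [← ord_eq_zero_iff w h2, h3] at h
    exact one_ne_zero h)
  refine ⟨l, hp, g, (a π)⁻¹, (one_lt_inv₀ (a.pos h4)).2 h5, fun x hx => ?_⟩
  have h6 := zpow_ne_zero (ord w x) h4
  have h7 := h1 _ (div_ne_zero hx h6) (by rw [ord_div w hx h6, ord_zpow, h3, mul_one, sub_self])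
  have h8 := h1 _ (div_ne_zero h6 hx) (by rw [ord_div w h6 hx, ord_zpow, h3, mul_one, sub_self])
  rw [map_div₀, div_le_one (a.pos h6)] at h7
  rw [map_div₀, div_le_one (a.pos hx)] at h8
  rw [inv_zpow', neg_neg, ← map_zpow₀]
  exact le_antisymm h7 h8

theorem cc_CDIC : ∃ c, CC c := by
  let ι : Qb →ₐ[ℚ] ℂ := IsAlgClosed.lift
  let _ : Algebra Qb ℂ := ι.toRingHom.toAlgebra
  have : IsScalarTower ℚ Qb ℂ := IsScalarTower.of_algebraMap_eq fun x => (ι.commutes x).symm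
  have : Normal ℚ Qb := IsAlgClosure.normal ℚ Qb
  exact ⟨(Complex.conjAe.restrictScalars ℚ).restrictNormal Qb, ι,
    (Complex.conjAe.restrictScalars ℚ).restrictNormal_commutes Qb⟩

theorem DIC_pf : DIC_st := by
  refine ⟨one_CDIC, fun l _ γ L _ σ h => ?_, fun l _ γ x hx => ?_, cc_CDIC, ?_⟩
  · obtain ⟨ρ, hρ⟩ := BValB_conj L (cen l γ) (cen l (γ * σ)) fun x => by
      rw [mem_cen, mem_cen, nv_mul, BValB_alg]
      exact (h _ (x : L).2).symm ▸ Iff.rfl
    exact ⟨σ * ρ.restrictScalars ℚ, dec_iff.2 fun x => (hρ x).symm,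
      fun x hx => congrArg σ (ρ.commutes ⟨x, hx⟩)⟩
  · rw [nv_apply, map_ratCast, map_ratCast, ← map_ratCast (algebraMap ℚ_[l] (PadicAlgCl l)),
      norm_algebraMap', Padic.norm_eq_zpow_neg_valuation (Rat.cast_ne_zero.2 hx),
      Padic.valuation_ratCast]
  · rintro c ⟨ι, hι⟩
    refine ⟨AlgEquiv.ext fun x => ι.injective ?_, fun y hy a e => ?_⟩
    · rw [AlgEquiv.mul_apply, hι, hι, Complex.conj_conj, AlgEquiv.one_apply]
    · have h := congrArg ι e
      rw [map_mul, hι, Complex.mul_conj, map_ratCast, ← Complex.ofReal_ratCast,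
        Complex.ofReal_inj] at h
      have := Complex.normSq_pos.2 ((map_ne_zero ι).2 hy)
      rw [h] at this
      exact_mod_cast this

end Pool.Agent.MP_e23604_nt.R
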