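import Pool.Agent.MP_e23604_nt.R.Brg

set_option autoImplicit false

open NumberField IsDedekindDomain Module Filter Topology
open scoped Classical

namespace Pool.Agent.MP_e23604_nt.R

open B Pool.Agent.MP_f3cd89_nt

/-- endomorphisms of a finite field are powers of the Frobenius map -/
theorem hom_pow_FRO {k : Type} [Field k] [Finite k] {l : ℕ} [hl : Fact l.Prime]
    (h : (l : k) = 0) (ψ : k →+* k) : ∃ i : ℕ, ∀ x, ψ x = x ^ l ^ i := by
  have : CharP k l := (CharP.charP_iff_prime_eq_zero hl.out).2 h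
  let := ZMod.algebra k l
  let ψ' : k →ₐ[ZMod l] k :=
    { ψ with
      commutes' := fun r => RingHom.congr_fun
        (RingHom.ext_zmod (ψ.comp (algebraMap (ZMod l) k)) (algebraMap (ZMod l) k)) r }
  obtain ⟨i, hi⟩ := (FiniteField.bijective_frobeniusAlgHom_pow (ZMod l) k).2 ψ'
  refine ⟨i, fun x => ?_⟩
  have := DFunLike.congr_fun hi x
  simp only [AlgHom.coe_pow, FiniteField.coe_frobeniusAlgHom, pow_iterate, ZMod.card] at this
  exact this.symm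

theorem frob_pow_FRO {l : ℕ} {P : Ideal (𝓞 Qb)} {φ : GQ} (h : MP_f68ac8_nt.IsFrob l P φ)
    (n : ℕ) (x : 𝓞 Qb) : φ ^ n • x - x ^ l ^ n ∈ P := by
  induction n with
  | zero => simp
  | succ n ih =>
    rw [← Ideal.Quotient.eq, map_pow] at ih ⊢
    rw [pow_succ', mul_smul, pow_succ, pow_mul, ← ih, ← map_pow, Ideal.Quotient.eq]
    exact h _

theorem gen_FRO {l : ℕ} [hl : Fact l.Prime] {γ φ : GQ} (hφ : Frob l γ φ) {N : Subgroup GQ}
    (hN : ON N) {g : GQ} (hg : g ∈ Dec (nv l γ)) :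
    ∃ (i : ℕ) (τ : GQ), τ ∈ Ine l γ ∧ (φ ^ i * τ)⁻¹ * g ∈ N := by
  obtain ⟨L, _, _, hL⟩ := MP_f68ac8_nt.exists_level (Ω := Qb) (hN.2.mem_nhds N.one_mem)
  have : NumberField L := {}
  set Q := (cen l γ).under (𝓞 L) with hQ
  have : Q.IsMaximal := Ideal.isMaximal_comap_of_isIntegral_of_isMaximal (cen l γ)
  have h0 : Q ≠ ⊥ := NeZero.ne Q
  have : Finite (𝓞 L ⧸ Q) := Ideal.finiteQuotientOfFreeOfNeBot Q h0
  let := Ideal.Quotient.field Q
  have hlQ : ((l : ℕ) : 𝓞 L ⧸ Q) = 0 := by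
    rw [← map_natCast (Ideal.Quotient.mk Q), Ideal.Quotient.eq_zero_iff_mem, Ideal.mem_comap,
      map_natCast]
    exact cen_mem l γ
  let ψ : 𝓞 L ⧸ Q →+* 𝓞 L ⧸ Q := Ideal.Quotient.lift Q
    ((Ideal.Quotient.mk Q).comp
      (MulSemiringAction.toRingHom _ (𝓞 L) (MP_f68ac8_nt.res L g))) fun x hx => by
      change Ideal.Quotient.mk Q (MP_f68ac8_nt.res L g • x) = 0
      rw [Ideal.Quotient.eq_zero_iff_mem, Ideal.mem_comap, MP_f68ac8_nt.res_smul]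
      exact (dec_iff.1 hg _).2 hx
  obtain ⟨i, hi⟩ := hom_pow_FRO hlQ ψ
  have h1 : MP_f68ac8_nt.res L ((φ ^ i)⁻¹ * g) ∈ Q.inertia (L ≃ₐ[ℚ] L) := by
    intro x
    change _ ∈ Q
    rw [Ideal.mem_comap, map_sub, MP_f68ac8_nt.res_smul,
      ← dec_iff.1 ((Dec (nv l γ)).pow_mem hφ.1 i), smul_sub, mul_smul, smul_inv_smul]
    have h2 := hi (Ideal.Quotient.mk Q x)
    change Ideal.Quotient.mk Q (MP_f68ac8_nt.res L g • x) = _ at h2
    rw [← map_pow, Ideal.Quotient.eq, Ideal.mem_comap, map_sub, map_pow,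
      MP_f68ac8_nt.res_smul] at h2
    exact sub_sub_sub_cancel_right (g • algebraMap (𝓞 L) (𝓞 Qb) x) _ _ ▸
      sub_mem h2 (frob_pow_FRO (frob_iff.1 hφ) i _)
  obtain ⟨τ, h3, h4⟩ := MP_f68ac8_nt.lift_inertia L (cen l γ) h1
  refine ⟨i, τ, ine_iff.2 h3, hL _ ?_⟩
  rw [mul_inv_rev, mul_assoc, map_mul, map_inv, h4, inv_mul_cancel]

theorem FRO_pf (hDIC : DIC_st) : FRO_st := by
  intro l hl γ
  refine ⟨(MP_f68ac8_nt.exists_frob (cen l γ) hl.out (cen_mem l γ)).imp fun _ h => frob_iff.2 h,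
    fun φ hφ => ⟨fun φ' hφ' => ?_, fun τ hτ => ?_, fun n z hn hz => ?_,
      fun N hN g hg => gen_FRO hφ hN hg, fun M _ a h1 h2 h3 h4 g hg => ?_⟩⟩
  · refine ine_iff.2 fun x => ?_
    change _ ∈ cen l γ
    rw [← dec_iff.1 hφ.1, smul_sub, mul_smul, smul_inv_smul]
    exact sub_sub_sub_cancel_right (φ' • x) _ _ ▸ sub_mem (frob_iff.1 hφ' x) (frob_iff.1 hφ x)
  · refine frob_iff.2 fun x => ?_
    have h1 := (dec_iff.1 hφ.1 _).2 (ine_iff.1 hτ x)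
    rw [smul_sub, ← mul_smul] at h1
    exact sub_add_sub_cancel ((φ * τ) • x) _ _ ▸ add_mem h1 (frob_iff.1 hφ x)
  · have : NeZero n := ⟨by rintro rfl; exact hn (dvd_zero l)⟩
    exact MP_f68ac8_nt.frob_root (MP_f68ac8_nt.not_mem_of_coprime (cen_mem l γ)
      ((Nat.Prime.coprime_iff_not_dvd hl.out).2 hn)) (frob_iff.1 hφ) hz
  · obtain ⟨N, hN, hc⟩ := h2
    obtain ⟨i, τ, hτ, e⟩ := gen_FRO hφ hN hg
    have h5 : ∀ n : ℕ, a (φ ^ n) = 0 := fun n => by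
      induction n with
      | zero => rw [pow_zero]; exact h3 1 (one_mem _)
      | succ n ih => rw [pow_succ, h1 _ (pow_mem hφ.1 n) _ hφ.1, ih, h4, add_zero]
    rw [← hc _ (mul_mem (pow_mem hφ.1 i) (Ine_le l γ hτ)) g hg e,
      h1 _ (pow_mem hφ.1 i) _ (Ine_le l γ hτ), h5, h3 τ hτ, add_zero]

end Pool.Agent.MP_e23604_nt.R
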