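import Pool.Agent.MP_e23604_nt.R.CDefs
import Pool.Agent.MP_9b2bac_nt.Tw.Emb

set_option autoImplicit false

open NumberField IsDedekindDomain Module Filter Topology
open scoped Classical

namespace Pool.Agent.MP_e23604_nt.R

open B Pool.Agent.MP_f3cd89_nt

theorem mem_of_fix_CH90 {N : Subgroup GQ} (hN : ON N) {g : GQ} (h : ∀ x, Fix N x → g x = x) :
    g ∈ N := by
  have e : (IntermediateField.fixedField N).fixingSubgroup = N :=
    InfiniteGalois.fixingSubgroup_fixedField (k := ℚ) (K := Qb) ⟨N, N.isClosed_of_isOpen hN.2⟩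
  have h1 : g ∈ (IntermediateField.fixedField N).fixingSubgroup :=
    (IntermediateField.mem_fixingSubgroup_iff _ _).2 fun x hx =>
      h x ((IntermediateField.mem_fixedField_iff _ _).1 hx)
  rwa [e] at h1

theorem indep_CH90 {N : Subgroup GQ} (hN : ON N) {ι : Type} [Fintype ι] (r : ι → GQ)
    (hr : ∀ i j, (r i)⁻¹ * r j ∈ N → i = j) (a : ι → Qb) {i : ι} (hi : a i ≠ 0) :
    ∃ z, Fix N z ∧ ∑ j, a j * r j z ≠ 0 := by
  let χ : ι → (IntermediateField.fixedField N →* Qb) := fun j =>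
    ((r j : Qb →* Qb)).comp (IntermediateField.fixedField N).val
  have hχ : Function.Injective χ := fun j j' e => hr j j' (mem_of_fix_CH90 hN fun x hx => by
    have h1 : r j x = r j' x :=
      DFunLike.congr_fun e ⟨x, (IntermediateField.mem_fixedField_iff _ _).2 hx⟩
    rw [AlgEquiv.mul_apply, ← h1, ← AlgEquiv.mul_apply, inv_mul_cancel, AlgEquiv.one_apply])
  have hl := (linearIndependent_monoidHom (IntermediateField.fixedField N) Qb).comp χ hχ
  by_contra hc
  push Not at hc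
  refine hi (Fintype.linearIndependent_iff.1 hl a ?_ i)
  funext z
  rw [Finset.sum_apply]
  exact hc z ((IntermediateField.mem_fixedField_iff _ _).1 z.2)

theorem one_CH90 (N H : Subgroup GQ) (φ : GQ → Qb) (hN : ON N) (hφ : Inf1 N H φ)
    (hc : ∀ g ∈ H, ∀ h ∈ H, φ (g * h) = φ g * g (φ h)) :
    ∃ y, y ≠ 0 ∧ Fix N y ∧ ∀ g ∈ H, g y = φ g * y := by
  have := hN.finite
  have := hN.1
  let ι : Type := {q : GQ ⧸ N // ∃ g ∈ H, (g : GQ ⧸ N) = q}
  have : Fintype ι := Fintype.ofFinite ι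
  obtain ⟨r, hr1, hr2⟩ : ∃ r : ι → GQ, (∀ q, r q ∈ H) ∧ ∀ q, (r q : GQ ⧸ N) = q.1 :=
    ⟨fun q => q.2.choose, fun q => q.2.choose_spec.1, fun q => q.2.choose_spec.2⟩
  have hr : ∀ i j, (r i)⁻¹ * r j ∈ N → i = j := fun i j e =>
    Subtype.ext (by rw [← hr2, ← hr2]; exact QuotientGroup.eq.2 e)
  obtain ⟨z, hz, hb⟩ := indep_CH90 hN r hr (fun q => φ (r q)) (i := ⟨_, 1, H.one_mem, rfl⟩)
    (hφ.2 _ (hr1 _)).1
  refine ⟨_, inv_ne_zero hb, fun n hn => ?_, fun g hg => ?_⟩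
  · rw [map_inv₀, map_sum]
    congr 1
    refine Finset.sum_congr rfl fun q _ => ?_
    have h1 := congrArg (r q) (hz _ (hN.1.conj_mem' n hn (r q)))
    rw [← AlgEquiv.mul_apply, mul_assoc, mul_inv_cancel_left, AlgEquiv.mul_apply] at h1
    rw [map_mul, (hφ.2 _ (hr1 q)).2 n hn, h1]
  · let e : ι → ι := fun q => ⟨_, g * r q, H.mul_mem hg (hr1 q), rfl⟩
    have he : ∀ q, (g * r q)⁻¹ * r (e q) ∈ N := fun q => QuotientGroup.eq.1 (hr2 (e q)).symm
    have hi : Function.Injective e := fun q q' h => hr q q' (by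
      have h1 := N.mul_mem (he q) (N.inv_mem (he q'))
      rw [h] at h1
      simpa [mul_assoc] using h1)
    have h1 : φ g * g (∑ q, φ (r q) * r q z) = ∑ q, φ (r q) * r q z := by
      rw [map_sum, Finset.mul_sum,
        ← (Finite.injective_iff_bijective.1 hi).sum_comp fun q => φ (r q) * r q z]
      refine Finset.sum_congr rfl fun q _ => ?_
      have h2 := congrArg (g * r q) (hz _ (he q))
      rw [← AlgEquiv.mul_apply, mul_inv_cancel_left] at h2
      rw [map_mul, ← mul_assoc, ← hc g hg _ (hr1 q), h2,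
        hφ.1 _ (H.mul_mem hg (hr1 q)) _ (hr1 _) (he q), AlgEquiv.mul_apply]
    have h0 := (hφ.2 g hg).1
    rw [map_inv₀]
    conv_rhs => rw [← h1, mul_inv, mul_inv_cancel_left₀ h0]

theorem H90_pf : H90_st := by
  refine ⟨one_CH90, ?_⟩
  rintro H c n hn ⟨N, β, hN, h1, h2⟩ hc
  obtain ⟨y, hy, -, hy2⟩ := one_CH90 N H (fun g => β g ^ n) hN
    ⟨fun g hg h hh e => by simp only [h1.1 g hg h hh e], fun g hg =>
      ⟨pow_ne_zero _ (h1.2 g hg).1, fun m hm => by rw [map_pow, (h1.2 g hg).2 m hm]⟩⟩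
    fun g hg h hh => by
      rw [map_pow, ← mul_pow, h2 g hg h hh, mul_pow, hc g hg h hh, one_mul]
  obtain ⟨z, hz⟩ := IsAlgClosed.exists_pow_nat_eq y (Nat.pos_of_ne_zero hn)
  have hz0 : z ≠ 0 := by
    rintro rfl
    exact hy (by rw [← hz, zero_pow hn])
  refine ⟨fun g => β g * z / g z, Lc.map₂ ⟨N, hN, h1.1⟩ (Lc.apply H z) fun a b => a * z / b,
    fun g hg => ?_, fun g hg h hh => ?_⟩
  · rw [div_pow, mul_pow, ← map_pow, hz, hy2 g hg]
    exact div_self (mul_ne_zero (pow_ne_zero _ (h1.2 g hg).1) hy)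
  · have h3 : g z ≠ 0 := (map_ne_zero g).2 hz0
    have h4 : g (h z) ≠ 0 := (map_ne_zero g).2 ((map_ne_zero h).2 hz0)
    simp only [map_div₀, map_mul, AlgEquiv.mul_apply]
    field_simp
    linear_combination h2 g hg h hh

end Pool.Agent.MP_e23604_nt.R
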