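import Pool.Agent.MP_e23604_nt.R.Brg
import Pool.Agent.MP_f3cd89_nt.Fb

set_option autoImplicit false

open NumberField IsDedekindDomain Module Filter Topology
open scoped Classical

namespace Pool.Agent.MP_e23604_nt.R

open B Pool.Agent.MP_f3cd89_nt

theorem even_CHNS {M : Type} [Field M] [NumberField M] (w : Pr M) {a y z : M} (ha : a ≠ 0)
    (hy : y ≠ 0) (hz : z ≠ 0) (e : ord w z = ord w y) (h : Cong {w} 1 (a / (y * z))) :
    Even (ord w a) := by
  have h1 : w.valuation M (a / (y * z) - 1) < 1 :=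
    (h w (Finset.mem_singleton_self w)).trans_lt (by
      rw [← WithZero.exp_zero, WithZero.exp_lt_exp]
      norm_num)
  have h2 := (val_eq_one_iff w (div_ne_zero ha (mul_ne_zero hy hz))).1 (val_one_of _ h1)
  rw [ord_div w ha (mul_ne_zero hy hz), ord_mul w hy hz, e] at h2
  exact ⟨ord w y, by omega⟩

theorem quad_CHNS (hN : HNT_st) (K M : Type) [Field K] [NumberField K] [Field M] [NumberField M]
    [Algebra K M] (s : M ≃ₐ[K] M) (h1 : s ≠ 1) (h2 : s * s = 1)
    (hc : ∃ x : M, s x = x ∧ ∀ ι : M →+* ℂ, (ι x).im ≠ 0) (a : M) (ha : a ≠ 0) (hs : s a = a)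
    (hl : ∀ w : Pr M, (∀ x, ord w (s x) = ord w x) →
      (∀ N : ℕ, ∃ y : M, y ≠ 0 ∧ Cong {w} N (a / (y * s y))) ∨
      (Even (ord w a) ∧ ¬ ∀ x : 𝓞 M, w.valuation M (s x - x) < 1)) :
    ∃ μ : M, μ * s μ = a := by
  let F := IntermediateField.fixedField (Subgroup.zpowers s)
  have : IsGalois F M := IsGalois.of_fixed_field M (Subgroup.zpowers s)
  have hr : finrank F M = 2 := by
    rw [IntermediateField.finrank_fixedField_eq_card, Nat.card_zpowers]
    exact orderOf_eq_prime (by rw [sq, h2]) h1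
  let s' : M ≃ₐ[F] M := AlgEquiv.ofRingEquiv (f := s.toRingEquiv) fun x =>
    (IntermediateField.mem_fixedField_iff _ _).1 x.2 s (Subgroup.mem_zpowers s)
  have h3 : s' ≠ 1 := fun h => h1 (AlgEquiv.ext fun x => DFunLike.congr_fun h x)
  have hall : ∀ g : M ≃ₐ[F] M, g ≠ 1 → g = s' := by
    have hcard : Nat.card (M ≃ₐ[F] M) = 2 := by rw [IsGalois.card_aut_eq_finrank, hr]
    obtain ⟨y, -, hu⟩ := (Nat.card_eq_two_iff' 1).1 hcard
    exact fun g hg => (hu g hg).trans (hu s' h3).symm
  have : IsTotallyComplex F := ⟨fun v => by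
    obtain ⟨x, hx, hι⟩ := hc
    have hxF : x ∈ F := (IntermediateField.mem_fixedField_iff _ _).2 fun g hg =>
      (Subgroup.zpowers_le (H := MulAction.stabilizer (M ≃ₐ[K] M) x)).2 hx hg
    rw [InfinitePlace.isComplex_iff]
    intro hv
    refine hι (ComplexEmbedding.lift M v.embedding) ?_
    have e := ComplexEmbedding.lift_algebraMap_apply M v.embedding ⟨x, hxF⟩
    rw [show algebraMap F M ⟨x, hxF⟩ = x from rfl] at e
    rw [e, ← Complex.conj_eq_iff_im]
    exact RingHom.congr_fun (ComplexEmbedding.isReal_iff.1 hv) _⟩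
  have hfin : {w : Pr M | s' ∈ w.asIdeal.inertia (M ≃ₐ[F] M)}.Finite := by
    obtain ⟨x, hx⟩ : ∃ x : 𝓞 M, s' • x - x ≠ 0 := by
      by_contra hc
      refine h3 (AlgEquiv.ext fun y => ?_)
      have h4 : ∀ x : 𝓞 M, s' (x : M) = x := fun x =>
        congrArg (fun z : 𝓞 M => (z : M)) (sub_eq_zero.1 (not_not.1 (not_exists.1 hc x)))
      obtain ⟨b, c, -, rfl⟩ := IsFractionRing.div_surjective (A := 𝓞 M) y
      rw [map_div₀]
      exact congrArg₂ (· / ·) (h4 b) (h4 c)
    exact (ord_finite ((s' • x - x : 𝓞 M) : M)).subset fun w hw h =>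
      (ord_eq_zero_iff w hx).1 h (hw x)
  have hg : ∀ w : Pr M, gact s' w = w → ∀ x, ord w (s x) = ord w x := fun w hw x => by
    have := ord_gact s' w x
    rwa [hw] at this
  refine hN F M s' (hfin.toFinset.image fun w => w.under (𝓞 F)) a hr h3 ha hs (fun w hw => ?_)
    (fun w _ hw => ?_) fun w hw hw' => ?_
  · rw [eq_bot_iff]
    intro g hg
    by_contra h
    exact hw (Finset.mem_image.2 ⟨w, hfin.mem_toFinset.2 (hall g h ▸ hg :), rfl⟩)
  · rcases hl w (hg w hw) with h | h
    · obtain ⟨y, hy, h⟩ := h 1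
      exact even_CHNS w ha hy ((map_ne_zero s).2 hy) (hg w hw y) h
    · exact h.1
  · refine (hl w (hg w hw')).resolve_right fun h => h.2 fun x => ?_
    obtain ⟨w', h4, h5⟩ := Finset.mem_image.1 (mem_above.1 hw)
    obtain ⟨g, hg⟩ := (fb F M (M ≃ₐ[F] M)).2.1 w w' h5.symm
    have e : w = w' := by
      by_cases h : g = 1
      · rw [← hg, h, gact_one]
      · rw [← hg, hall g h, hw']
    have h6 := hfin.mem_toFinset.1 h4 x
    rw [← e] at h6
    exact (w.valuation_lt_one_iff_mem (K := M) (s' • x - x)).2 h6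

theorem HNS_pf (hHNT : HNT_st) (hDIC : DIC_st) (hDEN : DEN_st) : HNS_st := by
  intro N H H' s a hN hNH hHH hs hsH hcos hnr ha hHa hloc
  have hopen : IsOpen (H : Set GQ) := Subgroup.isOpen_mono hNH hN.2
  let M := IntermediateField.fixedField H
  have mem : ∀ x : Qb, x ∈ M ↔ Fix H x := fun x => IntermediateField.mem_fixedField_iff H x
  have hfix : M.fixingSubgroup = H :=
    InfiniteGalois.fixingSubgroup_fixedField ⟨H, H.isClosed_of_isOpen hopen⟩
  have : FiniteDimensional ℚ M := (InfiniteGalois.isOpen_iff_finite M).1 (by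
    rw [hfix]
    exact hopen)
  have : NumberField M := NumberField.of_module_finite ℚ M
  have hH : ∀ g : GQ, (∀ x ∈ M, g x = x) → g ∈ H := fun g hg => by
    rw [← hfix]
    exact (IntermediateField.mem_fixingSubgroup_iff _ _).2 hg
  have hss : s * s ∈ H := (hcos _ (H'.mul_mem hs hs)).resolve_right (by
    rwa [mul_inv_cancel_right])
  have hM : ∀ x ∈ M, s x ∈ M := fun x hx => (mem _).2 fun h hh => by
    have h1 : s⁻¹ * (h * s) ∈ H := (hcos _ (H'.mul_mem (H'.inv_mem hs)
      (H'.mul_mem (hHH hh) hs))).resolve_right fun e => hsH (by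
        rw [mul_assoc, mul_inv_cancel_right] at e
        exact H.inv_mem_iff.1 ((H.mul_mem_cancel_right hh).1 e))
    have h3 := congrArg s ((mem x).1 hx _ h1)
    rwa [← AlgEquiv.mul_apply, mul_inv_cancel_left, AlgEquiv.mul_apply] at h3
  have hM2 : ∀ x ∈ M, s (s x) = x := fun x hx => (mem x).1 hx _ hss
  have hlift : ∀ t : GQ, (∀ x ∈ M, t x = s x) → t ∈ H' ∧ t ∉ H := fun t ht => by
    have h1 : t⁻¹ * s ∈ H := hH _ fun x hx => by
      rw [AlgEquiv.mul_apply, ← ht x hx, ← AlgEquiv.mul_apply, inv_mul_cancel, AlgEquiv.one_apply]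
    exact ⟨H'.inv_mem_iff.1 ((H'.mul_mem_cancel_right hs).1 (hHH h1)),
      fun h => hsH ((H.mul_mem_cancel_left (H.inv_mem h)).1 h1)⟩
  let f : M →ₐ[ℚ] M := ((s : Qb →ₐ[ℚ] Qb).comp M.val).codRestrict M.toSubalgebra fun x => hM x x.2
  have hf : f.comp f = AlgHom.id ℚ M := AlgHom.ext fun x => Subtype.ext (hM2 x x.2)
  let s' : M ≃ₐ[ℚ] M := AlgEquiv.ofAlgHom f f hf hf
  have e1 : ∀ x : M, ((s' x : M) : Qb) = s x := fun x => rfl
  have h1 : s' ≠ 1 := fun h => hsH (hH _ fun x hx => (e1 ⟨x, hx⟩).symm.trans (by rw [h]; rfl))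
  have h2 : s' * s' = 1 := AlgEquiv.ext fun x => Subtype.ext (hM2 x x.2)
  have haM : a ∈ M := (mem a).2 fun g hg => hHa g (hHH hg)
  have ha' : (⟨a, haM⟩ : M) ≠ 0 := fun h => ha (congrArg Subtype.val h)
  obtain ⟨μ, hμ⟩ := quad_CHNS hHNT ℚ M s' h1 h2 (by
    obtain ⟨x, hx, hι⟩ := hnr
    have hxM : x ∈ M := (mem x).2 fun g hg => hx g (hHH hg)
    refine ⟨⟨x, hxM⟩, Subtype.ext (hx s hs), fun ι => ?_⟩
    rw [← ComplexEmbedding.lift_algebraMap_apply Qb ι]
    exact hι _) ⟨a, haM⟩ ha' (Subtype.ext (hHa s hs)) fun w hw => by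
      obtain ⟨l, hl, γ, r, hr, hv⟩ := hDIC.1 M w
      have hr0 : 0 < r := one_pos.trans hr
      obtain ⟨t, ht, hts⟩ := hDIC.2.1 l γ M s fun x hx => by
        rcases eq_or_ne (⟨x, hx⟩ : M) 0 with h | h
        · rw [show x = 0 from congrArg Subtype.val h, map_zero]
        · exact (hv _ ((map_ne_zero s').2 h)).trans (by rw [hw]; exact (hv _ h).symm)
      obtain ⟨ht1, ht2⟩ := hlift t hts
      rcases hloc l γ t ⟨ht, ht1⟩ ht2 with ⟨y, hy, hya⟩ | ⟨hI, z, hz, hza⟩
      · refine Or.inl fun n => ?_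
        have hy0 : y ≠ 0 := by
          rintro rfl
          exact ha (by rw [← hya, zero_mul])
        have hy1 := (nv l γ).pos hy0
        have hn0 : 0 < r ^ (-(n : ℤ)) := zpow_pos hr0 _
        have hn1 : r ^ (-(n : ℤ)) ≤ 1 := zpow_le_one_of_nonpos₀ hr.le (by omega)
        obtain ⟨u, hu, hyu⟩ := hDEN l γ H y _ hopen hy (mul_pos hy1 hn0)
        have huM := (mem u).2 hu
        have h3 : nv l γ (y - u) < nv l γ y := hyu.trans_le (mul_le_of_le_one_right hy1.le hn1)
        have h4 : nv l γ u = nv l γ y := by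
          refine le_antisymm ?_ (not_lt.1 fun h => ?_)
          · have := nv_na l γ y (-(y - u))
            rw [AbsoluteValue.map_neg, show y + -(y - u) = u by ring] at this
            exact this.trans (max_le le_rfl h3.le)
          · have := nv_na l γ (y - u) u
            rw [sub_add_cancel] at this
            exact absurd this (not_le.2 (max_lt h3 h))
        have hu0 : u ≠ 0 := by
          rintro rfl
          rw [map_zero] at h4
          exact hy1.ne h4
        have hu1 : (⟨u, huM⟩ : M) ≠ 0 := fun h => hu0 (congrArg Subtype.val h)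
        refine ⟨⟨u, huM⟩, hu1, fun v hv' => ?_⟩
        rw [Finset.mem_singleton.1 hv']
        set d : M := (⟨a, haM⟩ : M) / (⟨u, huM⟩ * s' ⟨u, huM⟩) - 1 with hd
        rcases eq_or_ne d 0 with h | h
        · rw [h, map_zero]
          exact zero_le
        have h5 : (d : Qb) * (u * t u) = (y - u) * t y + u * t (y - u) := by
          have h6 : (d : Qb) = a / (u * t u) - 1 := by
            rw [hts u huM]
            rfl
          rw [h6, sub_mul, div_mul_cancel₀ _ (mul_ne_zero hu0 ((map_ne_zero t).2 hu0)), ← hya,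
            map_sub]
          ring
        have h6 := nv_na l γ ((y - u) * t y) (u * t (y - u))
        rw [← h5, map_mul, map_mul, map_mul, map_mul, ht u, ht y, ht (y - u), h4,
          mul_comm (nv l γ (y - u)), max_self, hv d h, mul_comm, mul_assoc] at h6
        have h7 := (le_of_mul_le_mul_left h6 hy1).trans_lt hyu
        have h8 := (zpow_lt_zpow_iff_right₀ hr).1 (lt_of_mul_lt_mul_left h7 hy1.le)
        rw [val_eq_exp w h, WithZero.exp_le_exp]
        exact h8.le
      · refine Or.inr ⟨?_, fun h => ?_⟩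
        · obtain ⟨x, hx, e⟩ := ram_a M (nv_na l γ) hl.out (nv_lt l γ) (y := z) fun τ h3 h4 =>
            hz τ (hI τ (hHH (hH τ h3)) h4)
          have hx0 : (⟨x, hx⟩ : M) ≠ 0 := fun h => by
            rw [← e, show x = 0 from congrArg Subtype.val h, map_zero, zero_pow two_ne_zero] at hza
            exact ((nv l γ).pos ha).ne' hza
          have h3 := hv _ ha'
          have h4 := hv _ hx0
          simp only at h3 h4
          rw [hza, ← e, h4, ← zpow_natCast, ← zpow_mul] at h3
          have h5 := zpow_right_injective₀ hr0 hr.ne' h3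
          exact ⟨ord w (⟨x, hx⟩ : M), by omega⟩
        · obtain ⟨τ, h3, h4⟩ := lift_inr M (nv_na l γ) hl.out (nv_lt l γ) s' fun x => by
            rcases eq_or_ne (s' x - x) 0 with e | e
            · rw [sub_eq_zero.1 e, sub_self, map_zero]
              exact one_pos
            · have h5 := (val_lt_one_iff w e).1 (h x)
              exact (hv _ e).trans_lt (zpow_lt_one_of_neg₀ hr (by omega))
          obtain ⟨h5, h6⟩ := hlift τ fun x hx => h4 ⟨x, hx⟩
          exact h6 (hNH (hI τ h5 h3))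
  exact ⟨μ, (mem _).1 μ.2, congrArg Subtype.val hμ⟩

end Pool.Agent.MP_e23604_nt.R
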