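import Pool.Agent.MP_e23604_nt.R.CDefs
import Pool.Agent.MP_9b2bac_nt.Tw.Amb
import Pool.Agent.MP_f3cd89_nt.Vlat
import Pool.Agent.MP_f3cd89_nt.Ntb

set_option autoImplicit false

open NumberField IsDedekindDomain Module Filter Topology
open scoped Classical

namespace Pool.Agent.MP_e23604_nt.R

open B Pool.Agent.MP_f3cd89_nt

theorem idx_HNT {I : Type} [AddCommGroup I] (H : AddSubgroup I) (T : Set I) (hT : T.Finite)
    (h : ∀ x, ∃ y ∈ H, x - y ∈ T) : H.index ≠ 0 := by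
  have := hT.to_subtype
  have hs : Function.Surjective fun a : T => (QuotientAddGroup.mk a.1 : I ⧸ H) := fun q => by
    obtain ⟨x, rfl⟩ := QuotientAddGroup.mk_surjective q
    obtain ⟨y, hy, hy'⟩ := h x
    refine ⟨⟨_, hy'⟩, QuotientAddGroup.eq.2 ?_⟩
    rwa [neg_sub, sub_add_cancel]
  have := Finite.of_surjective _ hs
  exact AddSubgroup.index_ne_zero_of_finite

theorem core_HNT {A D : Type} [AddCommGroup A] [AddCommGroup D] (σ : AddMonoid.End A) (t : D →+ D)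
    (j1 : A →+ D) (V : AddSubgroup A) (sσ : ∀ x, σ (σ x) = x) (tt : ∀ x, t (t x) = x)
    (hjt : ∀ x, j1 (σ x) = t (j1 x)) (v1 : ∀ a ∈ V, σ a ∈ V)
    (v4 : ∀ a ∈ V, a + σ a = 0 → ∃ b ∈ V, a = σ b - b) (h90 : ∀ a, a + σ a = 0 → ∃ b, a = σ b - b)
    (T : Set D) (hT : T.Finite) (hfin : ∀ x, ∃ y ∈ V, x - j1 y ∈ T)
    (hi : ∀ x y, t x = x → t y = y → ∃ z, (z = x ∨ z = y ∨ z = x - y) ∧
      ∃ a ∈ V, ∃ e, σ a = a ∧ z = j1 a + (e + t e))
    (h0 : hz σ 2 (j1.ker ⊓ V) ≠ 0) (h1 : ho σ 2 (j1.ker ⊓ V) = 2 * hz σ 2 (j1.ker ⊓ V))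
    (a : A) (e : D) (y : A) (ha : σ a = a) (he : j1 a = e + t e) (hy : a - (y + σ y) ∈ V) :
    ∃ b, a = b + σ b := by
  let τ : AddMonoid.End (D × (A ⧸ V)) := t.prodMap (QuotientAddGroup.map V V σ v1)
  let j : A →+ D × (A ⧸ V) := j1.prod (QuotientAddGroup.mk' V)
  have eτ : ∀ d (x : A), τ (d, (x : A ⧸ V)) = (t d, ((σ x : A) : A ⧸ V)) := fun _ _ => rfl
  have eτ0 : ∀ d, τ (d, 0) = (t d, 0) := fun d =>
    Prod.ext rfl (map_zero (QuotientAddGroup.map V V σ v1))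
  have ej : ∀ x, j x = (j1 x, (x : A ⧸ V)) := fun _ => rfl
  have ejV : ∀ x ∈ V, j x = (j1 x, 0) := fun x hx =>
    Prod.ext rfl ((QuotientAddGroup.eq_zero_iff x).2 hx)
  have hker : j1.ker ⊓ V = j.ker := AddSubgroup.ext fun x => by
    rw [AddMonoidHom.mem_ker, ej, Prod.mk_eq_zero, QuotientAddGroup.eq_zero_iff]
    rfl
  have hj : ∀ x, j (σ x) = τ (j x) := fun x => by rw [ej, ej, eτ, hjt]
  have hinv : ∀ x, τ x = x → ∃ b d, σ b = b ∧ t d = d ∧ x = j b + (d, 0) := by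
    rintro ⟨d, q⟩ hx
    obtain ⟨c, rfl⟩ := QuotientAddGroup.mk_surjective q
    rw [eτ, Prod.mk.injEq, eq_comm (b := (c : A ⧸ V)), QuotientAddGroup.eq] at hx
    obtain ⟨b, hb, e⟩ := v4 _ hx.2 (by rw [map_add, map_neg, sσ]; abel)
    have e1 : σ (c - b) = c - b := by
      rw [map_sub, sub_eq_sub_iff_sub_eq_sub, ← e]
      abel
    refine ⟨c - b, d - j1 (c - b), e1, by rw [map_sub, hx.1, ← hjt, e1], ?_⟩
    rw [ej, Prod.mk_add_mk, add_sub_cancel, add_zero, QuotientAddGroup.mk_sub,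
      (QuotientAddGroup.eq_zero_iff b).2 hb, sub_zero]
  rw [hker] at h0 h1
  refine Pool.Agent.MP_9b2bac_nt.Tw.amb _ _ σ τ j
    (AddMonoidHom.ext fun x => by rw [pow_two]; exact sσ x) (AddMonoidHom.ext fun x => ?_) hj
    (idx_HNT _ _ (hT.image fun d => (d, 0)) ?_) h90 (fun x x' hx hx' => ?_) h0 h1 a
    (e, (y : A ⧸ V)) ha ?_
  · obtain ⟨d, q⟩ := x
    obtain ⟨c, rfl⟩ := QuotientAddGroup.mk_surjective q
    rw [pow_two]
    change τ (τ _) = _
    rw [eτ, eτ, sσ, tt]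
    rfl
  · rintro ⟨d, q⟩
    obtain ⟨c, rfl⟩ := QuotientAddGroup.mk_surjective q
    obtain ⟨x, hx, hx'⟩ := hfin (d - j1 c)
    refine ⟨_, ⟨c + x, rfl⟩, _, hx', ?_⟩
    rw [map_add, ejV _ hx, ej, Prod.mk_add_mk, Prod.mk_sub_mk, add_zero, sub_self, sub_sub]
  · obtain ⟨b, d, b1, d1, rfl⟩ := hinv x hx
    obtain ⟨b', d', b2, d2, rfl⟩ := hinv x' hx'
    obtain ⟨z, hz, c, c0, f, c1, c2⟩ := hi d d' d1 d2
    have key : (z, 0) = j c + ((f, 0) + τ (f, 0)) := by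
      rw [ejV _ c0, eτ0, Prod.mk_add_mk, Prod.mk_add_mk, add_zero, add_zero, c2]
    rcases hz with rfl | rfl | rfl
    · exact ⟨_, Or.inl rfl, b + c, (f, 0), by rw [map_add, b1, c1], by
        rw [key, map_add, add_assoc]⟩
    · exact ⟨_, Or.inr (Or.inl rfl), b' + c, (f, 0), by rw [map_add, b2, c1], by
        rw [key, map_add, add_assoc]⟩
    · refine ⟨_, Or.inr (Or.inr rfl), b - b' + c, (f, 0), by rw [map_add, map_sub, b1, b2, c1], ?_⟩
      rw [map_add, map_sub, add_assoc, ← key, add_sub_add_comm, Prod.mk_sub_mk d d', sub_self]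
  · rw [ej, eτ, Prod.mk_add_mk, he, ← QuotientAddGroup.mk_add,
      QuotientAddGroup.eq_iff_sub_mem.2 hy]

section

variable {F M : Type} [Field F] [NumberField F] [Field M] [NumberField M] [Algebra F M]

theorem above_HNT [IsGalois F M] (S : Finset (Pr F)) (s : M ≃ₐ[F] M) (w : Pr M) :
    gact s w ∈ above M S ↔ w ∈ above M S := by
  have e : (gact s w).under (𝓞 F) = w.under (𝓞 F) := by
    apply HeightOneSpectrum.ext
    change (gact s w).asIdeal.under (𝓞 F) = w.asIdeal.under (𝓞 F)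
    rw [gact_asIdeal, Ideal.under_smul]
  rw [mem_above, mem_above, e]

theorem gen_HNT [IsGalois F M] (s : M ≃ₐ[F] M) (h2 : finrank F M = 2) (h1 : s ≠ 1) :
    Nat.card (M ≃ₐ[F] M) = 2 ∧ (∀ g, g ∈ Subgroup.zpowers s) ∧ s * s = 1 := by
  have hc : Nat.card (M ≃ₐ[F] M) = 2 := (IsGalois.card_aut_eq_finrank F M).trans h2
  have : Fact (Nat.Prime 2) := ⟨Nat.prime_two⟩
  refine ⟨hc, fun _ => mem_zpowers_of_prime_card hc h1, ?_⟩
  rw [← sq, ← hc, pow_card_eq_one']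

omit [NumberField F] [NumberField M] in
theorem h90_HNT (s : M ≃ₐ[F] M) (h1 : s ≠ 1) (h2 : s * s = 1) (a : Additive Mˣ)
    (ha : a + sA s a = 0) : ∃ b, a = sA s b - b := by
  have ss : ∀ x, s (s x) = x := fun x => by rw [← AlgEquiv.mul_apply, h2, AlgEquiv.one_apply]
  have ha' : ((Additive.toMul a : Mˣ) : M) * s ((Additive.toMul a : Mˣ) : M) = 1 :=
    congrArg (fun z : Additive Mˣ => ((Additive.toMul z : Mˣ) : M)) ha
  have key : ∃ b : M, b ≠ 0 ∧ s b = ((Additive.toMul a : Mˣ) : M) * b := by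
    generalize ((Additive.toMul a : Mˣ) : M) = x at ha'
    by_cases h : 1 + s x = 0
    · obtain ⟨c, hc⟩ : ∃ c, s c ≠ c := by
        by_contra hc
        exact h1 (AlgEquiv.ext fun c => not_not.1 fun e => hc ⟨c, e⟩)
      refine ⟨s c - c, sub_ne_zero.2 hc, ?_⟩
      have hx : x = -1 := by linear_combination -ha' + x * h
      rw [map_sub, ss, hx]
      ring
    · refine ⟨1 + s x, h, ?_⟩
      rw [map_add, map_one, ss]
      linear_combination -ha'
  obtain ⟨b, hb, e⟩ := key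
  refine ⟨Additive.ofMul (Units.mk0 b hb), eq_sub_of_add_eq ?_⟩
  exact Additive.toMul.injective (Units.ext e.symm)

theorem V_HNT [IsGalois F M] (s : M ≃ₐ[F] M) (h2 : finrank F M = 2) (h1 : s ≠ 1)
    (S : Finset (Pr F)) : ∃ (V : AddSubgroup (Additive Mˣ)) (N : ℕ), 0 < N ∧
    (∀ a ∈ V, sA s a ∈ V) ∧ (∀ a ∈ V, Cong (above M S) 1 ((Additive.toMul a : Mˣ) : M)) ∧
    (∀ a : Additive Mˣ, Cong (above M S) N ((Additive.toMul a : Mˣ) : M) → a ∈ V) ∧
    ∀ a ∈ V, a + sA s a = 0 → ∃ b ∈ V, a = sA s b - b := by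
  obtain ⟨hc, hg, hs⟩ := gen_HNT s h2 h1
  rcases S.eq_empty_or_nonempty with rfl | hS
  · refine ⟨⊤, 1, one_pos, fun _ _ => trivial, fun a _ w hw => ?_, fun _ _ => trivial,
      fun a _ ha => (h90_HNT s h1 hs a ha).imp fun b hb => ⟨trivial, hb⟩⟩
    simpa using mem_above.1 hw
  · obtain ⟨V, N, hN, v1, v2, v3, v4⟩ := vlat F M (M ≃ₐ[F] M) s S hS hg
    refine ⟨V, N, hN, v1, v2, v3, fun a ha e => v4 a ha ?_⟩
    rw [hc, nmH, Finset.sum_range_succ, Finset.sum_range_one, pow_zero, pow_one]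
    exact e

theorem tau_HNT [IsGalois F M] (s : M ≃ₐ[F] M) (h2 : s * s = 1) (S : Finset (Pr F)) :
    ∃ t : off (above M S) →+ off (above M S), ∀ D w, (t D).1 w = D.1 (gact s w) := by
  have gg : ∀ w : Pr M, gact s (gact s w) = w := fun w => by rw [← gact_mul, h2, gact_one]
  let e : Pr M ≃ Pr M := ⟨gact s, gact s, gg, gg⟩
  exact ⟨((Finsupp.domCongr (M := ℤ) e).toAddMonoidHom.comp (off (above M S)).subtype).codRestrict
    _ fun D w hw => D.2 (gact s w) ((above_HNT S s w).2 hw), fun _ _ => rfl⟩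

theorem j_HNT (T : Finset (Pr M)) : ∃ j : Additive Mˣ →+ off T, ∀ a w,
    (j a).1 w = if w ∈ T then 0 else ord w ((Additive.toMul a : Mˣ) : M) := by
  let d : Additive Mˣ →+ (Pr M →₀ ℤ) :=
    { toFun a := dv ((Additive.toMul a : Mˣ) : M)
      map_zero' := dv_one
      map_add' x y := dv_mul (Units.ne_zero _) (Units.ne_zero _) }
  refine ⟨((Finsupp.filterAddHom fun w => w ∉ T).comp d).codRestrict _ fun a w hw =>
    Finsupp.filter_apply_neg _ _ (not_not.2 hw), fun a w => ?_⟩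
  change (Finsupp.filter (fun w => w ∉ T) (d a)) w = _
  rw [Finsupp.filter_apply, ite_not]
  rfl

end

theorem HNT_pf (hUNC : UNC_st) (hSI2 : SI2_st) (hLOCN : LOCN_st) : HNT_st := by
  intro F M _ _ _ _ _ _ _ s S a h2 h1 ha0 hsa hun hev hloc
  obtain ⟨-, hg, hs⟩ := gen_HNT s h2 h1
  obtain ⟨V, N, hN, v1, v2, v3, v4⟩ := V_HNT s h2 h1 S
  obtain ⟨t, ht⟩ := tau_HNT s hs S
  obtain ⟨j1, hj1⟩ := j_HNT (above M S)
  have ss : ∀ x, s (s x) = x := fun x => by rw [← AlgEquiv.mul_apply, hs, AlgEquiv.one_apply]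
  have gg : ∀ w : Pr M, gact s (gact s w) = w := fun w => by rw [← gact_mul, hs, gact_one]
  have sσ : ∀ x : Additive Mˣ, sA s (sA s x) = x := fun x =>
    Additive.toMul.injective (Units.ext (ss _))
  have hjt : ∀ x, j1 (sA s x) = t (j1 x) := fun x => Subtype.ext (Finsupp.ext fun w => by
    rw [ht, hj1, hj1]
    refine if_congr (above_HNT S s w).symm rfl ?_
    have := ord_gact s w (s ((Additive.toMul x : Mˣ) : M))
    rw [show s • s ((Additive.toMul x : Mˣ) : M) = _ from ss _] at this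
    exact this.symm)
  have hjV : ∀ x ∈ V, (j1 x).1 = dv ((Additive.toMul x : Mˣ) : M) := fun x hx =>
    Finsupp.ext fun w => by
      rw [hj1, dv_apply]
      split_ifs with hw
      · exact ((val_eq_one_iff w (Units.ne_zero _)).1 (NtbX.val_one one_pos (v2 x hx) hw)).symm
      · rfl
  obtain ⟨M0, hM0, hM'⟩ := (ntb M).2.2.1 (above M S) N
  obtain ⟨hz0, hho⟩ := hUNC F M s (j1.ker ⊓ V) M0 hg
    (fun x hx => ⟨by
      have h3 : j1 x = 0 := hx.1
      change j1 _ = 0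
      rw [hjt, h3, map_zero], v1 x hx.2⟩)
    (fun x hx => by
      have h3 : j1 x = 0 := hx.1
      rw [← hjV x hx.2, h3]
      rfl) hM0
    (fun x hx => by
      have h0 : ∀ w, ord w ((Additive.toMul x : Mˣ) : M) = 0 := fun w => by
        rw [← dv_apply, hx, Finsupp.zero_apply]
      have h3 : j1 x = 0 := Subtype.ext (Finsupp.ext fun w => by rw [hj1, h0, ite_self]; rfl)
      refine ⟨?_, v3 _ ?_⟩
      · change j1 _ = 0
        rw [map_nsmul, h3, nsmul_zero]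
      · rw [toMul_nsmul, Units.val_pow_eq_pow_val]
        exact hM' _ (Units.ne_zero _) fun w _ => h0 w)
  rw [h2] at hz0 hho
  obtain ⟨⟨E, hE, hE'⟩, hy⟩ := hLOCN F M s S a h2 h1 ha0 hsa hev hloc
  obtain ⟨y, y0, hy⟩ := hy N
  obtain ⟨T, hT⟩ := (ntb M).2.1 (above M S) N
  have q1 : ∀ D, t (t D) = D := fun D => Subtype.ext (Finsupp.ext fun w => by rw [ht, ht, gg])
  have q2 : ∀ D : off (above M S), ∃ y ∈ V, D - j1 y ∈ Subtype.val ⁻¹' (T : Set (Pr M →₀ ℤ)) :=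
    fun D => by
      obtain ⟨x, hx, hx'⟩ := hT _ D.2
      have hV := v3 (Additive.ofMul (Units.mk0 x hx.1)) hx.2.2
      refine ⟨_, hV, ?_⟩
      change D.1 - (j1 _).1 ∈ T
      rw [hjV _ hV]
      exact hx'
  have q3 : ∀ D D' : off (above M S), t D = D → t D' = D' → ∃ z, (z = D ∨ z = D' ∨ z = D - D') ∧
      ∃ a ∈ V, ∃ e, sA s a = a ∧ z = j1 a + (e + t e) := fun D D' D1 D2 => by
    obtain ⟨Z, hZ, c, E, c0, c1, c2, E1, E2⟩ := hSI2 F M s S N h2 h1 hN hun D.1 D'.1 D.2 D'.2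
      (fun w => by rw [← ht, D1]) (fun w => by rw [← ht, D2])
    have hV := v3 (Additive.ofMul (Units.mk0 c c0)) c2
    obtain ⟨Z', hZ', rfl⟩ : ∃ Z' : off (above M S), (Z' = D ∨ Z' = D' ∨ Z' = D - D') ∧
        Z'.1 = Z := by
      rcases hZ with rfl | rfl | rfl
      exacts [⟨D, Or.inl rfl, rfl⟩, ⟨D', Or.inr (Or.inl rfl), rfl⟩,
        ⟨D - D', Or.inr (Or.inr rfl), rfl⟩]
    refine ⟨Z', hZ', _, hV, ⟨E, E1⟩, Additive.toMul.injective (Units.ext c1),
      Subtype.ext (Finsupp.ext fun w => ?_)⟩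
    change Z'.1 w = (j1 _).1 w + (E w + (t ⟨E, E1⟩).1 w)
    rw [hjV _ hV, ht]
    exact E2 w
  have q4 : j1 (Additive.ofMul (Units.mk0 a ha0)) = ⟨E, hE⟩ + t ⟨E, hE⟩ :=
    Subtype.ext (Finsupp.ext fun w => by
      change (j1 _).1 w = E w + (t ⟨E, hE⟩).1 w
      rw [hj1, ht]
      split_ifs with hw
      · rw [hE w hw]
        exact ((zero_add _).trans (hE _ ((above_HNT S s w).2 hw))).symm
      · exact hE' w hw)
  have q5 : Additive.ofMul (Units.mk0 a ha0) - (Additive.ofMul (Units.mk0 y y0) +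
      sA s (Additive.ofMul (Units.mk0 y y0))) ∈ V := v3 _ (by
    rw [toMul_sub, Units.val_div_eq_div_val]
    exact hy)
  have q6 : sA s (Additive.ofMul (Units.mk0 a ha0)) = Additive.ofMul (Units.mk0 a ha0) :=
    Additive.toMul.injective (Units.ext hsa)
  have q7 : (Subtype.val ⁻¹' (T : Set (Pr M →₀ ℤ)) : Set (off (above M S))).Finite :=
    T.finite_toSet.preimage Subtype.val_injective.injOn
  have q8 := core_HNT (sA s) t j1 V sσ q1 hjt v1 v4 (h90_HNT s h1 hs) _ q7 q2 q3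
  obtain ⟨b, hb⟩ := q8 hz0 hho _ _ _ q6 q4 q5
  exact ⟨((Additive.toMul b : Mˣ) : M),
    (congrArg (fun z : Additive Mˣ => ((Additive.toMul z : Mˣ) : M)) hb).symm⟩

end Pool.Agent.MP_e23604_nt.R
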