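import Pool.Agent.MP_e23604_nt.R.Brg

set_option autoImplicit false

open NumberField IsDedekindDomain Module Filter Topology
open scoped Classical

namespace Pool.Agent.MP_e23604_nt.R

open B Pool.Agent.MP_f3cd89_nt

theorem smul_CHOMQ {n : ℕ} {ζ : Qb} (hζ : IsPrimitiveRoot ζ n) (hn : n ≠ 0) {A : Type}
    [AddCommGroup A] {y : A} (hy : n • y = 0) {i j : ℕ} (h : ζ ^ i = ζ ^ j) : i • y = j • y := by
  wlog hij : i ≤ j generalizing i j
  · exact (this h.symm (by omega)).symm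
  obtain ⟨d, rfl⟩ := Nat.exists_eq_add_of_le hij
  have h0 : ζ ^ i ≠ 0 := pow_ne_zero _ (hζ.ne_zero hn)
  have h1 : ζ ^ d = 1 := by
    rw [pow_add] at h
    exact (mul_eq_left₀ h0).1 h.symm
  obtain ⟨c, rfl⟩ := hζ.dvd_of_pow_eq_one d h1
  rw [add_nsmul, mul_nsmul, hy, nsmul_zero, add_zero]

theorem fix_CHOMQ (hFRO : FRO_st) {n : ℕ} {ζ : Qb} {q : ℕ} [Fact q.Prime] {γ φ : GQ}
    (hζ : ζ ^ n = 1) (hq : ¬ q ∣ n) (hd : n ∣ q - 1) (hφ : Frob q γ φ) :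
    ∀ g ∈ Dec (nv q γ), g ζ = ζ := by
  have hq1 : ζ ^ q = ζ := by
    obtain ⟨c, hc⟩ := hd
    have : q = n * c + 1 := by
      have := (Fact.out : q.Prime).one_le
      omega
    rw [this, pow_succ, pow_mul, hζ, one_pow, one_mul]
  have hF : ∀ ψ, Frob q γ ψ → ψ ζ = ζ := fun ψ hψ =>
    (((hFRO q γ).2 ψ hψ).2.2.1 n ζ hq hζ).trans hq1
  have hI : ∀ τ ∈ Ine q γ, τ ζ = ζ := fun τ hτ => by
    have := hF _ (((hFRO q γ).2 φ hφ).2.1 τ hτ)
    rw [AlgEquiv.mul_apply] at this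
    exact φ.injective (this.trans (hF φ hφ).symm)
  have hP : ∀ i : ℕ, (φ ^ i) ζ = ζ := fun i => by
    induction i with
    | zero => rfl
    | succ i ih => rw [pow_succ, AlgEquiv.mul_apply, hF φ hφ, ih]
  intro g hg
  obtain ⟨N, h1, h2⟩ := exists_ON_fix {ζ}
  obtain ⟨i, τ, hτ, hm⟩ := ((hFRO q γ).2 φ hφ).2.2.2.1 N h1 g hg
  have := congrArg (φ ^ i * τ) (h2 ζ (Finset.mem_singleton_self ζ) _ hm)
  rw [← AlgEquiv.mul_apply, mul_inv_cancel_left, AlgEquiv.mul_apply, hI τ hτ, hP] at this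
  exact this

theorem HOMQ_pf (hTQ : TQ_st) (hTAM : TAM_st) (hFRO : FRO_st) (hKAP : KAP_st) : HOMQ_st := by
  intro k ζ q hqp γ φ τ A _ hζ hT
  have hp : q.Prime := Fact.out
  have hn : (2 : ℕ) ^ (k + 1) ≠ 0 := by positivity
  have h2n : 2 ∣ 2 ^ (k + 1) := dvd_pow_self 2 (by omega)
  have hq2 : q ≠ 2 := by
    rintro rfl
    have := h2n.trans hT.dvd
    omega
  have hqn : ¬ q ∣ 2 ^ (k + 1) := fun e =>
    hq2 ((Nat.prime_dvd_prime_iff_eq hp Nat.prime_two).1 (hp.dvd_of_dvd_pow e))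
  obtain ⟨ϖ, hϖ, hτϖ, hφϖ⟩ := hT.ex
  have hϖ0 : ϖ ≠ 0 := by
    rintro rfl
    rw [zero_pow hn] at hϖ
    exact hp.ne_zero (by exact_mod_cast hϖ.symm)
  have hkap : kap q τ = 1 := by
    have h1 := hKAP.2.1 q (ϖ ^ 2 ^ k) τ (by rw [← pow_mul, ← pow_succ, hϖ, Rat.cast_natCast])
    by_contra h
    have h0 : kap q τ = 0 := by
      unfold kap at h ⊢
      split_ifs at h ⊢ with e
      · rfl
      · exact absurd rfl h
    rw [h0, map_pow, hτϖ, mul_pow, ZMod.val_zero, pow_zero] at h1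
    have h2 : ζ ^ 2 ^ k = 1 := mul_right_cancel₀ (pow_ne_zero _ hϖ0) h1
    have h3 := Nat.le_of_dvd (by positivity) (hζ.dvd_of_pow_eq_one _ h2)
    have h4 : 0 < 2 ^ k := by positivity
    rw [pow_succ] at h3
    omega
  refine ⟨hkap, fun x y hx hy => ?_, fun a e ha hl he hφ hτ => ?_⟩
  · obtain ⟨s, hs1, hs2, hs3, hs4⟩ := hTQ.1 q γ φ (k + 1) hq2 hT.fr
    have hfix := fix_CHOMQ hFRO hζ.pow_eq_one hqn hT.dvd hT.fr
    let L : Qb → ℕ := fun z => Classical.epsilon fun i => z = ζ ^ i * ϖ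
    have hL : ∀ g : GQ, g ϖ = ζ ^ L (g ϖ) * ϖ := fun g => by
      refine Classical.epsilon_spec (p := fun i => g ϖ = ζ ^ i * ϖ) ?_
      have : NeZero (2 ^ (k + 1)) := ⟨hn⟩
      have h1 : (g ϖ / ϖ) ^ 2 ^ (k + 1) = 1 := by
        rw [div_pow, ← map_pow, hϖ, map_natCast, div_self]
        exact_mod_cast hp.ne_zero
      obtain ⟨i, -, hi⟩ := hζ.eq_pow_of_pow_eq_one h1
      exact ⟨i, by rw [hi, div_mul_cancel₀ _ hϖ0]⟩
    have hLy : ∀ (g : GQ) (j : ℕ), g ϖ = ζ ^ j * ϖ → L (g ϖ) • y = j • y := fun g j h =>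
      smul_CHOMQ hζ hn hy (mul_right_cancel₀ hϖ0 ((hL g).symm.trans h))
    have : NeZero (2 ^ (k + 1)) := ⟨hn⟩
    have : Fact (1 < 2 ^ (k + 1)) := ⟨Nat.one_lt_two_pow (by omega)⟩
    refine ⟨fun g => (s g).val • x + L (g ϖ) • y, fun g hg h hh => ?_,
      hs2.map₂ (Lc.apply _ ϖ) fun u v => u.val • x + L v • y, ?_, ?_, fun g => ⟨_, _, rfl⟩⟩
    · have e1 : (s (g * h)).val • x = (s g).val • x + (s h).val • x := by
        rw [hs1 g hg h hh, ZMod.val_add, ← nsmul_eq_mod_nsmul _ hx, add_nsmul]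
      have e2 : L ((g * h) ϖ) • y = L (g ϖ) • y + L (h ϖ) • y := by
        rw [← add_nsmul]
        refine hLy _ _ ?_
        conv_lhs => rw [AlgEquiv.mul_apply, hL h, map_mul, map_pow, hfix g hg, hL g]
        rw [pow_add]
        ring
      simp only
      rw [e1, e2]
      abel
    · simp only
      rw [hs4, ZMod.val_one, hLy φ 0 (by rw [hφϖ, pow_zero, one_mul]), one_nsmul, zero_nsmul,
        add_zero]
    · simp only
      rw [hs3 τ hT.ine, ZMod.val_zero, hLy τ 1 (by rw [hτϖ, pow_one]), one_nsmul, zero_nsmul,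
        zero_add]
  · have hI := (hTAM q γ hq2).2 τ hT.ine hkap A a e (ha.mono (Ine_le q γ)) (hl.mono (Ine_le q γ))
      (fun u hu => he u (Ine_le q γ hu)) hτ
    exact ((hFRO q γ).2 φ hT.fr).2.2.2.2 A a ha hl hI hφ

end Pool.Agent.MP_e23604_nt.R
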