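import Pool.Agent.MP_e23604_nt.R.Brg

set_option autoImplicit false

open NumberField IsDedekindDomain Module Filter Topology
open scoped Classical

namespace Pool.Agent.MP_e23604_nt.R

open B Pool.Agent.MP_f3cd89_nt

theorem smul_val_INVQ {A : Type} [AddCommGroup A] {n : ℕ} [NeZero n] {x : A} (hx : n • x = 0)
    (u v : ZMod n) : (u + v).val • x = u.val • x + v.val • x := by
  rw [← add_nsmul, ZMod.val_add]
  conv_rhs => rw [← Nat.mod_add_div (u.val + v.val) n, add_nsmul, mul_comm, mul_nsmul', hx,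
    nsmul_zero, add_zero]

theorem pow_val_add_INVQ {n : ℕ} [NeZero n] {z : Qb} (hz : z ^ n = 1) (u v : ZMod n) :
    z ^ (u + v).val = z ^ u.val * z ^ v.val := by
  rw [← pow_add, ZMod.val_add]
  conv_rhs => rw [← Nat.mod_add_div (u.val + v.val) n, pow_add, pow_mul, hz, one_pow, mul_one]

theorem pow_val_cast_INVQ {n : ℕ} [NeZero n] {z : Qb} (hz : z ^ n = 1) (i : ℕ) :
    z ^ (i : ZMod n).val = z ^ i := by
  rw [ZMod.val_natCast]
  conv_rhs => rw [← Nat.mod_add_div i n, pow_add, pow_mul, hz, one_pow, mul_one]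

theorem pow_val_mul_INVQ {n : ℕ} [NeZero n] {z : Qb} (hz : z ^ n = 1) (u v : ZMod n) :
    (z ^ u.val) ^ v.val = z ^ (u * v).val := by
  rw [← pow_mul, ← pow_val_cast_INVQ hz, Nat.cast_mul, ZMod.natCast_zmod_val,
    ZMod.natCast_zmod_val]

theorem Bil.zero_INVQ {A : Type} [AddCommGroup A] {M : AddSubgroup A} {n : ℕ} {e : A → A → Qb}
    (h : Bil M n e) (hn : n ≠ 0) : (∀ y ∈ M, e 0 y = 1) ∧ ∀ x ∈ M, e x 0 = 1 := by
  have h0 : ∀ x ∈ M, ∀ y ∈ M, e x y ≠ 0 := fun x hx y hy e0 => by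
    have := h.pow x hx y hy
    rw [e0, zero_pow hn] at this
    exact zero_ne_one this
  refine ⟨fun y hy => ?_, fun x hx => ?_⟩
  · have := h.addl 0 M.zero_mem 0 M.zero_mem y hy
    rw [add_zero] at this
    exact (mul_eq_left₀ (h0 0 M.zero_mem y hy)).1 this.symm
  · have := h.addr x hx 0 M.zero_mem 0 M.zero_mem
    rw [add_zero] at this
    exact (mul_eq_left₀ (h0 x hx 0 M.zero_mem)).1 this.symm

theorem Bil.nsmul_INVQ {A : Type} [AddCommGroup A] {M : AddSubgroup A} {n : ℕ} {e : A → A → Qb}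
    (h : Bil M n e) (hn : n ≠ 0) {x y : A} (hx : x ∈ M) (hy : y ∈ M) (i j : ℕ) :
    e (i • x) (j • y) = (e x y ^ i) ^ j := by
  have h1 : ∀ y ∈ M, e (i • x) y = e x y ^ i := fun y hy => by
    induction i with
    | zero => rw [zero_nsmul, pow_zero, (h.zero_INVQ hn).1 y hy]
    | succ i ih => rw [succ_nsmul, h.addl _ (M.nsmul_mem hx i) _ hx _ hy, ih, pow_succ]
  rw [← h1 y hy]
  induction j with
  | zero => rw [zero_nsmul, pow_zero, (h.zero_INVQ hn).2 _ (M.nsmul_mem hx i)]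
  | succ j ih =>
    rw [succ_nsmul, h.addr _ (M.nsmul_mem hx i) _ (M.nsmul_mem hy j) _ hy, ih, pow_succ]

theorem INVQ_pf (hTQ : TQ_st) (hHOMQ : HOMQ_st) (hFRO : FRO_st) : INVQ_st := by
  intro k ζ q _ γ φ τ A _ M e a b hζ hT hB hM ha hb hla hlb hab
  have hq : q.Prime := Fact.out
  have hn1 : 1 < 2 ^ (k + 1) := Nat.one_lt_two_pow (Nat.succ_ne_zero k)
  have : NeZero (2 ^ (k + 1)) := ⟨by omega⟩
  have : Fact (1 < 2 ^ (k + 1)) := ⟨hn1⟩
  have hq2 : q ≠ 2 := by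
    rintro rfl
    have := Nat.le_of_dvd (by norm_num) hT.dvd
    omega
  have hz : ζ ^ 2 ^ (k + 1) = 1 := hζ.pow_eq_one
  have hz0 : ζ ≠ 0 := hζ.ne_zero (by omega)
  have hφ : φ ∈ Dec (nv q γ) := hT.fr.1
  have hτ : τ ∈ Dec (nv q γ) := Ine_le q γ hT.ine
  have hqn : ¬ q ∣ 2 ^ (k + 1) := fun h =>
    hq2 ((Nat.prime_dvd_prime_iff_eq hq Nat.prime_two).1 (hq.dvd_of_dvd_pow h))
  have hzq : ζ ^ q = ζ := by
    obtain ⟨c, hc⟩ := hT.dvd
    have : q = 2 ^ (k + 1) * c + 1 := by have := hq.pos; omega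
    rw [this, pow_succ, pow_mul, hz, one_pow, one_mul]
  have hfr : ∀ φ', Frob q γ φ' → φ' ζ = ζ := fun φ' h =>
    (((hFRO q γ).2 φ' h).2.2.1 _ ζ hqn hz).trans hzq
  have hfix : ∀ g ∈ Dec (nv q γ), g ζ = ζ := fun g hg => by
    obtain ⟨N, hN, hNf⟩ := exists_ON_fix {ζ}
    obtain ⟨i, u, hu, hg'⟩ := ((hFRO q γ).2 φ hT.fr).2.2.2.1 N hN g hg
    have h1 := hNf ζ (Finset.mem_singleton_self ζ) _ hg'
    have h2 : u ζ = ζ := by
      have := hfr _ (((hFRO q γ).2 φ hT.fr).2.1 u hu)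
      rw [AlgEquiv.mul_apply] at this
      exact φ.injective (this.trans (hfr φ hT.fr).symm)
    have h3 : ∀ i : ℕ, (φ ^ i) ζ = ζ := fun i => by
      induction i with
      | zero => rfl
      | succ i ih => rw [pow_succ, AlgEquiv.mul_apply, hfr φ hT.fr, ih]
    have h4 := congrArg (φ ^ i * u) h1
    rwa [← AlgEquiv.mul_apply, mul_inv_cancel_left, AlgEquiv.mul_apply, h2, h3] at h4
  obtain ⟨s, hs, hls, hsi, hsφ⟩ := hTQ.1 q γ φ (k + 1) hq2 hT.fr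
  obtain ⟨ϖ, hϖ, hτϖ, hφϖ⟩ := hT.ex
  have hϖ0 : ϖ ≠ 0 := fun h => by
    rw [h, zero_pow (by omega)] at hϖ
    exact hq.ne_zero (by exact_mod_cast hϖ.symm)
  have hlog : ∀ w : Qb, w ^ 2 ^ (k + 1) = 1 → ∃ x : ZMod (2 ^ (k + 1)), ζ ^ x.val = w :=
    fun w hw => by
      obtain ⟨i, -, hi⟩ := hζ.eq_pow_of_pow_eq_one hw
      exact ⟨i, (pow_val_cast_INVQ hz i).trans hi⟩
  have hinj : ∀ x y : ZMod (2 ^ (k + 1)), ζ ^ x.val = ζ ^ y.val → x = y := fun x y h =>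
    ZMod.val_injective _ (hζ.pow_inj (ZMod.val_lt x) (ZMod.val_lt y) h)
  let L : Qb → ZMod (2 ^ (k + 1)) := fun w => Classical.epsilon fun x => ζ ^ x.val * ϖ = w
  let t : GQ → ZMod (2 ^ (k + 1)) := fun g => L (g ϖ)
  have ht : ∀ g : GQ, ζ ^ (t g).val * ϖ = g ϖ := fun g => by
    refine Classical.epsilon_spec (p := fun x : ZMod (2 ^ (k + 1)) => ζ ^ x.val * ϖ = g ϖ) ?_
    obtain ⟨x, hx⟩ := hlog (g ϖ / ϖ) (by
      rw [div_pow, ← map_pow, hϖ, map_natCast, div_self (by exact_mod_cast hq.ne_zero)])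
    exact ⟨x, by rw [hx, div_mul_cancel₀ _ hϖ0]⟩
  have hlt : Lc (Dec (nv q γ)) t := (Lc.apply _ ϖ).map L
  have hta : Adt (Dec (nv q γ)) t := fun g hg h _ => hinj _ _ (mul_right_cancel₀ hϖ0 (by
    rw [ht, AlgEquiv.mul_apply, ← ht h, map_mul, map_pow, hfix g hg, ← ht g,
      pow_val_add_INVQ hz]
    ring))
  have htφ : t φ = 0 := hinj _ _ (mul_right_cancel₀ hϖ0 (by
    rw [ht, hφϖ, ZMod.val_zero, pow_zero, one_mul]))
  have htτ : t τ = 1 := hinj _ _ (mul_right_cancel₀ hϖ0 (by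
    rw [ht, hτϖ, ZMod.val_one, pow_one]))
  have hdec : ∀ a : GQ → A, Adt (Dec (nv q γ)) a → Lc (Dec (nv q γ)) a →
      (∀ g ∈ Dec (nv q γ), a g ∈ M) → ∀ g ∈ Dec (nv q γ),
      a g = (s g).val • a φ + (t g).val • a τ := fun a ha hla hm g hg => by
    refine sub_eq_zero.1 ((hHOMQ k ζ q γ φ τ A hζ hT).2.2
      (fun g => a g - ((s g).val • a φ + (t g).val • a τ)) (k + 1) (fun g hg h hh => ?_)
      (hla.map₂ (hls.map₂ hlt fun x y => x.val • a φ + y.val • a τ) fun x y => x - y)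
      (fun g hg => hM _ (M.sub_mem (hm g hg)
        (M.add_mem (M.nsmul_mem (hm φ hφ) _) (M.nsmul_mem (hm τ hτ) _)))) ?_ ?_ g hg)
    · simp only [ha g hg h hh, hs g hg h hh, hta g hg h hh, smul_val_INVQ (hM _ (hm φ hφ)),
        smul_val_INVQ (hM _ (hm τ hτ))]
      abel
    · simp only [hsφ, htφ, ZMod.val_one, ZMod.val_zero, one_nsmul, zero_nsmul, add_zero, sub_self]
    · simp only [hsi τ hT.ine, htτ, ZMod.val_one, ZMod.val_zero, one_nsmul, zero_nsmul, zero_add,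
        sub_self]
  have hev : ∀ x ∈ M, ∀ y ∈ M, ∃ m : ZMod (2 ^ (k + 1)), e x y = ζ ^ (2 * m).val :=
    fun x hx y hy => by
      have h1 := hB.pow x hx y hy
      obtain ⟨i, -, hi⟩ := hζ.eq_pow_of_pow_eq_one (ξ := e x y) (by rw [pow_succ, pow_mul, h1, one_pow])
      rw [← hi, ← pow_mul, hζ.pow_eq_one_iff_dvd, pow_succ'] at h1
      obtain ⟨j, rfl⟩ := Nat.dvd_of_mul_dvd_mul_right (Nat.two_pow_pos k) h1
      exact ⟨j, by rw [← hi, ← pow_val_cast_INVQ hz, Nat.cast_mul, Nat.cast_ofNat]⟩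
  obtain ⟨m1, h1⟩ := hev _ (hab φ hφ).1 _ (hab φ hφ).2
  obtain ⟨p, h2⟩ := hev _ (hab φ hφ).1 _ (hab τ hτ).2
  obtain ⟨p', h3⟩ := hev _ (hab τ hτ).1 _ (hab φ hφ).2
  obtain ⟨m2, h4⟩ := hev _ (hab τ hτ).1 _ (hab τ hτ).2
  have hk0 : 2 ^ k ≠ 0 := (Nat.two_pow_pos k).ne'
  have hc : ∀ g ∈ Dec (nv q γ), ∀ h ∈ Dec (nv q γ), e (a g) (b h) =
      ζ ^ (2 * m1 * s g * s h + 2 * p * s g * t h + (2 * p' * t g * s h + 2 * m2 * t g * t h)).val :=
    fun g hg h hh => by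
      have a1 := (hab φ hφ).1
      have a2 := (hab τ hτ).1
      have b1 := (hab φ hφ).2
      have b2 := (hab τ hτ).2
      rw [hdec a ha hla (fun g hg => (hab g hg).1) g hg,
        hdec b hb hlb (fun g hg => (hab g hg).2) h hh,
        hB.addl _ (M.nsmul_mem a1 _) _ (M.nsmul_mem a2 _) _
          (M.add_mem (M.nsmul_mem b1 _) (M.nsmul_mem b2 _)),
        hB.addr _ (M.nsmul_mem a1 _) _ (M.nsmul_mem b1 _) _ (M.nsmul_mem b2 _),
        hB.addr _ (M.nsmul_mem a2 _) _ (M.nsmul_mem b1 _) _ (M.nsmul_mem b2 _),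
        hB.nsmul_INVQ hk0 a1 b1, hB.nsmul_INVQ hk0 a1 b2, hB.nsmul_INVQ hk0 a2 b1,
        hB.nsmul_INVQ hk0 a2 b2, h1, h2, h3, h4]
      simp only [pow_val_mul_INVQ hz, pow_val_add_INVQ hz]
  obtain ⟨m, hm⟩ : ∃ m : ZMod (2 ^ (k + 1)), m = 2 * p' - 2 * p := ⟨_, rfl⟩
  refine ⟨m.val, ?_, 2 ^ (k + 1), k + 1, s, (q : ℚ) ^ m.val, φ, rfl,
    pow_ne_zero _ (by exact_mod_cast hq.ne_zero), hT.fr, hs, hls, hsi, ?_, ?_⟩
  · rw [zpow_natCast, h2, h3, ← pow_val_add_INVQ hz, hm, sub_add_cancel]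
  · rw [padicValRat.pow, padicValRat.self hq.one_lt, hsφ,
      ZMod.val_one]
    push_cast
    ring
  · refine cob_of_lc (β := fun g => (ϖ ^ (s g).val) ^ m.val *
        ζ ^ (-(m1 * s g ^ 2 + m2 * t g ^ 2 + 2 * p * s g * t g)).val)
      (hls.map₂ hlt fun x y => (ϖ ^ x.val) ^ m.val *
        ζ ^ (-(m1 * x ^ 2 + m2 * y ^ 2 + 2 * p * x * y)).val)
      (fun g _ => mul_ne_zero (pow_ne_zero _ (pow_ne_zero _ hϖ0)) (pow_ne_zero _ hz0))
      fun g hg h hh => ?_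
    have e1 : ϖ ^ (s g).val * ϖ ^ (s h).val =
        (q : Qb) ^ car (s g) (s h) * ϖ ^ (s g + s h).val := by
      rw [← pow_add, ← hϖ, ← pow_mul, ← pow_add, car, ZMod.val_add, Nat.div_add_mod]
    have e2 : ζ ^ (t g * s h * m).val *
        (ζ ^ (-(m1 * s g ^ 2 + m2 * t g ^ 2 + 2 * p * s g * t g)).val *
        ζ ^ (-(m1 * s h ^ 2 + m2 * t h ^ 2 + 2 * p * s h * t h)).val) = e (a g) (b h) *
        ζ ^ (-(m1 * (s g + s h) ^ 2 + m2 * (t g + t h) ^ 2 +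
          2 * p * (s g + s h) * (t g + t h))).val := by
      rw [hc g hg h hh, ← pow_val_add_INVQ hz, ← pow_val_add_INVQ hz, ← pow_val_add_INVQ hz, hm]
      congr 2
      ring
    simp only [map_mul, map_pow, hfix g hg, ← ht g, hs g hg h hh, hta g hg h hh, mul_pow,
      pow_val_mul_INVQ hz]
    push_cast
    rw [← pow_mul (q : Qb), mul_comm m.val, pow_mul]
    have e3 := congrArg (· ^ m.val) e1
    simp only [mul_pow] at e3
    linear_combination (ζ ^ (t g * s h * m).val *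
        (ζ ^ (-(m1 * s g ^ 2 + m2 * t g ^ 2 + 2 * p * s g * t g)).val *
        ζ ^ (-(m1 * s h ^ 2 + m2 * t h ^ 2 + 2 * p * s h * t h)).val)) * e3 +
      (((q : Qb) ^ car (s g) (s h)) ^ m.val * (ϖ ^ (s g + s h).val) ^ m.val) * e2

end Pool.Agent.MP_e23604_nt.R
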