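import Pool.Agent.MP_e23604_nt.R.Brg

set_option autoImplicit false

open NumberField IsDedekindDomain Module Filter Topology
open scoped Classical

namespace Pool.Agent.MP_e23604_nt.R

open B Pool.Agent.MP_f3cd89_nt

theorem pm_CKAP {r : ℚ} {s : Qb} (g : GQ) (h : s ^ 2 = r) : g s = s ∨ g s = -s :=
  sq_eq_sq_iff_eq_or_eq_neg.1 (by rw [← map_pow, h, map_ratCast])

theorem zero_CKAP {r : ℚ} {s : Qb} (g : GQ) (h : s ^ 2 = r) : kap r g = 0 ↔ g s = s := by
  have h1 : kap r g = 0 ↔ g (sqr r) = sqr r := by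
    unfold kap
    split_ifs with h0
    · exact ⟨fun _ => h0, fun _ => rfl⟩
    · exact ⟨fun h2 => absurd h2 one_ne_zero, fun h2 => absurd h2 h0⟩
  rw [h1]
  rcases sq_eq_sq_iff_eq_or_eq_neg.1 (h.trans (sqr_sq r).symm) with rfl | rfl
  · rfl
  · rw [map_neg, neg_inj]

theorem two_CKAP (a : ZMod 2) : a = 0 ∨ a = 1 := by revert a; decide

theorem act_CKAP (r : ℚ) (s : Qb) (g : GQ) (h : s ^ 2 = r) :
    g s = (-1) ^ (kap r g).val * s := by
  rcases two_CKAP (kap r g) with h0 | h0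
  · rw [h0, ZMod.val_zero, pow_zero, one_mul]
    exact (zero_CKAP g h).1 h0
  · rw [h0, show (1 : ZMod 2).val = 1 from rfl, pow_one, neg_one_mul]
    exact (pm_CKAP g h).resolve_left fun h1 =>
      one_ne_zero (h0.symm.trans ((zero_CKAP g h).2 h1))

theorem sgn_CKAP {a b c : ZMod 2} (h : (-1 : Qb) ^ a.val = (-1) ^ b.val * (-1) ^ c.val) :
    a = b + c := by
  have h1 : (1 : ZMod 2).val = 1 := rfl
  rcases two_CKAP a with rfl | rfl <;> rcases two_CKAP b with rfl | rfl <;>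
    rcases two_CKAP c with rfl | rfl <;> first | rfl | (rw [h1] at h; norm_num at h)

theorem ne_CKAP {r : ℚ} (h : r ≠ 0) {s : Qb} (hs : s ^ 2 = r) : s ≠ 0 := by
  rintro rfl
  exact h (by exact_mod_cast hs.symm.trans (zero_pow two_ne_zero))

theorem sq_CKAP (r : ℚ) (g : GQ) : kap (r ^ 2) g = 0 :=
  (zero_CKAP (s := r) g (by push_cast; rfl)).2 (map_ratCast g r)

theorem kap0_CKAP (g : GQ) : kap 0 g = 0 := by simpa using sq_CKAP 0 g

theorem adt_CKAP (r : ℚ) : Adt ⊤ (kap r) := by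
  intro g _ h _
  rcases eq_or_ne r 0 with rfl | hr
  · simp [kap0_CKAP]
  have hs := sqr_sq r
  refine sgn_CKAP (mul_right_cancel₀ (ne_CKAP hr hs) ?_)
  rw [← act_CKAP r _ _ hs, AlgEquiv.mul_apply, act_CKAP r _ h hs, map_mul, map_pow, map_neg,
    map_one, act_CKAP r _ g hs]
  ring

theorem mul_CKAP (r r' : ℚ) (g : GQ) (h : r ≠ 0) (h' : r' ≠ 0) :
    kap (r * r') g = kap r g + kap r' g := by
  have hs := sqr_sq r
  have hs' := sqr_sq r'
  have h1 : (sqr r * sqr r') ^ 2 = ((r * r' : ℚ) : Qb) := by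
    rw [mul_pow, hs, hs', Rat.cast_mul]
  refine sgn_CKAP (mul_right_cancel₀ (ne_CKAP (mul_ne_zero h h') h1) ?_)
  rw [← act_CKAP _ _ _ h1, map_mul, act_CKAP r _ g hs, act_CKAP r' _ g hs']
  ring

theorem zpow_CKAP {r : ℚ} (h : r ≠ 0) (g : GQ) (n : ℤ) : kap (r ^ n) g = n * kap r g := by
  induction n using Int.induction_on with
  | zero => simpa using sq_CKAP 1 g
  | succ n ih =>
    rw [zpow_add_one₀ h, mul_CKAP _ _ _ (zpow_ne_zero _ h) h, ih]
    push_cast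
    ring
  | pred n ih =>
    have h1 := mul_CKAP (r ^ (-(n : ℤ) - 1)) r g (zpow_ne_zero _ h) h
    rw [← zpow_add_one₀ h, sub_add_cancel, ih] at h1
    rw [eq_sub_of_add_eq h1.symm]
    push_cast
    ring

theorem cc_CKAP (hDIC : DIC_st) (r : ℚ) (c : GQ) (hc : CC c) :
    kap r c = if r < 0 then 1 else 0 := by
  have key := (hDIC.2.2.2.2 c hc).2
  have hs := sqr_sq r
  rcases lt_trichotomy r 0 with h | rfl | h
  · rw [if_pos h]
    refine (two_CKAP _).resolve_left fun h0 => ?_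
    have := key _ (ne_CKAP h.ne hs) r (by rw [(zero_CKAP c hs).1 h0, ← sq, hs])
    linarith
  · rw [if_neg (lt_irrefl _), kap0_CKAP]
  · rw [if_neg h.not_gt]
    refine (zero_CKAP c hs).2 ((pm_CKAP c hs).resolve_right fun h0 => ?_)
    have := key _ (ne_CKAP h.ne' hs) (-r) (by rw [h0, mul_neg, ← sq, hs, Rat.cast_neg])
    linarith

variable {l : ℕ} [hl : Fact l.Prime] {γ : GQ}

theorem ndvd_CKAP (h2 : l ≠ 2) : ¬ (l : ℤ) ∣ 2 := fun h =>
  h2 ((Nat.prime_dvd_prime_iff_eq hl.out Nat.prime_two).1 (by exact_mod_cast h))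

theorem nv2_CKAP (h2 : l ≠ 2) : nv l γ 2 = 1 := by
  simpa using v_coprime (nv_na l γ) hl.out (nv_lt l γ) (ndvd_CKAP h2)

theorem one_CKAP {s x : Qb} (h : s ^ 2 = x) (hx : nv l γ x = 1) : nv l γ s = 1 :=
  (pow_eq_one_iff_of_nonneg ((nv l γ).nonneg s) two_ne_zero).1 (by rw [← map_pow, h, hx])

theorem ine_CKAP (hDIC : DIC_st) {r : ℚ} (h2 : l ≠ 2) (hr : r ≠ 0) {τ : GQ} (hτ : τ ∈ Ine l γ) :
    kap r τ = (padicValRat l r : ZMod 2) * kap l τ := by
  have h0 : (l : ℚ) ≠ 0 := by exact_mod_cast hl.out.ne_zero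
  have h1 : (l : ℚ) ^ padicValRat l r ≠ 0 := zpow_ne_zero _ h0
  have hu : r / (l : ℚ) ^ padicValRat l r ≠ 0 := div_ne_zero hr h1
  have hv : padicValRat l (r / (l : ℚ) ^ padicValRat l r) = 0 := by
    rw [padicValRat.div hr h1, padicValRat.zpow, padicValRat.self hl.out.one_lt, mul_one,
      sub_self]
  have hn := hDIC.2.2.1 l γ _ hu
  rw [hv, neg_zero, zpow_zero] at hn
  have hs := sqr_sq (r / (l : ℚ) ^ padicValRat l r)
  have hs1 := one_CKAP hs hn
  have hk : kap (r / (l : ℚ) ^ padicValRat l r) τ = 0 := by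
    refine (zero_CKAP τ hs).2 ((pm_CKAP τ hs).resolve_right fun h3 => ?_)
    have h4 := hτ _ hs1.le
    rw [h3, ← neg_add', ← two_mul, AbsoluteValue.map_neg, map_mul, nv2_CKAP h2, hs1] at h4
    norm_num at h4
  have h5 := mul_CKAP _ _ τ hu h1
  rwa [div_mul_cancel₀ _ h1, hk, zero_add, zpow_CKAP h0] at h5

theorem frob_CKAP {φ : GQ} {m : ℤ} (h2 : l ≠ 2) (hφ : Frob l γ φ) (hm : ¬ (l : ℤ) ∣ m) :
    kap m φ = 0 ↔ legendreSym l m = 1 := by
  have hs : sqr m ^ 2 = (m : Qb) := by rw [sqr_sq, Rat.cast_intCast]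
  have hs1 := one_CKAP hs (v_coprime (nv_na l γ) hl.out (nv_lt l γ) hm)
  have h1 := hφ.2 _ hs1.le
  have hodd : l = 2 * (l / 2) + 1 := by
    have := (hl.out.eq_two_or_odd).resolve_left h2
    omega
  have h3 : sqr m ^ l = (m : Qb) ^ (l / 2) * sqr m := by
    conv_lhs => rw [hodd]
    rw [pow_succ, pow_mul, hs]
  obtain ⟨k, hk⟩ : (l : ℤ) ∣ m ^ (l / 2) - legendreSym l m := by
    rw [← ZMod.intCast_zmod_eq_zero_iff_dvd]
    push_cast
    rw [legendreSym.eq_pow, sub_self]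
  have h4 : nv l γ (((m : Qb) ^ (l / 2) - legendreSym l m) * sqr m) < 1 := by
    have e : ((m : Qb) ^ (l / 2) - legendreSym l m) = l * k := by exact_mod_cast hk
    have hk1 : nv l γ k ≤ 1 := (nv_na l γ).apply_intCast_le_one
    rw [e, map_mul, map_mul, hs1, mul_one]
    exact mul_lt_one_of_nonneg_of_lt_one_left ((nv l γ).nonneg _) (nv_lt l γ) hk1
  have h5 : nv l γ (φ (sqr m) - legendreSym l m * sqr m) < 1 := by
    have e : φ (sqr m) - legendreSym l m * sqr m = (φ (sqr m) - sqr m ^ l) +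
        ((m : Qb) ^ (l / 2) - legendreSym l m) * sqr m := by rw [h3]; ring
    rw [e]
    exact (nv_na l γ _ _).trans_lt (max_lt h1 h4)
  have h6 : nv l γ (2 * sqr m) = 1 := by rw [map_mul, nv2_CKAP h2, hs1, mul_one]
  rw [zero_CKAP φ (sqr_sq m)]
  constructor
  · intro h7
    refine (legendreSym.eq_one_or_neg_one l
      (mt (ZMod.intCast_zmod_eq_zero_iff_dvd m l).1 hm)).resolve_right fun h8 => ?_
    rw [h7, h8, Int.cast_neg, Int.cast_one, neg_one_mul, sub_neg_eq_add, ← two_mul, h6] at h5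
    exact lt_irrefl _ h5
  · intro h8
    refine (pm_CKAP φ (sqr_sq m)).resolve_right fun h7 => ?_
    rw [h7, h8, Int.cast_one, one_mul, ← neg_add', ← two_mul, AbsoluteValue.map_neg, h6] at h5
    exact lt_irrefl _ h5

theorem iff_CKAP {a b : ZMod 2} (h : a = 0 ↔ b = 0) : a = b := by revert a b; decide

theorem KAP_pf (hDIC : DIC_st) (hFRO : FRO_st) : KAP_st := by
  refine ⟨fun r => ⟨adt_CKAP r, (Lc.apply ⊤ (sqr r)).map fun y => if y = sqr r then 0 else 1⟩,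
    act_CKAP, mul_CKAP, sq_CKAP, cc_CKAP hDIC, fun l _ γ r h2 hr τ hτ => ine_CKAP hDIC h2 hr hτ,
    fun l _ γ φ m h2 hφ hm => frob_CKAP h2 hφ hm, ?_, ?_⟩
  · intro l q hl hq γ γ' φ φ' h2 hlq h4 hφ hφ'
    have a1 := frob_CKAP (m := q) h2 hφ fun h =>
      hlq ((Nat.prime_dvd_prime_iff_eq hl.out hq.out).1 (by exact_mod_cast h))
    have a2 := frob_CKAP (m := l) (by omega) hφ' fun h =>
      hlq ((Nat.prime_dvd_prime_iff_eq hq.out hl.out).1 (by exact_mod_cast h)).symm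
    rw [Int.cast_natCast] at a1 a2
    refine iff_CKAP ?_
    rw [a1, a2, legendreSym.quadratic_reciprocity_one_mod_four h4 h2]
  · intro l hl γ φ h2 hφ
    have hodd := (hl.out.eq_two_or_odd).resolve_left h2
    have b1 : ¬ (l : ℤ) ∣ -1 := fun h =>
      hl.out.one_lt.ne' (Nat.dvd_one.1 (by exact_mod_cast (dvd_neg.1 h)))
    have a1 := frob_CKAP h2 hφ b1
    have a2 := frob_CKAP h2 hφ (ndvd_CKAP h2)
    rw [legendreSym.eq_one_iff l (mt (ZMod.intCast_zmod_eq_zero_iff_dvd _ l).1 b1)] at a1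
    rw [legendreSym.eq_one_iff l
      (mt (ZMod.intCast_zmod_eq_zero_iff_dvd _ l).1 (ndvd_CKAP h2))] at a2
    push_cast at a1 a2
    rw [a1, a2, ZMod.exists_sq_eq_neg_one_iff, ZMod.exists_sq_eq_two_iff h2]
    exact ⟨by omega, Iff.rfl⟩

end Pool.Agent.MP_e23604_nt.R
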