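import Pool.Agent.MP_e23604_nt.R.CDefs

set_option autoImplicit false

open NumberField IsDedekindDomain Module Filter Topology
open scoped Classical

namespace Pool.Agent.MP_e23604_nt.R

open B Pool.Agent.MP_f3cd89_nt

theorem one_CKUM (l : ℕ) [Fact l.Prime] (γ : GQ) (H : Subgroup GQ) (x s : Qb)
    (hH : H ≤ Dec (nv l γ)) (hx : Fix H x) (hv : nv l γ (x - 1) < nv l γ 4) (hs : s ^ 2 = x) :
    Fix H s := by
  intro g hg
  have h1 : (g s) ^ 2 = s ^ 2 := by rw [← map_pow, hs, hx g hg]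
  rcases sq_eq_sq_iff_eq_or_eq_neg.1 h1 with h | h
  · exact h
  exfalso
  have h2 : nv l γ (s + 1) = nv l γ (s - 1) := by
    rw [← hH hg (s - 1), map_sub, map_one, h, ← (nv l γ).map_neg (s + 1)]
    congr 1
    ring
  have h3 : nv l γ (s - 1) * nv l γ (s - 1) < nv l γ 2 * nv l γ 2 := by
    have e1 : x - 1 = (s + 1) * (s - 1) := by rw [← hs]; ring
    have e2 : (4 : Qb) = 2 * 2 := by norm_num
    rwa [e1, e2, map_mul, map_mul, h2] at hv
  have h4 : nv l γ (s - 1) < nv l γ 2 := by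
    by_contra hc
    rw [not_lt] at hc
    exact absurd h3 (not_lt.2 (mul_self_le_mul_self ((nv l γ).nonneg _) hc))
  have h5 := nv_na l γ (s + 1) (-(s - 1))
  rw [(nv l γ).map_neg, h2, max_self, show s + 1 + -(s - 1) = 2 by ring] at h5
  exact absurd h4 (not_lt.2 h5)

theorem sgn_add_CKUM (a b : ZMod 2) :
    ((-1 : Qb)) ^ (a + b).val = (-1) ^ a.val * (-1) ^ b.val := by
  rw [← pow_add, ZMod.val_add, ← neg_one_pow_eq_pow_mod_two]

theorem sgn_inj_CKUM (a b : ZMod 2) (h : ((-1 : Qb)) ^ a.val = (-1) ^ b.val) : a = b := by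
  have h2 : (1 : Qb) ≠ -1 := by norm_num
  fin_cases a <;> fin_cases b
  · rfl
  · exact absurd h (by simpa [ZMod.val] using h2)
  · exact absurd h (by simpa [ZMod.val] using h2.symm)
  · rfl

theorem h90_CKUM (hH90 : H90_st) (H : Subgroup GQ) (a : GQ → ZMod 2) (ha : Adt H a)
    (hl : Lc H a) : ∃ y : Qb, y ≠ 0 ∧ Fix H (y ^ 2) ∧ ∀ g ∈ H, g y = (-1) ^ (a g).val * y := by
  obtain ⟨N, h1, h2⟩ := (hl.map fun t => ((-1 : Qb)) ^ t.val).inf1
    (fun g _ => pow_ne_zero _ (by norm_num))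
  obtain ⟨y, h3, -, h4⟩ := hH90.1 N H _ h1 h2 (fun g hg h hh => by
    rw [ha g hg h hh, sgn_add_CKUM, map_pow, map_neg, map_one])
  refine ⟨y, h3, fun g hg => ?_, h4⟩
  rw [map_pow, h4 g hg, mul_pow, ← pow_mul, mul_comm _ 2, pow_mul]
  simp

theorem rat_CKUM (x : Qb) (hx : Fix ⊤ x) : ∃ r : ℚ, (r : Qb) = x := by
  have : x ∈ (⊥ : IntermediateField ℚ Qb) :=
    (InfiniteGalois.mem_bot_iff_fixed x).2 fun g => hx g trivial
  obtain ⟨r, hr⟩ := IntermediateField.mem_bot.1 this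
  exact ⟨r, by simpa using hr⟩

theorem int_le_CKUM (l : ℕ) [Fact l.Prime] (γ : GQ) (k : ℤ) : nv l γ (k : Qb) ≤ 1 :=
  IsNonarchimedean.apply_intCast_le_one (nv_na l γ)

theorem two_CKUM (hH90 : H90_st) (hDEN : DEN_st) (hKAP : KAP_st) (l : ℕ) [Fact l.Prime] (γ : GQ)
    (a : GQ → ZMod 2) (ha : Adt (Dec (nv l γ)) a) (hl : Lc (Dec (nv l γ)) a) :
    ∃ r : ℚ, r ≠ 0 ∧ ∀ g ∈ Dec (nv l γ), a g = kap r g := by
  obtain ⟨y, h0, h1, h2⟩ := h90_CKUM hH90 _ a ha hl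
  have hy : 0 < nv l γ (y ^ 2) := (nv l γ).pos (pow_ne_zero _ h0)
  have h4 : 0 < nv l γ 4 := (nv l γ).pos (by norm_num)
  have h41 : nv l γ 4 ≤ 1 := by simpa using int_le_CKUM l γ 4
  obtain ⟨z, h5, h6⟩ := hDEN l γ ⊤ (y ^ 2) (nv l γ 4 * nv l γ (y ^ 2)) isOpen_univ
    (fun g hg => h1 g hg.1) (mul_pos h4 hy)
  obtain ⟨r, rfl⟩ := rat_CKUM z h5
  have hr : r ≠ 0 := by
    rintro rfl
    rw [Rat.cast_zero, sub_zero] at h6
    nlinarith
  refine ⟨r, hr, fun g hg => ?_⟩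
  have hs : sqr r ≠ 0 := by
    intro h
    have := sqr_sq r
    rw [h] at this
    exact hr (by exact_mod_cast (by simpa using this.symm : (r : Qb) = 0))
  have h7 : Fix (Dec (nv l γ)) (sqr r / y) := by
    refine one_CKUM l γ _ ((r : Qb) / y ^ 2) _ le_rfl (fun j hj => ?_) ?_ ?_
    · rw [map_div₀, h1 j hj, h5 j trivial]
    · rw [div_sub_one (pow_ne_zero _ h0), map_div₀, div_lt_iff₀ hy, ← (nv l γ).map_neg, neg_sub]
      exact h6
    · rw [div_pow, sqr_sq]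
  have h8 := h7 g hg
  rw [map_div₀, h2 g hg, hKAP.2.1 r _ g (sqr_sq r)] at h8
  apply sgn_inj_CKUM
  have h9 : ((-1 : Qb)) ^ (a g).val ≠ 0 := pow_ne_zero _ (by norm_num)
  field_simp at h8
  exact h8.symm

theorem numden_CKUM (hKAP : KAP_st) (r : ℚ) (hr : r ≠ 0) (g : GQ) :
    kap r g = kap ((r.num * r.den : ℤ) : ℚ) g := by
  have hd : (r.den : ℚ) ≠ 0 := by exact_mod_cast r.den_nz
  have e : ((r.num * r.den : ℤ) : ℚ) = r * (r.den : ℚ) ^ 2 := by
    push_cast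
    rw [← Rat.mul_den_eq_num]
    ring
  rw [e, hKAP.2.2.1 _ _ g hr (pow_ne_zero _ hd), hKAP.2.2.2.1, add_zero]

theorem odd_CKUM (hKAP : KAP_st) (γ : GQ) (w m : ℤ) (hw : Odd w) (hm : m % 8 = w % 8) (g : GQ)
    (hg : g ∈ Dec (nv 2 γ)) : kap w g = kap m g := by
  obtain ⟨k, hk⟩ : ∃ k : ℤ, w * m - 1 = 8 * k := by
    have h1 : w % 2 = 1 := Int.odd_iff.1 hw
    have h2 : (w * m) % 8 = 1 := by
      rw [Int.mul_emod, hm]
      have : w % 8 = 1 ∨ w % 8 = 3 ∨ w % 8 = 5 ∨ w % 8 = 7 := by omega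
      rcases this with h | h | h | h <;> rw [h] <;> rfl
    exact ⟨w * m / 8, by omega⟩
  have hw0 : (w : ℚ) ≠ 0 := by
    have : w ≠ 0 := by rintro rfl; simp at hw
    exact_mod_cast this
  have hm0 : (m : ℚ) ≠ 0 := by
    have : m ≠ 0 := by
      have h1 : w % 2 = 1 := Int.odd_iff.1 hw
      omega
    exact_mod_cast this
  have h3 : Fix (Dec (nv 2 γ)) (sqr ((w : ℚ) * m)) := by
    refine one_CKUM 2 γ _ ((((w : ℚ) * m : ℚ)) : Qb) _ le_rfl (fun j _ => by simp) ?_ (sqr_sq _)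
    have e : ((((w : ℚ) * m : ℚ)) : Qb) - 1 = 4 * (2 * (k : Qb)) := by
      have := congrArg (Int.cast : ℤ → Qb) hk
      push_cast at this ⊢
      linear_combination this
    have h4 : 0 < nv 2 γ 4 := (nv 2 γ).pos (by norm_num)
    have h5 : nv 2 γ 2 < 1 := by simpa using nv_lt 2 γ
    have h6 := int_le_CKUM 2 γ k
    have h7 := (nv 2 γ).nonneg (k : Qb)
    have h8 := (nv 2 γ).nonneg 2
    rw [e, map_mul, map_mul]
    have : nv 2 γ 2 * nv 2 γ (k : Qb) < 1 := by nlinarith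
    nlinarith
  have h9 : kap ((w : ℚ) * m) g = 0 := by
    unfold kap
    rw [if_pos (h3 g hg)]
  rw [hKAP.2.2.1 _ _ g hw0 hm0] at h9
  revert h9
  generalize kap (w : ℚ) g = p
  generalize kap (m : ℚ) g = q
  revert p q
  decide

theorem three_CKUM (hKAP : KAP_st) (γ : GQ) (r : ℚ) (hr : r ≠ 0) :
    ∃ (j u : ℕ), Odd u ∧ ∀ m : ℤ, m % 8 = u % 8 →
      ∀ g ∈ Dec (nv 2 γ), kap r g = kap (2 ^ j * m) g := by
  have hn : r.num * r.den ≠ 0 :=
    mul_ne_zero (Rat.num_ne_zero.2 hr) (by exact_mod_cast r.den_nz)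
  obtain ⟨j, w, h1, h2⟩ := WfDvdMonoid.max_power_factor hn Int.prime_two.irreducible
  have hw : Odd w := by
    rw [Int.odd_iff]
    omega
  have hw1 : w % 2 = 1 := Int.odd_iff.1 hw
  refine ⟨j, (w % 8).toNat, ?_, fun m hm g hg => ?_⟩
  · rw [Nat.odd_iff]
    omega
  · have hm' : m % 8 = w % 8 := by omega
    have hw0 : (w : ℚ) ≠ 0 := by
      have : w ≠ 0 := by omega
      exact_mod_cast this
    have hm0 : (m : ℚ) ≠ 0 := by
      have : m ≠ 0 := by omega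
      exact_mod_cast this
    rw [numden_CKUM hKAP r hr, h2]
    push_cast
    rw [hKAP.2.2.1 _ _ g (pow_ne_zero _ two_ne_zero) hw0,
      hKAP.2.2.1 _ _ g (pow_ne_zero _ two_ne_zero) hm0, odd_CKUM hKAP γ w m hw hm' g hg]

theorem four_CKUM (hH90 : H90_st) (hKAP : KAP_st) (hTAM : TAM_st) (a : GQ → ZMod 2)
    (T : Finset ℕ) (ha : Adt ⊤ a) (hl : Lc ⊤ a)
    (hT : ∀ (l : ℕ) [Fact l.Prime], l ≠ 2 → l ∉ T → ∀ τ ∈ Ine l 1, a τ = 0) :
    ∃ (i j : ℕ) (P : Finset ℕ), P ⊆ T ∧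
      ∀ g, a g = kap ((-1) ^ i * 2 ^ j * ∏ l ∈ P, (l : ℚ)) g := by
  obtain ⟨y, h0, h1, h2⟩ := h90_CKUM hH90 _ a ha hl
  obtain ⟨r, hr⟩ := rat_CKUM _ h1
  have hr0 : r ≠ 0 := by
    rintro rfl
    exact pow_ne_zero 2 h0 (by simpa using hr.symm)
  have h3 : ∀ g, a g = kap r g := fun g => by
    apply sgn_inj_CKUM
    have := h2 g trivial
    rw [hKAP.2.1 r y g hr.symm] at this
    exact (mul_right_cancel₀ h0 this).symm
  have hn : r.num * r.den ≠ 0 :=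
    mul_ne_zero (Rat.num_ne_zero.2 hr0) (by exact_mod_cast r.den_nz)
  obtain ⟨c, b, h4, h5⟩ := Nat.sq_mul_squarefree (r.num * r.den).natAbs
  have hb : b ≠ 0 := by
    rintro rfl
    apply hn
    rw [← Int.natAbs_eq_zero, ← h4]
    simp
  have hc : c ≠ 0 := h5.ne_zero
  obtain ⟨i, hi⟩ : ∃ i : ℕ, r.num * r.den = (-1) ^ i * c * b ^ 2 := by
    have h6 := congrArg (Nat.cast : ℕ → ℤ) h4
    push_cast at h6
    rcases abs_choice (r.num * r.den) with h | h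
    · exact ⟨0, by rw [← h, ← h6]; ring⟩
    · refine ⟨1, ?_⟩
      rw [← h6] at h
      linear_combination h
  have hcq : ((-1 : ℚ)) ^ i * c ≠ 0 :=
    mul_ne_zero (pow_ne_zero _ (by norm_num)) (by exact_mod_cast hc)
  have h7 : ∀ g, a g = kap ((-1) ^ i * c) g := fun g => by
    rw [h3, numden_CKUM hKAP r hr0, hi]
    push_cast
    rw [hKAP.2.2.1 _ _ g hcq (pow_ne_zero _ (by exact_mod_cast hb)), hKAP.2.2.2.1, add_zero]
  refine ⟨i, if 2 ∈ c.primeFactors then 1 else 0, c.primeFactors.erase 2, fun l hl => ?_,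
    fun g => ?_⟩
  · obtain ⟨h8, h9⟩ := Finset.mem_erase.1 hl
    have hp := Nat.prime_of_mem_primeFactors h9
    have := Fact.mk hp
    by_contra hlT
    obtain ⟨τ, h10, h11⟩ := (hTAM l 1 h8).1
    have h12 := hT l h8 hlT τ h10
    rw [h7, hKAP.2.2.2.2.2.1 l 1 _ h8 hcq τ h10, h11, mul_one] at h12
    have h13 : padicValRat l ((-1) ^ i * c) = 1 := by
      have e : padicValRat l ((-1) ^ i * c) = padicValRat l c := by
        rcases neg_one_pow_eq_or ℚ i with h | h <;> rw [h] <;> simp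
      rw [e, padicValRat.of_nat, ← Nat.factorization_def c hp,
        Nat.factorization_eq_one_of_squarefree h5 hp (Nat.dvd_of_mem_primeFactors h9)]
      rfl
    rw [h13] at h12
    exact absurd h12 (by decide)
  · rw [h7]
    congr 1
    rw [mul_assoc]
    congr 1
    have h8 := congrArg (Nat.cast : ℕ → ℚ) (Nat.prod_primeFactors_of_squarefree h5)
    push_cast at h8
    rw [← h8]
    split_ifs with h
    · rw [← Finset.mul_prod_erase _ _ h]
      simp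
    · rw [Finset.erase_eq_of_notMem h]
      simp

theorem KUM_pf (hH90 : H90_st) (hDEN : DEN_st) (hKAP : KAP_st) (hDIC : DIC_st) (hTAM : TAM_st) : KUM_st :=
  ⟨fun l _ γ H x s => one_CKUM l γ H x s, fun l _ γ a => two_CKUM hH90 hDEN hKAP l γ a,
    three_CKUM hKAP, fun a T ha hl _ hT => four_CKUM hH90 hKAP hTAM a T ha hl hT⟩

end Pool.Agent.MP_e23604_nt.R
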