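import Pool.Agent.MP_e23604_nt.R.CDefs
import Pool.Agent.MP_f3cd89_nt.Si
import Pool.Agent.MP_f3cd89_nt.Ntc
import Pool.Agent.MP_346737_nt.VEul

set_option autoImplicit false

open NumberField IsDedekindDomain Module Filter Topology
open scoped Classical

namespace Pool.Agent.MP_e23604_nt.R

open B Pool.Agent.MP_f3cd89_nt

section
variable {F : Type} [Field F] [NumberField F]

theorem ext_CLB2 (g : Pr F → ℂ) : ∃ X : Ideal (𝓞 F) →*₀ ℂ, ∀ v : Pr F, X v.asIdeal = g v := by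
  let g' : Ideal (𝓞 F) → ℂ := Function.extend (fun v : Pr F => v.asIdeal) g 0
  have hi : Function.Injective fun v : Pr F => v.asIdeal := fun _ _ h => HeightOneSpectrum.ext h
  refine ⟨⟨⟨fun I => if I = 0 then 0 else
    ((UniqueFactorizationMonoid.normalizedFactors I).map g').prod, if_pos rfl⟩, ?_, fun I J => ?_⟩,
    fun v => ?_⟩
  · change (if (1 : Ideal (𝓞 F)) = 0 then _ else _) = _
    rw [if_neg one_ne_zero, UniqueFactorizationMonoid.normalizedFactors_one, Multiset.map_zero,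
      Multiset.prod_zero]
  · change (if I * J = 0 then _ else _) = (if I = 0 then _ else _) * (if J = 0 then _ else _)
    by_cases hI : I = 0
    · rw [if_pos hI, if_pos (by rw [hI, zero_mul]), zero_mul]
    by_cases hJ : J = 0
    · rw [if_pos hJ, if_pos (by rw [hJ, mul_zero]), mul_zero]
    rw [if_neg hI, if_neg hJ, if_neg (mul_ne_zero hI hJ),
      UniqueFactorizationMonoid.normalizedFactors_mul hI hJ, Multiset.map_add, Multiset.prod_add]
  · change (if v.asIdeal = 0 then _ else _) = _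
    rw [if_neg v.prime.ne_zero,
      UniqueFactorizationMonoid.normalizedFactors_irreducible v.prime.irreducible, normalize_eq,
      Multiset.map_singleton, Multiset.prod_singleton]
    exact hi.extend_apply g 0 v

theorem ind_CLB2 {p : Ideal (𝓞 F) → Prop} (h0 : p 0) (h1 : p 1)
    (h : ∀ (v : Pr F) (I : Ideal (𝓞 F)), I ≠ 0 → p I → p (v.asIdeal * I)) (I : Ideal (𝓞 F)) :
    p I := by
  induction I using UniqueFactorizationMonoid.induction_on_prime with
  | h₁ => exact h0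
  | h₂ x hx => exact isUnit_iff_eq_one.1 hx ▸ h1
  | h₃ a P ha hP ih => exact h ⟨P, Ideal.isPrime_of_prime hP, hP.ne_zero⟩ a ha ih

theorem prod_CLB2 (f : Ideal (𝓞 F) → ℂ) (hm : ∀ I J, f (I * J) = f I * f J) (h0 : f 0 = 0)
    (h1 : f 1 = 1) (hs : Summable fun I => ‖f I‖) :
    HasProd (fun v : Pr F => (1 - f v.asIdeal)⁻¹) (∑' I, f I) := by
  have hi : Function.Injective fun v : Pr F => v.asIdeal := fun _ _ h => HeightOneSpectrum.ext h
  have a : Tendsto (fun T : Finset (Pr F) => (∑' I, f I) * ∏ v ∈ T, (1 - f v.asIdeal)) atTop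
      (𝓝 1) := by
    refine Metric.tendsto_atTop.2 fun ε hε => ?_
    have b : Tendsto (fun A : Finset (Ideal (𝓞 F)) => ∑ I ∈ A, ‖f I‖) atTop
      (𝓝 (∑' I, ‖f I‖)) := hs.hasSum
    obtain ⟨A, hA⟩ := (b.eventually (lt_mem_nhds (sub_lt_self _ hε))).exists
    have c : {v : Pr F | ∃ I ∈ A, I ≠ 0 ∧ v.asIdeal ∣ I}.Finite := by
      refine ((A.erase 0).finite_toSet.biUnion' (t := fun I _ => {v : Pr F | v.asIdeal ∣ I})
        fun I hI => Ideal.finite_factors (Finset.ne_of_mem_erase hI)).subset ?_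
      rintro v ⟨I, h2, h3, h4⟩
      exact Set.mem_biUnion (Finset.mem_erase.2 ⟨h3, h2⟩) h4
    refine ⟨c.toFinset, fun T hT => ?_⟩
    have d := MP_346737_nt.VEul_tail f hm h0 h1 _ _ hs.hasSum (fun _ => rfl) A
      (T.image fun v => v.asIdeal) (fun P hP => ?_) fun I hI hI0 P hP hd => ?_
    · rw [Finset.prod_image fun _ _ _ _ h => hi h] at d
      rw [dist_eq_norm]
      linarith
    · obtain ⟨v, -, rfl⟩ := Finset.mem_image.1 hP
      exact v.prime
    · exact Finset.mem_image.2 ⟨⟨P, Ideal.isPrime_of_prime hP, hP.ne_zero⟩,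
        hT (c.mem_toFinset.2 ⟨I, hI, hI0, hd⟩), rfl⟩
  have hL : ∑' I, f I ≠ 0 := fun h => by
    simp only [h, zero_mul] at a
    exact zero_ne_one (tendsto_const_nhds_iff.1 a)
  have e := (a.inv₀ one_ne_zero).const_mul (∑' I, f I)
  rw [inv_one, mul_one] at e
  refine e.congr fun T => ?_
  rw [mul_inv, mul_inv_cancel_left₀ hL, Finset.prod_inv_distrib]

theorem eul_CLB2 (X : Ideal (𝓞 F) →*₀ ℂ) (hX : ∀ I, ‖X I‖ ≤ 1) {s : ℝ} (hs : 1 < s) :
    ∑' v : Pr F, (X v.asIdeal).re * (nrm v : ℝ) ^ (-s) ≤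
      ‖∑' I : Ideal (𝓞 F), X I * (((Ideal.absNorm I : ℝ) ^ (-s) : ℝ) : ℂ)‖ +
        ∑' v : Pr F, (nrm v : ℝ) ^ (-2 : ℝ) := by
  have n : ∀ I : Ideal (𝓞 F), ‖X I * (((Ideal.absNorm I : ℝ) ^ (-s) : ℝ) : ℂ)‖ ≤
      (Ideal.absNorm I : ℝ) ^ (-s) := fun I => by
    rw [norm_mul, Complex.norm_of_nonneg (by positivity)]
    exact mul_le_of_le_one_left (by positivity) (hX I)
  have p : ∀ v : Pr F, (1 : ℝ) < nrm v := fun v => by exact_mod_cast two_le_nrm v
  have h := prod_CLB2 (fun I => X I * (((Ideal.absNorm I : ℝ) ^ (-s) : ℝ) : ℂ)) (fun I J => ?_)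
    (by rw [map_zero, zero_mul])
    (by rw [map_one, map_one, Nat.cast_one, Real.one_rpow, Complex.ofReal_one, mul_one])
    (.of_nonneg_of_le (fun _ => norm_nonneg _) n (MP_d64882_nt.hasSum_w F s hs).summable)
  · have k := SiX.euler (b := fun v : Pr F => (nrm v : ℝ) ^ (-2 : ℝ)) (fun v e => ?_)
      (fun v => ?_) ?_ ((ntc F).2.2.2.1 2 one_lt_two) h
    · simpa only [Complex.re_mul_ofReal] using k
    · have := n v.asIdeal
      rw [e, norm_one] at this
      exact (Real.rpow_lt_one_of_one_lt_of_neg (p v) (by linarith)).not_ge this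
    · refine (pow_le_pow_left₀ (norm_nonneg _) (n v.asIdeal) 2).trans ?_
      rw [← Real.rpow_natCast, ← Real.rpow_mul (Nat.cast_nonneg _)]
      exact Real.rpow_le_rpow_of_exponent_le (p v).le (by push_cast; linarith)
    · exact Summable.of_norm_bounded ((ntc F).2.2.2.1 s hs) fun v =>
        (Complex.abs_re_le_norm _).trans (n v.asIdeal)
  · rw [map_mul, map_mul, Nat.cast_mul, Real.mul_rpow (Nat.cast_nonneg _) (Nat.cast_nonneg _),
      Complex.ofReal_mul]
    ring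

theorem cop_CLB2 (S : Finset (Pr F)) {N : ℕ} (hN : 0 < N) (I : Ideal (𝓞 F)) :
    I ⊔ ∏ v ∈ S, v.asIdeal ^ N = ⊤ ↔ ∀ v ∈ S, ¬ v.asIdeal ∣ I := by
  constructor
  · intro h v hv hd
    refine v.isPrime.ne_top (top_unique (h.ge.trans (sup_le (Ideal.le_of_dvd hd) ?_)))
    exact Ideal.le_of_dvd ((dvd_pow_self _ hN.ne').trans (Finset.dvd_prod_of_mem _ hv))
  · intro h
    by_contra h1
    obtain ⟨M, hM, h2⟩ := Ideal.exists_le_maximal _ h1
    obtain ⟨v, hv, h3⟩ := (hM.isPrime.prod_le).1 (le_sup_right.trans h2)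
    have h4 : v.asIdeal = M :=
      v.isMaximal.eq_of_le hM.ne_top (hM.isPrime.le_of_pow_le h3)
    exact h v hv (Ideal.dvd_iff_le.2 (h4 ▸ le_sup_left.trans h2))

theorem span_CLB2 {a : 𝓞 F} (ha : a ≠ 0) : NtcX.idl (dv (a : F)) = Ideal.span {a} := by
  have a0 : (a : F) ≠ 0 := by simpa using ha
  ext b
  rw [NtcX.mem_idl, NtcX.mem_lat_dv a0, Ideal.mem_span_singleton']
  refine exists_congr fun c => ?_
  rw [mul_comm c, ← RingOfIntegers.coe_injective.eq_iff, map_mul]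

omit [NumberField F] in
theorem pos_CLB2 [IsTotallyComplex F] (x : F) : TPos x := fun φ => by
  have h := IsTotallyComplex.isComplex (InfinitePlace.mk (Complex.ofRealHom.comp φ))
  rw [← InfinitePlace.not_isReal_iff_isComplex, InfinitePlace.isReal_mk_iff] at h
  exact absurd (RingHom.ext fun y => Complex.conj_ofReal _) h

end

theorem LB2_pf (hLB1 : LB1_st) : LB2_st := by
  intro F _ _ _ S N ψ hN hψ h1 ⟨c, hc, hc1⟩
  obtain ⟨X, hX⟩ := ext_CLB2 fun v => if v ∈ S then 0 else (ψ v : ℂ)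
  have a1 : ∀ I, ‖X I‖ ≤ 1 := ind_CLB2 (by rw [map_zero, norm_zero]; exact zero_le_one)
    (by rw [map_one, norm_one]) fun v I _ ih => by
      rw [map_mul, norm_mul, hX]
      split_ifs
      · simp
      · rwa [h1, one_mul]
  have a2 : ∀ I, I ≠ 0 → (∀ v ∈ S, ¬ v.asIdeal ∣ I) → ‖X I‖ = 1 :=
    ind_CLB2 (fun h => absurd rfl h) (fun _ _ => by rw [map_one, norm_one]) fun v I hI ih _ h => by
      rw [map_mul, norm_mul, hX, if_neg fun hv => h v hv (dvd_mul_right _ _), h1, one_mul]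
      exact ih hI fun u hu hd => h u hu (hd.mul_left _)
  have k := hLB1 F (∏ v ∈ S, v.asIdeal ^ N) X
    (Finset.prod_ne_zero_iff.2 fun v _ => pow_ne_zero _ v.ne_bot) X.map_mul
    (fun I hI h => a2 I hI ((cop_CLB2 S hN I).1 h)) (fun I h => ?_) X.map_zero (fun x h0 hx => ?_)
    ⟨c.asIdeal, c.ne_bot, (cop_CLB2 S hN _).2 fun v hv hd => ?_, ?_⟩
  · obtain ⟨C, hC⟩ := k
    refine ⟨C + ∑' v : Pr F, (nrm v : ℝ) ^ (-2 : ℝ), ?_⟩
    filter_upwards [Ioc_mem_nhdsGT one_lt_two] with s hs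
    refine le_trans (le_of_eq ?_) ((eul_CLB2 X a1 hs.1).trans (add_le_add_left (hC s hs.1 hs.2) _))
    refine (tsum_subtype {v | v ∉ S} fun v => (ψ v : ℂ).re * (nrm v : ℝ) ^ (-s)).trans
      (tsum_congr fun v => ?_)
    rw [hX]
    by_cases h : v ∈ S <;> simp [h]
  · rw [Ne, cop_CLB2 S hN] at h
    push Not at h
    obtain ⟨v, hv, J, rfl⟩ := h
    rw [map_mul, hX, if_pos hv, zero_mul]
  · have b : ∀ v ∈ S, x - 1 ∈ v.asIdeal ^ N := fun v hv =>
      Ideal.le_of_dvd (Finset.dvd_prod_of_mem _ hv) hx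
    have r := hψ x ⟨by simpa using h0, pos_CLB2 _, fun v hv =>
      (v.valuation_of_algebraMap (K := F) (x - 1)).le.trans
        ((v.intValuation_le_pow_iff_mem _ _).2 (b v hv))⟩
    rw [← span_CLB2 h0, NtcX.idl, map_prod, ← Units.val_one, ← r, chv, Finsupp.prod,
      Units.coe_prod]
    refine Finset.prod_congr rfl fun v hv => ?_
    have hS : v ∉ S := fun h => Finsupp.mem_support_iff.1 hv ((ord_eq_zero_iff v h0).2 fun h2 => by
      have h3 := v.asIdeal.sub_mem h2 (Ideal.pow_le_self hN.ne' (b v h))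
      rw [sub_sub_cancel] at h3
      exact v.isPrime.ne_top ((Ideal.eq_top_iff_one _).2 h3))
    rw [map_pow, hX, if_neg hS, Units.val_zpow_eq_zpow_val, ← zpow_natCast, dv_apply,
      Int.toNat_of_nonneg (ord_nonneg v x)]
  · rw [prime_dvd_prime_iff_eq v.prime c.prime] at hd
    exact hc (HeightOneSpectrum.ext hd ▸ hv)
  · rw [hX, if_neg hc]
    exact fun h => hc1 (Units.ext h)

end Pool.Agent.MP_e23604_nt.R
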