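import Pool.Agent.MP_e23604_nt.R.CDefs

set_option autoImplicit false

open NumberField IsDedekindDomain Module Filter Topology
open scoped Classical

namespace Pool.Agent.MP_e23604_nt.R

open B Pool.Agent.MP_f3cd89_nt

theorem wa_LOCN {M : Type} [Field M] [NumberField M] (T : Finset (Pr M)) (t : Pr M → M)
    (ht : ∀ w ∈ T, t w ≠ 0) (n : ℤ) :
    ∃ y : M, y ≠ 0 ∧ ∀ w ∈ T, w.valuation M (y / t w - 1) ≤ WithZero.exp n := by
  obtain ⟨y, y0, hy, -⟩ := wa T t (n - ∑ w ∈ T, |ord w (t w)|)
  refine ⟨y, y0, fun w hw => ?_⟩
  rw [div_sub_one (ht w hw), map_div₀, val_eq_exp w (ht w hw), div_le_iff₀ WithZero.exp_pos,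
    ← WithZero.exp_add]
  refine (hy w hw).trans (WithZero.exp_le_exp.2 ?_)
  have h1 : |ord w (t w)| ≤ ∑ w ∈ T, |ord w (t w)| :=
    Finset.single_le_sum (f := fun w => |ord w (t w)|) (fun _ _ => abs_nonneg _) hw
  have h2 := le_abs_self (ord w (t w))
  omega

theorem div_LOCN {M : Type} [Field M] [NumberField M] (w : Pr M) (N : ℕ) {x u : M}
    (hx : w.valuation M (x - 1) ≤ WithZero.exp (-(N : ℤ)))
    (hu : w.valuation M (u - 1) ≤ WithZero.exp (-(N : ℤ) - 1)) :
    w.valuation M (x / u - 1) ≤ WithZero.exp (-(N : ℤ)) := by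
  have h1 : w.valuation M u = 1 := val_one_of _ (hu.trans_lt (by
    rw [← WithZero.exp_zero, WithZero.exp_lt_exp]; omega))
  have u0 : u ≠ 0 := by rintro rfl; simp at h1
  rw [div_sub_one u0, map_div₀, h1, div_one, show x - u = (x - 1) - (u - 1) by ring]
  exact Valuation.map_sub_le _ hx (hu.trans (WithZero.exp_le_exp.2 (by omega)))

theorem LOCN_pf : LOCN_st := by
  intro F M _ _ _ _ _ _ s S a h2 _ a0 hsa hev hloc
  have hss : s * s = 1 := by
    have h := pow_card_eq_one' (G := M ≃ₐ[F] M) (x := s)
    rwa [IsGalois.card_aut_eq_finrank, h2, pow_two] at h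
  have hσ : ∀ w : Pr M, gact s (gact s w) = w := fun w => by rw [← gact_mul, hss, gact_one]
  have hab : ∀ w : Pr M, gact s w ∈ above M S ↔ w ∈ above M S := fun w => by
    have e : (gact s w).under (𝓞 F) = w.under (𝓞 F) := by
      refine HeightOneSpectrum.ext ?_
      change (gact s w).asIdeal.under (𝓞 F) = w.asIdeal.under (𝓞 F)
      rw [gact_asIdeal, Ideal.under_smul]
    rw [mem_above, mem_above, e]
  have hord : ∀ w : Pr M, ord (gact s w) a = ord w a := fun w => by
    have := ord_gact s w a
    rwa [AlgEquiv.smul_def, hsa] at this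
  let ch : Pr M → Prop := fun w => WellOrderingRel w (gact s w)
  have hch : ∀ w, gact s w ≠ w → (ch (gact s w) ↔ ¬ ch w) := fun w hw => by
    simp only [ch, hσ]
    refine ⟨fun h h' => asymm_of WellOrderingRel h h', fun h => ?_⟩
    rcases trichotomous_of WellOrderingRel w (gact s w) with h' | h' | h'
    · exact absurd h' h
    · exact absurd h'.symm hw
    · exact h'
  have hne : ∀ w, gact s w ≠ w → gact s (gact s w) ≠ gact s w := fun w hw => by
    rw [hσ]; exact hw.symm
  constructor
  · let e : Pr M → ℤ := fun w => if w ∈ above M S then 0 else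
      if gact s w = w then ord w a / 2 else if ch w then ord w a else 0
    have he : (Function.support e).Finite := (ord_finite a).subset fun w hw h => hw (by
      simp only [e, h]; simp)
    refine ⟨Finsupp.ofSupportFinite e he, fun w hw => if_pos hw, fun w hw => ?_⟩
    change ord w a = e w + e (gact s w)
    simp only [e, hab, if_neg hw, hord]
    by_cases h : gact s w = w
    · obtain ⟨k, hk⟩ := hev w hw h
      simp only [h, if_true]
      omega
    · rw [if_neg h, if_neg (hne w h)]
      by_cases hc : ch w
      · rw [if_pos hc, if_neg fun h' => (hch w h).1 h' hc, add_zero]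
      · rw [if_neg hc, if_pos ((hch w h).2 hc), zero_add]
  · intro N
    choose! y₀ hy₀ using fun w hw h => hloc w hw h N
    let t : Pr M → M := fun w => if gact s w = w then y₀ w else if ch w then a else 1
    have ht : ∀ w ∈ above M S, t w ≠ 0 := fun w hw => by
      simp only [t]
      split_ifs with h1 h2
      · exact (hy₀ w hw h1).1
      · exact a0
      · exact one_ne_zero
    have ht' : ∀ w ∈ above M S,
        w.valuation M (a / (t w * s (t (gact s w))) - 1) ≤ WithZero.exp (-(N : ℤ)) := by
      intro w hw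
      by_cases h : gact s w = w
      · simp only [t, h, if_true]
        exact (hy₀ w hw h).2 w (Finset.mem_singleton_self w)
      · have e : t w * s (t (gact s w)) = a := by
          simp only [t, if_neg h, if_neg (hne w h)]
          by_cases hc : ch w
          · rw [if_pos hc, if_neg fun h' => (hch w h).1 h' hc, map_one, mul_one]
          · rw [if_neg hc, if_pos ((hch w h).2 hc), hsa, one_mul]
        rw [e, div_self a0, sub_self, map_zero]
        exact zero_le
    obtain ⟨y, y0, hy⟩ := wa_LOCN (above M S) t ht (-(N : ℤ) - 1)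
    refine ⟨y, y0, fun w hw => ?_⟩
    have hw' := (hab w).2 hw
    have h1 := hy _ hw'
    rw [← val_gact s, hσ, AlgEquiv.smul_def, map_sub, map_div₀, map_one] at h1
    have h3 := div_LOCN w N (div_LOCN w N (ht' w hw) (hy w hw)) h1
    have t0 := ht w hw
    have t1 : s (t (gact s w)) ≠ 0 := by simpa using ht _ hw'
    have y1 : s y ≠ 0 := by simpa using y0
    have e : a / (t w * s (t (gact s w))) / (y / t w) / (s y / s (t (gact s w))) =
        a / (y * s y) := by field_simp
    rwa [e] at h3

end Pool.Agent.MP_e23604_nt.R
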