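import Pool.Agent.MP_e23604_nt.R.CDefs

set_option autoImplicit false

open NumberField IsDedekindDomain Module Filter Topology
open scoped Classical

namespace Pool.Agent.MP_e23604_nt.R

open B Pool.Agent.MP_f3cd89_nt

section
variable {n : ℕ} {H H' : Subgroup GQ} {χ : GQ → ZMod n} {s : GQ}

theorem one_NRM (hχ : Adt H' χ) : χ 1 = 0 := by
  have := hχ 1 (one_mem _) 1 (one_mem _)
  rw [mul_one] at this
  exact left_eq_add.1 this

theorem inv_NRM (hχ : Adt H' χ) {g : GQ} (hg : g ∈ H') : χ g⁻¹ = -χ g := by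
  have := hχ g hg g⁻¹ (inv_mem hg)
  rw [mul_inv_cancel, one_NRM hχ] at this
  exact eq_neg_of_add_eq_zero_right this.symm

theorem pow_NRM (hχ : Adt H' χ) (hs : s ∈ H') (h1 : χ s = 1) (i : ℕ) : χ (s ^ i) = i := by
  induction i with
  | zero => rw [pow_zero, one_NRM hχ, Nat.cast_zero]
  | succ i ih => rw [pow_succ, hχ _ (pow_mem hs i) _ hs, ih, h1, Nat.cast_succ]

theorem eq_NRM (hχ : Adt H' χ) (hH : ∀ g, g ∈ H ↔ g ∈ H' ∧ χ g = 0) {y : Qb} (hy : Fix H y)
    {g g' : GQ} (hg : g ∈ H') (hg' : g' ∈ H') (e : χ g = χ g') : g y = g' y := by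
  have h1 : g'⁻¹ * g ∈ H := (hH _).2 ⟨mul_mem (inv_mem hg') hg, by
    rw [hχ _ (inv_mem hg') _ hg, inv_NRM hχ hg', e, neg_add_cancel]⟩
  have := congrArg g' (hy _ h1)
  rwa [← AlgEquiv.mul_apply, mul_inv_cancel_left] at this

theorem per_NRM {u : ℕ → Qb} (hu : ∀ i, u (n + i) = u i) (k r : ℕ) :
    ∏ i ∈ Finset.range (n * k + r), u i
      = (∏ i ∈ Finset.range n, u i) ^ k * ∏ i ∈ Finset.range r, u i := by
  induction k with
  | zero => simp
  | succ k ih =>
    rw [show n * (k + 1) + r = n + (n * k + r) by ring, Finset.prod_range_add]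
    simp only [hu]
    rw [ih, pow_succ', mul_assoc]

end

theorem NRM_pf (hH90 : H90_st) : NRM_st := by
  intro n H H' χ s hn hχ hH hs h1
  have : NeZero n := ⟨by omega⟩
  have hle : H ≤ H' := fun g hg => ((hH g).1 hg).1
  have hp := pow_NRM hχ hs h1
  refine ⟨fun y hy => ?_, fun a ha => ?_⟩
  · have act : ∀ g ∈ H', ∀ i, g ((s ^ i) y) = (s ^ ((χ g).val + i)) y := fun g hg i => by
      rw [← AlgEquiv.mul_apply]
      refine eq_NRM hχ hH hy (mul_mem hg (pow_mem hs i)) (pow_mem hs _) ?_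
      rw [hχ _ hg _ (pow_mem hs i), hp, hp, Nat.cast_add, ZMod.natCast_zmod_val]
    have per : ∀ i, (s ^ (n + i)) y = (s ^ i) y := fun i =>
      eq_NRM hχ hH hy (pow_mem hs _) (pow_mem hs _) (by
        rw [hp, hp, Nat.cast_add, ZMod.natCast_self, zero_add])
    have key : ∀ g ∈ H', ∀ m, (∏ i ∈ Finset.range (χ g).val, (s ^ i) y) *
        g (∏ i ∈ Finset.range m, (s ^ i) y) = ∏ i ∈ Finset.range ((χ g).val + m), (s ^ i) y :=
      fun g hg m => by
        rw [Finset.prod_range_add, map_prod]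
        simp only [act g hg]
    refine ⟨fun g hg => ?_, fun g hg h hh => ?_, fun g h hh => ?_⟩
    · rcases eq_or_ne y 0 with rfl | h0
      · have : ∏ i ∈ Finset.range n, (s ^ i) (0 : Qb) = 0 :=
          Finset.prod_eq_zero (i := 0) (Finset.mem_range.2 (by omega)) (map_zero _)
        rw [this, map_zero]
      · have h2 := key g hg n
        have h3 := per_NRM (u := fun i => (s ^ i) y) per 1 (χ g).val
        rw [mul_one, pow_one, add_comm, ← h2, mul_comm] at h3
        exact mul_right_cancel₀ (Finset.prod_ne_zero_iff.2 fun i _ => (map_ne_zero _).2 h0) h3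
    · simp only
      rw [key g hg, hχ g hg h hh, ZMod.val_add, car,
        ← per_NRM (u := fun i => (s ^ i) y) per, Nat.div_add_mod]
    · rw [map_prod]
      refine Finset.prod_congr rfl fun i _ => ?_
      rw [act h (hle hh), ((hH h).1 hh).2, ZMod.val_zero, zero_add]
  · obtain ⟨N, β, hN, hβ, hb⟩ := ha
    have c0 : ∀ x : ZMod n, car 0 x = 0 := fun x => by
      rw [car, ZMod.val_zero, zero_add, Nat.div_eq_of_lt (ZMod.val_lt x)]
    have c1 : ∀ x : ZMod n, car x 0 = 0 := fun x => by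
      rw [car, ZMod.val_zero, add_zero, Nat.div_eq_of_lt (ZMod.val_lt x)]
    obtain ⟨z, z0, -, hz⟩ := hH90.1 N H β hN (hβ.mono le_rfl hle) fun g hg h hh => by
      have := hb g (hle hg) h (hle hh)
      simp only [((hH g).1 hg).2, c0, pow_zero, one_mul] at this
      exact this.symm
    have gz : ∀ g : GQ, g z ≠ 0 := fun g => (map_ne_zero _).2 z0
    obtain ⟨β', hβ'⟩ : ∃ β' : GQ → Qb, ∀ g, β' g = β g * z / g z := ⟨_, fun _ => rfl⟩
    have b1 : ∀ g ∈ H, β' g = 1 := fun g hg => by rw [hβ', ← hz g hg, div_self (gz g)]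
    have b2 : ∀ g ∈ H', ∀ h ∈ H', β' g * g (β' h) = a ^ car (χ g) (χ h) * β' (g * h) :=
      fun g hg h hh => by
        have h2 := hb g hg h hh
        have h3 := gz g
        have h4 := gz (g * h)
        simp only at h2
        rw [hβ', hβ', hβ', map_div₀, map_mul, ← AlgEquiv.mul_apply g h z,
          ← mul_div_assoc (a ^ _), ← mul_assoc (a ^ _), ← h2]
        field_simp
    have v : ∀ i < n, car (χ (s ^ i)) (χ s) = (i + 1) / n := fun i hi => by
      rw [car, hp, h1, ZMod.val_cast_of_lt hi, ← Nat.cast_one (R := ZMod n),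
        ZMod.val_cast_of_lt (show 1 < n by omega)]
    have b3 : ∀ i < n, β' (s ^ i) = ∏ j ∈ Finset.range i, (s ^ j) (β' s) := fun i hi => by
      induction i with
      | zero => rw [pow_zero, b1 1 (one_mem _), Finset.prod_range_zero]
      | succ i ih =>
        have := b2 _ (pow_mem hs i) s hs
        rw [v i (by omega), Nat.div_eq_of_lt hi, pow_zero, one_mul, ← pow_succ] at this
        rw [← this, ih (by omega), Finset.prod_range_succ]
    refine ⟨β' s, ?_, fun h hh => ?_, ?_⟩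
    · rw [hβ']
      exact div_ne_zero (mul_ne_zero (hβ.2 s hs).1 z0) (gz s)
    · have h2 : s⁻¹ * h * s ∈ H := (hH _).2 ⟨mul_mem (mul_mem (inv_mem hs) (hle hh)) hs, by
        rw [hχ _ (mul_mem (inv_mem hs) (hle hh)) _ hs, hχ _ (inv_mem hs) _ (hle hh),
          inv_NRM hχ hs, ((hH h).1 hh).2, add_zero, neg_add_cancel]⟩
      have h3 := b2 h (hle hh) s hs
      have h4 := b2 s hs _ (hle h2)
      rw [b1 h hh, ((hH h).1 hh).2, c0, pow_zero, one_mul, one_mul] at h3
      rw [b1 _ h2, ((hH _).1 h2).2, c1, pow_zero, one_mul, map_one, mul_one, mul_assoc,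
        mul_inv_cancel_left] at h4
      rw [h3, h4]
    · obtain ⟨m, rfl⟩ : ∃ m, n = m + 1 := ⟨n - 1, by omega⟩
      have := b2 _ (pow_mem hs m) s hs
      rw [v m (by omega), Nat.div_self (by omega), pow_one, ← pow_succ,
        b1 (s ^ (m + 1)) ((hH _).2 ⟨pow_mem hs _, by rw [hp, ZMod.natCast_self]⟩), mul_one] at this
      rw [← this, b3 m (by omega), Finset.prod_range_succ]

end Pool.Agent.MP_e23604_nt.R
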