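import Pool.Agent.MP_e23604_nt.R.CDefs

set_option autoImplicit false

open NumberField IsDedekindDomain Module Filter Topology
open scoped Classical

namespace Pool.Agent.MP_e23604_nt.R

open B Pool.Agent.MP_f3cd89_nt

theorem one_CREC {M : Type} [AddGroup M] {H : Subgroup GQ} {f : GQ → M} (h : Adt H f) :
    f 1 = 0 := by
  have := h 1 H.one_mem 1 H.one_mem
  rw [mul_one] at this
  exact left_eq_add.1 this

theorem pow_CREC {M : Type} [AddGroup M] {H : Subgroup GQ} {f : GQ → M} (h : Adt H f) {g : GQ}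
    (hg : g ∈ H) (i : ℕ) : f (g ^ i) = i • f g := by
  induction i with
  | zero => rw [pow_zero, one_CREC h, zero_nsmul]
  | succ i ih => rw [pow_succ, h _ (H.pow_mem hg i) g hg, ih, succ_nsmul]

theorem cst_CREC {m : ℕ} {U : Subgroup GQ} {χ : GQ → ZMod (2 ^ m)} {f : ℕ → ZMod (2 ^ m)}
    (h : Chi m U χ f) (g j : GQ) (e : g⁻¹ * j ∈ U) : χ g = χ j := by
  have := h.add g trivial (g⁻¹ * j) trivial
  rw [mul_inv_cancel_left, (h.ker _).1 e, add_zero] at this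
  exact this.symm

theorem car_zero_CREC (n : ℕ) : car (0 : ZMod n) 0 = 0 := by simp [car]

/-- a local class dies in a large unramified extension -/
theorem loc_CREC (hFRO : FRO_st) {l : ℕ} [Fact l.Prime] {c : GQ → GQ → Qb} {r : ℚ}
    (h : Inv l 1 c r) (h2 : l ≠ 2) : ∃ k0 : ℕ, ∀ (m : ℕ) (U : Subgroup GQ)
      (χ : GQ → ZMod (2 ^ m)) (f : ℕ → ZMod (2 ^ m)), Chi m U χ f →
      (∀ i : ℕ, (i : ZMod (2 ^ m)) * f l = 0 → 2 ^ k0 ∣ i) → Cob (Dec (nv l 1) ⊓ U) c := by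
  obtain ⟨n, k, s, a, φ, rfl, -, hφ, hs, ⟨N, hN, hc⟩, hi, -, hb⟩ := h
  refine ⟨k, fun m U χ f hχ hf => ?_⟩
  have h0 : ∀ g ∈ Dec (nv l 1) ⊓ U, s g = 0 := fun g hg => by
    obtain ⟨i, τ, hτ, e⟩ := ((hFRO l 1).2 φ hφ).2.2.2.1 (N ⊓ U) (hN.inf hχ.lev.1) g hg.1
    have hp := (Dec (nv l 1)).pow_mem hφ.1 i
    have e1 := cst_CREC hχ _ _ e.2
    rw [(hχ.ker g).1 hg.2, hχ.add _ trivial _ trivial, (hχ.ker τ).1 (hχ.unr l 1 h2 hτ), add_zero,
      pow_CREC hχ.add trivial, hχ.fr l 1 φ h2 hφ, nsmul_eq_mul] at e1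
    rw [← hc _ (mul_mem hp (Ine_le l 1 hτ)) g hg.1 e.1, hs _ hp _ (Ine_le l 1 hτ), hi τ hτ,
      add_zero, pow_CREC hs hφ.1, nsmul_eq_mul, (ZMod.natCast_eq_zero_iff _ _).2 (hf i e1),
      zero_mul]
  refine (hb.mono inf_le_left).congr fun g hg j hj => ?_
  rw [h0 g hg, h0 j hj, car_zero_CREC, pow_zero, mul_one]

theorem div_CREC {H : Subgroup GQ} {c d : GQ → GQ → Qb} (h : Cob H c)
    (h' : Cob H fun g j => c g j * d g j) (h0 : ∀ g j, c g j ≠ 0) : Cob H d :=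
  (h'.mul h.inv).congr fun g _ j _ => by
    have := h0 g j
    field_simp

theorem prod_CREC {v : AbsoluteValue Qb ℝ} (hv : IsNonarchimedean v) {δ : ℝ} (h0 : 0 ≤ δ)
    (h1 : δ ≤ 1) (u : ℕ → Qb) (hu : ∀ i, v (u i - 1) ≤ δ) (n : ℕ) :
    v (∏ i ∈ Finset.range n, u i - 1) ≤ δ := by
  induction n with
  | zero => simpa using h0
  | succ n ih =>
    have e : ∏ i ∈ Finset.range (n + 1), u i - 1 =
        (∏ i ∈ Finset.range n, u i - 1) * (u n - 1) +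
          ((∏ i ∈ Finset.range n, u i - 1) + (u n - 1)) := by
      rw [Finset.prod_range_succ]
      ring
    rw [e]
    refine (hv _ _).trans (max_le ?_ ((hv _ _).trans (max_le ih (hu n))))
    rw [map_mul]
    exact (mul_le_of_le_one_left (v.nonneg _) (ih.trans h1)).trans (hu n)

/-- the class is cyclic, with a rational number close to one at the prime two -/
theorem glob_CREC (hCYC : CYC_st) (hNRM : NRM_st) (hDEN : DEN_st) {m : ℕ} {N U : Subgroup GQ}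
    {χ : GQ → ZMod (2 ^ m)} {f : ℕ → ZMod (2 ^ m)} (hχ : Chi m U χ f) {c : GQ → GQ → Qb}
    {β : GQ → Qb} (hN : ON N) (hU : N ≤ U) (hc : Coc ⊤ c) (hi : Inf2 N ⊤ c) (h1 : Inf1 N U β)
    (hb : Bd U c β) (h2 : Cob (Dec (nv 2 1)) c) :
    ∃ (a : ℚ) (β' : GQ → Qb), a ≠ 0 ∧ nv 2 1 ((a : Qb) - 1) ≤ nv 2 1 2 ^ (m + 2) ∧
      Inf1 N ⊤ β' ∧ Bd ⊤ (fun g h => c g h * (a : Qb) ^ car (χ g) (χ h)) β' := by
  obtain ⟨s, hs, hs1⟩ := hχ.two
  have hm : 2 ≤ 2 ^ m := Nat.le_self_pow hχ.pos.ne' 2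
  have hk : ∀ g, g ∈ U ↔ g ∈ (⊤ : Subgroup GQ) ∧ χ g = 0 := fun g => by simp [hχ.ker g]
  obtain ⟨a, β', -, ha, h3, h4⟩ := hCYC _ N U ⊤ χ s c β hm hN hU hχ.add hk trivial hs1 hc hi h1 hb
  have h5 : Cob (Dec (nv 2 1)) fun g h => a ^ car (χ g) (χ h) :=
    div_CREC h2 (Cob.mono ⟨N, β', hN, h3, h4⟩ le_top) fun g j => (hi.2.2 g trivial j trivial).1
  obtain ⟨y, hy0, hy, hya⟩ := (hNRM _ (Dec (nv 2 1) ⊓ U) (Dec (nv 2 1)) χ s hm
    (hχ.add.mono le_top) (fun g => by rw [Subgroup.mem_inf, hχ.ker g]) hs hs1).2 a h5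
  set v := nv 2 1 with hv
  have hna : IsNonarchimedean v := nv_na 2 1
  have hδ0 : 0 < v 2 ^ (m + 2) := pow_pos (v.pos two_ne_zero) _
  have hδ1 : v 2 ^ (m + 2) ≤ 1 := pow_le_one₀ (v.nonneg _) (by exact_mod_cast (nv_lt 2 1).le)
  have hvy := v.pos hy0
  obtain ⟨y0, h6, h7⟩ := hDEN 2 1 U y (v y * v 2 ^ (m + 2)) hχ.lev.1.2 hy (mul_pos hvy hδ0)
  have h8 : v y ≤ v y0 := by
    have e : y = (y - y0) + y0 := by ring
    have h9 := hna (y - y0) y0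
    rw [← e] at h9
    rcases le_max_iff.1 h9 with h | h
    · exact absurd (h7.trans_le (mul_le_of_le_one_right hvy.le hδ1)) (not_lt.2 h)
    · exact h
  have hvy0 := hvy.trans_le h8
  have hy00 : y0 ≠ 0 := v.pos_iff.1 hvy0
  have h9 : v (y / y0 - 1) ≤ v 2 ^ (m + 2) := by
    rw [div_sub_one hy00, map_div₀, div_le_iff₀ hvy0, mul_comm]
    exact h7.le.trans (mul_le_mul_of_nonneg_right h8 hδ0.le)
  obtain ⟨h10, h11, h12⟩ := (hNRM _ U ⊤ χ s hm hχ.add hk trivial hs1).1 y0 h6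
  have hne : ∀ (z : Qb) (j : ℕ), z ≠ 0 → ∏ i ∈ Finset.range j, (s ^ i) z ≠ 0 := fun z j hz =>
    Finset.prod_ne_zero_iff.2 fun i _ => (map_ne_zero _).2 hz
  obtain ⟨q, hq⟩ := (InfiniteGalois.mem_range_algebraMap_iff_fixed (k := ℚ)
    (a / ∏ i ∈ Finset.range (2 ^ m), (s ^ i) y0)).2 fun g => by
      rw [map_div₀, ha g trivial, h10 g trivial]
  rw [eq_ratCast] at hq
  have hq' : (q : Qb) = ∏ i ∈ Finset.range (2 ^ m), (s ^ i) (y / y0) := by
    rw [hq, ← hya, ← Finset.prod_div_distrib]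
    simp only [map_div₀]
  refine ⟨q, fun g => β' g / ∏ i ∈ Finset.range (χ g).val, (s ^ i) y0, fun h0 => ?_, ?_,
    ⟨fun g _ j _ e => ?_, fun g _ => ⟨div_ne_zero (h3.2 g trivial).1 (hne _ _ hy00),
      fun x hx => ?_⟩⟩, fun g _ j _ => ?_⟩
  · rw [h0, Rat.cast_zero] at hq'
    exact hne _ _ (div_ne_zero hy0 hy00) hq'.symm
  · rw [hq']
    refine prod_CREC hna hδ0.le hδ1 _ (fun i => ?_) _
    rw [← map_one (s ^ i), ← map_sub, (Dec v).pow_mem hs i]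
    exact h9
  · simp only [h3.1 g trivial j trivial e, cst_CREC hχ g j (hU e)]
  · rw [map_div₀, (h3.2 g trivial).2 x hx, h12 g x (hU hx)]
  · have e1 := h4 g trivial j trivial
    have e2 := h11 g trivial j trivial
    have n1 := hne y0 (χ (g * j)).val hy00
    have n2 := hne y0 (2 ^ m) hy00
    simp only at e1 e2 ⊢
    rw [map_div₀, div_mul_div_comm, e1, e2, hq, div_pow]
    field_simp

theorem int_CREC {m : ℕ} (z : ℤ) (h : (z : ZMod (2 ^ m)) = 0) :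
    (z : ℚ) / ((2 ^ m : ℕ) : ℚ) ∈ (Int.castRingHom ℚ).range := by
  obtain ⟨k, rfl⟩ := (ZMod.intCast_zmod_eq_zero_iff_dvd _ _).1 h
  refine ⟨k, ?_⟩
  rw [eq_intCast, Int.cast_mul, Int.cast_natCast, mul_div_cancel_left₀]
  positivity

theorem REC_pf (hABHN : ABHN_st) (hCYC : CYC_st) (hNRM : NRM_st) (hCONJ : CONJ_st) (hVAL : VAL_st) (hCHI : CHI_st) (hDEN : DEN_st) (hFRO : FRO_st) (hDIC : DIC_st) : REC_st := by
  intro N c cc n Q r hN hc hi hn hcn hcc hcob hQ hinv hout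
  have hc0 : ∀ g j, c g j ≠ 0 := fun g j => (hi.2.2 g trivial j trivial).1
  have hc1 : ∀ (v : AbsoluteValue Qb ℝ) g j, v (c g j) = 1 := fun v g j => by
    have := congrArg v (hcn g j)
    rw [map_pow, map_one] at this
    exact (pow_eq_one_iff_of_nonneg (v.nonneg _) hn).1 this
  have hk : ∀ l : ℕ, ∃ k0 : ℕ, ∀ [Fact l.Prime], l ∈ Q → ∀ (m : ℕ) (U : Subgroup GQ)
      (χ : GQ → ZMod (2 ^ m)) (f : ℕ → ZMod (2 ^ m)), Chi m U χ f →
      (∀ i : ℕ, (i : ZMod (2 ^ m)) * f l = 0 → 2 ^ k0 ∣ i) → Cob (Dec (nv l 1) ⊓ U) c := by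
    intro l
    by_cases hl : l ∈ Q
    · have := Fact.mk (hQ l hl).1
      obtain ⟨k0, h⟩ := loc_CREC hFRO (hinv l hl) (hQ l hl).2
      exact ⟨k0, fun _ => h⟩
    · exact ⟨0, fun h => absurd h hl⟩
  choose k0 hk0 using hk
  obtain ⟨m, U, χ, f, hχ, hf⟩ := hCHI (Q.sup k0) (Q.sup id)
  have hNU := hN.inf hχ.lev
  obtain ⟨β, h1, h2⟩ := hABHN (N ⊓ U) U c hNU inf_le_right hχ.nr (hc.mono le_top)
    (hi.mono inf_le_left le_top) fun l _ γ => by
      have hj := hCONJ.2 N U c l 1 γ hN.1 hχ.lev.1.1 hc hi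
      by_cases hl : l ∈ Q
      · exact Or.inl (hj (hk0 l hl m U χ f hχ fun i e => (pow_dvd_pow 2 (Finset.le_sup hl)).trans
          (hf l (hQ l hl).1 (hQ l hl).2 (Finset.le_sup (f := id) hl) i e)))
      · rcases hout l hl with h | h
        · exact Or.inl (hj (h.mono inf_le_left))
        · exact Or.inr ⟨fun τ h3 h4 => ⟨h.2 γ h4, h3⟩, fun g _ j _ => hc1 _ g j⟩
  have h3 : Cob (Dec (nv 2 1)) c :=
    (hout 2 fun h => (hQ 2 h).2 rfl).resolve_right fun h => h.1 rfl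
  obtain ⟨a, β', ha0, ha1, h4, h5⟩ := glob_CREC hCYC hNRM hDEN hχ hNU.1 inf_le_right hc
    (hi.mono inf_le_left le_rfl) h1 h2 h3
  have h6 : Cob ⊤ fun g h => c g h * (a : Qb) ^ car (χ g) (χ h) := ⟨_, β', hNU.1, h4, h5⟩
  have hpos : 0 < a := by
    obtain ⟨N', b, -, h7, h8⟩ := div_CREC hcob (h6.mono le_top) hc0
    obtain ⟨h9, h10⟩ := hDIC.2.2.2.2 cc hcc
    have hm := Subgroup.mem_zpowers cc
    have e1 := h8 1 (one_mem _) 1 (one_mem _)
    have e2 := h8 cc hm cc hm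
    simp only [one_CREC hχ.add, car_zero_CREC, pow_zero, mul_one, one_mul,
      AlgEquiv.one_apply] at e1
    have e3 : car (χ cc) (χ cc) = 1 := by
      rw [car, hχ.cc cc hcc, Nat.div_self (by positivity)]
    simp only [h9, e3, pow_one] at e2
    rw [(mul_eq_left₀ (h7.2 1 (one_mem _)).1).1 e1, mul_one] at e2
    exact h10 _ (h7.2 cc hm).1 a e2
  have hlc : ∀ H, Lc H χ := fun H => ⟨U, hχ.lev.1, fun g _ j _ e => cst_CREC hχ g j e⟩
  set t : ℕ → ℚ := fun l => ((padicValRat l a * (f l).val : ℤ) : ℚ) / ((2 ^ m : ℕ) : ℚ) with ht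
  have h7 : ∀ (l : ℕ) [Fact l.Prime], l ≠ 2 → Inv l 1 c (t l) := fun l _ hl => by
    obtain ⟨φ, hφ⟩ := (hFRO l 1).1
    refine ⟨2 ^ m, m, χ, a, φ, rfl, ha0, hφ, hχ.add.mono le_top, hlc _,
      fun τ hτ => (hχ.ker τ).1 (hχ.unr l 1 hl hτ), ?_, h6.mono le_top⟩
    rw [hχ.fr l 1 φ hl hφ, ht]
    simp only [Int.cast_mul, Int.cast_natCast]
  have hcast : ∀ l, ((padicValRat l a * (f l).val : ℤ) : ZMod (2 ^ m)) =
      (padicValRat l a : ZMod (2 ^ m)) * f l := fun l => by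
    rw [Int.cast_mul, Int.cast_natCast, ZMod.natCast_zmod_val]
  have h8 : ∀ l : ℕ, l.Prime → l ≠ 2 → l ∉ Q → t l ∈ (Int.castRingHom ℚ).range := by
    intro l hp hl hlQ
    have := Fact.mk hp
    rcases hout l hlQ with h | h
    · obtain ⟨k, hk⟩ := hVAL.2.1 l 1 c _ _ (h7 l hl) (hVAL.2.2 l 1 c h)
      exact ⟨k, by rw [eq_intCast, ← hk, sub_zero]⟩
    · obtain ⟨φ, hφ⟩ := (hFRO l 1).1
      have h9 := hVAL.1 l 1 (2 ^ m) χ a β' (by positivity) ha0 (hχ.add.mono le_top) (hlc _)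
        ⟨_, hNU.1, h4.1.mono le_rfl le_top⟩
        (fun g _ => ⟨(h4.2 g trivial).1, fun τ hτ =>
          (h4.2 g trivial).2 τ ⟨h.2 1 hτ, hχ.unr l 1 hl hτ⟩⟩)
        (fun g hg j _ => by
          have := congrArg (nv l 1) (h5 g trivial j trivial)
          simpa only [map_mul, map_pow, hc1, one_mul, hg (β' j)] using this) φ hφ.1
      rw [hχ.fr l 1 φ hl hφ] at h9
      exact int_CREC _ ((hcast l).trans h9)
  set T := Q ∪ (a.num.natAbs * a.den).primeFactors.erase 2 with hT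
  have hTp : ∀ l ∈ T, l.Prime ∧ l ≠ 2 := fun l hl => by
    rcases Finset.mem_union.1 hl with h | h
    · exact hQ l h
    · exact ⟨Nat.prime_of_mem_primeFactors (Finset.mem_erase.1 h).2, (Finset.mem_erase.1 h).1⟩
  have h9 := hχ.sum a T hpos ha1 hTp fun l hp hl hv => by
    refine Finset.mem_union_right _ (Finset.mem_erase.2 ⟨hl, Nat.mem_primeFactors.2
      ⟨hp, ?_, mul_ne_zero (Int.natAbs_ne_zero.2 (Rat.num_ne_zero.2 ha0)) a.den_nz⟩⟩)
    by_contra h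
    rw [hp.dvd_mul, not_or] at h
    rw [padicValRat, padicValInt, padicValNat.eq_zero_of_not_dvd h.1,
      padicValNat.eq_zero_of_not_dvd h.2] at hv
    exact hv rfl
  have h10 : ∑ l ∈ T, t l ∈ (Int.castRingHom ℚ).range := by
    rw [ht, ← Finset.sum_div, ← Int.cast_sum]
    refine int_CREC _ ?_
    rw [Int.cast_sum, ← h9]
    exact Finset.sum_congr rfl fun l _ => hcast l
  have h11 : ∑ l ∈ T \ Q, t l ∈ (Int.castRingHom ℚ).range := sum_mem fun l hl =>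
    h8 l (hTp l (Finset.mem_sdiff.1 hl).1).1 (hTp l (Finset.mem_sdiff.1 hl).1).2
      (Finset.mem_sdiff.1 hl).2
  have h12 : ∑ l ∈ Q, (r l - t l) ∈ (Int.castRingHom ℚ).range := sum_mem fun l hl => by
    have := Fact.mk (hQ l hl).1
    obtain ⟨k, hk⟩ := hVAL.2.1 l 1 c _ _ (hinv l hl) (h7 l (hQ l hl).2)
    exact ⟨k, hk.symm⟩
  obtain ⟨k, hk⟩ := add_mem h12 (sub_mem h10 h11)
  refine ⟨k, Eq.trans ?_ hk.symm⟩
  rw [← Finset.sum_sdiff (Finset.subset_union_left : Q ⊆ T), Finset.sum_sub_distrib]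
  ring

end Pool.Agent.MP_e23604_nt.R
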