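import Pool.Agent.MP_e23604_nt.R.CDefs
import Pool.Agent.MP_f3cd89_nt.Fb
import Pool.Agent.MP_f3cd89_nt.Ntb

set_option autoImplicit false

open NumberField IsDedekindDomain Module Filter Topology
open scoped Classical

namespace Pool.Agent.MP_e23604_nt.R

open B Pool.Agent.MP_f3cd89_nt

theorem two_CSI2 {G : Type} [Group G] (hc : Nat.card G = 2) {s : G} (hs : s ≠ 1) (g : G) :
    g = 1 ∨ g = s := by
  obtain ⟨y, -, hy⟩ := (Nat.card_eq_two_iff' 1).1 hc
  by_cases h : g = 1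
  · exact Or.inl h
  · exact Or.inr ((hy g h).trans (hy s hs).symm)

section
variable {F M : Type} [Field F] [NumberField F] [Field M] [NumberField M] [Algebra F M]

/-- divisors of the base whose pull back is principal up to a norm -/
def H_CSI2 (s : M ≃ₐ[F] M) (T : Finset (Pr M)) (N : ℕ) (hN : 0 < N) :
    AddSubgroup (Pr F →₀ ℤ) where
  carrier := {D | ∃ (a : M) (E : Pr M →₀ ℤ), a ≠ 0 ∧ s a = a ∧ Cong T N a ∧ E ∈ off T ∧
    ∀ w : Pr M, D (w.under (𝓞 F)) = ord w a + (E w + E (gact s w))}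
  zero_mem' := ⟨1, 0, one_ne_zero, map_one _, fun v _ => by simp, zero_mem _,
    fun w => by simp [ord_one]⟩
  add_mem' := by
    rintro D D' ⟨a, E, ha, hs, c, o, h⟩ ⟨a', E', ha', hs', c', o', h'⟩
    refine ⟨a * a', E + E', mul_ne_zero ha ha', by rw [map_mul, hs, hs'], NtbX.cong_mul c c',
      add_mem o o', fun w => ?_⟩
    rw [Finsupp.add_apply, h, h', ord_mul w ha ha', Finsupp.add_apply, Finsupp.add_apply]
    ring
  neg_mem' := by
    rintro D ⟨a, E, ha, hs, c, o, h⟩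
    refine ⟨a⁻¹, -E, inv_ne_zero ha, by rw [map_inv₀, hs], fun v hv => ?_, neg_mem o,
      fun w => ?_⟩
    · rw [← one_div, div_sub_one ha, map_div₀, NtbX.val_one hN c hv, div_one,
        Valuation.map_sub_swap]
      exact c v hv
    · rw [Finsupp.neg_apply, h, ord_inv, Finsupp.neg_apply, Finsupp.neg_apply]
      ring

theorem pull_CSI2 (D : Pr M →₀ ℤ)
    (hD : ∀ w w' : Pr M, w.under (𝓞 F) = w'.under (𝓞 F) → D w = D w') :
    ∃ D₀ : Pr F →₀ ℤ, ∀ w : Pr M, D₀ (w.under (𝓞 F)) = D w := by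
  choose c hc using under_surj (E := F) (E' := M)
  refine ⟨Finsupp.onFinset (D.support.image fun w => w.under (𝓞 F)) (fun v => D (c v))
    fun v hv => Finset.mem_image.2 ⟨c v, Finsupp.mem_support_iff.2 hv, hc v⟩, fun w => ?_⟩
  exact hD _ _ (hc _)

theorem cong_CSI2 {S : Finset (Pr F)} {N : ℕ} {x : F} (hx : Cong S N x) :
    Cong (above M S) N (algebraMap F M x) := by
  intro w hw
  have := w.isPrime
  have h1 := hx _ (mem_above.1 hw)
  rw [← map_one (algebraMap F M), ← map_sub, val_over (over_under w)]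
  exact (pow_le_of_le_one zero_le (h1.trans (NtbX.exp_le_one N))
    (Ideal.ramificationIdx_pos _ _).ne').trans h1

end

theorem SI2_pf (hSIC : SIC_st) : SI2_st := by
  intro F M _ _ _ _ _ _ _ s S N h2 hs hN hU D D' oD oD' hD hD'
  have hc : Nat.card (M ≃ₐ[F] M) = 2 := (IsGalois.card_aut_eq_finrank F M).trans h2
  obtain ⟨f1, f2, -, f4, -, f6, -, f8⟩ := fb F M (M ≃ₐ[F] M)
  obtain ⟨φ, hφ⟩ := f4 S
  have hss : s * s = 1 := (two_CSI2 hc hs (s * s)).resolve_right fun h => hs (by simpa using h)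
  obtain ⟨i0, i2⟩ := hSIC F M (M ≃ₐ[F] M) S φ ⊥ N (H_CSI2 s (above M S) N hN) inferInstance
    hU hφ hN
    (fun x hx => ⟨algebraMap F M x, 0, by simpa using hx.1, s.commutes x, cong_CSI2 hx.2.2,
      zero_mem _, fun w => by
      rw [ord_over (over_under w)]
      by_cases hw : w.under (𝓞 F) ∈ S
      · simp [(val_eq_one_iff _ hx.1).1 (NtbX.val_one hN hx.2.2 hw)]
      · rw [(f6 w).1 (hU w hw)]
        simp⟩)
    (fun v hv h1 => by
      obtain ⟨w, rfl, hw⟩ := hφ v hv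
      rw [Subgroup.mem_bot] at h1
      rw [h1] at hw
      have hne : gact s w ≠ w := fun h => hs (by
        simpa using ((f8 w 1 (hU w hv) hw).2.1 s).1 h)
      refine ⟨1, Finsupp.single w 1, one_ne_zero, map_one _, fun v _ => by simp,
        fun u hu => Finsupp.single_eq_of_ne fun e => hv (mem_above.1 (e ▸ hu)), fun w' => ?_⟩
      rw [ord_one, zero_add]
      by_cases h : w.under (𝓞 F) = w'.under (𝓞 F)
      · obtain ⟨g, rfl⟩ := f2 w w' h
        rw [← h]
        rcases two_CSI2 hc hs g with rfl | rfl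
        · rw [gact_one, Finsupp.single_eq_of_ne hne]
          simp
        · rw [← gact_mul, hss, gact_one, Finsupp.single_eq_of_ne hne]
          simp
      · have e1 : w' ≠ w := fun e => h (by rw [e])
        have e2 : gact s w' ≠ w := fun e => h (by rw [← e, f1])
        rw [Finsupp.single_eq_of_ne (Ne.symm h), Finsupp.single_eq_of_ne e1,
          Finsupp.single_eq_of_ne e2, add_zero])
  rw [Subgroup.index_bot, hc] at i2
  have key : ∀ D : Pr M →₀ ℤ, D ∈ off (above M S) → (∀ w, D (gact s w) = D w) →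
      ∃ D₀ : off S, ∀ w : Pr M, D₀.1 (w.under (𝓞 F)) = D w := fun D oD hD => by
    obtain ⟨D₀, h₀⟩ := pull_CSI2 (F := F) D fun w w' h => by
      obtain ⟨g, rfl⟩ := f2 w w' h
      rcases two_CSI2 hc hs g with rfl | rfl
      · rw [gact_one]
      · exact (hD w).symm
    refine ⟨⟨D₀, fun v hv => ?_⟩, h₀⟩
    obtain ⟨w, rfl⟩ := under_surj (E' := M) v
    rw [h₀, oD w (mem_above.2 hv)]
  obtain ⟨D₀, h₀⟩ := key D oD hD
  obtain ⟨D₁, h₁⟩ := key D' oD' hD'
  unfold AddSubgroup.relIndex at i0 i2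
  by_cases m₀ : D₀ ∈ (H_CSI2 s (above M S) N hN).addSubgroupOf (off S)
  · obtain ⟨a, E, ha, hsa, c, o, h⟩ := m₀
    exact ⟨D, Or.inl rfl, a, E, ha, hsa, c, o, fun w => (h₀ w).symm.trans (h w)⟩
  by_cases m₁ : D₁ ∈ (H_CSI2 s (above M S) N hN).addSubgroupOf (off S)
  · obtain ⟨a, E, ha, hsa, c, o, h⟩ := m₁
    exact ⟨D', Or.inr (Or.inl rfl), a, E, ha, hsa, c, o, fun w => (h₁ w).symm.trans (h w)⟩
  have i1 : ((H_CSI2 s (above M S) N hN).addSubgroupOf (off S)).index ≠ 1 := fun h => m₀ (by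
    rw [AddSubgroup.index_eq_one.1 h]
    exact AddSubgroup.mem_top _)
  obtain ⟨a, E, ha, hsa, c, o, h⟩ :
      D₀ + -D₁ ∈ (H_CSI2 s (above M S) N hN).addSubgroupOf (off S) :=
    (AddSubgroup.add_mem_iff_of_index_two (by omega)).2
      (iff_of_false m₀ fun h => m₁ ((AddSubgroup.neg_mem_iff _).1 h))
  refine ⟨D - D', Or.inr (Or.inr rfl), a, E, ha, hsa, c, o, fun w => ?_⟩
  rw [← h w, Finsupp.sub_apply, ← h₀, ← h₁, sub_eq_add_neg]
  rfl

end Pool.Agent.MP_e23604_nt.R
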