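import Pool.Agent.MP_e23604_nt.R.CDefs
import Pool.Agent.MP_f3cd89_nt.Si
import Pool.Agent.MP_f3cd89_nt.Ntb
import Pool.Agent.MP_f3cd89_nt.Ntc
import Pool.Agent.MP_f3cd89_nt.Dens
import Pool.Agent.MP_f3cd89_nt.Fb

set_option autoImplicit false

open NumberField IsDedekindDomain Module Filter Topology
open scoped Classical

namespace Pool.Agent.MP_e23604_nt.R

open B Pool.Agent.MP_f3cd89_nt

open Finset SiX in
theorem SIC_pf (hLB2 : LB2_st) : SIC_st := by
  have hB := ntb
  have hC := ntc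
  have hD := dens fb (tow fb) ntc
  classical
  intro F L G _ _ _ _ _ _ _ _ _ _ S φ U N H hU hun hφ hN hH hUH
  obtain ⟨Q, _, _, π, hcard, hsurj, hπ, hS⟩ := exists_quot hB hN hH
  rw [hcard]
  refine ⟨Fintype.card_ne_zero, ?_⟩
  obtain ⟨C₁, d₁⟩ := (hD F L G S φ ⊤ inferInstance hun hφ).1.bound
  obtain ⟨C₂, d₂⟩ := (hD F L G S φ U hU hun hφ).1.bound
  have key : ∀ χ : AddChar Q ℂ, ∃ K : ℝ, ∀ᶠ s in 𝓝[>] (1 : ℝ), ∑' v : {v // v ∉ S},
      (χ (π (Finsupp.single v.1 1))).re * (nrm v.1 : ℝ) ^ (-s) ≤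
        (if χ = 0 then -Real.log (s - 1) else 0) + K := fun χ => by
    by_cases h : χ = 0
    · refine ⟨C₁, d₁.mono fun s hs => ?_⟩
      rw [tsum_off, norm_one, mul_one] at hs
      have := (le_abs_self _).trans hs
      simp only [Subgroup.index_top, Nat.cast_one, one_mul, Subgroup.mem_top, if_true] at this
      simp only [h, if_true, AddChar.zero_apply, Complex.one_re, one_mul]
      linarith
    · simp only [if_neg h, zero_add]
      let ψ : Pr F → ℂˣ := fun v => χ.toMonoidHom.toHomUnits (.ofAdd (π (Finsupp.single v 1)))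
      have e : ∀ D, ((chv ψ D : ℂˣ) : ℂ) = χ (π D) := fun D => congrArg _ (chv_eq π _ D)
      obtain ⟨c, hc⟩ : ∃ c, ψ c ≠ 1 := by
        by_contra! h'
        refine h (AddChar.ext _ _ fun q => ?_)
        obtain ⟨D, rfl⟩ := hsurj q
        rw [← e]
        simp [chv, h', Finsupp.prod]
      have hcS : c ∉ S := fun h' => hc (by simp only [ψ, hS c h', ofAdd_zero, map_one])
      exact hLB2 F S N ψ hN (fun x hx => Units.ext (by
        rw [e, hπ _ (((hB F).2.2.2.1 S N hN).2.2 x hx) (hH x hx), AddChar.map_zero_eq_one]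
        rfl)) (fun v => χ.norm_apply _) ⟨c, hcS, hc⟩
  choose K hK using key
  by_contra! hlt
  have hlt' : (U.index : ℝ) + 1 ≤ Fintype.card Q := by exact_mod_cast hlt
  have hl : Tendsto (fun s : ℝ => -Real.log (s - 1)) (𝓝[>] 1) atTop :=
    tendsto_neg_atBot_atTop.comp (Real.tendsto_log_nhdsGT_zero.comp
      (tendsto_nhdsWithin_iff.2 ⟨tendsto_nhdsWithin_of_tendsto_nhds
        (Continuous.tendsto' (by fun_prop) _ _ (sub_self _)),
        eventually_mem_nhdsWithin.mono fun s hs => sub_pos (a := s).2 hs⟩))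
  obtain ⟨s, ⟨⟨⟨k1, k2⟩, k3⟩, k4⟩, hs⟩ := (((((eventually_all.2 hK).and d₂).and
    (hl.eventually_gt_atTop (U.index * ∑ χ, K χ + Fintype.card Q * C₂))).and
    (hl.eventually_ge_atTop 0)).and eventually_mem_nhdsWithin).exists
  have hs : 1 < s := hs
  have k5 := sum_le_sum (s := univ) fun χ _ => k1 χ
  rw [sum_add_distrib, sum_ite_eq', if_pos (mem_univ _), ← Summable.tsum_finsetSum fun χ _ =>
    summ hC S hs fun v => (Complex.abs_re_le_norm _).trans (χ.norm_apply _).le] at k5
  simp only [← sum_mul, ← Complex.re_sum, AddChar.sum_apply_eq_ite] at k5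
  rw [tsum_off, norm_one, mul_one] at k2
  have k6 : (Fintype.card Q : ℝ) * ∑' v : {v // v ∉ S}, (if φ v ∈ U then 1 else 0) *
      (nrm v.1 : ℝ) ^ (-s) ≤ -Real.log (s - 1) + ∑ χ, K χ := by
    rw [← tsum_mul_left]
    refine le_trans (Summable.tsum_le_tsum (fun v => ?_)
      ((summ hC S hs (K := 1) fun v => ?_).mul_left _)
      (summ hC S hs (K := Fintype.card Q) fun v => ?_)) k5
    · rw [← mul_assoc]
      refine mul_le_mul_of_nonneg_right ?_ (by positivity)
      by_cases h : φ v ∈ U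
      · rw [if_pos h, if_pos (hπ _ (fun w hw => Finsupp.single_eq_of_ne
          fun e : w = v.1 => v.2 (e ▸ hw)) (hUH v v.2 h))]
        simp
      · rw [if_neg h, mul_zero]
        split_ifs <;> simp
    · split_ifs <;> simp
    · split_ifs <;> simp
  have k7 := mul_le_mul_of_nonneg_left k6 (Nat.cast_nonneg U.index)
  have k8 := mul_le_mul_of_nonneg_left (neg_le_of_abs_le k2) (Nat.cast_nonneg (Fintype.card Q))
  have k9 := mul_le_mul_of_nonneg_right hlt' k4
  linarith

end Pool.Agent.MP_e23604_nt.R
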