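import Pool.Agent.MP_e23604_nt.R.Brg

set_option autoImplicit false

open NumberField IsDedekindDomain Module Filter Topology
open scoped Classical

namespace Pool.Agent.MP_e23604_nt.R

open B Pool.Agent.MP_f3cd89_nt

theorem root_CTQ {l : ℕ} [hl : Fact l.Prime] {γ τ : GQ} (hτ : τ ∈ Ine l γ) {n : ℕ} {z : Qb}
    (hn : ¬ l ∣ n) (hz : z ^ n = 1) : τ z = z := by
  have := v_coprime (nv_na l γ) hl.out (nv_lt l γ) (n := n) (by exact_mod_cast hn)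
  exact Inr_root (nv_na l γ) hτ (by exact_mod_cast this) hz

theorem pow_CTQ {φ : GQ} {z : Qb} {l : ℕ} (h : φ z = z ^ l) (i : ℕ) : (φ ^ i) z = z ^ l ^ i := by
  induction i with
  | zero => simp
  | succ i ih => rw [pow_succ', AlgEquiv.mul_apply, ih, map_pow, h, ← pow_mul, ← pow_succ']

theorem tau_CTQ {τ : GQ} {z w : Qb} (h : τ z = z) (h' : τ w = z * w) (i : ℕ) :
    (τ ^ i) w = z ^ i * w := by
  induction i with
  | zero => simp
  | succ i ih => rw [pow_succ', AlgEquiv.mul_apply, ih, map_mul, map_pow, h, h']; ring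

theorem log_CTQ {φ : GQ} {z : Qb} {l m : ℕ} (hl : 2 ≤ l) (hm : m ≠ 0)
    (hz : IsPrimitiveRoot z (l ^ m - 1)) (h : φ z = z ^ l) {i j : ℕ}
    (e : z ^ l ^ i = z ^ l ^ j) : (i : ZMod m) = j := by
  wlog hij : j ≤ i generalizing i j
  · exact (this e.symm (le_of_not_ge hij)).symm
  obtain ⟨a, rfl⟩ := Nat.exists_eq_add_of_le hij
  have h0 : l ^ m - 1 ≠ 0 := by have := Nat.one_lt_pow hm hl; omega
  rw [← pow_CTQ h, ← pow_CTQ h, pow_add, AlgEquiv.mul_apply, (φ ^ j).injective.eq_iff,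
    pow_CTQ h] at e
  have h1 : 1 ≤ l ^ a := Nat.one_le_pow _ _ (by omega)
  have h2 : z ^ (l ^ a - 1) = 1 := by
    apply mul_right_cancel₀ (hz.ne_zero h0)
    rw [← pow_succ, Nat.sub_add_cancel h1, e, one_mul]
  have h3 := Nat.mod_eq_zero_of_dvd (hz.dvd_of_pow_eq_one _ h2)
  rw [Nat.pow_sub_one_mod_pow_sub_one] at h3
  have h4 : a % m = 0 := by
    by_contra h5
    have := Nat.one_lt_pow h5 hl
    omega
  rw [Nat.cast_add, (ZMod.natCast_eq_zero_iff a m).2 (Nat.dvd_of_mod_eq_zero h4), add_zero]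

theorem unr_CTQ (hFRO : FRO_st) (l : ℕ) [hl : Fact l.Prime] (γ φ : GQ) {m : ℕ} (hm : m ≠ 0)
    (hφ : Frob l γ φ) : ∃ s : GQ → ZMod m, Adt (Dec (nv l γ)) s ∧ Lc (Dec (nv l γ)) s ∧
      (∀ τ ∈ Ine l γ, s τ = 0) ∧ s φ = 1 := by
  have h2 := hl.out.two_le
  have h1 := Nat.one_lt_pow hm h2
  have : NeZero (l ^ m - 1) := ⟨by omega⟩
  have hn : ¬ l ∣ l ^ m - 1 := fun h => by
    have h3 := Nat.dvd_sub (dvd_pow_self l hm) h
    rw [Nat.sub_sub_self h1.le] at h3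
    exact hl.out.one_lt.ne' (Nat.dvd_one.1 h3)
  obtain ⟨z, hz⟩ := HasEnoughRootsOfUnity.exists_primitiveRoot Qb (l ^ m - 1)
  obtain ⟨-, -, a3, a4, -⟩ := (hFRO l γ).2 φ hφ
  have hf := a3 _ z hn hz.pow_eq_one
  obtain ⟨N, hN, hx⟩ := exists_ON_fix {z}
  have ex : ∀ g ∈ Dec (nv l γ), ∃ i : ℕ, g z = z ^ l ^ i := fun g hg => by
    obtain ⟨i, τ, hτ, e⟩ := a4 N hN g hg
    have := congrArg (φ ^ i * τ) (hx z (Finset.mem_singleton_self z) _ e)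
    rw [← AlgEquiv.mul_apply, mul_inv_cancel_left, AlgEquiv.mul_apply,
      root_CTQ hτ hn hz.pow_eq_one, pow_CTQ hf] at this
    exact ⟨i, this⟩
  let F : Qb → ZMod m := fun y => ((Classical.epsilon fun i : ℕ => y = z ^ l ^ i : ℕ) : ZMod m)
  have hF : ∀ i : ℕ, F (z ^ l ^ i) = i := fun i =>
    (log_CTQ h2 hm hz hf (Classical.epsilon_spec (p := fun j : ℕ => z ^ l ^ i = z ^ l ^ j)
      ⟨i, rfl⟩)).symm
  refine ⟨fun g => F (g z), fun g hg h hh => ?_, (Lc.apply _ z).map F, fun τ hτ => ?_, ?_⟩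
  · obtain ⟨i, hi⟩ := ex g hg
    obtain ⟨j, hj⟩ := ex h hh
    simp only [AlgEquiv.mul_apply]
    rw [hj, map_pow, hi, ← pow_mul, ← pow_add, hF, hF, hF, Nat.cast_add]
  · have := hF 0
    rw [pow_zero, pow_one, Nat.cast_zero] at this
    simp only [root_CTQ hτ hn hz.pow_eq_one, this]
  · have := hF 1
    rw [pow_one, Nat.cast_one] at this
    simp only [hf, this]

theorem TQ_pf (hFRO : FRO_st) (hTAM : TAM_st) (hKAP : KAP_st) : TQ_st := by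
  refine ⟨fun l _ γ φ k _ hφ => unr_CTQ hFRO l γ φ (by positivity) hφ, ?_⟩
  intro k ζ q hq γ hζ h2 hd
  have hn : ¬ q ∣ 2 ^ (k + 1) := fun h =>
    h2 ((Nat.prime_dvd_prime_iff_eq hq.out Nat.prime_two).1 (hq.out.dvd_of_dvd_pow h))
  obtain ⟨w, hw⟩ := IsAlgClosed.exists_pow_nat_eq (q : Qb) (n := 2 ^ (k + 1)) (by positivity)
  have q0 : (q : Qb) ≠ 0 := Nat.cast_ne_zero.2 hq.out.ne_zero
  have w0 : w ≠ 0 := by
    rintro rfl
    exact q0 (hw.symm.trans (zero_pow (by positivity)))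
  have ex : ∀ g : GQ, ∃ j : ℕ, g w = ζ ^ j * w := fun g => by
    obtain ⟨j, -, hj⟩ := hζ.eq_pow_of_pow_eq_one (ξ := g w / w) (by
      rw [div_pow, ← map_pow, hw, map_natCast, div_self q0])
    exact ⟨j, by rw [hj, div_mul_cancel₀ _ w0]⟩
  obtain ⟨⟨τ, hτ, hk⟩, -⟩ := hTAM q γ h2
  obtain ⟨⟨φ, hφ⟩, hF⟩ := hFRO q γ
  obtain ⟨-, a2, a3, -⟩ := hF φ hφ
  obtain ⟨j, hj⟩ := ex τ
  have t1 := root_CTQ hτ hn hζ.pow_eq_one
  have ho : Odd j := by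
    by_contra he
    obtain ⟨a, rfl⟩ := Nat.not_odd_iff_even.1 he
    have h3 := hKAP.2.1 (q : ℚ) (w ^ 2 ^ k) τ (by rw [← pow_mul, ← pow_succ, hw, Rat.cast_natCast])
    rw [hk, map_pow, hj, mul_pow, ← pow_mul, show (a + a) * 2 ^ k = 2 ^ (k + 1) * a by ring,
      pow_mul, hζ.pow_eq_one, one_pow, ZMod.val_one, pow_one] at h3
    exact pow_ne_zero (2 ^ k) w0 (by linear_combination h3 / 2)
  obtain ⟨i, -, hi⟩ := Nat.exists_mul_mod_eq_one_of_coprime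
    ((Nat.coprime_two_right.2 ho).pow_right (k + 1)) (Nat.one_lt_two_pow (by omega))
  have t2 : (τ ^ i) w = ζ * w := by
    rw [tau_CTQ (by rw [map_pow, t1]) hj, ← pow_mul, ← Nat.div_add_mod (j * i) (2 ^ (k + 1)), hi,
      pow_add, pow_mul, hζ.pow_eq_one, one_pow, one_mul, pow_one]
  have t3 : τ ^ i ∈ Ine q γ := pow_mem hτ i
  have f1 : φ ζ = ζ := by
    obtain ⟨c, hc⟩ := hd
    rw [a3 _ ζ hn hζ.pow_eq_one, show q = 2 ^ (k + 1) * c + 1 by have := hq.out.pos; omega,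
      pow_succ, pow_mul, hζ.pow_eq_one, one_pow, one_mul]
  obtain ⟨a, ha⟩ := ex φ
  refine ⟨φ * (τ ^ i) ^ ((2 ^ (k + 1) - 1) * a), τ ^ i, hd, a2 _ (pow_mem t3 _), t3, w, hw, t2, ?_⟩
  rw [AlgEquiv.mul_apply, tau_CTQ (root_CTQ t3 hn hζ.pow_eq_one) t2, map_mul, map_pow, f1, ha,
    ← mul_assoc, ← pow_add, ← Nat.succ_mul, Nat.succ_eq_add_one,
    Nat.sub_add_cancel Nat.one_le_two_pow, pow_mul, hζ.pow_eq_one, one_pow, one_mul]

end Pool.Agent.MP_e23604_nt.R
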