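import Pool.Agent.MP_e23604_nt.R.CDefs

set_option autoImplicit false

open NumberField IsDedekindDomain Module Filter Topology
open scoped Classical

namespace Pool.Agent.MP_e23604_nt.R

open B Pool.Agent.MP_f3cd89_nt

/-- a bimultiplicative pairing whose left and right orthogonals agree -/
structure BiTRI {G : Type} [AddCommGroup G] (β : G → G → Qb) : Prop where
  addl : ∀ x x' y, β (x + x') y = β x y * β x' y
  addr : ∀ x y y', β x (y + y') = β x y * β x y'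
  ne : ∀ x y, β x y ≠ 0
  rf : ∀ x y, β x y = 1 → β y x = 1

namespace BiTRI

variable {G : Type} [AddCommGroup G] {β : G → G → Qb} (h : BiTRI β)
include h

theorem zl (y : G) : β 0 y = 1 :=
  mul_left_cancel₀ (h.ne 0 y) (by rw [← h.addl, add_zero, mul_one])

theorem zr (y : G) : β y 0 = 1 := h.rf _ _ (h.zl y)

/-- the orthogonal of a set -/
def pp (S : Set G) : AddSubgroup G where
  carrier := {x | ∀ a ∈ S, β x a = 1}
  zero_mem' a _ := h.zl a
  add_mem' {x y} hx hy a ha := by rw [h.addl, hx a ha, hy a ha, mul_one]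
  neg_mem' {x} hx a ha := by
    have := h.addl (-x) x a
    rwa [neg_add_cancel, h.zl, hx a ha, mul_one, eq_comm] at this

theorem mem_pp {S : Set G} {x : G} : x ∈ h.pp S ↔ ∀ a ∈ S, β x a = 1 := Iff.rfl

theorem comm {S T : Set G} (h1 : S ⊆ h.pp T) : T ⊆ h.pp S :=
  fun t ht _ hs => h.rf _ _ (h1 hs t ht)

theorem le_comm {A B : AddSubgroup G} : A ≤ h.pp B ↔ B ≤ h.pp A :=
  ⟨fun h1 => h.comm h1, fun h1 => h.comm h1⟩

theorem pp_sup (A B : AddSubgroup G) : h.pp ↑(A ⊔ B) = h.pp A ⊓ h.pp B :=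
  eq_of_forall_le_iff fun X => by
    rw [le_inf_iff, h.le_comm, sup_le_iff, h.le_comm, h.le_comm (A := B)]

theorem cnt (X A : AddSubgroup G) {γ : G → G → Qb} (h1 : ∀ x y y', γ x (y + y') = γ x y * γ x y')
    (h2 : ∀ x, γ x 0 = 1) (h3 : ∀ x a, γ x a = 1 ↔ β x a = 1) [Fintype X] [Fintype A] :
    ∑ x : X, ∑ a : A, γ x a = (Nat.card A * Nat.card ↥(X ⊓ h.pp A) : ℕ) := by
  have e : ∀ x : X, ∑ a : A, γ x a = if (x : G) ∈ h.pp A then (Nat.card A : Qb) else 0 := by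
    intro x
    let ψ : AddChar A Qb := ⟨fun a => γ x a, h2 x, fun a a' => h1 x a a'⟩
    rw [Nat.card_eq_fintype_card]
    refine (AddChar.sum_eq_ite ψ).trans (if_congr ?_ rfl rfl)
    rw [AddChar.eq_zero_iff]
    exact ⟨fun h4 a ha => (h3 _ _).1 (h4 ⟨a, ha⟩), fun h4 a => (h3 _ _).2 (h4 a a.2)⟩
  have e2 : Nat.card ↥(X ⊓ h.pp A) = (Finset.univ.filter fun x : X => (x : G) ∈ h.pp A).card := by
    rw [← Fintype.card_subtype, ← Nat.card_eq_fintype_card]
    exact Nat.card_congr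
      ⟨fun x => ⟨⟨x, x.2.1⟩, x.2.2⟩, fun x => ⟨x.1, x.1.2, x.2⟩, fun _ => rfl, fun _ => rfl⟩
  simp only [e]
  rw [← Finset.sum_filter, Finset.sum_const, nsmul_eq_mul, e2]
  push_cast
  ring

variable [Finite G]

theorem dc (X A : AddSubgroup G) :
    Nat.card A * Nat.card ↥(X ⊓ h.pp A) = Nat.card X * Nat.card ↥(A ⊓ h.pp X) := by
  have := Fintype.ofFinite X
  have := Fintype.ofFinite A
  have h1 := h.cnt X A h.addr h.zr fun _ _ => Iff.rfl
  have h2 := h.cnt A X (γ := fun a x => β x a) (fun x y y' => h.addl y y' x) h.zl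
    fun _ _ => ⟨h.rf _ _, h.rf _ _⟩
  rw [Finset.sum_comm, h2] at h1
  exact_mod_cast h1.symm

/-- an alternating pairing -/
theorem alt (ha : ∀ x, β x x = 1) : IsSquare (Nat.card G * Nat.card ↥(h.pp (⊤ : AddSubgroup G))) := by
  obtain ⟨M, hM⟩ := (Set.toFinite {M : AddSubgroup G | M ≤ h.pp M}).exists_maximal
    ⟨⊥, show (⊥ : AddSubgroup G) ≤ _ from bot_le⟩
  have h1 : h.pp M = M := by
    refine le_antisymm (fun x hx => ?_) hM.1
    have z1 : AddSubgroup.zmultiples x ≤ h.pp M := AddSubgroup.zmultiples_le_of_mem hx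
    have z2 : AddSubgroup.zmultiples x ≤ h.pp {x} :=
      AddSubgroup.zmultiples_le_of_mem fun a e => by rw [e]; exact ha x
    have z3 : AddSubgroup.zmultiples x ≤ h.pp (AddSubgroup.zmultiples x) :=
      AddSubgroup.zmultiples_le_of_mem (h.comm z2 rfl)
    have z4 : M ⊔ AddSubgroup.zmultiples x ≤ h.pp ↑(M ⊔ AddSubgroup.zmultiples x) := by
      rw [h.pp_sup]
      exact sup_le (le_inf hM.1 (h.le_comm.1 z1)) (le_inf z1 z3)
    exact hM.2 z4 le_sup_left (AddSubgroup.mem_sup_right (AddSubgroup.mem_zmultiples x))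
  have h2 := h.dc ⊤ M
  have h3 : h.pp (⊤ : AddSubgroup G) ≤ M := fun x hx => h1 ▸ fun a _ => hx a trivial
  rw [top_inf_eq, h1, inf_eq_right.2 h3, AddSubgroup.card_top] at h2
  exact ⟨_, h2.symm⟩

variable (h0 : h.pp (⊤ : AddSubgroup G) = ⊥)
include h0

theorem card_pp (A : AddSubgroup G) : Nat.card A * Nat.card ↥(h.pp A) = Nat.card G := by
  have h2 := h.dc ⊤ A
  rwa [top_inf_eq, h0, inf_bot_eq, AddSubgroup.card_top, AddSubgroup.card_bot, mul_one] at h2

theorem pp_pp (A : AddSubgroup G) : h.pp (h.pp A) = A := by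
  refine (AddSubgroup.eq_of_le_of_card_ge (h.le_comm.1 le_rfl) (le_of_eq ?_)).symm
  refine Nat.eq_of_mul_eq_mul_left (Nat.card_pos (α := h.pp A)) ?_
  rw [h.card_pp h0, mul_comm, h.card_pp h0]

theorem lag {A : AddSubgroup G} (h1 : A ≤ h.pp A) (h2 : Nat.card A ^ 2 = Nat.card G) :
    h.pp A = A := by
  refine (AddSubgroup.eq_of_le_of_card_ge h1 (le_of_eq ?_)).symm
  refine Nat.eq_of_mul_eq_mul_left (Nat.card_pos (α := A)) ?_
  rw [h.card_pp h0, ← h2, sq]

end BiTRI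

theorem card_sup_TRI {G : Type} [AddCommGroup G] (S T : AddSubgroup G) :
    Nat.card ↥(S ⊔ T) * Nat.card ↥(S ⊓ T) = Nat.card S * Nat.card T := by
  have k : ∀ {U V : AddSubgroup G}, U ≤ V → Nat.card U * U.relIndex V = Nat.card V := by
    intro U V hUV
    rw [← Nat.card_congr (AddSubgroup.addSubgroupOfEquivOfLe hUV).toEquiv]
    exact AddSubgroup.card_mul_index _
  rw [← k (le_sup_left (a := S) (b := T)), ← k (inf_le_right (a := S) (b := T)),
    AddSubgroup.relIndex_sup_left, AddSubgroup.inf_relIndex_right]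
  ring

theorem TRI_pf : TRI_st := by
  intro H _ _ n b hn hb hnd
  have hne : ∀ x y, b x y ≠ 0 := fun x y e => by
    have := hb.pow x trivial y trivial
    rw [e, zero_pow hn] at this
    exact zero_ne_one this
  have bl : ∀ x x' y, b (x + x') y = b x y * b x' y := fun x x' y =>
    hb.addl x trivial x' trivial y trivial
  have br : ∀ x y y', b x (y + y') = b x y * b x y' := fun x y y' =>
    hb.addr x trivial y trivial y' trivial
  have h : BiTRI fun x y => b x y * b y x :=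
    ⟨fun x x' y => by rw [bl, br]; ring, fun x y y' => by rw [bl, br]; ring,
      fun x y => mul_ne_zero (hne x y) (hne y x), fun x y e => by rw [mul_comm]; exact e⟩
  have h0 : h.pp (⊤ : AddSubgroup H) = ⊥ :=
    eq_bot_iff.2 fun x hx => hnd x fun y => hx y trivial
  have hq : ∀ x y, b x x = 1 → b y y = 1 → b (x + y) (x + y) = 1 → b x y * b y x = 1 := by
    intro x y h1 h2 h3
    rwa [bl, br, br, h1, h2, one_mul, mul_one] at h3
  refine ⟨fun A hA => ?_, fun A B C hA hB hC cA cB cC => ?_⟩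
  · rw [← h.card_pp h0 A, sq]
    exact Nat.mul_le_mul_left _ (AddSubgroup.card_le_of_le hA)
  have lg : ∀ X : AddSubgroup H, (∀ x ∈ X, b x x = 1) → Nat.card X ^ 2 = Nat.card H →
      h.pp X = X := fun X h1 h2 =>
    h.lag h0 (fun x hx y hy => hq x y (h1 x hx) (h1 y hy) (h1 _ (X.add_mem hx hy))) h2
  have pA := lg A hA cA
  have pB := lg B hB cB
  have pC := lg C hC cC
  have pS : h.pp ↑(A ⊔ B) = A ⊓ B := by rw [h.pp_sup, pA, pB]
  have pI : h.pp ↑(A ⊓ B) = A ⊔ B := by rw [← pS, h.pp_pp h0]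
  have pG : h.pp ↑((A ⊔ B) ⊓ C) = (A ⊓ B) ⊔ C := by
    rw [← h.pp_pp h0 ((A ⊓ B) ⊔ C), h.pp_sup, pI, pC]
  have hα : ∀ x : ↥((A ⊔ B) ⊓ C), ∃ a, a ∈ A ∧ x.1 - a ∈ B := fun x => by
    obtain ⟨a, ha, c, hc, e⟩ := AddSubgroup.mem_sup.1 x.2.1
    exact ⟨a, ha, by rw [← e, add_sub_cancel_left]; exact hc⟩
  choose α αA αB using hα
  have ind : ∀ (x y : ↥((A ⊔ B) ⊓ C)) (a : H), a ∈ A → x.1 - a ∈ B →
      b (α x) y * b y (α x) = b a y * b y a := by
    intro x y a h1 h2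
    have h3 : α x - a ∈ h.pp ↑(A ⊔ B) := by
      rw [pS]
      refine ⟨A.sub_mem (αA x) h1, ?_⟩
      have := B.sub_mem h2 (αB x)
      rwa [sub_sub_sub_cancel_left] at this
    have h4 := h.addl (α x - a) a y
    rw [sub_add_cancel, h3 y y.2.1, one_mul] at h4
    exact h4
  have al : ∀ x : ↥((A ⊔ B) ⊓ C), b (α x) x * b x (α x) = 1 := by
    intro x
    have h1 := h.addr (α x) (α x) (x - α x)
    rw [add_sub_cancel, hA _ (αA x), hq _ _ (hA _ (αA x)) (hB _ (αB x))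
      (by rw [add_sub_cancel]; exact hC _ x.2.2)] at h1
    simpa using h1
  have l' : ∀ x x' y : ↥((A ⊔ B) ⊓ C), b (α (x + x')) y * b y (α (x + x')) =
      b (α x) y * b y (α x) * (b (α x') y * b y (α x')) := by
    intro x x' y
    rw [ind (x + x') y (α x + α x') (A.add_mem (αA x) (αA x')), h.addl]
    have := B.add_mem (αB x) (αB x')
    rwa [sub_add_sub_comm] at this
  have r' : ∀ x y y' : ↥((A ⊔ B) ⊓ C), b (α x) ↑(y + y') * b ↑(y + y') (α x) =
      b (α x) y * b y (α x) * (b (α x) y' * b y' (α x)) := fun x y y' => h.addr (α x) y y'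
  have h' : BiTRI fun x y : ↥((A ⊔ B) ⊓ C) => b (α x) y * b y (α x) := by
    refine ⟨l', r', fun x y => h.ne _ _, fun x y e => ?_⟩
    have h1 := al (x + y)
    rwa [l', r', r', al, al, e, one_mul, one_mul, mul_one] at h1
  have hR : A ⊓ C ⊔ B ⊓ C ≤ (A ⊔ B) ⊓ C :=
    sup_le (inf_le_inf_right _ le_sup_left) (inf_le_inf_right _ le_sup_right)
  have rad : h'.pp (⊤ : AddSubgroup ↥((A ⊔ B) ⊓ C)) =
      (A ⊓ C ⊔ B ⊓ C).addSubgroupOf ((A ⊔ B) ⊓ C) := by
    ext x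
    rw [AddSubgroup.mem_addSubgroupOf]
    have e : x ∈ h'.pp (⊤ : AddSubgroup ↥((A ⊔ B) ⊓ C)) ↔ α x ∈ (A ⊓ B) ⊔ C := by
      rw [← pG]
      exact ⟨fun h1 y hy => h1 ⟨y, hy⟩ trivial, fun h1 y _ => h1 y y.2⟩
    rw [e, AddSubgroup.mem_sup, AddSubgroup.mem_sup]
    constructor
    · rintro ⟨t, ht, c, hc, e⟩
      refine ⟨c, ⟨?_, hc⟩, x - c, ⟨?_, C.sub_mem x.2.2 hc⟩, add_sub_cancel _ _⟩
      · rw [eq_sub_of_add_eq' e]
        exact A.sub_mem (αA x) ht.1
      · have := B.add_mem (αB x) ht.2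
        rwa [← e, show x.1 - (t + c) + t = x - c by abel] at this
    · rintro ⟨u, hu, v, hv, e⟩
      refine ⟨α x - u, ⟨A.sub_mem (αA x) hu.1, ?_⟩, u, hu.2, sub_add_cancel _ _⟩
      have := B.sub_mem hv.1 (αB x)
      rwa [← e, show v - (u + v - α x) = α x - u by abel] at this
  have s1 := h'.alt al
  rw [rad, Nat.card_congr (AddSubgroup.addSubgroupOfEquivOfLe hR).toEquiv] at s1
  have s2 := h.dc C (A ⊓ B)
  rw [pI, pC, inf_comm C] at s2
  have s3 := card_sup_TRI (A ⊓ C) (B ⊓ C)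
  rw [← inf_inf_distrib_right] at s3
  have s4 : Nat.card C * Nat.card ↥(A ⊓ B) * Nat.card ↥(A ⊓ C) * Nat.card ↥(B ⊓ C) =
      Nat.card ↥((A ⊔ B) ⊓ C) * Nat.card ↥(A ⊓ C ⊔ B ⊓ C) *
        (Nat.card ↥(A ⊓ B) * Nat.card ↥(A ⊓ B)) := by
    calc _ = Nat.card ↥(A ⊓ B) * Nat.card C * (Nat.card ↥(A ⊓ C) * Nat.card ↥(B ⊓ C)) := by ring
      _ = Nat.card ↥(A ⊓ B) * Nat.card ↥(A ⊓ C ⊔ B ⊓ C) *
          (Nat.card C * Nat.card ↥(A ⊓ B ⊓ C)) := by rw [← s3]; ring
      _ = _ := by rw [← s2]; ring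
  rw [s4]
  exact s1.mul ⟨_, rfl⟩

end Pool.Agent.MP_e23604_nt.R
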