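import Pool.Agent.MP_e23604_nt.R.CDefs
import Pool.Agent.MP_f3cd89_nt.Unith
import Pool.Agent.MP_f3cd89_nt.Herb

set_option autoImplicit false

open NumberField IsDedekindDomain Module Filter Topology
open scoped Classical

namespace Pool.Agent.MP_e23604_nt.R

open B Pool.Agent.MP_f3cd89_nt

section
open Finset UnithX

theorem sum_lam_CUNC {L : Type} [Field L] [NumberField L] [IsTotallyComplex L]
    (u : Additive (𝓞 L)ˣ) : ∑ w, lam w (un u) = 0 := by
  have h := Units.sum_mult_mul_log (Additive.toMul u)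
  simp only [IsTotallyComplex.mult_eq, ← mul_sum] at h
  exact (mul_eq_zero.1 h).resolve_left (by norm_num)

theorem free_CUNC {F L : Type} [Field F] [IsTotallyComplex F] [Field L] [Algebra F L]
    (g : L ≃ₐ[F] L) (w : InfinitePlace L)
    (h : w.comap (MulSemiringAction.toRingHom (L ≃ₐ[F] L) L g⁻¹) = w) : g = 1 := by
  rw [← w.mk_embedding, InfinitePlace.comap_mk, InfinitePlace.mk_eq_iff] at h
  rcases h with h | h
  · exact inv_eq_one.1 (AlgEquiv.ext fun x => w.embedding.injective (RingHom.congr_fun h x))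
  · refine absurd (ComplexEmbedding.isReal_iff.2 (RingHom.ext fun x => ?_))
      (IsTotallyComplex.complexEmbedding_not_isReal (w.embedding.comp (algebraMap F L)))
    have h1 := RingHom.congr_fun h (algebraMap F L x)
    change starRingEnd ℂ (w.embedding (g⁻¹ (algebraMap F L x))) = _ at h1
    rw [AlgEquiv.commutes] at h1
    exact h1

theorem unith_CUNC (L G : Type) [Field L] [NumberField L] [IsTotallyComplex L] [Group G]
    [Finite G] [MulSemiringAction G L]
    (hfree : ∀ (g : G) (w : InfinitePlace L),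
      w.comap (MulSemiringAction.toRingHom G L g⁻¹) = w → g = 1)
    (γ : G) (E : AddSubgroup (Additive Lˣ)) (M : ℕ) (hγ : ∀ g, g ∈ Subgroup.zpowers γ)
    (hE : ∀ a ∈ E, sA γ a ∈ E) (hd : ∀ a ∈ E, dv ((Additive.toMul a : Lˣ) : L) = 0) (hM : 0 < M)
    (hu : ∀ a : Additive Lˣ, dv ((Additive.toMul a : Lˣ) : L) = 0 → M • a ∈ E) :
    hz (sA γ) (Nat.card G) E ≠ 0 ∧
      ho (sA γ) (Nat.card G) E = Nat.card G * hz (sA γ) (Nat.card G) E := by
  let _ := Fintype.ofFinite G
  let _ := plc L G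
  have hl : ∀ (g : G) (w : InfinitePlace L) (a : Additive Lˣ),
      lam w (rho L G g a) = lam (g⁻¹ • w) a := fun g w a => by
    change Real.log (w (g • _)) = Real.log (w (g⁻¹⁻¹ • _))
    rw [inv_inv]
  have hE' : ∀ (g : G), ∀ a ∈ E, rho L G g a ∈ E := fun g a ha => by
    obtain ⟨i, rfl⟩ := mem_powers_iff_mem_zpowers.2 (hγ g)
    exact map_pow (rho L G) γ i ▸ pow_mem' hE ha i
  have hs : ∀ a ∈ E, ∑ w, lam w a = 0 := fun a ha => by
    obtain ⟨u, rfl⟩ := exists_un (hd a ha)
    exact sum_lam_CUNC u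
  let c : Additive Lˣ := Additive.ofMul (Units.mk0 (2 : L) two_ne_zero)
  have hc : ∀ g : G, rho L G g c = c := fun g =>
    Additive.toMul.injective (Units.ext (map_ofNat (MulSemiringAction.toRingHom G L g) 2))
  have hc2 : ∀ w, lam w c = Real.log 2 := fun w =>
    congrArg Real.log (show w (2 : L) = 2 by simpa using InfinitePlace.map_natCast w 2)
  have l2 : Real.log 2 ≠ 0 := (Real.log_pos one_lt_two).ne'
  have cd : (Fintype.card (InfinitePlace L) : ℝ) ≠ 0 := Nat.cast_ne_zero.2 Fintype.card_ne_zero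
  have hi : ∀ k : ℤ, k • c ∈ E → k = 0 := fun k hk => by
    have h := hs _ hk
    simp only [map_zsmul, hc2, sum_const, card_univ, zsmul_eq_mul, nsmul_eq_mul] at h
    exact Int.cast_eq_zero.1 ((mul_eq_zero.1 ((mul_eq_zero.1 h).resolve_left cd)).resolve_right l2)
  choose u hu' using Units.dirichletUnitTheorem.exists_unit L
  let z : InfinitePlace L → Additive Lˣ := fun w =>
    ∑ g : G, rho L G g (M • un (Additive.ofMul (u (g⁻¹ • w))))
  have z1 : ∀ w, z w ∈ E := fun w => sum_mem fun g _ => hE' g _ (hu _ (dv_un _))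
  have z2 : ∀ w w', w' ≠ w → lam w' (z w) < 0 := fun w w' h => by
    rw [map_sum]
    refine sum_neg (fun g _ => ?_) univ_nonempty
    rw [hl, map_nsmul, nsmul_eq_mul]
    exact mul_neg_of_pos_of_neg (Nat.cast_pos.2 hM)
      (hu' _ _ fun e => h (MulAction.injective g⁻¹ e))
  have z3 : ∀ (g : G) (w : InfinitePlace L), rho L G g (z w + c) = z (g • w) + c := fun g w => by
    rw [map_add, hc, map_sum]
    congr 1
    refine Fintype.sum_equiv (Equiv.mulLeft g) _ _ fun h => ?_
    rw [Equiv.coe_mulLeft, map_mul, mul_inv_rev, mul_smul, inv_smul_smul]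
    rfl
  have hinj : Function.Injective (cmb fun w => z w + c) := by
    refine (injective_iff_map_eq_zero _).2 fun f hf => ?_
    have h1 : ∀ w', ∑ w, (f w : ℝ) * lam w' (z w) + (∑ w, (f w : ℝ)) * Real.log 2 = 0 := fun w' => by
      have h := congrArg (lam w') hf
      rw [cmb_apply, map_sum, map_zero] at h
      simpa only [map_zsmul, map_add, hc2, zsmul_eq_mul, mul_add, sum_add_distrib, ← sum_mul]
        using h
    have h2 : ∑ w, (f w : ℝ) = 0 := by
      have h := sum_eq_zero (s := univ) fun w' _ => h1 w'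
      rw [sum_add_distrib, sum_comm] at h
      rw [sum_const, card_univ, nsmul_eq_mul] at h
      simp only [← mul_sum, hs _ (z1 _), mul_zero, sum_const_zero, zero_add] at h
      exact (mul_eq_zero.1 ((mul_eq_zero.1 h).resolve_left cd)).resolve_right l2
    ext w
    exact Int.cast_eq_zero.1 (null (fun w w' => lam w' (z w)) z2 (fun w => hs _ (z1 w)) _ h2
      (fun w' => by simpa only [h2, zero_mul, add_zero] using h1 w') w)
  obtain ⟨f1, f2⟩ := free (rho L G) hγ hfree z3 hinj
  obtain ⟨a1, a2⟩ := adj (rho L G γ) (Nat.card_pos (α := G)).ne' E c hE (hc γ) hi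
  have b1 : (cmb fun w => z w + c).range ≤ E ⊔ AddSubgroup.zmultiples c := by
    rintro _ ⟨f, rfl⟩
    rw [cmb_apply]
    exact sum_mem fun w _ => zsmul_mem (mem_ext.2 ⟨_, z1 w, 1, by rw [one_smul]⟩) _
  have b2 : E ⊔ AddSubgroup.zmultiples c ≤ (un.coprod (zmultiplesHom _ c)).range := fun x hx => by
    obtain ⟨e, he, k, rfl⟩ := mem_ext.1 hx
    obtain ⟨v, rfl⟩ := exists_un (hd e he)
    exact ⟨(v, k), rfl⟩
  have b3 := full (un.coprod (zmultiplesHom _ c)) _ hinj (b1.trans b2) rk_le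
  obtain ⟨q1, -, q3⟩ := qlem _ (rho L G γ) (Nat.card G) _ _
    (by rw [← map_pow, pow_card_eq_one', map_one]) b1
    (fun h => b3 (AddSubgroup.relIndex_eq_zero_of_le_right b2 h))
    (fun x hx => by
      obtain ⟨e, he, k, rfl⟩ := mem_ext.1 hx
      exact mem_ext.2 ⟨_, hE e he, k, by rw [map_add, map_zsmul, hc]; rfl⟩)
    (by
      rintro _ ⟨f, rfl⟩
      exact ⟨_, (cmb_act _ z3 γ f).symm⟩) (by rw [f1]; exact one_ne_zero)
    (by rw [f2]; exact one_ne_zero)
  rw [f1, f2, mul_one, mul_one, a1, a2] at q3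
  rw [a1] at q1
  exact ⟨right_ne_zero_of_mul q1, q3.symm⟩

end

theorem UNC_pf : UNC_st := by
  intro F L _ _ _ _ _ _ _ γ E M hγ hE hd hM hu
  have : IsTotallyComplex L := isTotallyComplex_of_algebra F L
  rw [← IsGalois.card_aut_eq_finrank]
  exact unith_CUNC L (L ≃ₐ[F] L) free_CUNC γ E M hγ hE hd hM hu

end Pool.Agent.MP_e23604_nt.R
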