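import Pool.Agent.MP_e23604_nt.R.Brg

set_option autoImplicit false

open NumberField IsDedekindDomain Module Filter Topology
open scoped Classical

namespace Pool.Agent.MP_e23604_nt.R

open B Pool.Agent.MP_f3cd89_nt

theorem int_CVAL (hDIC : DIC_st) (l : ℕ) [hl : Fact l.Prime] (γ : GQ) {y : Qb} (hy : y ≠ 0)
    (h : Fix (Ine l γ) y) : ∃ k : ℤ, nv l γ y = (l : ℝ) ^ (-k) := by
  obtain ⟨x, hx, e⟩ := ram_a ⊥ (nv_na l γ) hl.out (nv_lt l γ) (y := y) fun τ _ hτ => h τ hτ
  obtain ⟨r, rfl⟩ := IntermediateField.mem_bot.1 hx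
  have hr : r ≠ 0 := by
    rintro rfl
    rw [map_zero, map_zero] at e
    exact hy ((nv l γ).eq_zero.1 e.symm)
  exact ⟨padicValRat l r, by rw [← e, ← hDIC.2.2.1 l γ r hr]; rfl⟩

theorem zero_CVAL {H : Subgroup GQ} {f : GQ → ℝ} (h1 : Adt H f) (h2 : Lc H f) :
    ∀ g ∈ H, f g = 0 := by
  intro g hg
  have h0 : f 1 = 0 := by
    have := h1 1 H.one_mem 1 H.one_mem
    rw [mul_one] at this
    linarith
  have hk : ∀ k : ℕ, f (g ^ k) = k * f g := by
    intro k
    induction k with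
    | zero => simp [h0]
    | succ k ih =>
      rw [pow_succ, h1 _ (H.pow_mem hg k) g hg, ih]
      push_cast
      ring
  by_contra hne
  refine Set.infinite_of_injective_forall_mem (f := fun k : ℕ => (k : ℝ) * f g) ?_ ?_ h2.finite
  · intro i j e
    exact_mod_cast mul_right_cancel₀ hne e
  · intro k
    exact ⟨g ^ k, H.pow_mem hg k, hk k⟩

theorem car_CVAL {n : ℕ} (hn : n ≠ 0) (x y : ZMod n) :
    (car x y : ℝ) = ((x.val : ℝ) + y.val - (x + y).val) / n := by
  have : NeZero n := ⟨hn⟩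
  have h1 := Nat.div_add_mod (x.val + y.val) n
  rw [← ZMod.val_add] at h1
  have h2 : (n : ℝ) * car x y + (x + y).val = x.val + y.val := by exact_mod_cast h1
  have h3 : (n : ℝ) ≠ 0 := by exact_mod_cast hn
  field_simp
  linarith

theorem car0_CVAL {n : ℕ} (hn : n ≠ 0) (x : ZMod n) : car x 0 = 0 ∧ car 0 x = 0 := by
  have : NeZero n := ⟨hn⟩
  have := ZMod.val_lt x
  simp [car, this]

theorem core_CVAL (hDIC : DIC_st) (l : ℕ) [hl : Fact l.Prime] (γ : GQ) (n n' : ℕ)
    (s : GQ → ZMod n) (s' : GQ → ZMod n') (a a' : ℚ) (β : GQ → Qb) (hn : n ≠ 0) (hn' : n' ≠ 0)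
    (ha : a ≠ 0) (ha' : a' ≠ 0) (h1 : Adt (Dec (nv l γ)) s) (h2 : Lc (Dec (nv l γ)) s)
    (h1' : Adt (Dec (nv l γ)) s') (h2' : Lc (Dec (nv l γ)) s') (h3 : Lc (Dec (nv l γ)) β)
    (h4 : ∀ g ∈ Dec (nv l γ), β g ≠ 0 ∧ Fix (Ine l γ) (β g))
    (h5 : ∀ g ∈ Dec (nv l γ), ∀ h ∈ Dec (nv l γ),
      nv l γ (β g) * nv l γ (β h) * nv l γ (a' : Qb) ^ car (s' g) (s' h) =
        nv l γ (a : Qb) ^ car (s g) (s h) * nv l γ (β (g * h))) :
    ∀ g ∈ Dec (nv l γ), ∃ k : ℤ,
      (padicValRat l a : ℚ) * (s g).val / n - padicValRat l a' * (s' g).val / n' = k := by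
  have hl1 : (1 : ℝ) < l := by exact_mod_cast hl.out.one_lt
  have hlog : Real.log l ≠ 0 := (Real.log_pos hl1).ne'
  have hz : ∀ g ∈ Dec (nv l γ), Real.log (nv l γ (β g)) / Real.log l +
      ((padicValRat l a : ℝ) * (s g).val / n - padicValRat l a' * (s' g).val / n') = 0 := by
    refine zero_CVAL (f := fun g => Real.log (nv l γ (β g)) / Real.log l +
      ((padicValRat l a : ℝ) * (s g).val / n - padicValRat l a' * (s' g).val / n')) ?_ ?_
    · intro g hg h hh
      have e := congrArg Real.log (h5 g hg h hh)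
      have p1 := ((nv l γ).pos (h4 g hg).1).ne'
      have p2 := ((nv l γ).pos (h4 h hh).1).ne'
      have p3 := ((nv l γ).pos (h4 _ (mul_mem hg hh)).1).ne'
      have p4 : nv l γ (a : Qb) ≠ 0 := ((nv l γ).pos (by exact_mod_cast ha)).ne'
      have p5 : nv l γ (a' : Qb) ≠ 0 := ((nv l γ).pos (by exact_mod_cast ha')).ne'
      rw [Real.log_mul (mul_ne_zero p1 p2) (pow_ne_zero _ p5), Real.log_mul p1 p2,
        Real.log_mul (pow_ne_zero _ p4) p3, Real.log_pow, Real.log_pow, hDIC.2.2.1 l γ a ha,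
        hDIC.2.2.1 l γ a' ha', Real.log_zpow, Real.log_zpow, car_CVAL hn, car_CVAL hn',
        ← h1 g hg h hh, ← h1' g hg h hh] at e
      have e' : Real.log (nv l γ (β (g * h))) = Real.log (nv l γ (β g)) +
          Real.log (nv l γ (β h)) + (((s' g).val : ℝ) + (s' h).val - (s' (g * h)).val) / n' *
            (((-padicValRat l a' : ℤ) : ℝ) * Real.log l) -
          (((s g).val : ℝ) + (s h).val - (s (g * h)).val) / n *
            (((-padicValRat l a : ℤ) : ℝ) * Real.log l) := by linarith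
      dsimp only
      rw [e']
      push_cast
      field_simp
      ring
    · exact (h3.map₂ (h2.map₂ h2' Prod.mk) fun (b : Qb) (p : ZMod n × ZMod n') =>
        Real.log (nv l γ b) / Real.log l +
          ((padicValRat l a : ℝ) * p.1.val / n - padicValRat l a' * p.2.val / n'))
  intro g hg
  obtain ⟨k, hk⟩ := int_CVAL hDIC l γ (h4 g hg).1 (h4 g hg).2
  have := hz g hg
  rw [hk, Real.log_zpow, mul_div_cancel_right₀ _ hlog] at this
  refine ⟨k, ?_⟩
  have e : (padicValRat l a : ℝ) * (s g).val / n - padicValRat l a' * (s' g).val / n' = k := by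
    push_cast at this
    linarith
  exact_mod_cast e

theorem VAL_pf (hH90 : H90_st) (hFRO : FRO_st) (hDIC : DIC_st) : VAL_st := by
  refine ⟨?_, ?_, ?_⟩
  · intro l _ γ n s a β hn ha h1 h2 h3 h4 h5 g hg
    have : NeZero n := ⟨hn⟩
    obtain ⟨k, hk⟩ := core_CVAL hDIC l γ n 1 s (fun _ => 0) a 1 β hn one_ne_zero ha one_ne_zero h1
      h2 (fun _ _ _ _ => by simp) (Lc.const _ _) h3 h4
      (fun g hg h hh => by rw [← h5 g hg h hh]; simp) g hg
    have hn' : (n : ℚ) ≠ 0 := by exact_mod_cast hn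
    have e1 : (padicValRat l a : ℚ) * (s g).val = k * n := by
      rw [padicValRat.one] at hk
      field_simp at hk
      push_cast at hk
      linarith
    have e2 : padicValRat l a * ((s g).val : ℤ) = k * n := by exact_mod_cast e1
    have e3 := congrArg (Int.cast : ℤ → ZMod n) e2
    simpa using e3
  · rintro l _ γ c r r' ⟨n, k, s, a, φ, hn, ha, hφ, h1, h2, h3, rfl, hc⟩
      ⟨n', k', s', a', φ', hn', ha', hφ', h1', h2', h3', rfl, hc'⟩
    have n0 : n ≠ 0 := by rw [hn]; positivity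
    have n0' : n' ≠ 0 := by rw [hn']; positivity
    have a0 : (a : Qb) ≠ 0 := by exact_mod_cast ha
    have a0' : (a' : Qb) ≠ 0 := by exact_mod_cast ha'
    have c0 : ∀ g ∈ Dec (nv l γ), ∀ h ∈ Dec (nv l γ), c g h ≠ 0 := by
      obtain ⟨N, β, -, b1, b2⟩ := hc
      intro g hg h hh e
      have := b2 g hg h hh
      simp only [e, zero_mul] at this
      exact mul_ne_zero (b1.2 g hg).1 ((map_ne_zero g).2 (b1.2 h hh).1) this
    obtain ⟨N, β, hN, b1, b2⟩ := (hc.mul hc'.inv).congr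
      (c' := fun g h => (a : Qb) ^ car (s g) (s h) / (a' : Qb) ^ car (s' g) (s' h))
      fun g hg h hh => by
        have := c0 g hg h hh
        field_simp
    have hI := Ine_le l γ
    obtain ⟨y, y0, -, hy⟩ := hH90.1 N (Ine l γ) β hN (b1.mono le_rfl hI) fun g hg h hh => by
      have := b2 g (hI hg) h (hI hh)
      simp only [h3 g hg, h3' g hg, (car0_CVAL n0 _).2, (car0_CVAL n0' _).2, pow_zero, div_one,
        one_mul] at this
      exact this.symm
    have gy : ∀ g : GQ, g y ≠ 0 := fun g => (map_ne_zero g).2 y0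
    set δ : GQ → Qb := fun g => β g * y / g y with hδ
    have d0 : ∀ g ∈ Dec (nv l γ), δ g ≠ 0 := fun g hg =>
      div_ne_zero (mul_ne_zero (b1.2 g hg).1 y0) (gy g)
    have d1 : ∀ τ ∈ Ine l γ, δ τ = 1 := fun τ hτ => by
      simp only [hδ]
      rw [← hy τ hτ, div_self (gy τ)]
    have d2 : ∀ g ∈ Dec (nv l γ), ∀ h ∈ Dec (nv l γ), δ g * g (δ h) =
        (a : Qb) ^ car (s g) (s h) / (a' : Qb) ^ car (s' g) (s' h) * δ (g * h) := by
      intro g hg h hh
      have := b2 g hg h hh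
      simp only [hδ, map_div₀, map_mul, AlgEquiv.mul_apply]
      have g1 := gy g
      have g2 : g (h y) ≠ 0 := gy (g * h)
      calc β g * y / g y * (g (β h) * g y / g (h y)) = β g * g (β h) * y / g (h y) := by
            field_simp
        _ = _ := by rw [this]; ring
    have d3 : ∀ g ∈ Dec (nv l γ), Fix (Ine l γ) (δ g) := by
      intro g hg τ hτ
      have hτ' := Ine_conj (inv_mem hg) hτ
      rw [inv_inv] at hτ'
      have e1 := d2 τ (hI hτ) g hg
      have e2 := d2 g hg _ (hI hτ')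
      simp only [h3 _ hτ, h3' _ hτ, (car0_CVAL n0 _).2, (car0_CVAL n0' _).2, pow_zero, div_one,
        one_mul, d1 τ hτ] at e1
      simp only [h3 _ hτ', h3' _ hτ', (car0_CVAL n0 _).1, (car0_CVAL n0' _).1, pow_zero, div_one,
        one_mul, d1 _ hτ', map_one, mul_one] at e2
      rw [e1, e2]
      congr 1
      group
    have d4 : Lc (Dec (nv l γ)) δ :=
      Lc.map₂ (f := β) (f' := fun g => g y) ⟨N, hN, b1.1⟩ (Lc.apply _ y) fun b z => b * y / z
    clear_value δ
    obtain ⟨j, hj⟩ := core_CVAL hDIC l γ n n' s s' a a' δ n0 n0' ha ha' h1 h2 h1' h2' d4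
      (fun g hg => ⟨d0 g hg, d3 g hg⟩) (fun g hg h hh => by
        have e := congrArg (nv l γ) (d2 g hg h hh)
        rw [map_mul, hg (δ h), map_mul, map_div₀, map_pow, map_pow] at e
        have p5 : nv l γ (a' : Qb) ≠ 0 := ((nv l γ).pos a0').ne'
        rw [e]
        field_simp) φ hφ.1
    have hi := ((hFRO l γ).2 φ hφ).1 φ' hφ'
    have e : s' φ' = s' φ := by
      have := h1' φ hφ.1 _ (hI hi)
      rwa [mul_inv_cancel_left, h3' _ hi, add_zero] at this
    exact ⟨j, by rw [e]; exact hj⟩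
  · intro l _ γ c hc
    obtain ⟨φ, hφ⟩ := (hFRO l γ).1
    exact ⟨1, 0, fun _ => 0, 1, φ, rfl, one_ne_zero, hφ, fun _ _ _ _ => by simp, Lc.const _ _,
      fun _ _ => rfl, by simp, hc.congr fun g _ h _ => by simp⟩

end Pool.Agent.MP_e23604_nt.R
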