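import Pool.Agent.MP_e23604_nt.R.CLB1
import Pool.Agent.MP_e23604_nt.R.CLB2
import Pool.Agent.MP_e23604_nt.R.CSIC
import Pool.Agent.MP_e23604_nt.R.CUNC
import Pool.Agent.MP_e23604_nt.R.CSI2
import Pool.Agent.MP_e23604_nt.R.CLOCN
import Pool.Agent.MP_e23604_nt.R.CHNT
import Pool.Agent.MP_e23604_nt.R.CDIC
import Pool.Agent.MP_e23604_nt.R.CDEN
import Pool.Agent.MP_e23604_nt.R.CFRO
import Pool.Agent.MP_e23604_nt.R.CKAP
import Pool.Agent.MP_e23604_nt.R.CTAM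
import Pool.Agent.MP_e23604_nt.R.CH90
import Pool.Agent.MP_e23604_nt.R.CKUM
import Pool.Agent.MP_e23604_nt.R.CCHEB
import Pool.Agent.MP_e23604_nt.R.CCHI
import Pool.Agent.MP_e23604_nt.R.CTQ
import Pool.Agent.MP_e23604_nt.R.CCYC
import Pool.Agent.MP_e23604_nt.R.CNRM
import Pool.Agent.MP_e23604_nt.R.CCONJ
import Pool.Agent.MP_e23604_nt.R.CVAL
import Pool.Agent.MP_e23604_nt.R.CHNS
import Pool.Agent.MP_e23604_nt.R.CABHN
import Pool.Agent.MP_e23604_nt.R.CAQ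
import Pool.Agent.MP_e23604_nt.R.CREC
import Pool.Agent.MP_e23604_nt.R.CHOMQ
import Pool.Agent.MP_e23604_nt.R.CINVQ
import Pool.Agent.MP_e23604_nt.R.CTRI

set_option autoImplicit false

namespace Pool.Agent.MP_e23604_nt.R

theorem LB1_ok : LB1_st := LB1_pf
theorem LB2_ok : LB2_st := LB2_pf LB1_ok
theorem SIC_ok : SIC_st := SIC_pf LB2_ok
theorem UNC_ok : UNC_st := UNC_pf
theorem SI2_ok : SI2_st := SI2_pf SIC_ok
theorem LOCN_ok : LOCN_st := LOCN_pf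
theorem HNT_ok : HNT_st := HNT_pf UNC_ok SI2_ok LOCN_ok
theorem DIC_ok : DIC_st := DIC_pf
theorem DEN_ok : DEN_st := DEN_pf DIC_ok
theorem FRO_ok : FRO_st := FRO_pf DIC_ok
theorem KAP_ok : KAP_st := KAP_pf DIC_ok FRO_ok
theorem TAM_ok : TAM_st := TAM_pf KAP_ok
theorem H90_ok : H90_st := H90_pf
theorem KUM_ok : KUM_st := KUM_pf H90_ok DEN_ok KAP_ok DIC_ok TAM_ok
theorem CHEB_ok : CHEB_st := CHEB_pf
theorem CHI_ok : CHI_st := CHI_pf DIC_ok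
theorem TQ_ok : TQ_st := TQ_pf FRO_ok TAM_ok KAP_ok
theorem CYC_ok : CYC_st := CYC_pf H90_ok
theorem NRM_ok : NRM_st := NRM_pf H90_ok
theorem CONJ_ok : CONJ_st := CONJ_pf
theorem VAL_ok : VAL_st := VAL_pf H90_ok FRO_ok DIC_ok
theorem HNS_ok : HNS_st := HNS_pf HNT_ok DIC_ok DEN_ok
theorem ABHN_ok : ABHN_st := ABHN_pf CYC_ok NRM_ok HNS_ok
theorem AQ_ok : AQ_st := AQ_pf ABHN_ok CYC_ok NRM_ok CONJ_ok VAL_ok KAP_ok H90_ok DIC_ok FRO_ok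
theorem REC_ok : REC_st := REC_pf ABHN_ok CYC_ok NRM_ok CONJ_ok VAL_ok CHI_ok DEN_ok FRO_ok DIC_ok
theorem HOMQ_ok : HOMQ_st := HOMQ_pf TQ_ok TAM_ok FRO_ok KAP_ok
theorem INVQ_ok : INVQ_st := INVQ_pf TQ_ok HOMQ_ok FRO_ok
theorem TRI_ok : TRI_st := TRI_pf

end Pool.Agent.MP_e23604_nt.R
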