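import Pool.Agent.MP_e23604_nt.R.CDefs
import Pool.Agent.MP_e23604_nt.BValC
import Pool.Agent.MP_f68ac8_nt.Cyc

/-!
Absolute values and maximal ideals of the ring of all algebraic integers.
-/

set_option autoImplicit false

open NumberField

namespace Pool.Agent.MP_e23604_nt.R

open B

/-- the centre of the absolute value -/
noncomputable def cen (l : ℕ) [Fact l.Prime] (γ : GQ) : Ideal (𝓞 Qb) := BValB_cen (nv_na l γ)

variable (l : ℕ) [hl : Fact l.Prime] (γ : GQ)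

theorem mem_cen (x : 𝓞 Qb) : x ∈ cen l γ ↔ nv l γ (x : Qb) < 1 := Iff.rfl

theorem cen_mem : (l : 𝓞 Qb) ∈ cen l γ := by
  rw [mem_cen, RingOfIntegers.coe_eq_algebraMap, map_natCast]
  exact nv_lt l γ

instance cen_max : (cen l γ).IsMaximal := by
  have h : (cen l γ).IsPrime := BValB_prime _
  refine Ideal.isMaximal_of_isIntegral_of_isMaximal_comap (R := ℤ) _ ?_
  have h1 : (Ideal.span {(l : ℤ)}).IsMaximal :=
    PrincipalIdealRing.isMaximal_of_irreducible (Nat.prime_iff_prime_int.mp hl.out).irreducible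
  have h2 : (cen l γ).comap (algebraMap ℤ (𝓞 Qb)) = Ideal.span {(l : ℤ)} := by
    ext n
    rw [Ideal.mem_comap, Ideal.mem_span_singleton, eq_intCast, BValB_int _ hl.out (cen_mem l γ)]
  rwa [h2]

theorem exists_cen (P : Ideal (𝓞 Qb)) [P.IsMaximal] (h : (l : 𝓞 Qb) ∈ P) : ∃ γ, P = cen l γ := by
  obtain ⟨ρ, hρ⟩ := BValB_conj ℚ P (cen l 1) fun x => by
    obtain ⟨n, rfl⟩ := Rat.ringOfIntegersEquiv.symm.surjective x
    rw [eq_intCast Rat.ringOfIntegersEquiv.symm, map_intCast, BValB_int P hl.out h,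
      BValB_int _ hl.out (cen_mem l 1)]
  exact ⟨ρ, Ideal.ext fun x => hρ x⟩

variable {l γ}

theorem le_of_cen {σ : GQ} (h : ∀ x : 𝓞 Qb, σ • x ∈ cen l γ → x ∈ cen l γ) {x : Qb}
    (hx : nv l γ x ≤ 1) : nv l γ (σ x) ≤ 1 := by
  obtain ⟨a, b, ha, hb, hb1, hab⟩ := frac (nv_na l γ) hl.out (nv_lt l γ) hx
  have h1 : 1 ≤ nv l γ (σ b) := not_lt.1 fun e => absurd (h ⟨b, hb⟩ e) (not_lt.2 hb1.ge)
  have h2 : nv l γ (σ a) ≤ 1 := v_int (nv_na l γ) (σ • (⟨a, ha⟩ : 𝓞 Qb)).2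
  rw [← hab, map_mul, map_mul] at h2
  nlinarith [(nv l γ).nonneg (σ x)]

theorem dec_iff {σ : GQ} :
    σ ∈ Dec (nv l γ) ↔ ∀ x : 𝓞 Qb, σ • x ∈ cen l γ ↔ x ∈ cen l γ := by
  refine ⟨fun h x => by
    change nv l γ (σ (x : Qb)) < 1 ↔ nv l γ (x : Qb) < 1
    rw [h], fun h => ?_⟩
  have h1 : ∀ x, nv l (γ * σ) x ≤ 1 ↔ nv l γ x ≤ 1 := fun x => by
    refine ⟨fun e => ?_, le_of_cen fun y => (h y).1⟩
    have := le_of_cen (σ := σ⁻¹) (x := σ x)
      (fun y hy => by have := (h _).2 hy; rwa [smul_inv_smul] at this) e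
    rwa [← AlgEquiv.mul_apply, inv_mul_cancel, AlgEquiv.one_apply] at this
  have h6 : (nv l (γ * σ)).IsEquiv (nv l γ) := fun x y => by
    rcases eq_or_ne y 0 with rfl | hy
    · simp
    · rw [← div_le_one ((nv l _).pos hy), ← div_le_one ((nv l γ).pos hy), ← map_div₀, ← map_div₀,
        h1]
  obtain ⟨c, hc, e⟩ := AbsoluteValue.isEquiv_iff_exists_rpow_eq.1 h6
  have h2 : nv l (γ * σ) l = nv l γ l := by rw [nv_mul, map_natCast]
  have h3 := congrFun e (l : Qb)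
  have h4 : 0 < nv l γ l := (nv l γ).pos (Nat.cast_ne_zero.2 hl.out.ne_zero)
  simp only [h2] at h3
  have h5 : c = 1 := by
    rw [← Real.rpow_right_inj h4 (nv_lt l γ).ne, h3, Real.rpow_one]
  intro x
  have := congrFun e x
  simpa only [h5, Real.rpow_one, nv_mul] using this

theorem frob_iff {φ : GQ} : Frob l γ φ ↔ MP_f68ac8_nt.IsFrob l (cen l γ) φ := by
  refine ⟨fun h x => h.2 x (v_int (nv_na l γ) x.2), fun h => ?_⟩
  have h0 : φ ∈ Dec (nv l γ) := dec_iff.2 fun x =>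
    ⟨fun e => by simpa using h.inv_mem e, h.mem hl.out⟩
  refine ⟨h0, fun x hx => ?_⟩
  obtain ⟨a, b, ha, hb, hb1, hab⟩ := frac (nv_na l γ) hl.out (nv_lt l γ) hx
  have e1 : nv l γ (φ a - a ^ l) < 1 := h ⟨a, ha⟩
  have e2 : nv l γ (φ b - b ^ l) < 1 := h ⟨b, hb⟩
  have e3 : (φ x - x ^ l) * φ b = (φ a - a ^ l) + -(x ^ l * (φ b - b ^ l)) := by
    rw [← hab, map_mul]; ring
  have e4 := congrArg (nv l γ) e3
  rw [map_mul, h0 b, hb1, mul_one] at e4
  rw [e4]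
  refine (nv_na l γ _ _).trans_lt (max_lt e1 ?_)
  rw [AbsoluteValue.map_neg, map_mul, map_pow]
  exact mul_lt_one_of_nonneg_of_lt_one_right (pow_le_one₀ ((nv l γ).nonneg _) hx)
    ((nv l γ).nonneg _) e2

theorem ine_iff {τ : GQ} : τ ∈ Ine l γ ↔ τ ∈ (cen l γ).inertia GQ := by
  refine ⟨fun h x => h x (v_int (nv_na l γ) x.2), fun h x hx => ?_⟩
  have h0 : τ ∈ Dec (nv l γ) := dec_iff.2 fun x =>
    ⟨fun e => by simpa using (cen l γ).sub_mem e (h x), fun e => by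
      simpa using (cen l γ).add_mem (h x) e⟩
  obtain ⟨a, b, ha, hb, hb1, hab⟩ := frac (nv_na l γ) hl.out (nv_lt l γ) hx
  have e1 : nv l γ (τ a - a) < 1 := h ⟨a, ha⟩
  have e2 : nv l γ (τ b - b) < 1 := h ⟨b, hb⟩
  have e3 : (τ x - x) * τ b = (τ a - a) + -(x * (τ b - b)) := by
    rw [← hab, map_mul]; ring
  have e4 := congrArg (nv l γ) e3
  rw [map_mul, h0 b, hb1, mul_one] at e4
  rw [e4]
  refine (nv_na l γ _ _).trans_lt (max_lt e1 ?_)
  rw [AbsoluteValue.map_neg, map_mul]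
  exact mul_lt_one_of_nonneg_of_lt_one_right hx ((nv l γ).nonneg _) e2

end Pool.Agent.MP_e23604_nt.R
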