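import Pool.Agent.MP_e23604_nt.R.CDefs

set_option autoImplicit false

open NumberField IsDedekindDomain Module Filter Topology
open scoped Classical

namespace Pool.Agent.MP_e23604_nt.R

open B Pool.Agent.MP_f3cd89_nt

theorem two_sq_AQ (a : ℚ) (ha : 0 < a)
    (h : ∀ l : ℕ, l.Prime → l % 4 = 3 → Even (padicValRat l a)) : ∃ x y : ℚ, a = x ^ 2 + y ^ 2 := by
  have hn : a.num.natAbs ≠ 0 := Int.natAbs_ne_zero.2 (Rat.num_ne_zero.2 ha.ne')
  obtain ⟨x, y, e⟩ := (Nat.eq_sq_add_sq_iff (n := a.num.natAbs * a.den)).2 fun q hq h3 => by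
    have hp := Nat.prime_of_mem_primeFactors hq
    have := Fact.mk hp
    have h1 := h q hp h3
    rw [padicValRat, padicValInt, Int.even_sub, Int.even_coe_nat, Int.even_coe_nat] at h1
    rw [padicValNat.mul hn a.den_nz, Nat.even_add]
    exact h1
  have e1 : ((a.num.natAbs : ℕ) : ℚ) = a.num := by
    rw [Nat.cast_natAbs, abs_of_pos (Rat.num_pos.2 ha)]
  have e2 : (a.num : ℚ) * a.den = (x : ℚ) ^ 2 + (y : ℚ) ^ 2 := by
    rw [← e1]
    exact_mod_cast e
  have hd : (a.den : ℚ) ≠ 0 := by exact_mod_cast a.den_nz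
  refine ⟨x / a.den, y / a.den, ?_⟩
  rw [div_pow, div_pow, ← add_div, ← e2, eq_div_iff (pow_ne_zero 2 hd), ← Rat.mul_den_eq_num]
  ring

theorem nv_one_AQ (v : AbsoluteValue Qb ℝ) {x : Qb} (h : x ^ 2 = 1) : v x = 1 := by
  have e := congrArg v h
  rw [map_pow, map_one] at e
  exact (pow_eq_one_iff_of_nonneg (v.nonneg x) two_ne_zero).1 e

theorem zmod_AQ : ∀ t : ZMod 2, t ≠ 0 → t = 1 := by decide

theorem AQ_pf (hABHN : ABHN_st) (hCYC : CYC_st) (hNRM : NRM_st) (hCONJ : CONJ_st) (hVAL : VAL_st) (hKAP : KAP_st) (hH90 : H90_st) (hDIC : DIC_st) (hFRO : FRO_st) : AQ_st := by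
  intro N c cc hN hc hI h2 hcc hZ hloc
  obtain ⟨k1, k2, -, -, k5, k6, -, -, k9⟩ := hKAP
  obtain ⟨hadd, hlc⟩ := k1 (-1)
  set χ := kap (-1) with hχ
  let U : Subgroup GQ := MulAction.stabilizer GQ (sqr (-1))
  have hU : ∀ g, g ∈ U ↔ χ g = 0 := fun g => by
    change g (sqr (-1)) = sqr (-1) ↔ (if g (sqr (-1)) = sqr (-1) then (0 : ZMod 2) else 1) = 0
    split_ifs with h <;> simp [h]
  have hUn : U.Normal := ⟨fun n hn g => by
    rw [hU] at hn ⊢
    have e1 := hadd g trivial g⁻¹ trivial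
    rw [mul_inv_cancel, (hU 1).1 U.one_mem] at e1
    rw [hadd _ trivial _ trivial, hadd _ trivial _ trivial, hn, add_zero, ← e1]⟩
  have hUl : Lev U := ⟨⟨hUn, stabilizer_isOpen_of_isIntegral (K := ℚ) _⟩, fun g => ⟨1, by
    rw [hU, pow_one, pow_two, hadd _ trivial _ trivial]
    exact CharTwo.add_self_eq_zero _⟩⟩
  have hi : sqr (-1) ^ 2 = -1 := by rw [sqr_sq]; norm_num
  have hUr : NoReal U := ⟨sqr (-1), fun g hg => hg, fun ι h0 => by
    have e := congrArg (fun z => (ι z).re) hi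
    simp only [map_neg, map_one, pow_two, map_mul, Complex.mul_re, h0, Complex.neg_re,
      Complex.one_re] at e
    nlinarith [mul_self_nonneg (ι (sqr (-1))).re]⟩
  have hN' := hN.inf hUl
  obtain ⟨β, b1, b2⟩ := hABHN (N ⊓ U) U c hN' inf_le_right hUr (hc.mono le_top)
    (hI.mono inf_le_left le_top) fun l _ γ => by
      rcases hloc l with h | ⟨-, h⟩
      · exact Or.inl (hCONJ.2 N U c l 1 γ hN.1 hUn hc hI (h.mono inf_le_left))
      · exact Or.inr ⟨fun τ h1 h3 => ⟨h γ h3, h1⟩, fun g _ j _ => nv_one_AQ _ (h2 g j)⟩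
  have hcc1 : χ cc = 1 := by rw [hχ, k5 (-1) cc hcc, if_pos (by norm_num)]
  obtain ⟨a, β', a0, a1, b3, b4⟩ := hCYC 2 (N ⊓ U) U ⊤ χ cc c β le_rfl hN'.1 inf_le_right hadd
    (fun g => by rw [hU]; simp) trivial hcc1 hc (hI.mono inf_le_left le_rfl) b1 b2
  obtain ⟨a, rfl⟩ : ∃ r : ℚ, (r : Qb) = a :=
    (InfiniteGalois.mem_range_algebraMap_iff_fixed (k := ℚ) a).2 fun g => a1 g trivial
  have a2 : a ≠ 0 := by exact_mod_cast a0
  have hca : Cob ⊤ fun g h => c g h * (a : Qb) ^ car (χ g) (χ h) := ⟨_, β', hN'.1, b3, b4⟩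
  have c0 : ∀ g h, c g h ≠ 0 := fun g h => (hI.2.2 g trivial h trivial).1
  have p2 : ∀ y : Qb, ∏ i ∈ Finset.range 2, (cc ^ i) y = y * cc y := fun y => by
    simp [Finset.prod_range_succ]
  have hpos : 0 < a := by
    obtain ⟨y, y0, -, y1⟩ := (hNRM 2 (Subgroup.zpowers cc ⊓ U) (Subgroup.zpowers cc) χ cc le_rfl
      (hadd.mono le_top) (fun g => by rw [Subgroup.mem_inf, hU]) (Subgroup.mem_zpowers cc)
      hcc1).2 a (((hca.mono le_top).mul hZ.inv).congr fun g _ j _ => by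
        rw [mul_right_comm, mul_inv_cancel₀ (c0 g j), one_mul])
    exact (hDIC.2.2.2.2 cc hcc).2 y y0 a (by rw [← p2, y1])
  obtain ⟨x, y, hxy⟩ := two_sq_AQ a hpos fun l hl h3 => by
    have := Fact.mk hl
    have l2 : l ≠ 2 := by omega
    obtain ⟨φ, hφ⟩ := (hFRO l 1).1
    have f1 : χ φ = 1 := zmod_AQ _ fun h0 => by
      have := (k9 l 1 φ l2 hφ).1.1 h0
      omega
    have f2 : ∀ τ ∈ Ine l 1, χ τ = 0 := fun τ hτ => by
      rw [hχ, k6 l 1 (-1) l2 (by norm_num) τ hτ, padicValRat.neg, padicValRat.one]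
      simp
    rcases hloc l with h | ⟨-, h⟩
    · obtain ⟨k, hk⟩ := hVAL.2.1 l 1 c _ _ ⟨2, 1, χ, a, φ, rfl, a2, hφ, hadd.mono le_top,
        hlc.mono le_top, f2, rfl, hca.mono le_top⟩ (hVAL.2.2 l 1 c h)
      rw [f1, show (1 : ZMod 2).val = 1 from rfl] at hk
      refine ⟨k, ?_⟩
      have e : ((padicValRat l a : ℤ) : ℚ) = k + k := by
        push_cast at hk
        linarith
      exact_mod_cast e
    · have e := hVAL.1 l 1 2 χ a β' two_ne_zero a2 (hadd.mono le_top) (hlc.mono le_top)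
        ⟨_, hN'.1, b3.1.mono le_rfl le_top⟩
        (fun g _ => ⟨(b3.2 g trivial).1, fun τ hτ =>
          (b3.2 g trivial).2 τ ⟨h 1 hτ, (hU τ).2 (f2 τ hτ)⟩⟩)
        (fun g hg j _ => by
          have e := congrArg (nv l 1) (b4 g trivial j trivial)
          rwa [map_mul, hg, map_mul, map_mul, nv_one_AQ _ (h2 g j), one_mul, map_pow] at e) φ hφ.1
      rw [f1, mul_one] at e
      exact (ZMod.intCast_eq_zero_iff_even).1 e
  have hz : ((x : Qb) + y * sqr (-1)) * cc ((x : Qb) + y * sqr (-1)) = a := by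
    have e := k2 (-1) _ cc (sqr_sq (-1))
    rw [← hχ, hcc1, show (1 : ZMod 2).val = 1 from rfl] at e
    rw [map_add, map_mul, map_ratCast, map_ratCast, e, hxy]
    push_cast
    linear_combination (-(y : Qb) ^ 2) * hi
  have z0 : (x : Qb) + y * sqr (-1) ≠ 0 := left_ne_zero_of_mul (hz ▸ a0)
  obtain ⟨-, n2, -⟩ := (hNRM 2 U ⊤ χ cc le_rfl hadd (fun g => by rw [hU]; simp) trivial hcc1).1
    ((x : Qb) + y * sqr (-1)) fun g hg => by
      rw [map_add, map_mul, map_ratCast, map_ratCast, show g (sqr (-1)) = sqr (-1) from hg]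
  rw [p2, hz] at n2
  have n3 := cob_of_lc (hlc.map fun t : ZMod 2 => ∏ i ∈ Finset.range t.val,
    (cc ^ i) ((x : Qb) + y * sqr (-1)))
    (fun g _ => Finset.prod_ne_zero_iff.2 fun i _ => (map_ne_zero _).2 z0) n2
  obtain ⟨b, e1, e2, e3⟩ := hH90.2 ⊤ c 2 two_ne_zero ((hca.mul n3.inv).congr fun g _ j _ =>
    mul_inv_cancel_right₀ (pow_ne_zero _ a0) _) fun g _ j _ => h2 g j
  exact ⟨b, e1, fun g => e2 g trivial, e3⟩

end Pool.Agent.MP_e23604_nt.R
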