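import Pool.Agent.MP_e23604_nt.BSel
import Pool.Agent.MP_9b2bac_nt.Tw.Stmt

/-!
Cochains on subgroups of the absolute Galois group, and the statements of the steps of the
local-global principle and of the reciprocity law for two-cocycles.
-/

set_option autoImplicit false

open NumberField IsDedekindDomain Module Filter Topology
open scoped Classical

namespace Pool.Agent.MP_e23604_nt.R

open B Pool.Agent.MP_f3cd89_nt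

/-- the decomposition group of an absolute value -/
def Dec (v : AbsoluteValue Qb ℝ) : Subgroup GQ where
  carrier := {σ | ∀ x, v (σ x) = v x}
  one_mem' _ := rfl
  mul_mem' {a b} ha hb x := (ha (b x)).trans (hb x)
  inv_mem' {a} ha x := by
    have := ha (a⁻¹ x)
    rw [← AlgEquiv.mul_apply, mul_inv_cancel, AlgEquiv.one_apply] at this
    exact this.symm

/-- the inertia group -/
def Ine (l : ℕ) [Fact l.Prime] (γ : GQ) : Subgroup GQ where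
  carrier := {τ | Inr (nv l γ) τ}
  one_mem' x _ := by simp
  mul_mem' h1 h2 := Inr_mul (nv_na l γ) h1 h2
  inv_mem' h1 := Inr_inv (nv_na l γ) h1

/-- Frobenius elements -/
def Frob (l : ℕ) [Fact l.Prime] (γ φ : GQ) : Prop :=
  φ ∈ Dec (nv l γ) ∧ ∀ x, nv l γ x ≤ 1 → nv l γ (φ x - x ^ l) < 1

/-- complex conjugations -/
def CC (c : GQ) : Prop := ∃ ι : Qb →+* ℂ, ∀ x, ι (c x) = starRingEnd ℂ (ι x)

/-- open normal subgroups -/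
def ON (N : Subgroup GQ) : Prop := N.Normal ∧ IsOpen (N : Set GQ)

/-- open normal subgroups with a two-group as quotient -/
def Lev (N : Subgroup GQ) : Prop := ON N ∧ ∀ g : GQ, ∃ k : ℕ, g ^ 2 ^ k ∈ N

/-- `x` is fixed by `H` -/
def Fix (H : Subgroup GQ) (x : Qb) : Prop := ∀ g ∈ H, g x = x

/-- the fixed field of `U` has no real embedding -/
def NoReal (U : Subgroup GQ) : Prop := ∃ x : Qb, Fix U x ∧ ∀ ι : Qb →+* ℂ, (ι x).im ≠ 0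

/-- `f` is constant on the classes of `H` modulo `N` -/
def Cst {α : Type} (N H : Subgroup GQ) (f : GQ → α) : Prop :=
  ∀ g ∈ H, ∀ h ∈ H, g⁻¹ * h ∈ N → f g = f h

/-- `f` is uniformly locally constant on `H` -/
def Lc {α : Type} (H : Subgroup GQ) (f : GQ → α) : Prop := ∃ N, ON N ∧ Cst N H f

/-- `f` is additive on `H` -/
def Adt {α : Type} [Add α] (H : Subgroup GQ) (f : GQ → α) : Prop :=
  ∀ g ∈ H, ∀ h ∈ H, f (g * h) = f g + f h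

/-- one-cochains of level `N` -/
def Inf1 (N H : Subgroup GQ) (β : GQ → Qb) : Prop :=
  Cst N H β ∧ ∀ g ∈ H, β g ≠ 0 ∧ Fix N (β g)

/-- two-cochains of level `N` -/
def Inf2 (N H : Subgroup GQ) (c : GQ → GQ → Qb) : Prop :=
  (∀ g ∈ H, Cst N H (c g)) ∧ (∀ h ∈ H, Cst N H fun g => c g h) ∧
    ∀ g ∈ H, ∀ h ∈ H, c g h ≠ 0 ∧ Fix N (c g h)

/-- the cocycle identity -/
def Coc (H : Subgroup GQ) (c : GQ → GQ → Qb) : Prop :=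
  ∀ g ∈ H, ∀ h ∈ H, ∀ j ∈ H, c g h * c (g * h) j = g (c h j) * c g (h * j)

/-- `c` is the boundary of `β` on `H` -/
def Bd (H : Subgroup GQ) (c : GQ → GQ → Qb) (β : GQ → Qb) : Prop :=
  ∀ g ∈ H, ∀ h ∈ H, β g * g (β h) = c g h * β (g * h)

/-- `c` is a coboundary on `H` -/
def Cob (H : Subgroup GQ) (c : GQ → GQ → Qb) : Prop := ∃ N β, ON N ∧ Inf1 N H β ∧ Bd H c β

/-- the carry in the addition of residues -/
def car {n : ℕ} (x y : ZMod n) : ℕ := (x.val + y.val) / n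

/-- a chosen square root -/
noncomputable def sqr (r : ℚ) : Qb := Classical.epsilon fun s => s ^ 2 = (r : Qb)

/-- the quadratic character of a rational number -/
noncomputable def kap (r : ℚ) (g : GQ) : ZMod 2 := if g (sqr r) = sqr r then 0 else 1

/-- `r` is the local invariant of `c` -/
def Inv (l : ℕ) [Fact l.Prime] (γ : GQ) (c : GQ → GQ → Qb) (r : ℚ) : Prop :=
  ∃ (n k : ℕ) (s : GQ → ZMod n) (a : ℚ) (φ : GQ), n = 2 ^ k ∧ a ≠ 0 ∧ Frob l γ φ ∧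
    Adt (Dec (nv l γ)) s ∧ Lc (Dec (nv l γ)) s ∧ (∀ τ ∈ Ine l γ, s τ = 0) ∧
    r = padicValRat l a * (s φ).val / n ∧
    Cob (Dec (nv l γ)) fun g h => c g h * (a : Qb) ^ car (s g) (s h)

/-- `c` is unramified at `l` -/
def Unr2 (N H : Subgroup GQ) (l : ℕ) [Fact l.Prime] (γ : GQ) (c : GQ → GQ → Qb) : Prop :=
  (∀ τ ∈ H, τ ∈ Ine l γ → τ ∈ N) ∧ ∀ g ∈ H, ∀ h ∈ H, nv l γ (c g h) = 1

/-- a bimultiplicative map on `M` with values in the roots of unity of order `n` -/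
structure Bil {A : Type} [AddCommGroup A] (M : AddSubgroup A) (n : ℕ) (e : A → A → Qb) : Prop where
  addl : ∀ x ∈ M, ∀ x' ∈ M, ∀ y ∈ M, e (x + x') y = e x y * e x' y
  addr : ∀ x ∈ M, ∀ y ∈ M, ∀ y' ∈ M, e x (y + y') = e x y * e x y'
  pow : ∀ x ∈ M, ∀ y ∈ M, e x y ^ n = 1

/-- normalised generators of the tame group at `q` -/
structure TQ (n : ℕ) (ζ : Qb) (q : ℕ) [Fact q.Prime] (γ φ τ : GQ) : Prop where
  dvd : n ∣ q - 1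
  fr : Frob q γ φ
  ine : τ ∈ Ine q γ
  ex : ∃ ϖ : Qb, ϖ ^ n = q ∧ τ ϖ = ζ * ϖ ∧ φ ϖ = ϖ

/-! ### Elementary lemmas -/

theorem mem_Dec {v : AbsoluteValue Qb ℝ} {σ : GQ} : σ ∈ Dec v ↔ ∀ x, v (σ x) = v x := Iff.rfl

theorem mem_Ine {l : ℕ} [Fact l.Prime] {γ τ : GQ} : τ ∈ Ine l γ ↔ Inr (nv l γ) τ := Iff.rfl

theorem Ine_le (l : ℕ) [Fact l.Prime] (γ : GQ) : Ine l γ ≤ Dec (nv l γ) :=
  fun _ h x => Inr_eq (nv_na l γ) h x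

theorem mem_Dec_conj (l : ℕ) [Fact l.Prime] (γ g σ : GQ) :
    σ ∈ Dec (nv l (γ * g)) ↔ g * σ * g⁻¹ ∈ Dec (nv l γ) := by
  simp only [mem_Dec, nv_mul, AlgEquiv.mul_apply]
  refine ⟨fun h x => ?_, fun h x => ?_⟩
  · rw [h, ← AlgEquiv.mul_apply, mul_inv_cancel, AlgEquiv.one_apply]
  · have := h (g x)
    rwa [← AlgEquiv.mul_apply g⁻¹, inv_mul_cancel, AlgEquiv.one_apply] at this

theorem mem_Ine_conj (l : ℕ) [Fact l.Prime] (γ g σ : GQ) :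
    σ ∈ Ine l (γ * g) ↔ g * σ * g⁻¹ ∈ Ine l γ := by
  simp only [mem_Ine, Inr, nv_mul, AlgEquiv.mul_apply, map_sub]
  refine ⟨fun h x hx => ?_, fun h x hx => ?_⟩
  · have e : g (g⁻¹ x) = x := by rw [← AlgEquiv.mul_apply, mul_inv_cancel, AlgEquiv.one_apply]
    have := h (g⁻¹ x) (by rwa [e])
    rwa [e] at this
  · have := h (g x) hx
    rwa [← AlgEquiv.mul_apply g⁻¹, inv_mul_cancel, AlgEquiv.one_apply] at this

theorem Ine_conj {l : ℕ} [Fact l.Prime] {γ g τ : GQ} (hg : g ∈ Dec (nv l γ)) (hτ : τ ∈ Ine l γ) :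
    g * τ * g⁻¹ ∈ Ine l γ := by
  intro x hx
  have e : g (g⁻¹ x) = x := by rw [← AlgEquiv.mul_apply, mul_inv_cancel, AlgEquiv.one_apply]
  have h1 := hτ (g⁻¹ x) (by rw [← hg, e]; exact hx)
  rw [← hg, map_sub, e] at h1
  exact h1

theorem ON.top : ON ⊤ := ⟨inferInstance, isOpen_univ⟩

theorem ON.inf {N N' : Subgroup GQ} (h : ON N) (h' : ON N') : ON (N ⊓ N') :=
  ⟨@Subgroup.normal_inf_normal _ _ _ _ h.1 h'.1, h.2.inter h'.2⟩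

theorem Lev.inf {N N' : Subgroup GQ} (h : Lev N) (h' : Lev N') : Lev (N ⊓ N') := by
  refine ⟨h.1.inf h'.1, fun g => ?_⟩
  obtain ⟨k, hk⟩ := h.2 g
  obtain ⟨j, hj⟩ := h'.2 g
  refine ⟨k + j, ?_, ?_⟩
  · rw [pow_add, pow_mul]
    exact N.pow_mem hk _
  · rw [add_comm, pow_add, pow_mul]
    exact N'.pow_mem hj _

/-- an open normal subgroup inside a neighbourhood of the identity -/
theorem exists_ON {s : Set GQ} (hs : s ∈ 𝓝 (1 : GQ)) : ∃ N, ON N ∧ ∀ g ∈ N, g ∈ s := by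
  obtain ⟨L, h1, h2, h3⟩ := (krullTopology_mem_nhds_one_iff_of_normal ℚ Qb s).mp hs
  have : Normal ℚ L := h2
  have : IsGalois ℚ L := IsGalois.mk
  exact ⟨L.fixingSubgroup, ⟨(InfiniteGalois.normal_iff_isGalois L).2 this,
    L.fixingSubgroup_isOpen⟩, fun g hg => h3 hg⟩

theorem exists_ON_fix (X : Finset Qb) : ∃ N, ON N ∧ ∀ x ∈ X, Fix N x := by
  obtain ⟨N, h1, h2⟩ := exists_ON (s := {g : GQ | ∀ x ∈ X, g x = x})
    ((Filter.eventually_all_finset X).2 fun x _ =>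
      (stabilizer_isOpen_of_isIntegral (K := ℚ) x).mem_nhds (one_mem _))
  exact ⟨N, h1, fun x hx g hg => h2 g hg x hx⟩

theorem ON.finite {N : Subgroup GQ} (h : ON N) : Finite (GQ ⧸ N) :=
  Subgroup.quotient_finite_of_isOpen N h.2

theorem Cst.mono {α : Type} {N N' H H' : Subgroup GQ} {f : GQ → α} (h : Cst N H f) (h1 : N' ≤ N)
    (h2 : H' ≤ H) : Cst N' H' f := fun g hg j hj e => h g (h2 hg) j (h2 hj) (h1 e)

theorem Lc.mono {α : Type} {H H' : Subgroup GQ} {f : GQ → α} (h : Lc H f) (h2 : H' ≤ H) :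
    Lc H' f := h.imp fun _ h => ⟨h.1, h.2.mono le_rfl h2⟩

theorem Lc.const {α : Type} (H : Subgroup GQ) (a : α) : Lc H fun _ => a :=
  ⟨⊤, ON.top, fun _ _ _ _ _ => rfl⟩

theorem Lc.map₂ {α β γ : Type} {H : Subgroup GQ} {f : GQ → α} {f' : GQ → β} (h : Lc H f)
    (h' : Lc H f') (F : α → β → γ) : Lc H fun g => F (f g) (f' g) := by
  obtain ⟨N, h1, h2⟩ := h
  obtain ⟨N', h3, h4⟩ := h'
  exact ⟨N ⊓ N', h1.inf h3, fun g hg j hj e => by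
    simp only [h2 g hg j hj e.1, h4 g hg j hj e.2]⟩

theorem Lc.map {α β : Type} {H : Subgroup GQ} {f : GQ → α} (h : Lc H f) (F : α → β) :
    Lc H fun g => F (f g) := h.map₂ h fun a _ => F a

theorem Lc.apply (H : Subgroup GQ) (x : Qb) : Lc H fun g => g x := by
  obtain ⟨N, h1, h2⟩ := exists_ON_fix {x}
  refine ⟨N, h1, fun g _ j _ e => ?_⟩
  have := congrArg g (h2 x (Finset.mem_singleton_self x) _ e)
  rw [← AlgEquiv.mul_apply, mul_inv_cancel_left] at this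
  exact this.symm

theorem Lc.finite {α : Type} {H : Subgroup GQ} {f : GQ → α} (h : Lc H f) :
    (f '' (H : Set GQ)).Finite := by
  obtain ⟨N, h1, h2⟩ := h
  have := h1.finite
  let r : GQ ⧸ N → GQ := fun y => Classical.epsilon fun g => g ∈ H ∧ (g : GQ ⧸ N) = y
  refine (Set.finite_range fun y => f (r y)).subset ?_
  rintro _ ⟨g, hg, rfl⟩
  have := Classical.epsilon_spec (p := fun j => j ∈ H ∧ (j : GQ ⧸ N) = (g : GQ ⧸ N)) ⟨g, hg, rfl⟩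
  exact ⟨g, h2 _ this.1 g hg (QuotientGroup.eq.1 this.2)⟩

theorem Lc.inf1 {H : Subgroup GQ} {β : GQ → Qb} (h : Lc H β) (h0 : ∀ g ∈ H, β g ≠ 0) :
    ∃ N, ON N ∧ Inf1 N H β := by
  obtain ⟨N', h3, h4⟩ := exists_ON_fix h.finite.toFinset
  obtain ⟨N, h1, h2⟩ := h
  exact ⟨N ⊓ N', h1.inf h3, h2.mono inf_le_left le_rfl, fun g hg => ⟨h0 g hg, fun n hn =>
    h4 _ ((Set.Finite.mem_toFinset _).2 ⟨g, hg, rfl⟩) n hn.2⟩⟩

theorem cob_of_lc {H : Subgroup GQ} {c : GQ → GQ → Qb} {β : GQ → Qb} (h : Lc H β)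
    (h0 : ∀ g ∈ H, β g ≠ 0) (hb : Bd H c β) : Cob H c := by
  obtain ⟨N, h1, h2⟩ := h.inf1 h0
  exact ⟨N, β, h1, h2, hb⟩

theorem lc_iff {α : Type} {f : GQ → α} : IsLocallyConstant f ↔ Lc ⊤ f := by
  constructor
  · intro h
    have h1 : ∀ g : GQ, ∃ N, ON N ∧ ∀ n ∈ N, f (g * n) = f g := fun g => by
      have h2 : IsLocallyConstant fun ρ : GQ => f (g * ρ) := h.comp_continuous (by fun_prop)
      obtain ⟨N, h3, h4⟩ := exists_ON (h2.eventually_eq 1)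
      exact ⟨N, h3, fun n hn => by simpa using h4 n hn⟩
    choose N h2 h3 using h1
    obtain ⟨t, ht⟩ := isCompact_univ.elim_finite_subcover (fun g : GQ => {x | g⁻¹ * x ∈ N g})
      (fun g => (h2 g).2.preimage (by fun_prop))
      (fun g _ => Set.mem_iUnion.2 ⟨g, by simp⟩)
    obtain ⟨M, h4, h5⟩ := exists_ON (s := {x | ∀ g ∈ t, x ∈ N g})
      ((Filter.eventually_all_finset t).2 fun g _ => (h2 g).2.mem_nhds (one_mem _))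
    refine ⟨M, h4, fun x _ y _ e => ?_⟩
    obtain ⟨g, hg, hx⟩ := Set.mem_iUnion₂.1 (ht (Set.mem_univ x))
    have e1 := h3 g _ hx
    have e2 := h3 g _ ((N g).mul_mem hx (h5 _ e g hg))
    rw [mul_inv_cancel_left] at e1
    rw [mul_assoc, mul_inv_cancel_left, mul_inv_cancel_left] at e2
    exact e1.trans e2.symm
  · rintro ⟨N, h1, h2⟩
    refine (IsLocallyConstant.iff_eventually_eq f).2 fun g => ?_
    have : {x : GQ | g⁻¹ * x ∈ N} ∈ 𝓝 g :=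
      (h1.2.preimage (by fun_prop)).mem_nhds (by simp)
    filter_upwards [this] with x hx using (h2 g trivial x trivial hx).symm

theorem Inf1.mono {N N' H H' : Subgroup GQ} {β : GQ → Qb} (h : Inf1 N H β) (h1 : N' ≤ N)
    (h2 : H' ≤ H) : Inf1 N' H' β :=
  ⟨h.1.mono h1 h2, fun g hg => ⟨(h.2 g (h2 hg)).1, fun n hn => (h.2 g (h2 hg)).2 n (h1 hn)⟩⟩

theorem Inf2.mono {N N' H H' : Subgroup GQ} {c : GQ → GQ → Qb} (h : Inf2 N H c) (h1 : N' ≤ N)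
    (h2 : H' ≤ H) : Inf2 N' H' c :=
  ⟨fun g hg => (h.1 g (h2 hg)).mono h1 h2, fun g hg => (h.2.1 g (h2 hg)).mono h1 h2,
    fun g hg j hj => ⟨(h.2.2 g (h2 hg) j (h2 hj)).1,
      fun n hn => (h.2.2 g (h2 hg) j (h2 hj)).2 n (h1 hn)⟩⟩

theorem Coc.mono {H H' : Subgroup GQ} {c : GQ → GQ → Qb} (h : Coc H c) (h2 : H' ≤ H) : Coc H' c :=
  fun g hg i hi j hj => h g (h2 hg) i (h2 hi) j (h2 hj)

theorem Adt.mono {α : Type} [Add α] {H H' : Subgroup GQ} {f : GQ → α} (h : Adt H f)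
    (h2 : H' ≤ H) : Adt H' f := fun g hg i hi => h g (h2 hg) i (h2 hi)

theorem Bd.mono {H H' : Subgroup GQ} {c : GQ → GQ → Qb} {β : GQ → Qb} (h : Bd H c β)
    (h2 : H' ≤ H) : Bd H' c β := fun g hg i hi => h g (h2 hg) i (h2 hi)

theorem Cob.mono {H H' : Subgroup GQ} {c : GQ → GQ → Qb} (h : Cob H c) (h2 : H' ≤ H) :
    Cob H' c := by
  obtain ⟨N, β, h1, h3, h4⟩ := h
  exact ⟨N, β, h1, h3.mono le_rfl h2, h4.mono h2⟩

theorem Cob.congr {H : Subgroup GQ} {c c' : GQ → GQ → Qb} (h : Cob H c)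
    (e : ∀ g ∈ H, ∀ j ∈ H, c g j = c' g j) : Cob H c' := by
  obtain ⟨N, β, h1, h3, h4⟩ := h
  exact ⟨N, β, h1, h3, fun g hg j hj => e g hg j hj ▸ h4 g hg j hj⟩

theorem Cob.one (H : Subgroup GQ) : Cob H fun _ _ => 1 :=
  cob_of_lc (Lc.const H 1) (fun _ _ => one_ne_zero) fun _ _ _ _ => by simp

theorem Cob.mul {H : Subgroup GQ} {c c' : GQ → GQ → Qb} (h : Cob H c) (h' : Cob H c') :
    Cob H fun g j => c g j * c' g j := by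
  obtain ⟨N, β, h1, h2, h3⟩ := h
  obtain ⟨N', β', h4, h5, h6⟩ := h'
  refine cob_of_lc (β := fun g => β g * β' g) (Lc.map₂ ⟨N, h1, h2.1⟩ ⟨N', h4, h5.1⟩ _)
    (fun g hg => mul_ne_zero (h2.2 g hg).1 (h5.2 g hg).1) fun g hg j hj => ?_
  rw [map_mul]
  linear_combination (β' g * g (β' j)) * h3 g hg j hj + (c g j * β (g * j)) * h6 g hg j hj

theorem Cob.inv {H : Subgroup GQ} {c : GQ → GQ → Qb} (h : Cob H c) :
    Cob H fun g j => (c g j)⁻¹ := by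
  obtain ⟨N, β, h1, h2, h3⟩ := h
  refine cob_of_lc (β := fun g => (β g)⁻¹) (Lc.map ⟨N, h1, h2.1⟩ _)
    (fun g hg => inv_ne_zero (h2.2 g hg).1) fun g hg j hj => ?_
  rw [map_inv₀, ← mul_inv, h3 g hg j hj, mul_inv]

theorem sqr_sq (r : ℚ) : sqr r ^ 2 = r :=
  Classical.epsilon_spec (IsAlgClosed.exists_pow_nat_eq (r : Qb) two_pos)

/-! ### The norm theorem for number fields -/

/-- L-series of nontrivial ray characters are bounded near one -/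
def LB1_st : Prop := ∀ (K : Type) [Field K] [NumberField K] (m : Ideal (𝓞 K))
  (X : Ideal (𝓞 K) → ℂ), m ≠ ⊥ → (∀ I J, X (I * J) = X I * X J) →
  (∀ I, I ≠ ⊥ → I ⊔ m = ⊤ → ‖X I‖ = 1) → (∀ I, I ⊔ m ≠ ⊤ → X I = 0) → X ⊥ = 0 →
  (∀ x : 𝓞 K, x ≠ 0 → x - 1 ∈ m → X (Ideal.span {x}) = 1) →
  (∃ I, I ≠ ⊥ ∧ I ⊔ m = ⊤ ∧ X I ≠ 1) →
  ∃ C : ℝ, ∀ s : ℝ, 1 < s → s ≤ 2 →
    ‖∑' I : Ideal (𝓞 K), X I * (((Ideal.absNorm I : ℝ) ^ (-s) : ℝ) : ℂ)‖ ≤ C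

/-- the same for the sum over primes -/
def LB2_st : Prop := ∀ (F : Type) [Field F] [NumberField F] [IsTotallyComplex F]
  (S : Finset (Pr F)) (N : ℕ) (ψ : Pr F → ℂˣ), 0 < N → IsRay S N ψ → (∀ v, ‖(ψ v : ℂ)‖ = 1) →
  (∃ c, c ∉ S ∧ ψ c ≠ 1) → ∃ K : ℝ, ∀ᶠ s in 𝓝[>] (1 : ℝ),
    ∑' v : {v // v ∉ S}, (ψ v : ℂ).re * (nrm v.1 : ℝ) ^ (-s) ≤ K

/-- the second inequality over a totally complex field -/
def SIC_st : Prop := ∀ (F L G : Type) [Field F] [NumberField F] [IsTotallyComplex F] [Field L]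
  [NumberField L] [Algebra F L] [Group G] [Finite G] [MulSemiringAction G L] [IsGaloisGroup G F L]
  (S : Finset (Pr F)) (φ : Pr F → G) (U : Subgroup G) (N : ℕ) (H : AddSubgroup (Pr F →₀ ℤ)),
  U.Normal → Unr L G S → IsFrob L S φ → 0 < N → (∀ x, Ray S N x → dv x ∈ H) →
  (∀ v, v ∉ S → φ v ∈ U → Finsupp.single v 1 ∈ H) →
  H.relIndex (off S) ≠ 0 ∧ H.relIndex (off S) ≤ U.index

/-- the Herbrand quotient of the units over a totally complex field -/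
def UNC_st : Prop := ∀ (F L : Type) [Field F] [NumberField F] [IsTotallyComplex F] [Field L]
  [NumberField L] [Algebra F L] [IsGalois F L] (γ : L ≃ₐ[F] L) (E : AddSubgroup (Additive Lˣ))
  (M : ℕ), (∀ g, g ∈ Subgroup.zpowers γ) → (∀ a ∈ E, sA γ a ∈ E) →
  (∀ a ∈ E, dv ((Additive.toMul a : Lˣ) : L) = 0) → 0 < M →
  (∀ a : Additive Lˣ, dv ((Additive.toMul a : Lˣ) : L) = 0 → M • a ∈ E) →
  hz (sA γ) (finrank F L) E ≠ 0 ∧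
    ho (sA γ) (finrank F L) E = finrank F L * hz (sA γ) (finrank F L) E

/-- the second inequality for invariant divisors of a quadratic extension -/
def SI2_st : Prop := ∀ (F M : Type) [Field F] [NumberField F] [IsTotallyComplex F] [Field M]
  [NumberField M] [Algebra F M] [IsGalois F M] (s : M ≃ₐ[F] M) (S : Finset (Pr F)) (N : ℕ),
  finrank F M = 2 → s ≠ 1 → 0 < N → Unr M (M ≃ₐ[F] M) S → ∀ D D' : Pr M →₀ ℤ,
  D ∈ off (above M S) → D' ∈ off (above M S) → (∀ w, D (gact s w) = D w) →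
  (∀ w, D' (gact s w) = D' w) →
  ∃ Z, (Z = D ∨ Z = D' ∨ Z = D - D') ∧ ∃ (a : M) (E : Pr M →₀ ℤ), a ≠ 0 ∧ s a = a ∧
    Cong (above M S) N a ∧ E ∈ off (above M S) ∧ ∀ w, Z w = ord w a + (E w + E (gact s w))

/-- local norms, simultaneously -/
def LOCN_st : Prop := ∀ (F M : Type) [Field F] [NumberField F] [Field M]
  [NumberField M] [Algebra F M] [IsGalois F M] (s : M ≃ₐ[F] M) (S : Finset (Pr F)) (a : M),
  finrank F M = 2 → s ≠ 1 → a ≠ 0 → s a = a →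
  (∀ w : Pr M, w ∉ above M S → gact s w = w → Even (ord w a)) →
  (∀ w ∈ above M S, gact s w = w → ∀ N : ℕ, ∃ y : M, y ≠ 0 ∧ Cong {w} N (a / (y * s y))) →
  (∃ E ∈ off (above M S), ∀ w, w ∉ above M S → ord w a = E w + E (gact s w)) ∧
    ∀ N : ℕ, ∃ y : M, y ≠ 0 ∧ Cong (above M S) N (a / (y * s y))

/-- the norm theorem of Hasse for a quadratic extension of a totally complex field -/
def HNT_st : Prop := ∀ (F M : Type) [Field F] [NumberField F] [IsTotallyComplex F] [Field M]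
  [NumberField M] [Algebra F M] [IsGalois F M] (s : M ≃ₐ[F] M) (S : Finset (Pr F)) (a : M),
  finrank F M = 2 → s ≠ 1 → a ≠ 0 → s a = a → Unr M (M ≃ₐ[F] M) S →
  (∀ w : Pr M, w ∉ above M S → gact s w = w → Even (ord w a)) →
  (∀ w ∈ above M S, gact s w = w → ∀ N : ℕ, ∃ y : M, y ≠ 0 ∧ Cong {w} N (a / (y * s y))) →
  ∃ μ : M, μ * s μ = a

/-! ### Local tools -/

/-- primes of a number field and absolute values -/
def DIC_st : Prop :=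
  (∀ (L : IntermediateField ℚ Qb) [NumberField L] (w : Pr L), ∃ (l : ℕ) (_ : Fact l.Prime) (γ : GQ)
    (t : ℝ), 1 < t ∧ ∀ x : L, x ≠ 0 → nv l γ (x : Qb) = t ^ (-ord w x)) ∧
  (∀ (l : ℕ) [Fact l.Prime] (γ : GQ) (L : IntermediateField ℚ Qb) [FiniteDimensional ℚ L] (σ : GQ),
    (∀ x ∈ L, nv l γ (σ x) = nv l γ x) → ∃ σ' ∈ Dec (nv l γ), ∀ x ∈ L, σ' x = σ x) ∧
  (∀ (l : ℕ) [Fact l.Prime] (γ : GQ) (x : ℚ), x ≠ 0 →
    nv l γ (x : Qb) = (l : ℝ) ^ (-padicValRat l x)) ∧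
  (∃ c, CC c) ∧ ∀ c, CC c → c * c = 1 ∧ ∀ y : Qb, y ≠ 0 → ∀ a : ℚ, y * c y = a → 0 < a

/-- elements of the decomposition field are limits of elements of the base -/
def DEN_st : Prop := ∀ (l : ℕ) [Fact l.Prime] (γ : GQ) (U : Subgroup GQ) (x : Qb) (ε : ℝ),
  IsOpen (U : Set GQ) → Fix (Dec (nv l γ) ⊓ U) x → 0 < ε → ∃ y, Fix U y ∧ nv l γ (x - y) < ε

/-- the decomposition group is generated by a Frobenius element and inertia -/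
def FRO_st : Prop := ∀ (l : ℕ) [Fact l.Prime] (γ : GQ), (∃ φ, Frob l γ φ) ∧
  (∀ φ, Frob l γ φ → (∀ φ', Frob l γ φ' → φ⁻¹ * φ' ∈ Ine l γ) ∧
    (∀ τ ∈ Ine l γ, Frob l γ (φ * τ)) ∧
    (∀ (n : ℕ) (z : Qb), ¬ l ∣ n → z ^ n = 1 → φ z = z ^ l) ∧
    (∀ N, ON N → ∀ g ∈ Dec (nv l γ), ∃ (i : ℕ) (τ : GQ), τ ∈ Ine l γ ∧ (φ ^ i * τ)⁻¹ * g ∈ N) ∧
    ∀ (M : Type) [AddCommGroup M] (a : GQ → M), Adt (Dec (nv l γ)) a → Lc (Dec (nv l γ)) a →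
      (∀ τ ∈ Ine l γ, a τ = 0) → a φ = 0 → ∀ g ∈ Dec (nv l γ), a g = 0)

/-- quadratic characters -/
def KAP_st : Prop :=
  (∀ r : ℚ, Adt ⊤ (kap r) ∧ Lc ⊤ (kap r)) ∧
  (∀ (r : ℚ) (s : Qb) (g : GQ), s ^ 2 = r → g s = (-1) ^ (kap r g).val * s) ∧
  (∀ (r r' : ℚ) (g : GQ), r ≠ 0 → r' ≠ 0 → kap (r * r') g = kap r g + kap r' g) ∧
  (∀ (r : ℚ) (g : GQ), kap (r ^ 2) g = 0) ∧
  (∀ (r : ℚ) (c : GQ), CC c → kap r c = if r < 0 then 1 else 0) ∧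
  (∀ (l : ℕ) [Fact l.Prime] (γ : GQ) (r : ℚ), l ≠ 2 → r ≠ 0 → ∀ τ ∈ Ine l γ,
    kap r τ = (padicValRat l r : ZMod 2) * kap l τ) ∧
  (∀ (l : ℕ) [Fact l.Prime] (γ φ : GQ) (m : ℤ), l ≠ 2 → Frob l γ φ → ¬ (l : ℤ) ∣ m →
    (kap m φ = 0 ↔ legendreSym l m = 1)) ∧
  (∀ (l q : ℕ) [Fact l.Prime] [Fact q.Prime] (γ γ' φ φ' : GQ), l ≠ 2 → l ≠ q → q % 4 = 1 →
    Frob l γ φ → Frob q γ' φ' → kap q φ = kap l φ') ∧
  ∀ (l : ℕ) [Fact l.Prime] (γ φ : GQ), l ≠ 2 → Frob l γ φ →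
    (kap (-1) φ = 0 ↔ l % 4 = 1) ∧ (kap 2 φ = 0 ↔ l % 8 = 1 ∨ l % 8 = 7)

/-- tame inertia -/
def TAM_st : Prop := ∀ (l : ℕ) [Fact l.Prime] (γ : GQ), l ≠ 2 → (∃ τ ∈ Ine l γ, kap l τ = 1) ∧
  ∀ τ ∈ Ine l γ, kap l τ = 1 → ∀ (M : Type) [AddCommGroup M] (a : GQ → M) (e : ℕ),
    Adt (Ine l γ) a → Lc (Ine l γ) a → (∀ u ∈ Ine l γ, 2 ^ e • a u = 0) → a τ = 0 →
    ∀ u ∈ Ine l γ, a u = 0

/-- Hilbert's theorem 90 for subgroups -/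
def H90_st : Prop :=
  (∀ (N H : Subgroup GQ) (φ : GQ → Qb), ON N → Inf1 N H φ →
    (∀ g ∈ H, ∀ h ∈ H, φ (g * h) = φ g * g (φ h)) →
    ∃ y, y ≠ 0 ∧ Fix N y ∧ ∀ g ∈ H, g y = φ g * y) ∧
  ∀ (H : Subgroup GQ) (c : GQ → GQ → Qb) (n : ℕ), n ≠ 0 → Cob H c →
    (∀ g ∈ H, ∀ h ∈ H, c g h ^ n = 1) → ∃ β, Lc H β ∧ (∀ g ∈ H, β g ^ n = 1) ∧ Bd H c β

/-- Kummer theory for quadratic characters -/
def KUM_st : Prop :=
  (∀ (l : ℕ) [Fact l.Prime] (γ : GQ) (H : Subgroup GQ) (x s : Qb), H ≤ Dec (nv l γ) → Fix H x →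
    nv l γ (x - 1) < nv l γ 4 → s ^ 2 = x → Fix H s) ∧
  (∀ (l : ℕ) [Fact l.Prime] (γ : GQ) (a : GQ → ZMod 2), Adt (Dec (nv l γ)) a →
    Lc (Dec (nv l γ)) a → ∃ r : ℚ, r ≠ 0 ∧ ∀ g ∈ Dec (nv l γ), a g = kap r g) ∧
  (∀ (γ : GQ) (r : ℚ), r ≠ 0 → ∃ (j u : ℕ), Odd u ∧ ∀ m : ℤ, m % 8 = u % 8 →
    ∀ g ∈ Dec (nv 2 γ), kap r g = kap (2 ^ j * m) g) ∧
  ∀ (a : GQ → ZMod 2) (T : Finset ℕ), Adt ⊤ a → Lc ⊤ a → (∀ l ∈ T, l.Prime) →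
    (∀ (l : ℕ) [Fact l.Prime], l ≠ 2 → l ∉ T → ∀ τ ∈ Ine l 1, a τ = 0) →
    ∃ (i j : ℕ) (P : Finset ℕ), P ⊆ T ∧ ∀ g, a g = kap ((-1) ^ i * 2 ^ j * ∏ l ∈ P, (l : ℚ)) g

/-- primes with a given central Frobenius element of order two -/
def CHEB_st : Prop := ∀ (N : Subgroup GQ) (g : GQ) (B : ℕ), ON N → g * g ∈ N →
  (∀ h : GQ, h * g * h⁻¹ * g⁻¹ ∈ N) → ∃ (q : ℕ) (_ : Fact q.Prime) (φ : GQ), B < q ∧ Frob q 1 φ ∧
    g⁻¹ * φ ∈ N ∧ Ine q 1 ≤ N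

/-- a cyclic character of two-power order, unramified at the odd primes -/
structure Chi (m : ℕ) (U : Subgroup GQ) (χ : GQ → ZMod (2 ^ m)) (f : ℕ → ZMod (2 ^ m)) : Prop where
  pos : 0 < m
  lev : Lev U
  add : Adt ⊤ χ
  ker : ∀ g, g ∈ U ↔ χ g = 0
  nr : NoReal U
  cc : ∀ c, CC c → (χ c).val + (χ c).val = 2 ^ m
  two : ∃ s ∈ Dec (nv 2 1), χ s = 1
  unr : ∀ (l : ℕ) [Fact l.Prime] (γ : GQ), l ≠ 2 → Ine l γ ≤ U
  fr : ∀ (l : ℕ) [Fact l.Prime] (γ φ : GQ), l ≠ 2 → Frob l γ φ → χ φ = f l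
  sum : ∀ (a : ℚ) (T : Finset ℕ), 0 < a → nv 2 1 ((a : Qb) - 1) ≤ nv 2 1 2 ^ (m + 2) →
    (∀ l ∈ T, l.Prime ∧ l ≠ 2) → (∀ l : ℕ, l.Prime → l ≠ 2 → padicValRat l a ≠ 0 → l ∈ T) →
    ∑ l ∈ T, (padicValRat l a : ZMod (2 ^ m)) * f l = 0

/-- existence of such characters with large local degrees -/
def CHI_st : Prop := ∀ k B : ℕ, ∃ (m : ℕ) (U : Subgroup GQ) (χ : GQ → ZMod (2 ^ m))
  (f : ℕ → ZMod (2 ^ m)), Chi m U χ f ∧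
    ∀ l : ℕ, l.Prime → l ≠ 2 → l ≤ B → ∀ i : ℕ, (i : ZMod (2 ^ m)) * f l = 0 → 2 ^ k ∣ i

/-- tame generators and the unramified character -/
def TQ_st : Prop :=
  (∀ (l : ℕ) [Fact l.Prime] (γ φ : GQ) (k : ℕ), l ≠ 2 → Frob l γ φ →
    ∃ s : GQ → ZMod (2 ^ k), Adt (Dec (nv l γ)) s ∧ Lc (Dec (nv l γ)) s ∧
      (∀ τ ∈ Ine l γ, s τ = 0) ∧ s φ = 1) ∧
  ∀ (k : ℕ) (ζ : Qb) (q : ℕ) [Fact q.Prime] (γ : GQ), IsPrimitiveRoot ζ (2 ^ (k + 1)) →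
    q ≠ 2 → 2 ^ (k + 1) ∣ q - 1 → ∃ φ τ, TQ (2 ^ (k + 1)) ζ q γ φ τ

/-! ### Cyclic classes -/

/-- a cocycle that splits on the kernel of a cyclic character is cyclic -/
def CYC_st : Prop := ∀ (n : ℕ) (N H H' : Subgroup GQ) (χ : GQ → ZMod n) (s : GQ)
  (c : GQ → GQ → Qb) (β : GQ → Qb), 2 ≤ n → ON N → N ≤ H → Adt H' χ →
  (∀ g, g ∈ H ↔ g ∈ H' ∧ χ g = 0) → s ∈ H' → χ s = 1 → Coc H' c → Inf2 N H' c → Inf1 N H β →
  Bd H c β → ∃ a β', a ≠ 0 ∧ Fix H' a ∧ Inf1 N H' β' ∧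
    Bd H' (fun g h => c g h * a ^ car (χ g) (χ h)) β'

/-- norms and cyclic classes -/
def NRM_st : Prop := ∀ (n : ℕ) (H H' : Subgroup GQ) (χ : GQ → ZMod n) (s : GQ), 2 ≤ n → Adt H' χ →
  (∀ g, g ∈ H ↔ g ∈ H' ∧ χ g = 0) → s ∈ H' → χ s = 1 →
  (∀ y, Fix H y → Fix H' (∏ i ∈ Finset.range n, (s ^ i) y) ∧
    Bd H' (fun g h => (∏ i ∈ Finset.range n, (s ^ i) y) ^ car (χ g) (χ h))
      (fun g => ∏ i ∈ Finset.range (χ g).val, (s ^ i) y) ∧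
    ∀ g, Fix H (∏ i ∈ Finset.range (χ g).val, (s ^ i) y)) ∧
  ∀ a, (Cob H' fun g h => a ^ car (χ g) (χ h)) →
    ∃ y, y ≠ 0 ∧ Fix H y ∧ ∏ i ∈ Finset.range n, (s ^ i) y = a

/-- conjugate subgroups -/
def CONJ_st : Prop :=
  (∀ (N H H' : Subgroup GQ) (g : GQ) (c : GQ → GQ → Qb), ON N → Coc ⊤ c → Inf2 N ⊤ c →
    (∀ x, x ∈ H' ↔ g * x * g⁻¹ ∈ H) → Cob H c → Cob H' c) ∧
  ∀ (N U : Subgroup GQ) (c : GQ → GQ → Qb) (l : ℕ) [Fact l.Prime] (γ γ' : GQ), ON N → U.Normal →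
    Coc ⊤ c → Inf2 N ⊤ c → Cob (Dec (nv l γ) ⊓ U) c → Cob (Dec (nv l γ') ⊓ U) c

/-- valuations of cochains -/
def VAL_st : Prop :=
  (∀ (l : ℕ) [Fact l.Prime] (γ : GQ) (n : ℕ) (s : GQ → ZMod n) (a : ℚ) (β : GQ → Qb), n ≠ 0 →
    a ≠ 0 → Adt (Dec (nv l γ)) s → Lc (Dec (nv l γ)) s → Lc (Dec (nv l γ)) β →
    (∀ g ∈ Dec (nv l γ), β g ≠ 0 ∧ Fix (Ine l γ) (β g)) →
    (∀ g ∈ Dec (nv l γ), ∀ h ∈ Dec (nv l γ), nv l γ (β g) * nv l γ (β h) =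
      nv l γ (a : Qb) ^ car (s g) (s h) * nv l γ (β (g * h))) →
    ∀ g ∈ Dec (nv l γ), (padicValRat l a : ZMod n) * s g = 0) ∧
  (∀ (l : ℕ) [Fact l.Prime] (γ : GQ) (c : GQ → GQ → Qb) (r r' : ℚ), Inv l γ c r → Inv l γ c r' →
    ∃ k : ℤ, r - r' = k) ∧
  ∀ (l : ℕ) [Fact l.Prime] (γ : GQ) (c : GQ → GQ → Qb), Cob (Dec (nv l γ)) c → Inv l γ c 0

/-- the norm theorem for a pair of open subgroups -/
def HNS_st : Prop := ∀ (N H H' : Subgroup GQ) (s : GQ) (a : Qb), ON N → N ≤ H → H ≤ H' → s ∈ H' →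
  s ∉ H → (∀ g ∈ H', g ∈ H ∨ g * s⁻¹ ∈ H) → NoReal H' → a ≠ 0 → Fix H' a →
  (∀ (l : ℕ) [Fact l.Prime] (γ : GQ), ∀ t ∈ Dec (nv l γ) ⊓ H', t ∉ H →
    (∃ y, Fix (Dec (nv l γ) ⊓ H) y ∧ y * t y = a) ∨
    ((∀ τ ∈ H', τ ∈ Ine l γ → τ ∈ N) ∧ ∃ z, Fix N z ∧ nv l γ a = nv l γ z ^ 2)) →
  ∃ μ, Fix H μ ∧ μ * s μ = a

/-- the local-global principle over a totally complex field -/
def ABHN_st : Prop := ∀ (N U : Subgroup GQ) (c : GQ → GQ → Qb), Lev N → N ≤ U → NoReal U →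
  Coc U c → Inf2 N U c →
  (∀ (l : ℕ) [Fact l.Prime] (γ : GQ), Cob (Dec (nv l γ) ⊓ U) c ∨ Unr2 N U l γ c) →
  ∃ β, Inf1 N U β ∧ Bd U c β

/-- the local-global principle for cocycles of signs over the rational numbers -/
def AQ_st : Prop := ∀ (N : Subgroup GQ) (c : GQ → GQ → Qb) (cc : GQ), Lev N → Coc ⊤ c →
  Inf2 N ⊤ c → (∀ g h, c g h ^ 2 = 1) → CC cc → Cob (Subgroup.zpowers cc) c →
  (∀ (l : ℕ) [Fact l.Prime], Cob (Dec (nv l 1)) c ∨ (l ≠ 2 ∧ ∀ γ, Ine l γ ≤ N)) →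
  ∃ β, Lc ⊤ β ∧ (∀ g, β g ^ 2 = 1) ∧ Bd ⊤ c β

/-- the reciprocity law -/
def REC_st : Prop := ∀ (N : Subgroup GQ) (c : GQ → GQ → Qb) (cc : GQ) (n : ℕ) (Q : Finset ℕ)
  (r : ℕ → ℚ), Lev N → Coc ⊤ c → Inf2 N ⊤ c → n ≠ 0 → (∀ g h, c g h ^ n = 1) → CC cc →
  Cob (Subgroup.zpowers cc) c → (∀ l ∈ Q, l.Prime ∧ l ≠ 2) →
  (∀ (l : ℕ) [Fact l.Prime], l ∈ Q → Inv l 1 c (r l)) →
  (∀ (l : ℕ) [Fact l.Prime], l ∉ Q → Cob (Dec (nv l 1)) c ∨ (l ≠ 2 ∧ ∀ γ, Ine l γ ≤ N)) →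
  ∃ k : ℤ, ∑ l ∈ Q, r l = k

/-- the invariant of a cup product at a tame prime -/
def INVQ_st : Prop := ∀ (k : ℕ) (ζ : Qb) (q : ℕ) [Fact q.Prime] (γ φ τ : GQ) (A : Type)
  [AddCommGroup A] (M : AddSubgroup A) (e : A → A → Qb) (a b : GQ → A),
  IsPrimitiveRoot ζ (2 ^ (k + 1)) → TQ (2 ^ (k + 1)) ζ q γ φ τ → Bil M (2 ^ k) e →
  (∀ x ∈ M, 2 ^ (k + 1) • x = 0) → Adt (Dec (nv q γ)) a → Adt (Dec (nv q γ)) b →
  Lc (Dec (nv q γ)) a → Lc (Dec (nv q γ)) b → (∀ g ∈ Dec (nv q γ), a g ∈ M ∧ b g ∈ M) →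
  ∃ m : ℤ, ζ ^ m * e (a φ) (b τ) = e (a τ) (b φ) ∧
    Inv q γ (fun g h => e (a g) (b h)) (m / 2 ^ (k + 1))

/-- homomorphisms from the tame group with prescribed values -/
def HOMQ_st : Prop := ∀ (k : ℕ) (ζ : Qb) (q : ℕ) [Fact q.Prime] (γ φ τ : GQ) (A : Type)
  [AddCommGroup A], IsPrimitiveRoot ζ (2 ^ (k + 1)) → TQ (2 ^ (k + 1)) ζ q γ φ τ → kap q τ = 1 ∧
  (∀ x y : A, 2 ^ (k + 1) • x = 0 → 2 ^ (k + 1) • y = 0 → ∃ a : GQ → A, Adt (Dec (nv q γ)) a ∧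
    Lc (Dec (nv q γ)) a ∧ a φ = x ∧ a τ = y ∧ ∀ g, ∃ i j : ℕ, a g = i • x + j • y) ∧
  ∀ (a : GQ → A) (e : ℕ), Adt (Dec (nv q γ)) a → Lc (Dec (nv q γ)) a →
    (∀ g ∈ Dec (nv q γ), 2 ^ e • a g = 0) → a φ = 0 → a τ = 0 → ∀ g ∈ Dec (nv q γ), a g = 0

/-- three Lagrangian subgroups of a finite quadratic module -/
def TRI_st : Prop := ∀ (H : Type) [AddCommGroup H] [Finite H] (n : ℕ) (b : H → H → Qb), n ≠ 0 →
  Bil ⊤ n b → (∀ x, (∀ y, b x y * b y x = 1) → x = 0) →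
  (∀ A : AddSubgroup H, (∀ x ∈ A, ∀ y ∈ A, b x y * b y x = 1) → Nat.card A ^ 2 ≤ Nat.card H) ∧
  ∀ A B C : AddSubgroup H, (∀ x ∈ A, b x x = 1) → (∀ x ∈ B, b x x = 1) → (∀ x ∈ C, b x x = 1) →
    Nat.card A ^ 2 = Nat.card H → Nat.card B ^ 2 = Nat.card H → Nat.card C ^ 2 = Nat.card H →
    IsSquare (Nat.card C * Nat.card ↥(A ⊓ B) * Nat.card ↥(A ⊓ C) * Nat.card ↥(B ⊓ C))

end Pool.Agent.MP_e23604_nt.R
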