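import Pool.Agent.MP_e23604_nt.R.CDefs
import Pool.Agent.MP_346737_nt.VPart
import Pool.Agent.MP_346737_nt.VEul

set_option autoImplicit false

open NumberField IsDedekindDomain Module Filter Topology
open scoped Classical

namespace Pool.Agent.MP_e23604_nt.R

open B Pool.Agent.MP_f3cd89_nt

section Aux

open Pool.Agent.MP_346737_nt

variable {K : Type} [Field K] [NumberField K]

lemma unf_CLB1 (ρ : Ideal (𝓞 K) → ℝ) (hb : ρ ⊥ = 0) (hs : Summable ρ) :
    HasSum (fun x : 𝓞 K => VPart_f x * ρ (Ideal.span {x}))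
      (Units.torsionOrder K * ∑' J : Ideal (𝓞 K), if J.IsPrincipal then ρ J else 0) := by
  have h1 := VPart_unfold (fun J => |ρ J| + ρ J)
    (fun J => by have := neg_abs_le (ρ J); linarith) (by simp [hb]) (hs.abs.add hs)
  have h2 := VPart_unfold (fun J => |ρ J|) (fun J => abs_nonneg _) (by simp [hb]) hs.abs
  have h3 : ∀ σ : Ideal (𝓞 K) → ℝ, Summable σ →
      Summable fun J : Ideal (𝓞 K) => if J.IsPrincipal then σ J else 0 := fun σ h =>
    h.abs.of_norm_bounded fun J => by split_ifs <;> simp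
  convert h1.sub h2 using 1
  · rfl
  · funext x; ring
  · rw [← mul_sub, ← (h3 _ (hs.abs.add hs)).tsum_sub (h3 _ hs.abs)]
    congr 1
    refine tsum_congr fun J => ?_
    split_ifs <;> ring

lemma unfC_CLB1 (ρ : Ideal (𝓞 K) → ℂ) (hb : ρ ⊥ = 0) (hs : Summable ρ) :
    HasSum (fun x : 𝓞 K => (VPart_f x : ℂ) * ρ (Ideal.span {x}))
      (Units.torsionOrder K * ∑' J : Ideal (𝓞 K), if J.IsPrincipal then ρ J else 0) := by
  have h3 : Summable fun J : Ideal (𝓞 K) => if J.IsPrincipal then ρ J else 0 :=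
    hs.norm.of_norm_bounded fun J => by split_ifs <;> simp
  have h1 := unf_CLB1 (fun J => (ρ J).re) (by simp [hb]) (Complex.hasSum_re hs.hasSum).summable
  have h2 := unf_CLB1 (fun J => (ρ J).im) (by simp [hb]) (Complex.hasSum_im hs.hasSum).summable
  rw [Complex.hasSum_iff]
  constructor
  · convert h1 using 1
    · funext x; simp
    · simp [Complex.re_tsum h3, apply_ite Complex.re]
  · convert h2 using 1
    · funext x; simp
    · simp [Complex.im_tsum h3, apply_ite Complex.im]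

/-- twisted class zeta function -/
noncomputable def S_CLB1 (X : Ideal (𝓞 K) → ℂ) (s : ℝ) (c : ClassGroup (𝓞 K)) : ℂ :=
  ∑' I : Ideal (𝓞 K), if cl I = c then X I * (nw s I : ℂ) else 0

lemma sum_CLB1 {X : Ideal (𝓞 K) → ℂ} (h1 : ∀ I, ‖X I‖ ≤ 1) {s : ℝ} (hs : 1 < s)
    (p : Ideal (𝓞 K) → Prop) :
    Summable fun I : Ideal (𝓞 K) => if p I then X I * (nw s I : ℂ) else 0 := by
  refine (VPart_nw_summable hs).of_norm_bounded fun I => ?_
  split_ifs
  · rw [norm_mul, Complex.norm_real, Real.norm_of_nonneg (VPart_nw_nonneg _ _)]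
    exact mul_le_of_le_one_left (VPart_nw_nonneg _ _) (h1 I)
  · rw [norm_zero]; exact VPart_nw_nonneg _ _

lemma F_CLB1 {X : Ideal (𝓞 K) → ℂ} (hm : ∀ I J, X (I * J) = X I * X J) (h1 : ∀ I, ‖X I‖ ≤ 1)
    {s : ℝ} (hs : 1 < s) {b : Ideal (𝓞 K)} (hb : b ≠ 0) :
    HasSum (fun x : 𝓞 K => if x ∈ b then X (Ideal.span {x}) * (VPart_G s x : ℂ) else 0)
      (Units.torsionOrder K * (nw s b * (X b * S_CLB1 X s (cl b)⁻¹))) := by
  have h1 := unfC_CLB1 (fun J : Ideal (𝓞 K) => if J ≤ b then X J * (nw s J : ℂ) else 0)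
    (by simp [VPart_nw_bot (show 0 < s by linarith)]) (sum_CLB1 h1 hs _)
  convert h1 using 2 with x
  · simp only [VPart_G, Ideal.span_singleton_le_iff_mem]
    split_ifs
    · push_cast; ring
    · simp
  · rw [S_CLB1, ← tsum_mul_left, ← tsum_mul_left]
    refine Eq.trans ?_ ((mul_right_injective₀ hb).tsum_eq ?_)
    · refine tsum_congr fun I => ?_
      have e : nw s (b * I) = nw s b * nw s I := (MP_d64882_nt.wHom K s).map_mul b I
      rw [if_pos (Ideal.dvd_iff_le.1 (dvd_mul_right b I)), e, hm]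
      by_cases hI : I = 0
      · simp [hI, VPart_nw_bot (show 0 < s by linarith)]
      have e2 : Submodule.IsPrincipal (b * I) ↔ cl I = (cl b)⁻¹ := by
        rw [eq_inv_iff_mul_eq_one, mul_comm (cl I), ← cl_mul hb hI,
          cl_of_mem (mem_nonZeroDivisors_of_ne_zero (mul_ne_zero hb hI)),
          ClassGroup.mk0_eq_one_iff]
      simp only [e2]
      split_ifs
      · push_cast; ring
      · simp
    · intro J hJ
      have : J ≤ b := by
        by_contra hc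
        simp [hc] at hJ
      obtain ⟨I, hI⟩ := Ideal.dvd_iff_le.2 this
      exact ⟨I, hI.symm⟩

lemma nw_le_CLB1 {s : ℝ} (hs : 0 < s) (I : Ideal (𝓞 K)) : nw s I ≤ 1 := by
  by_cases hI : I = ⊥
  · rw [hI, VPart_nw_bot hs]; exact zero_le_one
  refine Real.rpow_le_one_of_one_le_of_nonpos ?_ (by linarith)
  rw [Nat.one_le_cast, Nat.one_le_iff_ne_zero, Ne, Ideal.absNorm_eq_zero_iff]
  exact hI

lemma T_CLB1 {b m : Ideal (𝓞 K)} (hb : b ≠ 0) (hm : m ≠ 0) (hbm : b ⊔ m = ⊤) (r : 𝓞 K ⧸ m) :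
    ∃ C : ℝ, ∀ s : ℝ, 1 < s → s ≤ 2 → ∃ T : ℝ,
      HasSum (fun x : 𝓞 K => if x ∈ b ∧ Ideal.Quotient.mk m x = r then VPart_G s x else 0) T ∧
      |T - Units.torsionOrder K * (nw s b * (nw s m * VPart_Z s (1 : ClassGroup (𝓞 K))))| ≤ C := by
  obtain ⟨y, rfl⟩ := Ideal.Quotient.mk_surjective r
  obtain ⟨u, hu, v, hv, huv⟩ := Submodule.mem_sup.1 (show y ∈ b ⊔ m by rw [hbm]; trivial)
  obtain ⟨B, hB1, hB2⟩ := VPart_shift u
  obtain ⟨D, hD⟩ := VPart_class (cl (b * m))⁻¹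
  refine ⟨∑' x, B x + Units.torsionOrder K * D, fun s hs1 hs2 => ?_⟩
  have hG := VPart_G_summable (K := K) hs1
  have h1 := VPart_F hs1 (mul_ne_zero hb hm)
  have h2 : Summable fun x => if x ∈ b * m then VPart_G s (x + u) else 0 :=
    Summable.of_nonneg_of_le (fun x => by split_ifs; exacts [VPart_G_nonneg _ _, le_rfl])
      (fun x => by split_ifs; exacts [le_rfl, VPart_G_nonneg _ _])
      ((Equiv.addRight u).summable_iff.2 hG)
  refine ⟨∑' x, if x ∈ b * m then VPart_G s (x + u) else 0, ?_, ?_⟩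
  · rw [← (Equiv.addRight u).hasSum_iff]
    convert h2.hasSum using 2 with x
    have e : (x + u ∈ b ∧ Ideal.Quotient.mk m (x + u) = Ideal.Quotient.mk m y) ↔ x ∈ b * m := by
      rw [Ideal.mul_eq_inf_of_coprime hbm, Ideal.mem_inf, Ideal.Quotient.eq, ← huv,
        show x + u - (u + v) = x - v by ring, b.add_mem_iff_left hu, m.sub_mem_iff_left hv]
    simp only [Function.comp, Equiv.coe_addRight, e]
  · have h6 := (h2.hasSum.sub h1).norm_le_of_bounded hB1.hasSum fun x => by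
      split_ifs
      · exact hB2 s hs1.le hs2 x
      · rw [sub_zero, norm_zero]
        exact (abs_nonneg _).trans (hB2 s hs1.le hs2 x)
    have e : nw s (b * m) = nw s b * nw s m := (MP_d64882_nt.wHom K s).map_mul b m
    have h7 : |nw s (b * m) * (VPart_Z s (cl (b * m))⁻¹ - VPart_Z s (1 : ClassGroup (𝓞 K)))|
        ≤ D := by
      rw [abs_mul, abs_of_nonneg (VPart_nw_nonneg _ _)]
      exact (mul_le_of_le_one_left (abs_nonneg _) (nw_le_CLB1 (by linarith) _)).trans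
        (hD s hs1 hs2)
    have hw : (0 : ℝ) ≤ Units.torsionOrder K := Nat.cast_nonneg _
    have h8 := mul_le_mul_of_nonneg_left h7 hw
    rw [← abs_of_nonneg hw, ← abs_mul, abs_of_nonneg hw] at h8
    refine le_trans (le_of_eq ?_) ((abs_add_le _ _).trans (add_le_add h6 h8))
    congr 1
    rw [e]; ring

omit [NumberField K] in
lemma fb_CLB1 {m : Ideal (𝓞 K)} {X : Ideal (𝓞 K) → ℂ} (hm : m ≠ ⊥)
    (hmul : ∀ I J, X (I * J) = X I * X J) (h0 : ∀ I, I ⊔ m ≠ ⊤ → X I = 0)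
    (h1 : ∀ x : 𝓞 K, x ≠ 0 → x - 1 ∈ m → X (Ideal.span {x}) = 1) :
    ∃ f : 𝓞 K ⧸ m → ℂ, ∀ x : 𝓞 K, x ≠ 0 → X (Ideal.span {x}) = f (Ideal.Quotient.mk m x) := by
  have key : ∀ x y : 𝓞 K, x ≠ 0 → y ≠ 0 → x - y ∈ m →
      X (Ideal.span {x}) = X (Ideal.span {y}) := by
    intro x y hx hy hxy
    by_cases hc : Ideal.span {x} ⊔ m = ⊤
    · obtain ⟨a, b, hb, hab⟩ := Ideal.mem_span_singleton_sup.1 ((Ideal.eq_top_iff_one _).1 hc)
      have e1 : a * x - 1 ∈ m := by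
        rw [← hab, show a * x - (a * x + b) = -b by ring]; exact m.neg_mem hb
      have e2 : a * y - 1 ∈ m := by
        rw [show a * y - 1 = (a * x - 1) - a * (x - y) by ring]
        exact m.sub_mem e1 (m.mul_mem_left _ hxy)
      by_cases ha : a = 0
      · have : m = ⊤ := by
          rw [Ideal.eq_top_iff_one]
          simpa [ha] using e1
        rw [h1 x hx (by rw [this]; trivial), h1 y hy (by rw [this]; trivial)]
      have e3 := h1 _ (mul_ne_zero ha hx) e1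
      have e4 := h1 _ (mul_ne_zero ha hy) e2
      rw [← Ideal.span_singleton_mul_span_singleton, hmul] at e3 e4
      exact mul_left_cancel₀ (left_ne_zero_of_mul_eq_one e3) (e3.trans e4.symm)
    · rw [h0 _ hc, h0]
      intro h
      refine hc (top_le_iff.1 (h ▸ sup_le ?_ le_sup_right))
      rw [Ideal.span_singleton_le_iff_mem, show y = x - (x - y) by ring]
      exact Ideal.sub_mem _ (Ideal.mem_sup_left (Ideal.mem_span_singleton_self x))
        (Ideal.mem_sup_right hxy)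
  have hrep : ∀ r : 𝓞 K ⧸ m, ∃ u : 𝓞 K, u ≠ 0 ∧ Ideal.Quotient.mk m u = r := by
    intro r
    obtain ⟨y, rfl⟩ := Ideal.Quotient.mk_surjective r
    by_cases hy : y = 0
    · obtain ⟨z, hz, hz0⟩ := Submodule.exists_mem_ne_zero_of_ne_bot hm
      exact ⟨z, hz0, by rw [hy, map_zero, Ideal.Quotient.eq_zero_iff_mem]; exact hz⟩
    · exact ⟨y, hy, rfl⟩
  choose u hu0 hu using hrep
  exact ⟨fun r => X (Ideal.span {u r}), fun x hx =>
    key x _ hx (hu0 _) (Ideal.Quotient.eq.1 (hu _).symm)⟩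

lemma M_CLB1 {m : Ideal (𝓞 K)} {X : Ideal (𝓞 K) → ℂ} (hm : m ≠ ⊥)
    (hmul : ∀ I J, X (I * J) = X I * X J) (h1 : ∀ I, ‖X I‖ ≤ 1) (f : 𝓞 K ⧸ m → ℂ)
    (hf : ∀ x : 𝓞 K, x ≠ 0 → X (Ideal.span {x}) = f (Ideal.Quotient.mk m x))
    {b : Ideal (𝓞 K)} (hb : b ≠ 0) (hbm : b ⊔ m = ⊤) :
    ∃ C : ℝ, ∀ s : ℝ, 1 < s → s ≤ 2 → ‖X b * S_CLB1 X s (cl b)⁻¹ -
      (∑' r, f r) * ((nw s m * VPart_Z s (1 : ClassGroup (𝓞 K)) : ℝ) : ℂ)‖ ≤ C := by
  have : Finite (𝓞 K ⧸ m) := Ideal.finiteQuotientOfFreeOfNeBot m hm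
  have := Fintype.ofFinite (𝓞 K ⧸ m)
  choose C hC using T_CLB1 hb hm hbm
  refine ⟨(nw 2 b)⁻¹ * ∑ r, ‖f r‖ * C r, fun s hs1 hs2 => ?_⟩
  choose T hT1 hT2 using fun r => hC r s hs1 hs2
  have h2 := hasSum_sum (s := Finset.univ) fun r _ =>
    (Complex.hasSum_ofReal.2 (hT1 r)).mul_left (f r)
  have h3 : (Units.torsionOrder K : ℂ) * (nw s b * (X b * S_CLB1 X s (cl b)⁻¹)) =
      ∑ r, f r * (T r : ℂ) := by
    refine (F_CLB1 hmul h1 hs1 hb).unique (h2.congr_fun fun x => ?_)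
    rw [Finset.sum_eq_single (Ideal.Quotient.mk m x) (fun r _ hr => by simp [hr.symm]) (by simp)]
    by_cases hx : x = 0
    · simp [hx, VPart_G_zero (show 0 < s by linarith)]
    · by_cases hxb : x ∈ b <;> simp [hxb, hf x hx]
  have hN : (1 : ℝ) ≤ Ideal.absNorm b := by
    rw [Nat.one_le_cast, Nat.one_le_iff_ne_zero, Ne, Ideal.absNorm_eq_zero_iff]
    exact hb
  have h4 : 0 < nw 2 b := Real.rpow_pos_of_pos (by linarith) _
  have h5 : nw 2 b ≤ nw s b := Real.rpow_le_rpow_of_exponent_le hN (by linarith)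
  have hw : (1 : ℝ) ≤ Units.torsionOrder K := Nat.one_le_cast.2 (Units.torsionOrder_pos K)
  rw [le_inv_mul_iff₀ h4]
  have h6 : nw 2 b ≤ ‖((Units.torsionOrder K * nw s b : ℝ) : ℂ)‖ := by
    rw [Complex.norm_real, Real.norm_of_nonneg (by nlinarith)]
    nlinarith
  refine (mul_le_mul_of_nonneg_right h6 (norm_nonneg _)).trans ?_
  rw [← norm_mul, tsum_fintype]
  have e : ((Units.torsionOrder K * nw s b : ℝ) : ℂ) * (X b * S_CLB1 X s (cl b)⁻¹ -
      (∑ r, f r) * ((nw s m * VPart_Z s (1 : ClassGroup (𝓞 K)) : ℝ) : ℂ)) =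
      ∑ r, f r * ((T r - Units.torsionOrder K * (nw s b * (nw s m *
        VPart_Z s (1 : ClassGroup (𝓞 K)))) : ℝ) : ℂ) := by
    simp only [Complex.ofReal_sub, mul_sub, Finset.sum_sub_distrib]
    rw [← h3, ← Finset.sum_mul]
    push_cast
    ring
  rw [e]
  refine (norm_sum_le _ _).trans (Finset.sum_le_sum fun r _ => ?_)
  rw [norm_mul, Complex.norm_real]
  exact mul_le_mul_of_nonneg_left (hT2 r) (norm_nonneg _)

lemma rep_CLB1 {m : Ideal (𝓞 K)} (hm : m ≠ ⊥) (c : ClassGroup (𝓞 K)) :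
    ∃ b : Ideal (𝓞 K), b ≠ 0 ∧ b ⊔ m = ⊤ ∧ (cl b)⁻¹ = c := by
  by_cases hmt : m = ⊤
  · obtain ⟨b, hb⟩ := ClassGroup.mk0_surjective c⁻¹
    exact ⟨b, nonZeroDivisors.coe_ne_zero b, by simp [hmt], by rw [cl_coe, hb, inv_inv]⟩
  obtain ⟨J, hJ⟩ := ClassGroup.mk0_surjective c
  have hJ0 : (J : Ideal (𝓞 K)) ≠ 0 := nonZeroDivisors.coe_ne_zero J
  obtain ⟨a, ha⟩ := IsDedekindDomain.exists_sup_span_eq
    (show (J : Ideal (𝓞 K)) * m ≤ J from Ideal.mul_le_left) (mul_ne_zero hJ0 hm)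
  obtain ⟨b, hb⟩ := Ideal.dvd_iff_le.2 (show Ideal.span {a} ≤ J from le_sup_right.trans ha.le)
  have h1 : b ⊔ m = ⊤ := by
    refine mul_left_cancel₀ hJ0 ?_
    rw [Ideal.mul_sup, sup_comm, ← hb, ha, Ideal.mul_top]
  have hb0 : b ≠ 0 := by
    rintro rfl
    exact hmt (by simpa using h1)
  refine ⟨b, hb0, h1, ?_⟩
  rw [inv_eq_iff_mul_eq_one, ← hJ, ← cl_coe, ← cl_mul hb0 hJ0, mul_comm, ← hb, cl_span]

end Aux

open Pool.Agent.MP_346737_nt in
theorem LB1_pf : LB1_st := by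
  intro K _ _ m X hm hmul hn h0 hbot h1 ⟨I0, hI0, hI0m, hX⟩
  have hle : ∀ I, ‖X I‖ ≤ 1 := fun I => by
    by_cases hI : I = ⊥
    · simp [hI, hbot]
    by_cases hc : I ⊔ m = ⊤
    · exact (hn I hI hc).le
    · simp [h0 I hc]
  obtain ⟨f, hf⟩ := fb_CLB1 hm hmul h0 h1
  choose b hb0 hbm hbc using rep_CLB1 hm
  have hbm' : ∀ c, b c * I0 ⊔ m = ⊤ := fun c => by
    rw [sup_comm, Ideal.sup_mul_eq_of_coprime_left (by rw [sup_comm, hbm]), sup_comm, hI0m]
  choose C hC using fun c => M_CLB1 hm hmul hle f hf (hb0 c) (hbm c)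
  choose D hD using fun c => M_CLB1 hm hmul hle f hf (mul_ne_zero (hb0 c) hI0) (hbm' c)
  have hp : 0 < ‖1 - X I0‖ := norm_pos_iff.2 (sub_ne_zero.2 hX.symm)
  refine ⟨‖1 - X I0‖⁻¹ * ∑ c, (C c + D c), fun s hs1 hs2 => ?_⟩
  have h2 := hasSum_sum (s := Finset.univ) fun c (_ : c ∈ Finset.univ) =>
    (sum_CLB1 hle hs1 fun I => cl I = c).hasSum
  simp only [Finset.sum_ite_eq, Finset.mem_univ, if_true] at h2
  have h3 : ∑' I : Ideal (𝓞 K), X I * (((Ideal.absNorm I : ℝ) ^ (-s) : ℝ) : ℂ) =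
      ∑ c, S_CLB1 X s c := h2.tsum_eq
  rw [le_inv_mul_iff₀ hp, ← norm_mul, h3, sub_mul, one_mul, Finset.mul_sum,
    ← Equiv.sum_comp (Equiv.mulRight (cl I0)⁻¹) fun c => X I0 * S_CLB1 X s c,
    ← Finset.sum_sub_distrib]
  refine (norm_sum_le _ _).trans (Finset.sum_le_sum fun c _ => ?_)
  have h4 := hC c s hs1 hs2
  have h5 := hD c s hs1 hs2
  rw [cl_mul (hb0 c) hI0, mul_inv, hbc, hmul] at h5
  rw [hbc] at h4
  rw [← one_mul ‖_‖, ← hn _ (hb0 c) (hbm c), ← norm_mul]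
  refine le_trans (le_of_eq ?_) ((norm_sub_le _ _).trans (add_le_add h4 h5))
  congr 1
  simp only [Equiv.coe_mulRight]
  ring

end Pool.Agent.MP_e23604_nt.R
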