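import Pool.Agent.MP_e23604_nt.R.Brg

set_option autoImplicit false

open NumberField IsDedekindDomain Module Filter Topology
open scoped Classical

namespace Pool.Agent.MP_e23604_nt.R

open B Pool.Agent.MP_f3cd89_nt

theorem ex_CTAM (l : ℕ) [hl : Fact l.Prime] (γ : GQ) : ∃ τ ∈ Ine l γ, kap l τ = 1 := by
  by_contra h
  push Not at h
  obtain ⟨x, hx, e⟩ := ram_a (v := nv l γ) ⊥ (nv_na l γ) hl.out (nv_lt l γ) (y := sqr l)
    fun τ _ hτ => by
      by_contra h1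
      exact h τ hτ (by rw [kap, if_neg h1])
  obtain ⟨r, rfl⟩ := IntermediateField.mem_bot.1 hx
  have h0 : 0 < nv l γ l := (nv l γ).pos (Nat.cast_ne_zero.2 hl.out.ne_zero)
  have h1 : nv l γ (r : Qb) ^ 2 = nv l γ l := by
    rw [eq_ratCast] at e
    rw [e, ← map_pow, sqr_sq, Rat.cast_natCast]
  have hr : r ≠ 0 := by
    rintro rfl
    rw [← h1] at h0
    simp at h0
  obtain ⟨m, hm⟩ := v_rat (nv_na l γ) hl.out (nv_lt l γ) hr
  rw [hm, ← zpow_natCast, ← zpow_mul] at h1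
  have h2 := zpow_right_injective₀ h0 (nv_lt l γ).ne (h1.trans (zpow_one _).symm)
  omega

theorem hom_CTAM {l : ℕ} [hl : Fact l.Prime] {γ : GQ} (h2 : l ≠ 2) {M : Type} [AddCommGroup M]
    {b : GQ → M} {e : ℕ} {N : Subgroup GQ} (h1 : Adt (Ine l γ) b) (hc : Cst N (Ine l γ) b)
    (he : ∀ u ∈ Ine l γ, 2 ^ e • b u = 0) :
    ∃ F : (cen l γ).inertia GQ →* Multiplicative M, (∀ u, F u = Multiplicative.ofAdd (b u)) ∧
      (∀ u, F u ^ 2 ^ e = 1) ∧
      ∀ (u : (cen l γ).inertia GQ) (n : ℕ), (u : GQ) ^ l ^ n ∈ N → F u = 1 := by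
  let F : (cen l γ).inertia GQ →* Multiplicative M :=
    MonoidHom.mk' (fun u => Multiplicative.ofAdd (b u)) fun u v => by
      rw [← ofAdd_add, ← h1 _ (ine_iff.2 u.2) _ (ine_iff.2 v.2)]
      rfl
  have hF : ∀ u, F u = Multiplicative.ofAdd (b u) := fun _ => rfl
  have hp : ∀ u, F u ^ 2 ^ e = 1 := fun u => by
    rw [hF, ← ofAdd_nsmul, he _ (ine_iff.2 u.2), ofAdd_zero]
  refine ⟨F, hF, hp, fun u n hn => ?_⟩
  have h3 : F (u ^ l ^ n) = F 1 := by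
    rw [hF, hF]
    congr 1
    exact (hc _ (one_mem _) _ (ine_iff.2 (u ^ l ^ n).2) (by simpa using hn)).symm
  rw [map_pow, map_one] at h3
  exact MP_f68ac8_nt.eq_one_of_pow_of_coprime
    (Nat.Coprime.pow e n ((Nat.coprime_primes Nat.prime_two hl.out).2 h2.symm)) (hp u) h3

theorem TAM_pf (hKAP : KAP_st) : TAM_st := by
  intro l hl γ h2
  refine ⟨ex_CTAM l γ, fun τ hτ hk M _ a e ha hc he h0 u hu => ?_⟩
  obtain ⟨N, hN, hc⟩ := hc
  obtain ⟨N', hN', hc'⟩ := (hKAP.1 l).2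
  obtain ⟨F, hF, hp, hz⟩ := hom_CTAM h2 ha hc he
  obtain ⟨K, hK, hq, hy⟩ := hom_CTAM (e := 1) h2 ((hKAP.1 l).1.mono (H' := Ine l γ) le_top)
    (hc'.mono le_rfl le_top) fun v _ => by generalize kap l v = x; revert x; decide
  obtain ⟨L, _, _, hL⟩ := MP_f68ac8_nt.exists_level ((hN.inf hN').2.mem_nhds (one_mem _))
  obtain ⟨C, _, _, Θ, h1, -⟩ := MP_f68ac8_nt.level_theta L (cen l γ) hl.out (cen_mem l γ)
  obtain ⟨⟨_, u₀, rfl⟩, h₀⟩ := IsCyclic.exists_generator (α := Θ.range)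
  have key : ∀ v, ∃ n : ℤ, F v = F u₀ ^ n ∧ K v = K u₀ ^ n := fun v => by
    obtain ⟨n, hn⟩ := h₀ ⟨_, v, rfl⟩
    have hn' : Θ u₀ ^ n = Θ v := congrArg Subtype.val hn
    obtain ⟨c, hc⟩ := h1 (v * (u₀ ^ n)⁻¹) (by
      rw [map_mul, map_inv, map_zpow, hn', mul_inv_cancel])
    have h3 := hL _ hc
    have h4 := hz _ c h3.1
    have h5 := hy _ c h3.2
    rw [map_mul, map_inv, map_zpow, mul_inv_eq_one] at h4 h5
    exact ⟨n, h4, h5⟩
  obtain ⟨j, hj, hj'⟩ := key ⟨τ, ine_iff.1 hτ⟩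
  have hodd : Odd j := by
    by_contra hn
    obtain ⟨i, rfl⟩ := Int.not_odd_iff_even.1 hn
    have h3 := hq u₀
    rw [pow_one, sq] at h3
    rw [hK, zpow_add, ← mul_zpow, h3, one_zpow] at hj'
    change Multiplicative.ofAdd (kap l τ) = 1 at hj'
    rw [hk] at hj'
    revert hj'
    decide
  have h3 : F u₀ = 1 := by
    rw [hF] at hj
    change Multiplicative.ofAdd (a τ) = _ at hj
    rw [h0, ofAdd_zero] at hj
    refine MP_f68ac8_nt.eq_one_of_pow_of_coprime (n := j.natAbs)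
      (Nat.Coprime.pow_left e (Nat.coprime_two_left.2 (Int.natAbs_odd.2 hodd))) (hp u₀) ?_
    exact pow_natAbs_eq_one.2 hj.symm
  obtain ⟨n, hn, -⟩ := key ⟨u, ine_iff.1 hu⟩
  rw [h3, one_zpow, hF] at hn
  exact hn

end Pool.Agent.MP_e23604_nt.R
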