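import Mathlib

/-!
The parity in the final statement.
-/

namespace Pool.Agent.MP_e23604_nt

/-- The parity attached to y^2 = x^3 + D x for squarefree D: 0 for root number +1, else 1. -/
def par (D : ℤ) : ℕ := if 0 < D ↔ D % 16 ∈ ({1, 2, 6, 7, 9, 10, 11, 14} : Finset ℤ) then 0 else 1

end Pool.Agent.MP_e23604_nt
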